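import Pool.Agent.RSP.St

/-!
# Reflection symmetric polytopes, module ClA: the reflections of `M`, type `A`
-/

set_option autoImplicit false

namespace Pool.Agent.RSP

namespace ClAx

variable {n : ℕ}

theorem rf_inner (u x y : E n) : inner ℝ (rf u x) y = inner ℝ x (rf u y) := by
  unfold rf
  rw [inner_sub_left, inner_sub_right, real_inner_smul_left, real_inner_smul_right,
    real_inner_comm u x]
  ring

theorem rf_lin (u x y : E n) (a : ℝ) : rf u (x - a • y) = rf u x - a • rf u y := by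
  unfold rf
  rw [inner_sub_right, real_inner_smul_right]
  module

theorem rf_rf {u : E n} (hu : ‖u‖ = 1) (x : E n) : rf u (rf u x) = x := by
  have h : inner ℝ u u = (1 : ℝ) := by
    rw [real_inner_self_eq_norm_sq, hu, one_pow]
  unfold rf
  rw [inner_sub_right, real_inner_smul_right, h]
  module

theorem rf_norm {u : E n} (hu : ‖u‖ = 1) (x : E n) : ‖rf u x‖ = ‖x‖ := by
  have h : ‖rf u x‖ ^ 2 = ‖x‖ ^ 2 := by
    rw [← real_inner_self_eq_norm_sq, ← real_inner_self_eq_norm_sq, rf_inner, rf_rf hu]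
  exact (sq_eq_sq₀ (norm_nonneg _) (norm_nonneg _)).1 h

theorem rf_conj {u : E n} (hu : ‖u‖ = 1) (w x : E n) :
    rf (rf u w) x = rf u (rf w (rf u x)) := by
  have h : rf u (rf w (rf u x)) = rf u (rf u x - (2 * inner ℝ w (rf u x)) • w) := rfl
  rw [h, rf_lin, rf_rf hu, ← rf_inner]
  rfl

theorem rf_mem {M : Set (E n)} {u w : E n} (hu : u ∈ Rf M) (hw : w ∈ Rf M) : rf u w ∈ Rf M := by
  refine ⟨by rw [rf_norm hu.1, hw.1], fun x hx => ?_⟩
  rw [rf_conj hu.1]
  exact hu.2 _ (hw.2 _ (hu.2 _ hx))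

theorem rf_map (g : E n ≃ₗᵢ[ℝ] E n) (u x : E n) : rf (g u) x = g (rf u (g.symm x)) := by
  have h : inner ℝ (g u) x = inner ℝ u (g.symm x) := by
    have h1 : inner ℝ (g u) (g (g.symm x)) = inner ℝ u (g.symm x) := g.inner_map_map _ _
    rwa [g.apply_symm_apply] at h1
  unfold rf
  rw [map_sub, map_smul, g.apply_symm_apply, h]

theorem rf_gp {M : Set (E n)} (g : E n ≃ₗᵢ[ℝ] E n) (hg : g ∈ Gp M) {u : E n} (hu : u ∈ Rf M) :
    g u ∈ Rf M := by
  refine ⟨by rw [g.norm_map, hu.1], fun x hx => ?_⟩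
  rw [rf_map]
  refine (hg _).2 (hu.2 _ ?_)
  refine (hg _).1 ?_
  rw [g.apply_symm_apply]
  exact hx

theorem sum_rf (u w : E n) (hu : ∑ i, u i = 0) (hw : ∑ i, w i = 0) : ∑ i, rf u w i = 0 := by
  have h : ∀ i, rf u w i = w i - (2 * inner ℝ u w) * u i := fun i => rfl
  simp only [h]
  rw [Finset.sum_sub_distrib, ← Finset.mul_sum, hu, hw, mul_zero, sub_zero]

/-- two-transitivity of the symmetric group -/
theorem exists_two {k l i j : Fin n} (hkl : k ≠ l) (hij : i ≠ j) :
    ∃ τ : Equiv.Perm (Fin n), τ k = i ∧ τ l = j := by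
  refine ⟨(Equiv.swap k i).trans (Equiv.swap (Equiv.swap k i l) j), ?_, ?_⟩
  · rw [Equiv.trans_apply, Equiv.swap_apply_left]
    apply Equiv.swap_apply_of_ne_of_ne _ hij
    intro h
    apply hkl
    apply (Equiv.swap k i).injective
    rw [Equiv.swap_apply_left]
    exact h
  · rw [Equiv.trans_apply, Equiv.swap_apply_left]

theorem const_zero (hn : 0 < n) (x : E n) (h : ∀ i j, x i = x j) (hs : ∑ i, x i = 0) : x = 0 := by
  have h1 : ∑ i, x i = n * x ⟨0, hn⟩ := by
    rw [Finset.sum_congr rfl (fun i _ => h i ⟨0, hn⟩), Finset.sum_const, Finset.card_univ,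
      Fintype.card_fin, nsmul_eq_mul]
  rw [h1] at hs
  have h2 : x ⟨0, hn⟩ = 0 := by
    rcases mul_eq_zero.1 hs with h3 | h3
    · exact absurd h3 (by exact_mod_cast hn.ne')
    · exact h3
  ext i
  rw [h i ⟨0, hn⟩, h2]
  rfl

/-- a reflected vector -/
theorem swap_inner (u y : E n) (k l : Fin n) (hkl : k ≠ l) :
    inner ℝ u y - inner ℝ u (pm (Equiv.swap k l) y) = (u k - u l) * (y k - y l) := by
  rw [inner_eq, inner_eq, ← Finset.sum_sub_distrib]
  have h : ∀ i, i ≠ k → i ≠ l → u i * y i - u i * pm (Equiv.swap k l) y i = 0 := by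
    intro i h1 h2
    rw [pm_apply, Equiv.swap_apply_of_ne_of_ne h1 h2, sub_self]
  have h2 : ∑ i, (u i * y i - u i * pm (Equiv.swap k l) y i) =
      ∑ i ∈ {k, l}, (u i * y i - u i * pm (Equiv.swap k l) y i) := by
    symm
    apply Finset.sum_subset (Finset.subset_univ _)
    intro i _ hi
    rw [Finset.mem_insert, Finset.mem_singleton, not_or] at hi
    exact h i hi.1 hi.2
  rw [h2, Finset.sum_pair hkl, pm_apply, pm_apply, Equiv.swap_apply_left,
    Equiv.swap_apply_right]
  ring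

theorem exists_inner {M : Set (E n)} (hn : 0 < n) (hP : PermInv M)
    (hs : ∀ x ∈ M, ∑ i, x i = 0) (h0 : ∃ x ∈ M, x ≠ 0) (u : E n) (hu : u ≠ 0)
    (hus : ∑ i, u i = 0) : ∃ x ∈ M, inner ℝ u x ≠ 0 := by
  by_contra hcon
  have horth : ∀ x ∈ M, inner ℝ u x = (0 : ℝ) := by
    intro x hx
    by_contra h
    exact hcon ⟨x, hx, h⟩
  obtain ⟨x, hx, hx0⟩ := h0
  obtain ⟨i, j, hij⟩ : ∃ i j, x i ≠ x j := by
    by_contra h
    apply hx0
    refine const_zero hn x (fun i j => ?_) (hs x hx)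
    by_contra h2
    exact h ⟨i, j, h2⟩
  have hij' : i ≠ j := by
    rintro rfl
    exact hij rfl
  apply hu
  refine const_zero hn u (fun k l => ?_) hus
  by_cases hkl : k = l
  · rw [hkl]
  · obtain ⟨τ, h1, h2⟩ := exists_two hkl hij'
    have h3 : pm τ x ∈ M := hP τ x hx
    have h4 : pm (Equiv.swap k l) (pm τ x) ∈ M := hP _ _ h3
    have h5 := swap_inner u (pm τ x) k l hkl
    rw [horth _ h3, horth _ h4, sub_zero, pm_apply, pm_apply, h1, h2] at h5
    rcases mul_eq_zero.1 h5.symm with h6 | h6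
    · exact sub_eq_zero.1 h6
    · exact absurd (sub_eq_zero.1 h6) hij

theorem rf_diff (u x : E n) : x - rf u x = (2 * inner ℝ u x) • u := by
  unfold rf
  rw [sub_sub_cancel]

theorem pm_pm (σ τ : Equiv.Perm (Fin n)) (x : E n) : pm σ (pm τ x) = pm (σ.trans τ) x := rfl

theorem pm_one (x : E n) : pm (Equiv.refl _) x = x := rfl

theorem spm_one (σ : Equiv.Perm (Fin n)) (x : E n) :
    spm σ (fun _ => 1) (fun _ => Or.inl rfl) x = pm σ x := by
  ext i
  rw [spm_apply, pm_apply, one_mul]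

theorem spm_gp {M : Set (E n)} (hP : PermInv M) (σ : Equiv.Perm (Fin n)) :
    spm σ (fun _ => 1) (fun _ => Or.inl rfl) ∈ Gp M := by
  intro x
  rw [spm_one]
  constructor
  · intro h
    have h1 := hP σ.symm _ h
    rw [pm_pm, Equiv.symm_trans_self, pm_one] at h1
    exact h1
  · exact fun h => hP σ x h

theorem pm_sum (σ : Equiv.Perm (Fin n)) (x : E n) : ∑ i, pm σ x i = ∑ i, x i := by
  simp only [pm_apply]
  exact Equiv.sum_comp σ (fun i => x i)

theorem bt_apply (i j l : Fin n) : (bt i j : E n) l =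
    (√2)⁻¹ * ((if l = i then 1 else 0) - (if l = j then 1 else 0)) := by
  unfold bt
  rw [PiLp.smul_apply, PiLp.sub_apply, PiLp.single_apply, PiLp.single_apply,
    smul_eq_mul]

theorem bt_inner (i j : Fin n) (x : E n) : inner ℝ (bt i j) x = (√2)⁻¹ * (x i - x j) := by
  rw [inner_eq]
  simp only [bt_apply]
  have h : ∀ l, (√2)⁻¹ * ((if l = i then (1 : ℝ) else 0) - (if l = j then 1 else 0)) * x l =
      (√2)⁻¹ * ((if l = i then x l else 0) - (if l = j then x l else 0)) := by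
    intro l
    split_ifs <;> ring
  rw [Finset.sum_congr rfl fun l _ => h l, ← Finset.mul_sum, Finset.sum_sub_distrib,
    Finset.sum_ite_eq' Finset.univ i, Finset.sum_ite_eq' Finset.univ j]
  simp

theorem sqrt_two_inv : (√2 : ℝ)⁻¹ * (√2)⁻¹ = 1 / 2 := by
  rw [← mul_inv, Real.mul_self_sqrt (by norm_num)]
  norm_num

theorem bt_norm {i j : Fin n} (hij : i ≠ j) : ‖(bt i j : E n)‖ = 1 := by
  have h : ‖(bt i j : E n)‖ ^ 2 = 1 := by
    rw [← real_inner_self_eq_norm_sq, bt_inner, bt_apply, bt_apply, if_pos rfl, if_pos rfl,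
      if_neg hij, if_neg hij.symm]
    have := sqrt_two_inv
    linear_combination 2 * this
  have h2 := norm_nonneg (bt i j : E n)
  nlinarith

theorem bt_rf {i j : Fin n} (hij : i ≠ j) (x : E n) : rf (bt i j) x = pm (Equiv.swap i j) x := by
  ext l
  rw [pm_apply]
  have h : rf (bt i j) x l = x l - (2 * inner ℝ (bt i j) x) * (bt i j : E n) l := rfl
  rw [h, bt_inner, bt_apply]
  have h2 := sqrt_two_inv
  by_cases hi : l = i
  · rw [hi, if_pos rfl, if_neg hij, Equiv.swap_apply_left]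
    linear_combination (-2 * (x i - x j)) * h2
  · by_cases hj : l = j
    · rw [hj, if_pos rfl, if_neg hij.symm, Equiv.swap_apply_right]
      linear_combination (2 * (x i - x j)) * h2
    · rw [if_neg hi, if_neg hj, Equiv.swap_apply_of_ne_of_ne hi hj]
      ring

theorem bt_sum (i j : Fin n) : ∑ l, (bt i j : E n) l = 0 := by
  simp only [bt_apply]
  rw [← Finset.mul_sum, Finset.sum_sub_distrib, Finset.sum_ite_eq' Finset.univ i,
    Finset.sum_ite_eq' Finset.univ j]
  simp

theorem sum_zero {M : Set (E n)} (hM : M.Finite) (hn : 0 < n) (hP : PermInv M)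
    (hs : ∀ x ∈ M, ∑ i, x i = 0) : ∑ x ∈ hM.toFinset, x = 0 := by
  have hap : ∀ (T : Finset (E n)) (i : Fin n), (∑ x ∈ T, x) i = ∑ x ∈ T, x i := by
    intro T i
    rw [WithLp.ofLp_sum, Finset.sum_apply]
  apply const_zero hn
  · intro i j
    rw [hap, hap]
    refine Finset.sum_bij' (fun x _ => pm (Equiv.swap i j) x) (fun x _ => pm (Equiv.swap i j) x)
      ?_ ?_ ?_ ?_ ?_
    · intro x hx
      rw [Set.Finite.mem_toFinset] at hx ⊢
      exact hP _ _ hx
    · intro x hx
      rw [Set.Finite.mem_toFinset] at hx ⊢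
      exact hP _ _ hx
    · intro x _
      rw [pm_pm, Equiv.swap_swap, pm_one]
    · intro x _
      rw [pm_pm, Equiv.swap_swap, pm_one]
    · intro x _
      rw [pm_apply, Equiv.swap_apply_right]
  · simp only [hap]
    rw [Finset.sum_comm]
    apply Finset.sum_eq_zero
    intro x hx
    rw [Set.Finite.mem_toFinset] at hx
    exact hs x hx

end ClAx

open ClAx

theorem thm_ClA : St_ClA := by
  intro n M hM hn hP hs h0
  have hn0 : 0 < n := by omega
  have hex : ∀ u ∈ Rf M, ∑ i, u i = 0 → ∃ x ∈ M, inner ℝ u x ≠ 0 := by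
    intro u hu hus
    refine exists_inner hn0 hP hs h0 u ?_ hus
    intro h
    have h1 := hu.1
    rw [h, norm_zero] at h1
    exact zero_ne_one h1
  refine ⟨sum_zero hM hn0 hP hs, ?_, ?_, ?_, ?_, ?_⟩
  · refine (hM.image2 (fun x y : E n => ‖x - y‖⁻¹ • (x - y)) hM).subset ?_
    rintro u ⟨hu, hus⟩
    obtain ⟨x, hx, hux⟩ := hex u hu hus
    have hy := hu.2 x hx
    have hd := rf_diff u x
    have hnorm : ‖x - rf u x‖ = |2 * inner ℝ u x| := by
      rw [hd, norm_smul, hu.1, mul_one, Real.norm_eq_abs]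
    rcases lt_or_gt_of_ne hux with h | h
    · refine ⟨rf u x, hy, x, hx, ?_⟩
      show ‖rf u x - x‖⁻¹ • (rf u x - x) = u
      rw [norm_sub_rev, hnorm, abs_of_neg (by linarith), ← neg_sub, hd, ← neg_smul, smul_smul,
        inv_mul_cancel₀ (by linarith), one_smul]
    · refine ⟨x, hx, rf u x, hy, ?_⟩
      show ‖x - rf u x‖⁻¹ • (x - rf u x) = u
      rw [hnorm, abs_of_pos (by linarith), hd, smul_smul, inv_mul_cancel₀ (by linarith),
        one_smul]
  · intro u hu hus w hw hws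
    exact ⟨rf_mem hu hw, sum_rf u w hus hws⟩
  · rintro σ u ⟨hu, hus⟩
    refine ⟨?_, ?_⟩
    · have := rf_gp (spm σ (fun _ => 1) (fun _ => Or.inl rfl)) (spm_gp hP σ) hu
      rw [spm_one] at this
      exact this
    · rw [pm_sum]
      exact hus
  · intro i j hij
    refine ⟨⟨bt_norm hij, fun x hx => ?_⟩, bt_sum i j⟩
    rw [bt_rf hij]
    exact hP _ x hx
  · intro g hg u hu hus
    refine ⟨rf_gp g hg hu, ?_⟩
    obtain ⟨x, hx, hux⟩ := hex u hu hus
    have hy := hu.2 x hx
    have hd := rf_diff u x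
    have h1 : g x - g (rf u x) = (2 * inner ℝ u x) • g u := by
      rw [← map_sub, hd, map_smul]
    have h2 : ∑ i, (g x - g (rf u x)) i = 0 := by
      have h3 : ∀ i, (g x - g (rf u x)) i = g x i - g (rf u x) i := fun i => rfl
      simp only [h3]
      rw [Finset.sum_sub_distrib, hs _ ((hg x).2 hx), hs _ ((hg _).2 hy), sub_zero]
    rw [h1] at h2
    have h4 : ∀ i, ((2 * inner ℝ u x) • g u) i = (2 * inner ℝ u x) * g u i := fun i => rfl
    simp only [h4] at h2
    rw [← Finset.mul_sum] at h2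
    rcases mul_eq_zero.1 h2 with h5 | h5
    · exact absurd h5 (mul_ne_zero two_ne_zero hux)
    · exact h5

end Pool.Agent.RSP
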