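import Pool.Agent.RSP.St

/-!
# RSP, module ClD: closure properties of the reflections of `M`, type `D`
-/

set_option autoImplicit false

noncomputable section

namespace Pool.Agent.RSP

namespace ClDx

variable {n : ℕ}

theorem rf_symm (u x y : E n) : inner ℝ (rf u x) y = inner ℝ x (rf u y) := by
  unfold rf
  rw [inner_sub_left, inner_sub_right, inner_smul_left, inner_smul_right]
  simp only [RCLike.conj_to_real]
  rw [real_inner_comm u x]
  ring

theorem rf_rf {u : E n} (hu : ‖u‖ = 1) (x : E n) : rf u (rf u x) = x := by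
  unfold rf
  rw [inner_sub_right, inner_smul_right, real_inner_self_eq_norm_sq, hu]
  simp only [one_pow, mul_one]
  module

theorem rf_sub (u x y : E n) : rf u (x - y) = rf u x - rf u y := by
  unfold rf
  rw [inner_sub_right]
  module

theorem rf_smul (u x : E n) (c : ℝ) : rf u (c • x) = c • rf u x := by
  unfold rf
  rw [inner_smul_right]
  module

theorem rf_norm {u : E n} (hu : ‖u‖ = 1) (x : E n) : ‖rf u x‖ = ‖x‖ := by
  have h : inner ℝ (rf u x) (rf u x) = inner ℝ x x := by rw [rf_symm, rf_rf hu]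
  rw [real_inner_self_eq_norm_sq, real_inner_self_eq_norm_sq] at h
  exact (sq_eq_sq₀ (norm_nonneg _) (norm_nonneg _)).1 h

theorem closed {M : Set (E n)} : ∀ u ∈ Rf M, ∀ w ∈ Rf M, rf u w ∈ Rf M := by
  rintro u ⟨hu, hu'⟩ w ⟨hw, hw'⟩
  refine ⟨by rw [rf_norm hu, hw], fun x hx => ?_⟩
  have h : rf (rf u w) x = rf u (rf w (rf u x)) := by
    rw [rf, rf_symm]
    conv_rhs => rw [rf.eq_1 w, rf_sub, rf_smul, rf_rf hu]
  rw [h]
  exact hu' _ (hw' _ (hu' _ hx))

theorem gp_closed {M : Set (E n)} : ∀ g ∈ Gp M, ∀ u ∈ Rf M, g u ∈ Rf M := by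
  rintro g hg u ⟨hu, hu'⟩
  refine ⟨by rw [g.norm_map, hu], fun x hx => ?_⟩
  have h1 : g.symm x ∈ M := (hg _).1 (by rw [g.apply_symm_apply]; exact hx)
  have h2 : g (rf u (g.symm x)) ∈ M := (hg _).2 (hu' _ h1)
  have h3 : g (rf u (g.symm x)) = rf (g u) x := by
    unfold rf
    rw [map_sub, map_smul, g.apply_symm_apply]
    have h4 : inner ℝ u (g.symm x) = inner ℝ (g u) x := by
      rw [← g.inner_map_map, g.apply_symm_apply]
    rw [h4]
  rwa [h3] at h2

/-- a linear isometry which maps the finite set `M` into itself is in `Gp M` -/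
theorem gp_of {M : Set (E n)} (hM : M.Finite) (g : E n ≃ₗᵢ[ℝ] E n) (h : ∀ x ∈ M, g x ∈ M) :
    g ∈ Gp M := by
  intro x
  refine ⟨fun hx => ?_, h x⟩
  have h1 : Set.SurjOn g M M := by
    have h2 := Finset.surjOn_of_injOn_of_card_le (s := hM.toFinset) (t := hM.toFinset) g
      (by simpa [Set.MapsTo] using h) g.injective.injOn le_rfl
    simpa using h2
  obtain ⟨y, hy, hxy⟩ := h1 hx
  rw [← g.injective hxy]
  exact hy

theorem pm_eq (σ : Equiv.Perm (Fin n)) (x : E n) :
    spm σ (fun _ => 1) (fun _ => Or.inl rfl) x = pm σ x := by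
  ext i
  simp

theorem sg_eq (S : Finset (Fin n)) (x : E n) :
    spm 1 (fun i => if i ∈ S then -1 else 1) (fun i => by split_ifs <;> simp) x = sg S x := by
  ext i
  simp only [spm_apply, sg_apply, Equiv.Perm.coe_one, id_eq]
  split_ifs <;> ring

theorem sg_sg (S : Finset (Fin n)) (x : E n) : sg S (sg S x) = x := by
  ext i
  simp only [sg_apply]
  split_ifs <;> ring

theorem card_pair {i j : Fin n} (h : i ≠ j) : Even ({i, j} : Finset (Fin n)).card := by
  rw [Finset.card_pair h]
  exact even_two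

theorem exists_ne (hn : 3 ≤ n) (i : Fin n) : ∃ j k : Fin n, i ≠ j ∧ i ≠ k ∧ j ≠ k := by
  have h1 : 1 < (Finset.univ.erase i).card := by
    rw [Finset.card_erase_of_mem (Finset.mem_univ i), Finset.card_univ, Fintype.card_fin]
    omega
  obtain ⟨j, hj, k, hk, hjk⟩ := Finset.one_lt_card.1 h1
  exact ⟨j, k, (Finset.ne_of_mem_erase hj).symm, (Finset.ne_of_mem_erase hk).symm, hjk⟩

theorem sum_zero {M : Set (E n)} (hM : M.Finite) (hn : 3 ≤ n) (hE : EvenInv M) :
    ∑ x ∈ hM.toFinset, x = 0 := by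
  ext i
  obtain ⟨j, _, hij, _, _⟩ := exists_ne hn i
  have h1 : ∑ x ∈ hM.toFinset, sg {i, j} x = ∑ x ∈ hM.toFinset, x := by
    refine Finset.sum_bij' (fun x _ => sg {i, j} x) (fun x _ => sg {i, j} x) ?_ ?_ ?_ ?_ ?_
    · intro x hx
      rw [Set.Finite.mem_toFinset] at hx ⊢
      exact hE _ (card_pair hij) x hx
    · intro x hx
      rw [Set.Finite.mem_toFinset] at hx ⊢
      exact hE _ (card_pair hij) x hx
    · intro x _
      exact sg_sg _ x
    · intro x _
      exact sg_sg _ x
    · intro x _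
      rfl
  have h2 : (∑ x ∈ hM.toFinset, sg {i, j} x) i = (∑ x ∈ hM.toFinset, x) i := by rw [h1]
  have h3 : (∑ x ∈ hM.toFinset, sg {i, j} x) i = -(∑ x ∈ hM.toFinset, x) i := by
    simp
  rw [h3] at h2
  simp only [PiLp.zero_apply]
  linarith

theorem span {M : Set (E n)} (hn : 3 ≤ n) (hP : PermInv M) (hE : EvenInv M)
    (hx : ∃ x ∈ M, x ≠ 0) {u : E n} (hu : ∀ x ∈ M, inner ℝ u x = 0) : u = 0 := by
  have hpair : ∀ x ∈ M, ∀ i j, i ≠ j → u i * x i + u j * x j = 0 := by
    intro x hx i j hij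
    have h1 := hu x hx
    have h2 := hu _ (hE _ (card_pair hij) x hx)
    have h3 : inner ℝ u (x - sg {i, j} x) = 0 := by rw [inner_sub_right, h1, h2, sub_zero]
    rw [inner_eq] at h3
    have h4 : ∑ l, u l * (x - sg {i, j} x : E n) l = 2 * (u i * x i + u j * x j) := by
      have h5 : ∀ l, u l * (x - sg {i, j} x : E n) l =
          (if l = i then 2 * (u i * x i) else 0) + (if l = j then 2 * (u j * x j) else 0) := by
        intro l
        simp only [PiLp.sub_apply, sg_apply, Finset.mem_insert, Finset.mem_singleton]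
        by_cases h6 : l = i
        · subst h6
          simp only [true_or, if_true, if_neg hij]
          ring
        · by_cases h7 : l = j
          · subst h7
            simp only [or_true, if_true, if_neg h6]
            ring
          · simp only [h6, h7, or_self, if_false]
            ring
      rw [Finset.sum_congr rfl fun l _ => h5 l, Finset.sum_add_distrib, Finset.sum_ite_eq',
        Finset.sum_ite_eq']
      simp only [Finset.mem_univ, if_true]
      ring
    rw [h4] at h3
    linarith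
  have hz : ∀ x ∈ M, ∀ i, x i ≠ 0 → u i = 0 := by
    intro x hx i hi
    obtain ⟨j, k, hij, hik, hjk⟩ := exists_ne hn i
    have h1 := hpair x hx i j hij
    have h2 := hpair x hx i k hik
    have h3 := hpair x hx j k hjk
    have h4 : u i * x i = 0 := by linarith
    rcases mul_eq_zero.1 h4 with h5 | h5
    · exact h5
    · exact absurd h5 hi
  obtain ⟨x, hx, hx0⟩ := hx
  obtain ⟨i, hi⟩ : ∃ i, x i ≠ 0 := by
    by_contra hc
    push Not at hc
    exact hx0 (by ext i; simpa using hc i)
  ext l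
  have h1 := hz _ (hP (Equiv.swap i l) x hx) l (by
    rw [pm_apply, Equiv.swap_apply_right]
    exact hi)
  simpa using h1

theorem fin {M : Set (E n)} (hM : M.Finite) (hn : 3 ≤ n) (hP : PermInv M) (hE : EvenInv M)
    (hx : ∃ x ∈ M, x ≠ 0) : (Rf M).Finite := by
  let f : (E n × E n) × ℝ → E n := fun z => (z.2 * ‖z.1.1 - z.1.2‖⁻¹) • (z.1.1 - z.1.2)
  refine (((hM.prod hM).prod (Set.finite_singleton (1 : ℝ) |>.insert (-1))).image f).subset ?_
  rintro u ⟨hu, hu'⟩
  have hex : ∃ x ∈ M, inner ℝ u x ≠ 0 := by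
    by_contra hc
    push Not at hc
    have := span hn hP hE hx hc
    rw [this, norm_zero] at hu
    exact zero_ne_one hu
  obtain ⟨x, hxM, hux⟩ := hex
  have h1 : x - rf u x = (2 * inner ℝ u x) • u := by
    unfold rf
    rw [sub_sub_cancel]
  have h2 : ‖x - rf u x‖ = |2 * inner ℝ u x| := by
    rw [h1, norm_smul, hu, mul_one, Real.norm_eq_abs]
  have h0 : 2 * inner ℝ u x ≠ 0 := mul_ne_zero two_ne_zero hux
  rcases lt_or_gt_of_ne h0 with h3 | h3
  · refine ⟨((x, rf u x), -1), ⟨⟨hxM, hu' x hxM⟩, Or.inl rfl⟩, ?_⟩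
    simp only [f]
    rw [h2, h1, smul_smul, abs_of_neg h3]
    have h4 : -1 * (-(2 * inner ℝ u x))⁻¹ * (2 * inner ℝ u x) = 1 := by
      rw [neg_one_mul, inv_neg, neg_neg, inv_mul_cancel₀ h0]
    rw [h4, one_smul]
  · refine ⟨((x, rf u x), 1), ⟨⟨hxM, hu' x hxM⟩, Or.inr rfl⟩, ?_⟩
    simp only [f]
    rw [h2, h1, smul_smul, abs_of_pos h3, one_mul, inv_mul_cancel₀ h0, one_smul]

theorem bt_apply (i j l : Fin n) : (bt i j : E n) l =
    (√2)⁻¹ * ((if l = i then 1 else 0) - (if l = j then 1 else 0)) := by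
  unfold bt
  simp

theorem bt_inner (i j : Fin n) (x : E n) : inner ℝ (bt i j) x = (√2)⁻¹ * (x i - x j) := by
  unfold bt
  rw [inner_smul_left, inner_sub_left, EuclideanSpace.inner_single_left,
    EuclideanSpace.inner_single_left]
  simp

theorem bt_mem {M : Set (E n)} (hP : PermInv M) : ∀ i j, i ≠ j → bt i j ∈ Rf M := by
  intro i j hij
  have hs : (√2)⁻¹ * (√2)⁻¹ = (1 / 2 : ℝ) := by
    rw [← mul_inv, Real.mul_self_sqrt (by norm_num), one_div]
  have hn : inner ℝ (bt i j) (bt i j : E n) = 1 := by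
    rw [bt_inner, bt_apply, bt_apply]
    simp only [if_true, if_neg hij, if_neg hij.symm]
    have : (√2)⁻¹ * ((√2)⁻¹ * (1 - 0) - (√2)⁻¹ * (0 - 1)) = 2 * ((√2)⁻¹ * (√2)⁻¹ : ℝ) := by ring
    rw [this, hs]
    norm_num
  refine ⟨?_, fun x hx => ?_⟩
  · rw [real_inner_self_eq_norm_sq] at hn
    nlinarith [norm_nonneg (bt i j : E n)]
  · have h : rf (bt i j) x = pm (Equiv.swap i j) x := by
      ext l
      unfold rf
      rw [bt_inner]
      simp only [PiLp.sub_apply, PiLp.smul_apply, smul_eq_mul, pm_apply]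
      rw [bt_apply]
      have h1 : 2 * ((√2)⁻¹ * (x i - x j)) *
          ((√2)⁻¹ * ((if l = i then 1 else 0) - (if l = j then 1 else 0))) =
          (x i - x j) * ((if l = i then 1 else 0) - (if l = j then 1 else 0)) := by
        linear_combination 2 * (x i - x j) *
          ((if l = i then 1 else 0) - (if l = j then 1 else 0)) * hs
      rw [h1]
      by_cases h2 : l = i
      · subst h2
        rw [Equiv.swap_apply_left, if_pos rfl, if_neg hij]
        ring
      · by_cases h3 : l = j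
        · subst h3
          rw [Equiv.swap_apply_right, if_pos rfl, if_neg h2]
          ring
        · rw [Equiv.swap_apply_of_ne_of_ne h2 h3, if_neg h2, if_neg h3]
          ring
    rw [h]
    exact hP _ x hx

end ClDx

open ClDx in
theorem thm_ClD : St_ClD := by
  intro n M hM hn hP hE hx
  refine ⟨sum_zero hM hn hE, fin hM hn hP hE hx, closed, fun σ u hu => ?_, fun S hS u hu => ?_,
    bt_mem hP, gp_closed⟩
  · rw [← pm_eq]
    refine gp_closed _ (gp_of hM _ fun x hx => ?_) u hu
    rw [pm_eq]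
    exact hP σ x hx
  · rw [← sg_eq]
    refine gp_closed _ (gp_of hM _ fun x hx => ?_) u hu
    rw [sg_eq]
    exact hE S hS x hx

end Pool.Agent.RSP
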