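import Pool.Agent.RSP.St

/-!
# RSP: classification, type `A`, `m = 2`, three values (helper88)

`key`: two pairs of points of `M` with the same distance differ by a permutation and a sign. Three different values
of a point of `M` have sum `0` and product `0` (`three`), so the values are `c, 0, -c`; if both the number of `c` and the
number of `0` are at least two there is a contradiction (`step2`). The point is then described by the number of its
entries `c` (`perm`).
-/

set_option autoImplicit false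

noncomputable section

namespace Pool.Agent.RSP

namespace ClsA1x

open Finset

open Classical in
/-- the number of entries `a` -/
def cnt {n : ℕ} (X : Fin n → ℝ) (a : ℝ) : ℕ := (univ.filter fun i => X i = a).card

/-- all entries are `c`, `0` or `-c` -/
def Vals {n : ℕ} (c : ℝ) (X : Fin n → ℝ) : Prop := ∀ i, X i = c ∨ X i = 0 ∨ X i = -c

theorem counts {n : ℕ} {c : ℝ} (hc : 0 < c) {X : Fin n → ℝ} (hX : Vals c X)
    (hs : ∑ i, X i = 0) : cnt X c = cnt X (-c) ∧ 2 * cnt X c + cnt X 0 = n := by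
  classical
  have hc1 : c ≠ 0 := hc.ne'
  have hc2 : -c ≠ 0 := neg_ne_zero.2 hc1
  have hc3 : c ≠ -c := by
    intro h
    linarith
  have h1 : cnt X c + cnt X (-c) + cnt X 0 = n := by
    unfold cnt
    rw [card_filter, card_filter, card_filter, ← sum_add_distrib, ← sum_add_distrib]
    have h : ∀ i : Fin n, (if X i = c then 1 else 0) + (if X i = -c then 1 else 0) +
        (if X i = 0 then 1 else 0) = 1 := by
      intro i
      rcases hX i with h | h | h <;> rw [h]
      · rw [if_pos rfl, if_neg hc3, if_neg hc1]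
      · rw [if_neg hc1.symm, if_neg hc2.symm, if_pos rfl]
      · rw [if_neg hc3.symm, if_pos rfl, if_neg hc2]
    rw [sum_congr rfl fun i _ => h i]
    simp
  have h2 : (cnt X c : ℝ) * c - (cnt X (-c) : ℝ) * c = 0 := by
    rw [← hs]
    unfold cnt
    rw [card_filter, card_filter, Nat.cast_sum, Nat.cast_sum, sum_mul, sum_mul,
      ← sum_sub_distrib]
    refine sum_congr rfl fun i _ => ?_
    rcases hX i with h | h | h <;> rw [h]
    · rw [if_pos rfl, if_neg hc3]
      simp
    · rw [if_neg hc1.symm, if_neg hc2.symm]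
      simp
    · rw [if_neg hc3.symm, if_pos rfl]
      simp
  have h3 : (cnt X c : ℝ) = cnt X (-c) := by
    rw [← sub_mul] at h2
    have := (mul_eq_zero.1 h2).resolve_right hc1
    linarith
  have h4 : cnt X c = cnt X (-c) := by exact_mod_cast h3
  exact ⟨h4, by omega⟩

theorem nat_card {n : ℕ} (X : Fin n → ℝ) (a : ℝ) : Nat.card {i // X i = a} = cnt X a := by
  classical
  rw [Nat.card_eq_fintype_card, Fintype.card_subtype]
  rfl

theorem perm {n : ℕ} {c : ℝ} (hc : 0 < c) {X Y : Fin n → ℝ} (hX : Vals c X) (hY : Vals c Y)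
    (sX : ∑ i, X i = 0) (sY : ∑ i, Y i = 0) (h : cnt X c = cnt Y c) :
    ∃ σ : Equiv.Perm (Fin n), ∀ i, X i = Y (σ i) := by
  obtain ⟨x1, x2⟩ := counts hc hX sX
  obtain ⟨y1, y2⟩ := counts hc hY sY
  apply exists_perm
  intro a
  rw [nat_card, nat_card]
  by_cases h1 : a = c
  · rw [h1, h]
  by_cases h2 : a = 0
  · rw [h2]
    omega
  by_cases h3 : a = -c
  · rw [h3]
    omega
  · have h4 : ∀ Z : Fin n → ℝ, Vals c Z → cnt Z a = 0 := by
      intro Z hZ
      unfold cnt
      rw [card_eq_zero, filter_eq_empty_iff]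
      intro i _ hi
      rcases hZ i with h | h | h
      · exact h1 (hi.symm.trans h)
      · exact h2 (hi.symm.trans h)
      · exact h3 (hi.symm.trans h)
    rw [h4 X hX, h4 Y hY]

theorem rts_iff (hInv : St_Inv) {n : ℕ} {c : ℝ} (hc : 0 < c) (w : E n) : w ∈ rts n c ↔
    Vals c (fun i => w i) ∧ ∑ i, w i = 0 ∧ cnt (fun i => w i) c = 1 := by
  classical
  have hc3 : c ≠ -c := by
    intro h
    linarith
  constructor
  · intro hw
    have hs : ∑ i, w i = 0 := (hInv n c).2.2.2.2.2.2.2.2.2.2.2.2 w hw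
    obtain ⟨i, j, hij, hi, hj, hl⟩ := hw
    refine ⟨fun l => ?_, hs, ?_⟩
    · by_cases h1 : l = i
      · exact Or.inl (by rw [h1]; exact hi)
      · by_cases h2 : l = j
        · exact Or.inr (Or.inr (by rw [h2]; exact hj))
        · exact Or.inr (Or.inl (hl l h1 h2))
    · unfold cnt
      rw [card_eq_one]
      refine ⟨i, ?_⟩
      ext l
      rw [mem_filter, mem_singleton]
      constructor
      · rintro ⟨-, h⟩
        by_contra h1
        by_cases h2 : l = j
        · rw [h2] at h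
          exact hc3 (h.symm.trans hj)
        · exact hc.ne' (h.symm.trans (hl l h1 h2))
      · rintro rfl
        exact ⟨mem_univ _, hi⟩
  · rintro ⟨hv, hs, h1⟩
    have h2 := (counts hc hv hs).1
    rw [h1] at h2
    unfold cnt at h1 h2
    obtain ⟨i, hi⟩ := card_eq_one.1 h1
    obtain ⟨j, hj⟩ := card_eq_one.1 h2.symm
    have hi' : ∀ l, w l = c ↔ l = i := by
      intro l
      have := Finset.ext_iff.1 hi l
      rw [mem_filter, mem_singleton] at this
      exact ⟨fun h => this.1 ⟨mem_univ _, h⟩, fun h => (this.2 h).2⟩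
    have hj' : ∀ l, w l = -c ↔ l = j := by
      intro l
      have := Finset.ext_iff.1 hj l
      rw [mem_filter, mem_singleton] at this
      exact ⟨fun h => this.1 ⟨mem_univ _, h⟩, fun h => (this.2 h).2⟩
    refine ⟨i, j, ?_, (hi' i).2 rfl, (hj' j).2 rfl, fun l h3 h4 => ?_⟩
    · intro h
      have h3 := (hi' i).2 rfl
      have h4 := (hj' i).2 h
      exact hc3 (h3.symm.trans h4)
    · rcases hv l with h | h | h
      · exact absurd ((hi' l).1 h) h3
      · exact h
      · exact absurd ((hj' l).1 h) h4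

theorem mid_iff {n : ℕ} {c : ℝ} (hc : 0 < c) (w : E n) : w ∈ mid n c ↔
    Vals c (fun i => w i) ∧ ∑ i, w i = 0 ∧ cnt (fun i => w i) 0 = 1 := by
  classical
  have hc2 : -c ≠ 0 := neg_ne_zero.2 hc.ne'
  constructor
  · rintro ⟨⟨i, hi, hj⟩, hs⟩
    refine ⟨fun l => ?_, hs, ?_⟩
    · by_cases h1 : l = i
      · exact Or.inr (Or.inl (by rw [h1]; exact hi))
      · rcases hj l h1 with h | h
        · exact Or.inl h
        · exact Or.inr (Or.inr h)
    · unfold cnt
      rw [card_eq_one]
      refine ⟨i, ?_⟩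
      ext l
      rw [mem_filter, mem_singleton]
      constructor
      · rintro ⟨-, h⟩
        by_contra h1
        rcases hj l h1 with h2 | h2
        · exact hc.ne' (h2.symm.trans h)
        · exact hc2 (h2.symm.trans h)
      · rintro rfl
        exact ⟨mem_univ _, hi⟩
  · rintro ⟨hv, hs, h1⟩
    unfold cnt at h1
    obtain ⟨i, hi⟩ := card_eq_one.1 h1
    have hi' : ∀ l, w l = 0 ↔ l = i := by
      intro l
      have := Finset.ext_iff.1 hi l
      rw [mem_filter, mem_singleton] at this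
      exact ⟨fun h => this.1 ⟨mem_univ _, h⟩, fun h => (this.2 h).2⟩
    refine ⟨⟨i, (hi' i).2 rfl, fun l h3 => ?_⟩, hs⟩
    rcases hv l with h | h | h
    · exact Or.inl h
    · exact absurd ((hi' l).1 h) h3
    · exact Or.inr h

/-- two pairs with the same distance differ by a permutation and a sign -/
theorem key {n : ℕ} {M : Set (E n)} (h0 : ∀ x ∈ M, ∑ i, x i = 0) (hG : ∀ g ∈ Gp M, IsPM g)
    (h2 : GHom 2 M) {x y w z : E n} (hx : x ∈ M) (hy : y ∈ M) (hw : w ∈ M) (hz : z ∈ M)
    (hd : dist x y = dist w z) : ∃ σ : Equiv.Perm (Fin n), ∃ s : ℝ, (s = 1 ∨ s = -1) ∧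
      ∀ i, w i = s * x (σ i) ∧ z i = s * y (σ i) := by
  obtain ⟨g, hg, h⟩ := h2 ![x, y] ![w, z]
    (by intro i; fin_cases i <;> assumption) (by intro i; fin_cases i <;> assumption) (by
      intro i j
      fin_cases i <;> fin_cases j
      · show dist x x = dist w w
        rw [dist_self, dist_self]
      · exact hd
      · show dist y x = dist z w
        rw [dist_comm, hd, dist_comm]
      · show dist y y = dist z z
        rw [dist_self, dist_self])
  have e1 : g x = w := h 0
  have e2 : g y = z := h 1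
  obtain ⟨σ, h3 | h3⟩ := hG g hg
  · refine ⟨σ, 1, Or.inl rfl, fun i => ?_⟩
    rw [← e1, ← e2, h3 x (h0 x hx), h3 y (h0 y hy), one_mul, one_mul]
    exact ⟨rfl, rfl⟩
  · refine ⟨σ, -1, Or.inr rfl, fun i => ?_⟩
    rw [← e1, ← e2, h3 x (h0 x hx), h3 y (h0 y hy), neg_one_mul, neg_one_mul]
    exact ⟨rfl, rfl⟩

/-- three different values have sum and product `0` -/
theorem three {n : ℕ} {M : Set (E n)} (hP : PermInv M) (h0 : ∀ x ∈ M, ∑ i, x i = 0)
    (hG : ∀ g ∈ Gp M, IsPM g) (h2 : GHom 2 M) {x : E n} (hx : x ∈ M) {i j k : Fin n}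
    (hij : x i ≠ x j) (hjk : x j ≠ x k) (hik : x i ≠ x k) :
    x i + x j + x k = 0 ∧ x i * x j * x k = 0 := by
  have ij : i ≠ j := fun h => hij (by rw [h])
  have jk : j ≠ k := fun h => hjk (by rw [h])
  have ik : i ≠ k := fun h => hik (by rw [h])
  obtain ⟨τ, hτ⟩ : ∃ τ : Equiv.Perm (Fin n), τ = Equiv.swap i j * Equiv.swap j k := ⟨_, rfl⟩
  have t1 : τ i = j := by
    rw [hτ, Equiv.Perm.mul_apply, Equiv.swap_apply_of_ne_of_ne ij ik, Equiv.swap_apply_left]
  have t2 : τ j = k := by
    rw [hτ, Equiv.Perm.mul_apply, Equiv.swap_apply_left,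
      Equiv.swap_apply_of_ne_of_ne ik.symm jk.symm]
  have t3 : τ k = i := by
    rw [hτ, Equiv.Perm.mul_apply, Equiv.swap_apply_right, Equiv.swap_apply_right]
  have t4 : ∀ l, l ≠ i → l ≠ j → l ≠ k → τ l = l := by
    intro l h1 h2 h3
    rw [hτ, Equiv.Perm.mul_apply, Equiv.swap_apply_of_ne_of_ne h2 h3,
      Equiv.swap_apply_of_ne_of_ne h1 h2]
  have s1 : τ.symm j = i := by rw [← t1, Equiv.symm_apply_apply]
  have s2 : τ.symm k = j := by rw [← t2, Equiv.symm_apply_apply]
  have s3 : τ.symm i = k := by rw [← t3, Equiv.symm_apply_apply]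
  have hd : dist x (pm τ x) = dist x (pm τ.symm x) := by
    rw [dist_eq_iff]
    rw [← Equiv.sum_comp τ (fun l => (x l - (pm τ.symm x) l) ^ 2)]
    refine sum_congr rfl fun l _ => ?_
    rw [pm_apply, pm_apply, Equiv.symm_apply_apply]
    ring
  obtain ⟨σ, s, hs, h⟩ := key h0 hG h2 hx (hP τ x hx) hx (hP τ.symm x hx) hd
  have hmove : ∀ l, x l ≠ x (τ.symm l) → σ l = i ∨ σ l = j ∨ σ l = k := by
    intro l hl
    by_contra hcon
    push Not at hcon
    obtain ⟨h3, h4⟩ := h l
    rw [pm_apply, pm_apply, t4 _ hcon.1 hcon.2.1 hcon.2.2, ← h3] at h4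
    exact hl h4.symm
  have a1 := h i
  have a2 := h j
  have a3 := h k
  rw [pm_apply, pm_apply, s3] at a1
  rw [pm_apply, pm_apply, s1] at a2
  rw [pm_apply, pm_apply, s2] at a3
  have m1 := hmove i (by rw [s3]; exact hik)
  have m2 := hmove j (by rw [s1]; exact hij.symm)
  obtain ⟨a11, a12⟩ := a1
  obtain ⟨a21, a22⟩ := a2
  rcases hs with hs | hs
  · exfalso
    rw [hs, one_mul] at a11 a12
    rcases m1 with m | m | m
    · rw [m] at a11 a12
      rw [t1] at a12
      exact hjk a12.symm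
    · rw [m] at a11
      exact hij a11
    · rw [m] at a11
      exact hik a11
  · rw [hs, neg_one_mul] at a11 a12 a21 a22
    rcases m1 with m | m | m
    · -- `x i = - x i`, `x k = - x j`
      rw [m] at a11 a12
      rw [t1] at a12
      have e : x i = 0 := by linarith
      rw [e, a12]
      constructor <;> ring
    · rw [m] at a11 a12
      rw [t2] at a12
      have e : x k = 0 := by linarith
      rw [e, a11]
      constructor <;> ring
    · rw [m] at a11 a12
      rcases m2 with m' | m' | m'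
      · rw [m'] at a21
        exact absurd (by linarith) hjk
      · rw [m'] at a21
        have e : x j = 0 := by linarith
        rw [e, a11]
        constructor <;> ring
      · rw [m'] at a21
        exact absurd (by linarith) hij

theorem dsum {n : ℕ} (x : E n) {a b c d : Fin n} (ab : a ≠ b) (ac : a ≠ c) (ad : a ≠ d)
    (bc : b ≠ c) (bd : b ≠ d) (cd : c ≠ d) :
    ∑ l, (x l - (pm (Equiv.swap a b * Equiv.swap c d) x) l) ^ 2 =
      2 * (x a - x b) ^ 2 + 2 * (x c - x d) ^ 2 := by
  have h1 : ∑ l ∈ {a, b, c, d}, (x l - (pm (Equiv.swap a b * Equiv.swap c d) x) l) ^ 2 =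
      ∑ l, (x l - (pm (Equiv.swap a b * Equiv.swap c d) x) l) ^ 2 := by
    apply sum_subset (subset_univ _)
    intro l _ hl
    simp only [mem_insert, mem_singleton, not_or] at hl
    rw [pm_apply, Equiv.Perm.mul_apply, Equiv.swap_apply_of_ne_of_ne hl.2.2.1 hl.2.2.2,
      Equiv.swap_apply_of_ne_of_ne hl.1 hl.2.1, sub_self]
    ring
  rw [← h1, sum_insert (by simp [ab, ac, ad]), sum_insert (by simp [bc, bd]),
    sum_insert (by simp [cd]), sum_singleton]
  simp only [pm_apply, Equiv.Perm.mul_apply]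
  rw [Equiv.swap_apply_of_ne_of_ne ac ad, Equiv.swap_apply_left,
    Equiv.swap_apply_of_ne_of_ne bc bd, Equiv.swap_apply_right, Equiv.swap_apply_left,
    Equiv.swap_apply_of_ne_of_ne ad.symm bd.symm, Equiv.swap_apply_right,
    Equiv.swap_apply_of_ne_of_ne ac.symm bc.symm]
  ring

theorem step2 {n : ℕ} {M : Set (E n)} (hP : PermInv M) (h0 : ∀ x ∈ M, ∑ i, x i = 0)
    (hG : ∀ g ∈ Gp M, IsPM g) (h2 : GHom 2 M) {x : E n} (hx : x ∈ M) {c : ℝ} (hc : 0 < c)
    {i₁ i₂ j₁ j₂ k : Fin n} (hi : i₁ ≠ i₂) (hj : j₁ ≠ j₂) (hi₁ : x i₁ = c) (hi₂ : x i₂ = c)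
    (hj₁ : x j₁ = 0) (hj₂ : x j₂ = 0) (hk : x k = -c) : False := by
  have hc0 : c ≠ 0 := hc.ne'
  have hc2 : -c ≠ 0 := neg_ne_zero.2 hc0
  have hc3 : c ≠ -c := by
    intro h
    linarith
  have n1 : i₁ ≠ j₁ := fun h => hc0 (by rw [← hi₁, h, hj₁])
  have n2 : i₁ ≠ j₂ := fun h => hc0 (by rw [← hi₁, h, hj₂])
  have n3 : i₂ ≠ j₁ := fun h => hc0 (by rw [← hi₂, h, hj₁])
  have n4 : i₂ ≠ j₂ := fun h => hc0 (by rw [← hi₂, h, hj₂])
  have n5 : i₁ ≠ k := fun h => hc3 (hi₁.symm.trans (by rw [h]; exact hk))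
  have n6 : i₂ ≠ k := fun h => hc3 (hi₂.symm.trans (by rw [h]; exact hk))
  have n7 : j₁ ≠ k := fun h => hc2 (by rw [← hk, ← h, hj₁])
  have n8 : j₂ ≠ k := fun h => hc2 (by rw [← hk, ← h, hj₂])
  have hd : dist x (pm (Equiv.swap i₁ j₁ * Equiv.swap i₂ j₂) x) =
      dist x (pm (Equiv.swap i₁ j₁ * Equiv.swap j₂ k) x) := by
    rw [dist_eq_iff, dsum x n1 hi n2 n3.symm hj n4, dsum x n1 n2 n5 hj n7 n8, hi₁, hi₂, hj₁,
      hj₂, hk]
    ring
  obtain ⟨σ, s, hs, h⟩ := key h0 hG h2 hx (hP _ x hx) hx (hP _ x hx) hd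
  have hA : ∀ l, x l = -c → (pm (Equiv.swap i₁ j₁ * Equiv.swap i₂ j₂) x) l ≠ 0 := by
    intro l hl
    have m1 : l ≠ i₁ := fun h => hc3 (hi₁.symm.trans (by rw [← h]; exact hl))
    have m2 : l ≠ i₂ := fun h => hc3 (hi₂.symm.trans (by rw [← h]; exact hl))
    have m3 : l ≠ j₁ := fun h => hc2 (by rw [← hl, h, hj₁])
    have m4 : l ≠ j₂ := fun h => hc2 (by rw [← hl, h, hj₂])
    rw [pm_apply, Equiv.Perm.mul_apply, Equiv.swap_apply_of_ne_of_ne m2 m4,
      Equiv.swap_apply_of_ne_of_ne m1 m3, hl]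
    exact hc2
  rcases hs with hs | hs
  · obtain ⟨h3, h4⟩ := h k
    rw [pm_apply, Equiv.Perm.mul_apply, Equiv.swap_apply_right,
      Equiv.swap_apply_of_ne_of_ne n2.symm hj.symm, hj₂, hs, one_mul] at h4
    rw [hs, one_mul, hk] at h3
    exact hA (σ k) h3.symm h4.symm
  · obtain ⟨h3, h4⟩ := h i₁
    rw [pm_apply, Equiv.Perm.mul_apply, Equiv.swap_apply_of_ne_of_ne n2 n5,
      Equiv.swap_apply_left, hj₁, hs, neg_one_mul] at h4
    rw [hs, neg_one_mul, hi₁] at h3
    refine hA (σ i₁) (by linarith) (by linarith)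

end ClsA1x

open ClsA1x in
theorem thm_ClsA1 (hInv : St_Inv) : St_ClsA1 := by
  classical
  intro n M hn hM hP h0 hG h2 hex
  obtain ⟨x, hx, i, j, k, hij, hjk, hik⟩ := hex
  -- the values
  obtain ⟨c, hc, p, q, r, hp, hq, hr⟩ : ∃ c : ℝ, 0 < c ∧ ∃ p q r, x p = c ∧ x q = 0 ∧
      x r = -c := by
    have main : ∀ i j k : Fin n, x i ≠ x j → x j ≠ x k → x i ≠ x k → x i = 0 →
        ∃ c : ℝ, 0 < c ∧ ∃ p q r, x p = c ∧ x q = 0 ∧ x r = -c := by
      intro i j k hij hjk hik hi
      have h3 := (three hP h0 hG h2 hx hij hjk hik).1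
      rw [hi, zero_add] at h3
      rcases lt_or_gt_of_ne (show x j ≠ 0 by rw [← hi]; exact hij.symm) with h4 | h4
      · exact ⟨x k, by linarith, k, i, j, rfl, hi, by linarith⟩
      · exact ⟨x j, h4, j, i, k, rfl, hi, by linarith⟩
    have h3 := (three hP h0 hG h2 hx hij hjk hik).2
    rcases mul_eq_zero.1 h3 with h4 | h4
    · rcases mul_eq_zero.1 h4 with h5 | h5
      · exact main i j k hij hjk hik h5
      · exact main j i k hij.symm hik hjk h5
    · exact main k i j hik.symm hij hjk.symm h4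
  have hc0 : c ≠ 0 := hc.ne'
  have hv : Vals c (fun i => x i) := by
    intro l
    by_cases h3 : x l = c
    · exact Or.inl h3
    by_cases h4 : x l = 0
    · exact Or.inr (Or.inl h4)
    right; right
    have h5 := (three hP h0 hG h2 hx (i := p) (j := q) (k := l) (by rw [hp, hq]; exact hc0)
      (by rw [hq]; exact fun h => h4 h.symm) (by rw [hp]; exact fun h => h3 h.symm)).1
    rw [hp, hq] at h5
    show x l = -c
    linarith
  have hxs := h0 x hx
  obtain ⟨c1, c2⟩ := counts hc hv hxs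
  -- one of the two numbers is one
  have hor : cnt (fun i => x i) c = 1 ∨ cnt (fun i => x i) 0 = 1 := by
    by_contra hcon
    push Not at hcon
    have h3 : 0 < cnt (fun i => x i) c := by
      unfold cnt
      exact Finset.card_pos.2 ⟨p, Finset.mem_filter.2 ⟨Finset.mem_univ _, hp⟩⟩
    have h4 : 0 < cnt (fun i => x i) 0 := by
      unfold cnt
      exact Finset.card_pos.2 ⟨q, Finset.mem_filter.2 ⟨Finset.mem_univ _, hq⟩⟩
    have h5 : 1 < cnt (fun i => x i) c := by omega
    have h6 : 1 < cnt (fun i => x i) 0 := by omega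
    unfold cnt at h5 h6
    obtain ⟨i₁, g1, i₂, g2, g3⟩ := Finset.one_lt_card.1 h5
    obtain ⟨j₁, g4, j₂, g5, g6⟩ := Finset.one_lt_card.1 h6
    exact step2 hP h0 hG h2 hx hc g3 g6 (Finset.mem_filter.1 g1).2 (Finset.mem_filter.1 g2).2
      (Finset.mem_filter.1 g4).2 (Finset.mem_filter.1 g5).2 hr
  -- all points of `M`
  have hMiff : ∀ w : E n, w ∈ M ↔ Vals c (fun i => w i) ∧ ∑ i, w i = 0 ∧
      cnt (fun i => w i) c = cnt (fun i => x i) c := by
    intro w
    constructor
    · intro hw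
      obtain ⟨σ, s, hs, h⟩ := key h0 hG h2 hx hx hw hw (by rw [dist_self, dist_self])
      have hval : ∀ t : ℝ, cnt (fun i => x (σ i)) t = cnt (fun i => x i) t := by
        intro t
        rw [← nat_card, ← nat_card]
        exact Nat.card_congr (σ.subtypeEquiv fun i => Iff.rfl)
      refine ⟨fun l => ?_, h0 w hw, ?_⟩
      · have h3 := (h l).1
        rcases hs with hs | hs
        · rw [hs, one_mul] at h3
          simp only [h3]
          exact hv (σ l)
        · rw [hs, neg_one_mul] at h3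
          simp only [h3]
          rcases hv (σ l) with h4 | h4 | h4 <;> simp only at h4
          · exact Or.inr (Or.inr (by rw [h4]))
          · exact Or.inr (Or.inl (by rw [h4, neg_zero]))
          · exact Or.inl (by rw [h4, neg_neg])
      · rcases hs with hs | hs
        · have h3 : (fun i => w i) = fun i => x (σ i) := by
            funext l
            rw [(h l).1, hs, one_mul]
          rw [h3, hval]
        · have h3 : cnt (fun i => w i) c = cnt (fun i => x (σ i)) (-c) := by
            unfold cnt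
            congr 1
            ext l
            rw [Finset.mem_filter, Finset.mem_filter]
            simp only [(h l).1, hs, neg_one_mul]
            constructor
            · rintro ⟨h4, h5⟩
              exact ⟨h4, by linarith⟩
            · rintro ⟨h4, h5⟩
              exact ⟨h4, by linarith⟩
          rw [h3, hval, ← c1]
    · rintro ⟨h3, h4, h5⟩
      obtain ⟨σ, hσ⟩ := perm hc h3 hv h4 hxs h5
      have h6 : w = pm σ x := by
        ext l
        rw [pm_apply]
        exact hσ l
      rw [h6]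
      exact hP σ x hx
  refine ⟨c, hc, ?_⟩
  rcases hor with h3 | h3
  · left
    ext w
    rw [hMiff, rts_iff hInv hc, h3]
  · right
    ext w
    rw [hMiff, mid_iff hc]
    constructor
    · rintro ⟨h4, h5, h6⟩
      have := (counts hc h4 h5).2
      exact ⟨h4, h5, by omega⟩
    · rintro ⟨h4, h5, h6⟩
      have := (counts hc h4 h5).2
      exact ⟨h4, h5, by omega⟩

end Pool.Agent.RSP
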