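import Pool.Agent.RSP.St

/-!
# Classification, type A, two values
-/

set_option autoImplicit false

noncomputable section

namespace Pool.Agent.RSP

namespace ClsA2x

open Finset

variable {n : ℕ}

/-- two sets of the same size differ by a permutation -/
theorem perm_sets (A B : Finset (Fin n)) (h : A.card = B.card) :
    ∃ σ : Equiv.Perm (Fin n), ∀ i, i ∈ B ↔ σ i ∈ A := by
  classical
  have key : ∀ C : Finset (Fin n), ∀ a : Bool, Nat.card {i // decide (i ∈ C) = a} =
      if a = true then C.card else n - C.card := by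
    intro C a
    rw [Nat.card_eq_fintype_card, Fintype.card_subtype]
    cases a
    · have h1 : (univ.filter fun i : Fin n => decide (i ∈ C) = false) = Cᶜ := by
        ext i
        simp
      rw [h1, Finset.card_compl, Fintype.card_fin]
      simp
    · have h1 : (univ.filter fun i : Fin n => decide (i ∈ C) = true) = C := by
        ext i
        simp
      rw [h1]
      simp
  obtain ⟨σ, hσ⟩ := exists_perm (fun i => decide (i ∈ B)) (fun i => decide (i ∈ A)) (by
    intro a
    rw [key B a, key A a, h])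
  refine ⟨σ, fun i => ?_⟩
  have := hσ i
  simpa using this

/-- an invariant set which meets `hyps n k c` contains it -/
theorem hyps_sub {M : Set (E n)} (hM : PermInv M) (k : ℕ) (c : ℝ) (x : E n) (hx : x ∈ M)
    (hxk : x ∈ hyps n k c) : hyps n k c ⊆ M := by
  classical
  rintro y ⟨B, hB, hy⟩
  obtain ⟨A, hA, hx'⟩ := hxk
  obtain ⟨σ, hσ⟩ := perm_sets A B (hA.trans hB.symm)
  have h1 : pm σ x = y := by
    ext i
    rw [pm_apply, hx', hy]
    by_cases h : i ∈ B
    · rw [if_pos h, if_pos ((hσ i).1 h)]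
    · rw [if_neg h, if_neg (fun h' => h ((hσ i).2 h'))]
  rw [← h1]
  exact hM σ x hx

/-- the two orbits are disjoint -/
theorem disj (k : ℕ) (c : ℝ) (hc : 0 < c) (hk : 1 ≤ k) (hkn : 2 * k < n) (z : E n)
    (h1 : z ∈ hyps n k c) (h2 : z ∈ hyps n k (-c)) : False := by
  obtain ⟨A, hA, h1⟩ := h1
  obtain ⟨B, hB, h2⟩ := h2
  have hne : A.Nonempty := by
    rw [← Finset.card_pos]
    omega
  obtain ⟨i, hi⟩ := hne
  have h3 := h1 i
  have h4 := h2 i
  rw [if_pos hi] at h3
  have hn : (0 : ℝ) < n := by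
    have : 0 < n := by omega
    exact_mod_cast this
  have hkn' : 2 * (k : ℝ) < n := by exact_mod_cast hkn
  have hk0 : (0 : ℝ) < k := by exact_mod_cast hk
  have h5 : (k : ℝ) / n < 1 / 2 := by
    rw [div_lt_div_iff₀ hn (by norm_num)]
    linarith
  have h6 : 0 < (k : ℝ) / n := by positivity
  have h7 : c * (1 - (k : ℝ) / n) = -c * ((if i ∈ B then 1 else 0) - (k : ℝ) / n) := by
    rw [← h3, ← h4]
  have h8 : c * ((1 - (k : ℝ) / n) + ((if i ∈ B then 1 else 0) - (k : ℝ) / n)) = 0 := by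
    linear_combination h7
  rcases mul_eq_zero.1 h8 with h | h
  · linarith
  · split_ifs at h <;> linarith

/-- sums of indicator functions -/
theorem sum_ind (A : Finset (Fin n)) : ∑ i, (if i ∈ A then (1 : ℝ) else 0) = A.card := by
  rw [Finset.sum_ite_mem, Finset.univ_inter, Finset.sum_const, nsmul_eq_mul, mul_one]

theorem sum_ind2 (A B : Finset (Fin n)) :
    ∑ i, (if i ∈ A then (1 : ℝ) else 0) * (if i ∈ B then (1 : ℝ) else 0) = (A ∩ B).card := by
  rw [← sum_ind (A ∩ B)]
  refine Finset.sum_congr rfl fun i _ => ?_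
  by_cases h1 : i ∈ A <;> by_cases h2 : i ∈ B <;> simp [h1, h2]

/-- squared distance within a part -/
theorem d_in (A B : Finset (Fin n)) (k j : ℕ) (c : ℝ) (hA : A.card = k) (hB : B.card = k)
    (hj : (A ∩ B).card = j) :
    ∑ i, (c * ((if i ∈ A then (1 : ℝ) else 0) - (k : ℝ) / n)
      - c * ((if i ∈ B then (1 : ℝ) else 0) - (k : ℝ) / n)) ^ 2 = c ^ 2 * (2 * k - 2 * j) := by
  have h1 : ∀ i : Fin n, (c * ((if i ∈ A then (1 : ℝ) else 0) - (k : ℝ) / n)
      - c * ((if i ∈ B then (1 : ℝ) else 0) - (k : ℝ) / n)) ^ 2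
      = c ^ 2 * (if i ∈ A then (1 : ℝ) else 0) + c ^ 2 * (if i ∈ B then (1 : ℝ) else 0)
        - 2 * c ^ 2 * ((if i ∈ A then (1 : ℝ) else 0) * (if i ∈ B then (1 : ℝ) else 0)) := by
    intro i
    by_cases h1 : i ∈ A <;> by_cases h2 : i ∈ B <;> simp [h1, h2] <;> ring
  rw [Finset.sum_congr rfl fun i _ => h1 i, Finset.sum_sub_distrib, Finset.sum_add_distrib,
    ← Finset.mul_sum, ← Finset.mul_sum, ← Finset.mul_sum, sum_ind, sum_ind, sum_ind2, hA, hB, hj]
  ring

/-- squared distance between the parts -/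
theorem d_out (A B : Finset (Fin n)) (k j : ℕ) (c : ℝ) (hn : 0 < n) (hA : A.card = k)
    (hB : B.card = k) (hj : (A ∩ B).card = j) :
    ∑ i, (c * ((if i ∈ A then (1 : ℝ) else 0) - (k : ℝ) / n)
      - -c * ((if i ∈ B then (1 : ℝ) else 0) - (k : ℝ) / n)) ^ 2
      = c ^ 2 * (2 * k + 2 * j - 4 * k ^ 2 / n) := by
  have hn0 : (n : ℝ) ≠ 0 := by
    have : n ≠ 0 := by omega
    exact_mod_cast this
  have h1 : ∀ i : Fin n, (c * ((if i ∈ A then (1 : ℝ) else 0) - (k : ℝ) / n)
      - -c * ((if i ∈ B then (1 : ℝ) else 0) - (k : ℝ) / n)) ^ 2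
      = c ^ 2 * (1 - 4 * k / n) * (if i ∈ A then (1 : ℝ) else 0)
        + c ^ 2 * (1 - 4 * k / n) * (if i ∈ B then (1 : ℝ) else 0)
        + 2 * c ^ 2 * ((if i ∈ A then (1 : ℝ) else 0) * (if i ∈ B then (1 : ℝ) else 0))
        + c ^ 2 * (4 * k ^ 2 / n ^ 2) := by
    intro i
    by_cases h1 : i ∈ A <;> by_cases h2 : i ∈ B <;> simp only [h1, h2, if_true, if_false] <;>
      field_simp <;> ring
  rw [Finset.sum_congr rfl fun i _ => h1 i, Finset.sum_add_distrib, Finset.sum_add_distrib,
    Finset.sum_add_distrib, ← Finset.mul_sum, ← Finset.mul_sum, ← Finset.mul_sum, sum_ind,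
    sum_ind, sum_ind2, hA, hB, hj, Finset.sum_const, Finset.card_univ, Fintype.card_fin,
    nsmul_eq_mul]
  field_simp
  ring

/-- a `k`-set which meets `A` in `j` points -/
theorem exists_meet (A : Finset (Fin n)) (k j : ℕ) (hA : A.card = k) (hk : 2 * k < n)
    (hj : j ≤ k) : ∃ B : Finset (Fin n), B.card = k ∧ (A ∩ B).card = j := by
  classical
  obtain ⟨B1, hB1, hB1c⟩ := Finset.exists_subset_card_eq (s := A) (n := j) (by omega)
  obtain ⟨B2, hB2, hB2c⟩ := Finset.exists_subset_card_eq (s := Aᶜ) (n := k - j) (by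
    rw [Finset.card_compl, Fintype.card_fin]
    omega)
  have hd : Disjoint B1 B2 := by
    rw [Finset.disjoint_left]
    intro i hi hi'
    exact (Finset.mem_compl.1 (hB2 hi')) (hB1 hi)
  refine ⟨B1 ∪ B2, ?_, ?_⟩
  · rw [Finset.card_union_of_disjoint hd]
    omega
  · have h1 : A ∩ (B1 ∪ B2) = B1 := by
      ext i
      rw [mem_inter, mem_union]
      constructor
      · rintro ⟨h, h' | h'⟩
        · exact h'
        · exact absurd h (Finset.mem_compl.1 (hB2 h'))
      · intro h
        exact ⟨hB1 h, Or.inl h⟩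
    rw [h1, hB1c]

/-- the union of both orbits needs the divisibility condition -/
theorem not_dvd {M : Set (E n)} (k : ℕ) (c : ℝ) (hc : 0 < c) (hk : 1 ≤ k) (hkn : 2 * k < n)
    (hInv : St_Inv) (hG : ∀ g ∈ Gp M, IsPM g) (hH : GHom 2 M)
    (hM : M = hyps n k c ∪ hyps n k (-c)) : ¬ n ∣ 2 * k ^ 2 := by
  rintro ⟨t, ht⟩
  have hn : 0 < n := by omega
  have htk : t ≤ k := by
    by_contra hcon
    push Not at hcon
    have h1 : n * (k + 1) ≤ n * t := Nat.mul_le_mul_left _ hcon
    nlinarith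
  obtain ⟨A, -, hA⟩ := Finset.exists_subset_card_eq (s := (univ : Finset (Fin n))) (n := k) (by
    rw [Finset.card_univ, Fintype.card_fin]
    omega)
  obtain ⟨B, hB, hAB⟩ := exists_meet A k (t / 2) hA hkn (by omega)
  obtain ⟨C, hC, hAC⟩ := exists_meet A k (t - t / 2) hA hkn (by omega)
  set x : E n := WithLp.toLp 2 fun i => c * ((if i ∈ A then 1 else 0) - (k : ℝ) / n) with hx
  set y : E n := WithLp.toLp 2 fun i => c * ((if i ∈ B then 1 else 0) - (k : ℝ) / n) with hy
  set z : E n := WithLp.toLp 2 fun i => -c * ((if i ∈ C then 1 else 0) - (k : ℝ) / n) with hz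
  have hxk : x ∈ hyps n k c := ⟨A, hA, fun i => rfl⟩
  have hyk : y ∈ hyps n k c := ⟨B, hB, fun i => rfl⟩
  have hzk : z ∈ hyps n k (-c) := ⟨C, hC, fun i => rfl⟩
  have hdist : dist x y = dist x z := by
    rw [dist_eq_iff]
    have h1 := d_in A B k (t / 2) c hA hB hAB
    have h2 := d_out A C k (t - t / 2) c hn hA hC hAC
    have h3 : ∑ i, (x i - y i) ^ 2 = ∑ i : Fin n, (c * ((if i ∈ A then (1 : ℝ) else 0) - (k : ℝ) / n)
      - c * ((if i ∈ B then (1 : ℝ) else 0) - (k : ℝ) / n)) ^ 2 := rfl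
    have h4 : ∑ i, (x i - z i) ^ 2 = ∑ i : Fin n, (c * ((if i ∈ A then (1 : ℝ) else 0) - (k : ℝ) / n)
      - -c * ((if i ∈ C then (1 : ℝ) else 0) - (k : ℝ) / n)) ^ 2 := rfl
    rw [h3, h4, h1, h2]
    have hn0 : (n : ℝ) ≠ 0 := by
      have : n ≠ 0 := by omega
      exact_mod_cast this
    have h5 : 2 * (k : ℝ) ^ 2 = n * t := by exact_mod_cast ht
    have h6 : 4 * (k : ℝ) ^ 2 / n = 2 * t := by
      rw [div_eq_iff hn0]
      linear_combination 2 * h5
    have h7 : ((t / 2 : ℕ) : ℝ) + ((t - t / 2 : ℕ) : ℝ) = t := by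
      have : t / 2 + (t - t / 2) = t := by omega
      exact_mod_cast this
    rw [h6]
    linear_combination (-2 * c ^ 2) * h7
  have hxM : x ∈ M := by
    rw [hM]
    exact Or.inl hxk
  have hyM : y ∈ M := by
    rw [hM]
    exact Or.inl hyk
  have hzM : z ∈ M := by
    rw [hM]
    exact Or.inr hzk
  obtain ⟨g, hg, hgi⟩ := hH ![x, y] ![x, z] (by
    intro i
    fin_cases i
    · exact hxM
    · exact hyM) (by
    intro i
    fin_cases i
    · exact hxM
    · exact hzM) (by
    intro i j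
    fin_cases i <;> fin_cases j
    · simp
    · exact hdist
    · change dist y x = dist z x
      rw [dist_comm y x, dist_comm z x]
      exact hdist
    · simp)
  have hgx : g x = x := hgi 0
  have hgy : g y = z := hgi 1
  have hsum : ∀ w ∈ hyps n k c, ∑ i, w i = 0 :=
    (hInv n c).2.2.2.2.2.2.2.2.2.2.2.1 k hn (by omega)
  have hperm : PermInv (hyps n k c) := (hInv n c).2.2.2.2.1 k
  have hneg : ∀ w ∈ hyps n k c, -w ∈ hyps n k (-c) := (hInv n c).2.2.2.2.2.2.2.1 k
  obtain ⟨σ, h | h⟩ := hG g hg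
  · have h1 : z = pm σ y := by rw [← hgy, h y (hsum y hyk)]
    exact disj k c hc hk hkn z (h1 ▸ hperm σ y hyk) hzk
  · have h1 : x = -pm σ x := by
      conv_lhs => rw [← hgx]
      rw [h x (hsum x hxk)]
    exact disj k c hc hk hkn x hxk (by
      rw [h1]
      exact hneg _ (hperm σ x hxk))

end ClsA2x

open ClsA2x Finset in
theorem thm_ClsA2 (hInv : St_Inv) : St_ClsA2 := by
  classical
  intro n M hn hfin hperm hsum hex hG hH htwo
  obtain ⟨x, hx, hx0⟩ := hex
  have hn0 : (0 : ℝ) < n := by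
    have : 0 < n := by omega
    exact_mod_cast this
  -- two different values
  obtain ⟨i0, j0, hij⟩ : ∃ i j, x j < x i := by
    by_contra hcon
    push Not at hcon
    have hconst : ∀ i j, x i = x j := fun i j => le_antisymm (hcon i j) (hcon j i)
    apply hx0
    ext i
    have h1 := hsum x hx
    rw [Finset.sum_congr rfl fun j _ => hconst j i, Finset.sum_const, Finset.card_univ,
      Fintype.card_fin, nsmul_eq_mul] at h1
    rcases mul_eq_zero.1 h1 with h | h
    · exact absurd h hn0.ne'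
    · exact h
  set a : ℝ := x i0 with ha
  set b : ℝ := x j0 with hb
  set A : Finset (Fin n) := univ.filter fun l => x l = a with hA
  have hval : ∀ l, x l = if l ∈ A then a else b := by
    intro l
    by_cases h : x l = a
    · rw [if_pos (by rw [hA, mem_filter]; exact ⟨mem_univ _, h⟩)]
      exact h
    · rw [if_neg (by rw [hA, mem_filter]; exact fun h' => h h'.2)]
      rcases htwo x hx i0 j0 l with h1 | h1 | h1
      · exact absurd h1 hij.ne'
      · exact h1.symm
      · exact absurd h1.symm h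
  set k : ℕ := A.card with hk
  set c : ℝ := a - b with hcdef
  have hc : 0 < c := by rw [hcdef]; linarith
  have hk1 : 1 ≤ k := by
    rw [hk, Nat.one_le_iff_ne_zero, Finset.card_ne_zero]
    exact ⟨i0, by rw [hA, mem_filter]; exact ⟨mem_univ _, rfl⟩⟩
  have hkn : k < n := by
    have h1 : A ⊂ univ := by
      rw [Finset.ssubset_univ_iff]
      intro h
      have h2 : j0 ∈ A := by rw [h]; exact mem_univ _
      rw [hA, mem_filter] at h2
      exact hij.ne h2.2
    have h2 := Finset.card_lt_card h1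
    rwa [Finset.card_univ, Fintype.card_fin] at h2
  have hab : (k : ℝ) * a + ((n : ℝ) - k) * b = 0 := by
    have h1 := hsum x hx
    have h2 : ∀ l, x l = b + c * (if l ∈ A then (1 : ℝ) else 0) := by
      intro l
      rw [hval l]
      split_ifs
      · rw [hcdef]; ring
      · ring
    rw [Finset.sum_congr rfl fun l _ => h2 l, Finset.sum_add_distrib, Finset.sum_const,
      Finset.card_univ, Fintype.card_fin, nsmul_eq_mul, ← Finset.mul_sum, sum_ind, ← hk] at h1
    rw [hcdef] at h1
    linear_combination h1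
  have hxk : x ∈ hyps n k c := by
    refine ⟨A, rfl, fun l => ?_⟩
    rw [hval l]
    have h1 : c * ((k : ℝ) / n) = -b := by
      rw [← mul_div_assoc, div_eq_iff hn0.ne', hcdef]
      linear_combination hab
    split_ifs
    · have : c * (1 - (k : ℝ) / n) = c - c * ((k : ℝ) / n) := by ring
      rw [this, h1, hcdef]
      ring
    · have : c * (0 - (k : ℝ) / n) = -(c * ((k : ℝ) / n)) := by ring
      rw [this, h1]
      ring
  have hsub := hyps_sub hperm k c x hx hxk
  -- the orbit
  have horb : ∀ y ∈ M, y ∈ hyps n k c ∨ y ∈ hyps n k (-c) := by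
    intro y hy
    obtain ⟨g, hg, hgi⟩ := hH ![x, x] ![y, y] (by
      intro i
      fin_cases i <;> exact hx) (by
      intro i
      fin_cases i <;> exact hy) (by
      intro i j
      fin_cases i <;> fin_cases j <;> simp)
    have hgx : g x = y := hgi 0
    obtain ⟨σ, h | h⟩ := hG g hg
    · left
      rw [← hgx, h x (hsum x hx)]
      exact (hInv n c).2.2.2.2.1 k σ x hxk
    · right
      rw [← hgx, h x (hsum x hx)]
      exact (hInv n c).2.2.2.2.2.2.2.1 k _ ((hInv n c).2.2.2.2.1 k σ x hxk)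
  refine ⟨c, hc, ?_⟩
  by_cases hall : M ⊆ hyps n k c
  · left
    exact ⟨k, hk1, hkn, Set.Subset.antisymm hall hsub⟩
  right
  rw [Set.not_subset] at hall
  obtain ⟨y, hy, hyk⟩ := hall
  have hyk' : y ∈ hyps n k (-c) := (horb y hy).resolve_left hyk
  have hsub' := hyps_sub hperm k (-c) y hy hyk'
  have hM : M = hyps n k c ∪ hyps n k (-c) :=
    Set.Subset.antisymm (fun y hy => horb y hy) (Set.union_subset hsub hsub')
  have hcomp : ∀ c' : ℝ, ∀ k' : ℕ, k' ≤ n → hyps n (n - k') c' = hyps n k' (-c') := by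
    intro c' k' hk'
    exact (hInv n c').2.2.2.2.2.2.2.2.2.2.1 k' hk' (by omega)
  rcases lt_trichotomy (2 * k) n with h | h | h
  · exact ⟨k, hk1, h, not_dvd k c hc hk1 h hInv hG hH hM, hM⟩
  · exfalso
    apply hyk
    have h1 := hcomp c k hkn.le
    have h2 : n - k = k := by omega
    rw [h2] at h1
    rw [h1]
    exact hyk'
  · have h1 := hcomp c k hkn.le
    have h2 := hcomp (-c) k hkn.le
    rw [neg_neg] at h2
    have hM' : M = hyps n (n - k) c ∪ hyps n (n - k) (-c) := by
      rw [hM, h1, h2, Set.union_comm]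
    exact ⟨n - k, by omega, by omega, not_dvd (n - k) c hc (by omega) (by omega) hInv hG hH hM',
      hM'⟩

end Pool.Agent.RSP
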