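import Pool.Agent.RSP.St

/-!
# RSP, module ClsD: classification, type D, m = 2 (statement and proof: helper51; Lean: helper37)
-/

set_option autoImplicit false

noncomputable section

namespace Pool.Agent.RSP

namespace ClsDx

variable {n : ℕ}

/-- signed permutations preserve symmetric properties of pairs of coordinates -/
theorem exists_pair {g : E n → E n} (hg : IsSP g) (p : ℝ → ℝ → Prop)
    (hp : ∀ a b, p a b → p (-a) (-b)) (x y : E n) (h : ∃ i, p (x i) (y i)) :
    ∃ i, p (g x i) (g y i) := by
  obtain ⟨σ, ε, hε, hσ⟩ := hg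
  obtain ⟨i, hi⟩ := h
  refine ⟨σ.symm i, ?_⟩
  rw [hσ, hσ, Equiv.apply_symm_apply]
  rcases hε (σ.symm i) with h | h
  · rw [h, one_mul, one_mul]
    exact hi
  · rw [h, neg_one_mul, neg_one_mul]
    exact hp _ _ hi

theorem trans2 {M : Set (E n)} (hG : GHom 2 M) (hS : ∀ g ∈ Gp M, IsSP g) {x y z : E n}
    (hx : x ∈ M) (hy : y ∈ M) (hz : z ∈ M) (h : ∑ i, (x i - y i) ^ 2 = ∑ i, (x i - z i) ^ 2) :
    ∃ g : E n → E n, IsSP g ∧ g x = x ∧ g y = z := by
  have hd : dist x y = dist x z := (dist_eq_iff x y x z).2 h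
  obtain ⟨g, hg, hgx⟩ := hG ![x, y] ![x, z] (by
    intro i
    fin_cases i
    · exact hx
    · exact hy) (by
    intro i
    fin_cases i
    · exact hx
    · exact hz) (by
    intro i j
    fin_cases i <;> fin_cases j
    · simp
    · simpa using hd
    · simpa [dist_comm] using hd
    · simp)
  exact ⟨g, hS g hg, hgx 0, hgx 1⟩

theorem trans1 {M : Set (E n)} (hG : GHom 2 M) (hS : ∀ g ∈ Gp M, IsSP g) {x y : E n}
    (hx : x ∈ M) (hy : y ∈ M) : ∃ g : E n → E n, IsSP g ∧ g x = y := by
  obtain ⟨g, hg, hgx⟩ := hG ![x, x] ![y, y] (by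
    intro i
    fin_cases i <;> exact hx) (by
    intro i
    fin_cases i <;> exact hy) (by
    intro i j
    fin_cases i <;> fin_cases j <;> simp)
  exact ⟨g, hS g hg, hgx 0⟩

/-- sums with at most three nonzero terms of the difference -/
theorem exists_third (hn : 5 ≤ n) (i j : Fin n) : ∃ l, l ≠ i ∧ l ≠ j := by
  by_contra h
  push Not at h
  have h1 : (Finset.univ : Finset (Fin n)) ⊆ {i, j} := by
    intro l _
    by_cases hl : l = i
    · simp [hl]
    · simp [h l hl]
  have h2 := Finset.card_le_card h1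
  have h3 : ({i, j} : Finset (Fin n)).card ≤ 2 := Finset.card_le_two
  simp only [Finset.card_univ, Fintype.card_fin] at h2
  omega

theorem sum_split3 (f : Fin n → ℝ) {i j l : Fin n} (hij : i ≠ j) (hli : l ≠ i) (hlj : l ≠ j) :
    ∑ t, f t = f i + f j + f l + ∑ t ∈ (((Finset.univ.erase i).erase j).erase l), f t := by
  rw [← Finset.add_sum_erase Finset.univ f (Finset.mem_univ i),
    ← Finset.add_sum_erase (Finset.univ.erase i) f
      (Finset.mem_erase.2 ⟨hij.symm, Finset.mem_univ j⟩),
    ← Finset.add_sum_erase ((Finset.univ.erase i).erase j) f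
      (Finset.mem_erase.2 ⟨hlj, Finset.mem_erase.2 ⟨hli, Finset.mem_univ l⟩⟩)]
  ring

/-- (1) all nonzero coordinates have the same absolute value -/
theorem same_abs {M : Set (E n)} (hn : 5 ≤ n) (hP : PermInv M) (hE : EvenInv M)
    (hS : ∀ g ∈ Gp M, IsSP g) (hG : GHom 2 M) {x : E n} (hx : x ∈ M) {i j : Fin n}
    (hi : x i ≠ 0) (hj : x j ≠ 0) : |x i| = |x j| := by
  classical
  by_contra hne
  have hij : i ≠ j := by
    rintro rfl
    exact hne rfl
  have hab : x i ≠ x j := fun h => hne (by rw [h])
  have hab' : x i ≠ -x j := fun h => hne (by rw [h, abs_neg])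
  obtain ⟨l, hli, hlj⟩ := exists_third hn i j
  obtain ⟨w, hw⟩ : ∃ w : E n, w = pm (Equiv.swap i j) x := ⟨_, rfl⟩
  have hwM : w ∈ M := hw ▸ hP _ _ hx
  have hwi : w i = x j := by rw [hw, pm_apply, Equiv.swap_apply_left]
  have hwj : w j = x i := by rw [hw, pm_apply, Equiv.swap_apply_right]
  have hwo : ∀ t, t ≠ i → t ≠ j → w t = x t := by
    intro t h1 h2
    rw [hw, pm_apply, Equiv.swap_apply_of_ne_of_ne h1 h2]
  have hc1 : Even ({i, l} : Finset (Fin n)).card := by
    rw [Finset.card_pair hli.symm]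
    exact even_two
  have hc2 : Even ({j, l} : Finset (Fin n)).card := by
    rw [Finset.card_pair hlj.symm]
    exact even_two
  obtain ⟨y, hy⟩ : ∃ y : E n, y = sg {i, l} w := ⟨_, rfl⟩
  obtain ⟨z, hz⟩ : ∃ z : E n, z = sg {j, l} w := ⟨_, rfl⟩
  have hyM : y ∈ M := hy ▸ hE _ hc1 _ hwM
  have hzM : z ∈ M := hz ▸ hE _ hc2 _ hwM
  have hyi : y i = -x j := by
    rw [hy, sg_apply, if_pos (by simp), hwi]
  have hyj : y j = x i := by
    rw [hy, sg_apply, if_neg (by simp [hij.symm, hlj.symm]), hwj]
  have hyl : y l = -x l := by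
    rw [hy, sg_apply, if_pos (by simp), hwo l hli hlj]
  have hyo : ∀ t, t ≠ i → t ≠ j → t ≠ l → y t = x t := by
    intro t h1 h2 h3
    rw [hy, sg_apply, if_neg (by simp [h1, h3]), hwo t h1 h2]
  have hzi : z i = x j := by
    rw [hz, sg_apply, if_neg (by simp [hij, hli.symm]), hwi]
  have hzj : z j = -x i := by
    rw [hz, sg_apply, if_pos (by simp), hwj]
  have hzl : z l = -x l := by
    rw [hz, sg_apply, if_pos (by simp), hwo l hli hlj]
  have hzo : ∀ t, t ≠ i → t ≠ j → t ≠ l → z t = x t := by
    intro t h1 h2 h3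
    rw [hz, sg_apply, if_neg (by simp [h2, h3]), hwo t h1 h2]
  have hsum : ∑ t, (x t - y t) ^ 2 = ∑ t, (x t - z t) ^ 2 := by
    rw [sum_split3 (fun t => (x t - y t) ^ 2) hij hli hlj,
      sum_split3 (fun t => (x t - z t) ^ 2) hij hli hlj]
    have h1 : ∑ t ∈ (((Finset.univ.erase i).erase j).erase l), (x t - y t) ^ 2 =
        ∑ t ∈ (((Finset.univ.erase i).erase j).erase l), (x t - z t) ^ 2 := by
      refine Finset.sum_congr rfl ?_
      intro t ht
      simp only [Finset.mem_erase, Finset.mem_univ, and_true] at ht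
      rw [hyo t ht.2.2 ht.2.1 ht.1, hzo t ht.2.2 ht.2.1 ht.1]
    rw [h1, hyi, hyj, hyl, hzi, hzj, hzl]
    ring
  obtain ⟨g, hg, hgx, hgy⟩ := trans2 hG hS hx hyM hzM hsum
  obtain ⟨t, ht⟩ := exists_pair hg (fun u v => (u = x i ∧ v = -x j) ∨ (u = -x i ∧ v = x j)) (by
    rintro a b (⟨h1, h2⟩ | ⟨h1, h2⟩)
    · right
      exact ⟨by rw [h1], by rw [h2, neg_neg]⟩
    · left
      exact ⟨by rw [h1, neg_neg], by rw [h2]⟩) x y ⟨i, Or.inl ⟨rfl, hyi⟩⟩
  rw [hgx, hgy] at ht
  by_cases h1 : t = i
  · subst h1
    rw [hzi] at ht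
    rcases ht with ht | ht
    · exact hj (by linarith [ht.2])
    · exact hi (by linarith [ht.1])
  by_cases h2 : t = j
  · subst h2
    rcases ht with ht | ht
    · exact hab ht.1.symm
    · exact hab' (by linarith [ht.1])
  by_cases h3 : t = l
  · subst h3
    rw [hzl] at ht
    rcases ht with ht | ht
    · exact hab (by linarith [ht.1, ht.2])
    · exact hab (by linarith [ht.1, ht.2])
  rw [hzo t h1 h2 h3] at ht
  rcases ht with ht | ht
  · exact hab' (by linarith [ht.1, ht.2])
  · exact hab' (by linarith [ht.1, ht.2])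

/-- (2) two zeros and two nonzero coordinates are impossible -/
theorem no_mid {M : Set (E n)} (hP : PermInv M) (hE : EvenInv M)
    (hS : ∀ g ∈ Gp M, IsSP g) (hG : GHom 2 M) {x : E n} (hx : x ∈ M) {i j p q : Fin n}
    (hij : i ≠ j) (hpq : p ≠ q) (hi : x i ≠ 0) (hj : x j ≠ 0) (hp : x p = 0) (hq : x q = 0)
    (hab : |x i| = |x j|) : False := by
  classical
  have hip : i ≠ p := by
    rintro rfl
    exact hi hp
  have hiq : i ≠ q := by
    rintro rfl
    exact hi hq
  have hjp : j ≠ p := by
    rintro rfl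
    exact hj hp
  have hjq : j ≠ q := by
    rintro rfl
    exact hj hq
  have hsq : x i ^ 2 = x j ^ 2 := by
    rw [← sq_abs (x i), ← sq_abs (x j), hab]
  have hc : Even ({j, p} : Finset (Fin n)).card := by
    rw [Finset.card_pair hjp]
    exact even_two
  obtain ⟨y, hy⟩ : ∃ y : E n, y = sg {j, p} x := ⟨_, rfl⟩
  have hyM : y ∈ M := hy ▸ hE _ hc _ hx
  obtain ⟨z, hz⟩ : ∃ z : E n, z = pm (Equiv.swap i p) (pm (Equiv.swap j q) x) := ⟨_, rfl⟩
  have hzM : z ∈ M := hz ▸ hP _ _ (hP _ _ hx)
  have hyj : y j = -x j := by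
    rw [hy, sg_apply, if_pos (by simp)]
  have hyp : y p = 0 := by
    rw [hy, sg_apply, if_pos (by simp), hp, neg_zero]
  have hyo : ∀ t, t ≠ j → y t = x t := by
    intro t h1
    by_cases h2 : t = p
    · rw [h2, hyp, hp]
    · rw [hy, sg_apply, if_neg (by simp [h1, h2])]
  have hzi : z i = 0 := by
    rw [hz, pm_apply, pm_apply, Equiv.swap_apply_left, Equiv.swap_apply_of_ne_of_ne hjp.symm hpq, hp]
  have hzj : z j = 0 := by
    rw [hz, pm_apply, pm_apply, Equiv.swap_apply_of_ne_of_ne hij.symm hjp, Equiv.swap_apply_left, hq]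
  have hzp : z p = x i := by
    rw [hz, pm_apply, pm_apply, Equiv.swap_apply_right, Equiv.swap_apply_of_ne_of_ne hij hiq]
  have hzq : z q = x j := by
    rw [hz, pm_apply, pm_apply, Equiv.swap_apply_of_ne_of_ne hiq.symm hpq.symm,
      Equiv.swap_apply_right]
  have hzo : ∀ t, t ≠ i → t ≠ j → t ≠ p → t ≠ q → z t = x t := by
    intro t h1 h2 h3 h4
    rw [hz, pm_apply, pm_apply, Equiv.swap_apply_of_ne_of_ne h1 h3,
      Equiv.swap_apply_of_ne_of_ne h2 h4]
  have hsum : ∑ t, (x t - y t) ^ 2 = ∑ t, (x t - z t) ^ 2 := by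
    rw [sum_split3 (fun t => (x t - y t) ^ 2) hij hip.symm hjp.symm,
      sum_split3 (fun t => (x t - z t) ^ 2) hij hip.symm hjp.symm]
    have hqm : q ∈ (((Finset.univ.erase i).erase j).erase p) := by
      simp only [Finset.mem_erase, Finset.mem_univ, and_true]
      exact ⟨hpq.symm, hjq.symm, hiq.symm⟩
    have h0 := hyo q hjq.symm
    have h1 : ∑ t ∈ ((((Finset.univ.erase i).erase j).erase p).erase q), (x t - y t) ^ 2 =
        ∑ t ∈ ((((Finset.univ.erase i).erase j).erase p).erase q), (x t - z t) ^ 2 := by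
      refine Finset.sum_congr rfl ?_
      intro t ht
      simp only [Finset.mem_erase, Finset.mem_univ, and_true] at ht
      rw [hyo t ht.2.2.1, hzo t ht.2.2.2 ht.2.2.1 ht.2.1 ht.1]
    rw [← Finset.add_sum_erase _ (fun t => (x t - y t) ^ 2) hqm,
      ← Finset.add_sum_erase _ (fun t => (x t - z t) ^ 2) hqm, h1, hyj, hyp, hzi, hzj, hzp, hzq,
      h0, hp, hq, hyo i hij]
    nlinarith [hsq]
  obtain ⟨g, hg, hgx, hgy⟩ := trans2 hG hS hx hyM hzM hsum
  obtain ⟨σ, ε, hε, hσ⟩ := hg
  have hεi : ε i ≠ 0 := by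
    rcases hε i with h | h <;> rw [h] <;> norm_num
  have h1 : ε i * y (σ i) = 0 := by rw [← hσ, hgy, hzi]
  have h2 : y (σ i) = 0 := (mul_eq_zero.1 h1).resolve_left hεi
  have h3 : x (σ i) = 0 := by
    by_cases h : σ i = j
    · rw [h, hyj] at h2
      exact absurd (neg_eq_zero.1 h2) hj
    · rw [← hyo _ h]
      exact h2
  have h4 : x i = 0 := by
    rw [← hgx, hσ, h3, mul_zero]
  exact hi h4

/-- the product of the coordinates determines the orbit under even sign changes -/
theorem mem_of_prod {M : Set (E n)} (hE : EvenInv M) {c : ℝ} (hc : 0 < c) {x y : E n} (hx : x ∈ M)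
    (hxc : ∀ i, x i = c ∨ x i = -c) (hyc : ∀ i, y i = c ∨ y i = -c)
    (h : ∏ i, x i = ∏ i, y i) : y ∈ M := by
  classical
  obtain ⟨S, hS⟩ : ∃ S : Finset (Fin n), S = Finset.univ.filter fun i => y i ≠ x i := ⟨_, rfl⟩
  have hyS : ∀ i, y i = (if i ∈ S then -1 else 1) * x i := by
    intro i
    by_cases hi : y i = x i
    · have : i ∉ S := by
        rw [hS]
        simp [hi]
      rw [if_neg this, one_mul, hi]
    · have : i ∈ S := by
        rw [hS]
        simp [hi]
      rw [if_pos this]
      rcases hxc i with h1 | h1 <;> rcases hyc i with h2 | h2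
      · exact absurd (h2.trans h1.symm) hi
      · rw [h1, h2]
        ring
      · rw [h1, h2]
        ring
      · exact absurd (h2.trans h1.symm) hi
  have hprod : ∏ i, y i = (-1) ^ S.card * ∏ i, x i := by
    rw [Finset.prod_congr rfl (fun i _ => hyS i), Finset.prod_mul_distrib]
    congr 1
    rw [Finset.prod_ite_mem, Finset.univ_inter, Finset.prod_const]
  have hne : ∏ i, x i ≠ 0 := by
    refine Finset.prod_ne_zero_iff.2 ?_
    intro i _
    rcases hxc i with h1 | h1
    · rw [h1]
      exact hc.ne'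
    · rw [h1]
      exact neg_ne_zero.2 hc.ne'
  have hone : ((-1 : ℝ)) ^ S.card = 1 := by
    rw [← h] at hprod
    have h3 : ((-1 : ℝ) ^ S.card - 1) * ∏ i, x i = 0 := by linarith
    rcases mul_eq_zero.1 h3 with h4 | h4
    · linarith
    · exact absurd h4 hne
  have hev : Even S.card := by
    by_contra hodd
    rw [Nat.not_even_iff_odd] at hodd
    rw [hodd.neg_one_pow] at hone
    norm_num at hone
  have hyx : y = sg S x := by
    ext i
    rw [sg_apply, hyS i]
    split_ifs
    · ring
    · ring
  rw [hyx]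
  exact hE S hev x hx

theorem prod_cases {c : ℝ} (hc : 0 < c) {x : E n} (hxc : ∀ i, x i = c ∨ x i = -c) :
    ∏ i, x i = 1 * c ^ n ∨ ∏ i, x i = -1 * c ^ n := by
  have h1 : |∏ i, x i| = |c ^ n| := by
    rw [Finset.abs_prod, abs_of_pos (pow_pos hc n)]
    have : ∀ i ∈ (Finset.univ : Finset (Fin n)), |x i| = c := by
      intro i _
      rcases hxc i with h | h
      · rw [h, abs_of_pos hc]
      · rw [h, abs_neg, abs_of_pos hc]
    rw [Finset.prod_congr rfl this, Finset.prod_const, Finset.card_univ, Fintype.card_fin]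
  rcases abs_eq_abs.1 h1 with h | h
  · left
    rw [h, one_mul]
  · right
    rw [h, neg_one_mul]

end ClsDx

open ClsDx in
/-- [ClsD] -/
theorem thm_ClsD (_ : St_Inv) : St_ClsD := by
  intro n M hn hM hP hE hne hS hG
  classical
  obtain ⟨x, hx, hx0⟩ := hne
  obtain ⟨i₀, hi₀⟩ : ∃ i, x i ≠ 0 := by
    by_contra h
    push Not at h
    exact hx0 (by ext i; simpa using h i)
  obtain ⟨c, hc⟩ : ∃ c : ℝ, c = |x i₀| := ⟨_, rfl⟩
  have hc0 : 0 < c := by
    rw [hc]
    exact abs_pos.2 hi₀
  have hxc : ∀ i, x i ≠ 0 → x i = c ∨ x i = -c := by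
    intro i hi
    have h1 := same_abs hn hP hE hS hG hx hi hi₀
    rw [← hc] at h1
    exact (abs_eq hc0.le).1 h1
  have hpm : ∀ (e a : ℝ), (e = 1 ∨ e = -1) → (a = c ∨ a = -c) → e * a = c ∨ e * a = -c := by
    rintro e a (rfl | rfl) (rfl | rfl)
    · left; ring
    · right; ring
    · right; ring
    · left; ring
  refine ⟨c, hc0, ?_⟩
  by_cases hA : ∀ i, i ≠ i₀ → x i = 0
  · -- cross
    left
    apply Set.eq_of_subset_of_subset
    · intro y hy
      obtain ⟨g, ⟨σ, ε, hε, hσ⟩, hgx⟩ := trans1 hG hS hx hy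
      refine ⟨σ.symm i₀, ?_, ?_⟩
      · rw [← hgx, hσ, Equiv.apply_symm_apply]
        exact hpm _ _ (hε _) (hxc _ hi₀)
      · intro j hj
        rw [← hgx, hσ, hA (σ j) (fun h => hj (by rw [← h, Equiv.symm_apply_apply])), mul_zero]
    · rintro y ⟨i, hi, hyo⟩
      obtain ⟨w, hw⟩ : ∃ w : E n, w = pm (Equiv.swap i i₀) x := ⟨_, rfl⟩
      have hwM : w ∈ M := hw ▸ hP _ _ hx
      have hwi : w i = x i₀ := by rw [hw, pm_apply, Equiv.swap_apply_left]
      have hwo : ∀ t, t ≠ i → w t = 0 := by
        intro t ht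
        rw [hw, pm_apply]
        refine hA _ ?_
        intro h
        apply ht
        rw [Equiv.swap_apply_eq_iff, Equiv.swap_apply_right] at h
        exact h
      by_cases hyi : y i = x i₀
      · have : y = w := by
          ext t
          by_cases ht : t = i
          · rw [ht, hyi, hwi]
          · rw [hyo t ht, hwo t ht]
        rw [this]
        exact hwM
      · have hyi' : y i = -x i₀ := by
          rcases hi with h1 | h1 <;> rcases hxc i₀ hi₀ with h2 | h2
          · exact absurd (h1.trans h2.symm) hyi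
          · rw [h1, h2, neg_neg]
          · rw [h1, h2]
          · exact absurd (h1.trans h2.symm) hyi
        obtain ⟨j, hji, -⟩ := exists_third hn i i
        have hcard : Even ({i, j} : Finset (Fin n)).card := by
          rw [Finset.card_pair hji.symm]
          exact even_two
        have : y = sg {i, j} w := by
          ext t
          rw [sg_apply]
          by_cases ht : t = i
          · rw [if_pos (by simp [ht]), ht, hyi', hwi]
          · rw [hyo t ht, hwo t ht, neg_zero, ite_self]
        rw [this]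
        exact hE _ hcard _ hwM
  · right
    push Not at hA
    obtain ⟨i₁, hi₁, hi₁'⟩ := hA
    have hz : ∀ p q, x p = 0 → x q = 0 → p = q := by
      intro p q hp hq
      by_contra hpq
      exact no_mid hP hE hS hG hx hi₁ hpq hi₁' hi₀ hp hq
        (same_abs hn hP hE hS hG hx hi₁' hi₀)
    by_cases hB : ∃ p, x p = 0
    · -- rect
      right; right; right
      obtain ⟨p, hp⟩ := hB
      have hxo : ∀ j, j ≠ p → x j = c ∨ x j = -c := fun j hj => hxc j (fun h => hj (hz j p h hp))
      apply Set.eq_of_subset_of_subset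
      · intro y hy
        obtain ⟨g, ⟨σ, ε, hε, hσ⟩, hgx⟩ := trans1 hG hS hx hy
        refine ⟨σ.symm p, ?_, ?_⟩
        · rw [← hgx, hσ, Equiv.apply_symm_apply, hp, mul_zero]
        · intro j hj
          rw [← hgx, hσ]
          exact hpm _ _ (hε _) (hxo (σ j) (fun h => hj (by rw [← h, Equiv.symm_apply_apply])))
      · rintro y ⟨i, hi, hyo⟩
        obtain ⟨w, hw⟩ : ∃ w : E n, w = pm (Equiv.swap i p) x := ⟨_, rfl⟩
        have hwM : w ∈ M := hw ▸ hP _ _ hx
        have hwi : w i = 0 := by rw [hw, pm_apply, Equiv.swap_apply_left, hp]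
        have hwo : ∀ t, t ≠ i → w t = c ∨ w t = -c := by
          intro t ht
          rw [hw, pm_apply]
          refine hxo _ ?_
          intro h
          apply ht
          rw [Equiv.swap_apply_eq_iff, Equiv.swap_apply_right] at h
          exact h
        obtain ⟨S, hSd⟩ : ∃ S : Finset (Fin n), S = Finset.univ.filter fun t => y t ≠ w t :=
          ⟨_, rfl⟩
        have hiS : i ∉ S := by
          rw [hSd]
          simp [hi, hwi]
        have hyS : ∀ t, y t = if t ∈ S then -w t else w t := by
          intro t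
          by_cases hti : t = i
          · rw [hti, if_neg hiS, hi, hwi]
          by_cases ht : y t = w t
          · have : t ∉ S := by
              rw [hSd]
              simp [ht]
            rw [if_neg this, ht]
          · have : t ∈ S := by
              rw [hSd]
              simp [ht]
            rw [if_pos this]
            rcases hwo t hti with h1 | h1 <;> rcases hyo t hti with h2 | h2
            · exact absurd (h2.trans h1.symm) ht
            · rw [h1, h2]
            · rw [h1, h2, neg_neg]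
            · exact absurd (h2.trans h1.symm) ht
        by_cases hev : Even S.card
        · have : y = sg S w := by
            ext t
            rw [sg_apply, hyS t]
          rw [this]
          exact hE _ hev _ hwM
        · have hev' : Even (insert i S).card := by
            rw [Finset.card_insert_of_notMem hiS]
            rw [Nat.not_even_iff_odd] at hev
            exact hev.add_one
          have : y = sg (insert i S) w := by
            ext t
            rw [sg_apply, hyS t]
            by_cases hti : t = i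
            · rw [hti, if_neg hiS, if_pos (Finset.mem_insert_self i S), hwi, neg_zero]
            · simp only [Finset.mem_insert, hti, false_or]
          rw [this]
          exact hE _ hev' _ hwM
    · -- cube or half
      push Not at hB
      have hxa : ∀ i, x i = c ∨ x i = -c := fun i => hxc i (hB i)
      have hall : ∀ y ∈ M, ∀ i, y i = c ∨ y i = -c := by
        intro y hy i
        obtain ⟨g, ⟨σ, ε, hε, hσ⟩, hgx⟩ := trans1 hG hS hx hy
        rw [← hgx, hσ]
        exact hpm _ _ (hε _) (hxa (σ i))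
      -- the parity classes
      have hhalf : ∀ e : ℝ, (∃ y ∈ M, ∏ i, y i = e * c ^ n) → half n c e ⊆ M := by
        rintro e ⟨y, hy, hyp⟩ z ⟨hz1, hz2⟩
        exact mem_of_prod hE hc0 hy (hall y hy) hz1 (hyp.trans hz2.symm)
      by_cases h1 : ∃ y ∈ M, ∏ i, y i = 1 * c ^ n
      · by_cases h2 : ∃ y ∈ M, ∏ i, y i = -1 * c ^ n
        · left
          apply Set.eq_of_subset_of_subset
          · exact hall
          · intro y hy
            rcases prod_cases hc0 (x := y) hy with h | h
            · exact hhalf 1 h1 ⟨hy, h⟩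
            · exact hhalf (-1) h2 ⟨hy, h⟩
        · right; left
          apply Set.eq_of_subset_of_subset
          · intro y hy
            refine ⟨hall y hy, ?_⟩
            rcases prod_cases hc0 (hall y hy) with h | h
            · exact h
            · exact absurd ⟨y, hy, h⟩ h2
          · exact hhalf 1 h1
      · right; right; left
        have hneg : ∀ y ∈ M, ∏ i, y i = -1 * c ^ n := by
          intro y hy
          rcases prod_cases hc0 (hall y hy) with h | h
          · exact absurd ⟨y, hy, h⟩ h1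
          · exact h
        apply Set.eq_of_subset_of_subset
        · intro y hy
          exact ⟨hall y hy, hneg y hy⟩
        · exact hhalf (-1) ⟨x, hx, hneg x hx⟩

end Pool.Agent.RSP
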