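import Pool.Agent.RSP.St

/-!
# RSP/Cross (helper52): the cross-polytope is `m`-point homogeneous for all `m`
-/

set_option autoImplicit false

noncomputable section

namespace Pool.Agent.RSP

namespace Crossx

private theorem form {n : ℕ} {c : ℝ} {x : E n} (hx : x ∈ cross n c) :
    ∃ (a : Fin n) (s : ℝ), (s = 1 ∨ s = -1) ∧ ∀ l, x l = if l = a then s * c else 0 := by
  obtain ⟨a, ha, h0⟩ := hx
  rcases ha with ha | ha
  · refine ⟨a, 1, Or.inl rfl, fun l => ?_⟩
    by_cases h : l = a
    · rw [if_pos h, h, ha, one_mul]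
    · rw [if_neg h, h0 l h]
  · refine ⟨a, -1, Or.inr rfl, fun l => ?_⟩
    by_cases h : l = a
    · rw [if_pos h, h, ha, neg_one_mul]
    · rw [if_neg h, h0 l h]

private theorem sqd {n : ℕ} {c : ℝ} {x y : E n} {a b : Fin n} {s t : ℝ}
    (hs : s = 1 ∨ s = -1) (ht : t = 1 ∨ t = -1)
    (hx : ∀ l, x l = if l = a then s * c else 0) (hy : ∀ l, y l = if l = b then t * c else 0) :
    ∑ l, (x l - y l) ^ 2 = 2 * c ^ 2 - 2 * c ^ 2 * (if a = b then s * t else 0) := by
  have hs2 : s * s = 1 := by rcases hs with h | h <;> rw [h] <;> norm_num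
  have ht2 : t * t = 1 := by rcases ht with h | h <;> rw [h] <;> norm_num
  have e1 : ∀ l, (x l - y l) ^ 2 = (if l = a then c ^ 2 else 0) + (if l = b then c ^ 2 else 0) -
      2 * c ^ 2 * (if l = a then (if a = b then s * t else 0) else 0) := by
    intro l
    rw [hx l, hy l]
    by_cases h1 : l = a
    · by_cases h2 : l = b
      · have h3 : a = b := h1.symm.trans h2
        rw [if_pos h1, if_pos h2, if_pos h1, if_pos h2, if_pos h1, if_pos h3]
        linear_combination c ^ 2 * hs2 + c ^ 2 * ht2
      · have h3 : a ≠ b := fun h => h2 (h1.trans h)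
        rw [if_pos h1, if_neg h2, if_pos h1, if_neg h2, if_pos h1, if_neg h3]
        linear_combination c ^ 2 * hs2
    · by_cases h2 : l = b
      · rw [if_neg h1, if_pos h2, if_neg h1, if_pos h2, if_neg h1]
        linear_combination c ^ 2 * ht2
      · rw [if_neg h1, if_neg h2, if_neg h1, if_neg h2, if_neg h1]
        ring
  rw [Finset.sum_congr rfl fun l _ => e1 l, Finset.sum_sub_distrib, Finset.sum_add_distrib,
    ← Finset.mul_sum]
  simp only [Finset.sum_ite_eq', Finset.mem_univ, if_true]
  ring

private theorem sgn {x y z w : ℝ} (hx : x = 1 ∨ x = -1) (hy : y = 1 ∨ y = -1)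
    (hz : z = 1 ∨ z = -1) (hw : w = 1 ∨ w = -1) (h : x * z = y * w) : x * y = z * w := by
  rcases hx with rfl | rfl <;> rcases hy with rfl | rfl <;> rcases hz with rfl | rfl <;>
    rcases hw with rfl | rfl <;> linarith

private theorem extend {n m : ℕ} (a b : Fin m → Fin n) (h : ∀ i j, a i = a j ↔ b i = b j) :
    ∃ σ : Equiv.Perm (Fin n), ∀ i, σ (b i) = a i := by
  classical
  set f : Fin n → Fin n := fun l => if h : ∃ i, b i = l then a h.choose else l with hf
  have hfb : ∀ i, f (b i) = a i := by
    intro i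
    have hex : ∃ i', b i' = b i := ⟨i, rfl⟩
    simp only [hf]
    rw [dif_pos hex]
    exact (h _ _).2 hex.choose_spec
  obtain ⟨g, hg⟩ := Finset.exists_equiv_extend_of_card_eq (α := Fin n) (β := Fin n)
    (t := Finset.univ) (by simp) (s := Finset.univ.image b) (f := f) (Finset.subset_univ _) (by
      intro x hx y hy hxy
      obtain ⟨i, -, rfl⟩ := Finset.mem_image.1 (Finset.mem_coe.1 hx)
      obtain ⟨j, -, rfl⟩ := Finset.mem_image.1 (Finset.mem_coe.1 hy)
      rw [hfb i, hfb j] at hxy
      exact (h i j).1 hxy)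
  refine ⟨g.trans (Equiv.subtypeUnivEquiv fun x => Finset.mem_univ x), fun i => ?_⟩
  have h1 := hg (b i) (Finset.mem_image_of_mem b (Finset.mem_univ i))
  rw [hfb i] at h1
  exact h1

end Crossx

open Crossx in
theorem thm_Cross (hInv : St_Inv) : St_Cross := by
  classical
  intro n m c hc A B hA hB hd
  choose a s hs hAs using fun i => form (hA i)
  choose b t ht hBt using fun i => form (hB i)
  have hc2 : (0 : ℝ) < c ^ 2 := by positivity
  have key : ∀ i j, (if a i = a j then s i * s j else 0) = (if b i = b j then t i * t j else 0) := by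
    intro i j
    have h1 := (dist_eq_iff _ _ _ _).1 (hd i j)
    rw [sqd (hs i) (hs j) (hAs i) (hAs j), sqd (ht i) (ht j) (hBt i) (hBt j)] at h1
    have h2 : 2 * c ^ 2 * ((if a i = a j then s i * s j else 0) -
        (if b i = b j then t i * t j else 0)) = 0 := by linarith
    rcases mul_eq_zero.1 h2 with h3 | h3
    · exact absurd h3 (by positivity)
    · linarith
  have hsne : ∀ i, s i ≠ 0 := fun i => by rcases hs i with h | h <;> rw [h] <;> norm_num
  have htne : ∀ i, t i ≠ 0 := fun i => by rcases ht i with h | h <;> rw [h] <;> norm_num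
  have hab : ∀ i j, a i = a j ↔ b i = b j := by
    intro i j
    have h1 := key i j
    constructor
    · intro h
      by_contra h'
      rw [if_pos h, if_neg h'] at h1
      exact mul_ne_zero (hsne i) (hsne j) h1
    · intro h
      by_contra h'
      rw [if_neg h', if_pos h] at h1
      exact mul_ne_zero (htne i) (htne j) h1.symm
  obtain ⟨σ, hσ⟩ := extend a b hab
  set ε : Fin n → ℝ := fun l => if h : ∃ i, b i = l then s h.choose * t h.choose else 1 with hεd
  have hεb : ∀ i, ε (b i) = s i * t i := by
    intro i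
    have hex : ∃ i', b i' = b i := ⟨i, rfl⟩
    simp only [hεd]
    rw [dif_pos hex]
    have h1 : b hex.choose = b i := hex.choose_spec
    have h2 := key hex.choose i
    rw [if_pos ((hab _ _).2 h1), if_pos h1] at h2
    exact sgn (hs _) (ht _) (hs _) (ht _) h2
  have hε : ∀ i, ε i = 1 ∨ ε i = -1 := by
    intro l
    by_cases hex : ∃ i, b i = l
    · obtain ⟨i, rfl⟩ := hex
      rw [hεb i]
      rcases hs i with e3 | e3 <;> rcases ht i with e4 | e4 <;> rw [e3, e4] <;> norm_num
    · left
      simp only [hεd]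
      rw [dif_neg hex]
  refine ⟨spm σ ε hε, ((hInv n c).2.2.1 σ ε hε).1, fun i => ?_⟩
  ext l
  rw [spm_apply, hAs i, hBt i]
  by_cases h : l = b i
  · rw [if_pos h, h, hσ i, if_pos rfl, hεb i]
    have hs2 : s i * s i = 1 := by rcases hs i with h | h <;> rw [h] <;> norm_num
    linear_combination (t i * c) * hs2
  · have h1 : σ l ≠ a i := by
      intro h2
      rw [← hσ i] at h2
      exact h (σ.injective h2)
    rw [if_neg h, if_neg h1, mul_zero]

end Pool.Agent.RSP
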