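import Pool.Agent.RSP.St

/-!
# The cube and the demicube are 3-point homogeneous
-/

set_option autoImplicit false

noncomputable section

namespace Pool.Agent.RSP

namespace Cube3x

open Finset

/-- the sign of a truth value -/
def sn (b : Bool) : ℝ := if b then 1 else -1

/-- the type of a place -/
def ty {n : ℕ} (c : ℝ) (A : Fin 3 → E n) (i : Fin n) : Bool × Bool :=
  by classical exact (decide (A 1 i * A 0 i = c ^ 2), decide (A 2 i * A 0 i = c ^ 2))

theorem ty_fst {n : ℕ} (c : ℝ) (A : Fin 3 → E n) (i : Fin n) :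
    (ty c A i).1 = true ↔ A 1 i * A 0 i = c ^ 2 := by
  simp [ty]

theorem ty_snd {n : ℕ} (c : ℝ) (A : Fin 3 → E n) (i : Fin n) :
    (ty c A i).2 = true ↔ A 2 i * A 0 i = c ^ 2 := by
  simp [ty]

/-- products of two coordinates -/
theorem mul_pm {c x y : ℝ} (hx : x = c ∨ x = -c) (hy : y = c ∨ y = -c) :
    x * y = c ^ 2 ∨ x * y = -c ^ 2 := by
  rcases hx with rfl | rfl <;> rcases hy with rfl | rfl
  · left; ring
  · right; ring
  · right; ring
  · left; ring

theorem ind {c : ℝ} (hc : 0 < c) {x : ℝ} (hx : x = c ^ 2 ∨ x = -c ^ 2) (a b : Bool)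
    (hb : b = true ↔ x = c ^ 2) :
    (if b = a then (1 : ℝ) else 0) = (1 + sn a * (x / c ^ 2)) / 2 := by
  have hc2 : c ^ 2 ≠ 0 := by positivity
  have hne : -c ^ 2 ≠ c ^ 2 := by
    intro h
    have : c ^ 2 = 0 := by linarith
    exact hc2 this
  rcases hx with rfl | rfl
  · have hb1 : b = true := hb.2 rfl
    subst hb1
    rw [div_self hc2]
    cases a <;> simp [sn]
  · have hb1 : b = false := by
      cases b
      · rfl
      · exact absurd (hb.1 rfl) hne
    subst hb1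
    rw [neg_div, div_self hc2]
    cases a <;> simp [sn]

theorem ind2 {n : ℕ} {c : ℝ} (hc : 0 < c) (A : Fin 3 → E n)
    (hA : ∀ j i, A j i = c ∨ A j i = -c) (a : Bool × Bool) (i : Fin n) :
    (if ty c A i = a then (1 : ℝ) else 0)
      = (1 + sn a.1 * (A 1 i * A 0 i / c ^ 2) + sn a.2 * (A 2 i * A 0 i / c ^ 2)
        + sn a.1 * sn a.2 * (A 1 i * A 2 i / c ^ 2)) / 4 := by
  have h1 := ind hc (mul_pm (hA 1 i) (hA 0 i)) a.1 (ty c A i).1 (ty_fst c A i)
  have h2 := ind hc (mul_pm (hA 2 i) (hA 0 i)) a.2 (ty c A i).2 (ty_snd c A i)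
  have h3 : (if ty c A i = a then (1 : ℝ) else 0)
      = (if (ty c A i).1 = a.1 then (1 : ℝ) else 0) * (if (ty c A i).2 = a.2 then (1 : ℝ) else 0) := by
    by_cases h4 : (ty c A i).1 = a.1
    · by_cases h5 : (ty c A i).2 = a.2
      · rw [if_pos h4, if_pos h5, if_pos (Prod.ext h4 h5)]
        norm_num
      · rw [if_pos h4, if_neg h5, if_neg (fun h => h5 (by rw [h]))]
        norm_num
    · rw [if_neg h4, if_neg (fun h => h4 (by rw [h]))]
      norm_num
  rw [h3, h1, h2]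
  have hc2 : c ^ 2 ≠ 0 := by positivity
  have h0 : A 0 i * A 0 i = c ^ 2 := by
    rcases hA 0 i with h | h <;> rw [h] <;> ring
  have h4 : A 1 i * A 0 i / c ^ 2 * (A 2 i * A 0 i / c ^ 2) = A 1 i * A 2 i / c ^ 2 := by
    have h5 : A 1 i * A 0 i * (A 2 i * A 0 i) = A 1 i * A 2 i * c ^ 2 := by
      rw [← h0]
      ring
    rw [div_mul_div_comm, h5, mul_div_mul_right _ _ hc2]
  rw [← h4]
  ring

theorem count {n : ℕ} {c : ℝ} (hc : 0 < c) (A : Fin 3 → E n)
    (hA : ∀ j i, A j i = c ∨ A j i = -c) (a : Bool × Bool) :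
    (Nat.card {i // ty c A i = a} : ℝ)
      = ((n : ℝ) + sn a.1 * ((∑ i, A 1 i * A 0 i) / c ^ 2)
        + sn a.2 * ((∑ i, A 2 i * A 0 i) / c ^ 2)
        + sn a.1 * sn a.2 * ((∑ i, A 1 i * A 2 i) / c ^ 2)) / 4 := by
  have h1 : (Nat.card {i // ty c A i = a} : ℝ) = ∑ i, (if ty c A i = a then (1 : ℝ) else 0) := by
    rw [Nat.card_eq_fintype_card, Fintype.card_subtype, Finset.sum_boole]
  rw [h1, Finset.sum_congr rfl fun i _ => ind2 hc A hA a i, ← Finset.sum_div,
    Finset.sum_add_distrib, Finset.sum_add_distrib, Finset.sum_add_distrib, ← Finset.mul_sum,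
    ← Finset.mul_sum, ← Finset.mul_sum, ← Finset.sum_div, ← Finset.sum_div, ← Finset.sum_div]
  simp

/-- distances give the sums of products -/
theorem prod_sum {n : ℕ} {c : ℝ} (A B : Fin 3 → E n)
    (hA : ∀ j i, A j i = c ∨ A j i = -c) (hB : ∀ j i, B j i = c ∨ B j i = -c)
    (hd : ∀ i j, dist (A i) (A j) = dist (B i) (B j)) (j k : Fin 3) :
    ∑ i, A j i * A k i = ∑ i, B j i * B k i := by
  have h1 := (dist_eq_iff _ _ _ _).1 (hd j k)
  have h2 : ∀ C : Fin 3 → E n, (∀ j i, C j i = c ∨ C j i = -c) →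
      ∑ i, (C j i - C k i) ^ 2 = (n : ℝ) * (2 * c ^ 2) - 2 * ∑ i, C j i * C k i := by
    intro C hC
    have h3 : ∀ i, (C j i - C k i) ^ 2 = 2 * c ^ 2 - 2 * (C j i * C k i) := by
      intro i
      have h4 : C j i * C j i = c ^ 2 := by rcases hC j i with h | h <;> rw [h] <;> ring
      have h5 : C k i * C k i = c ^ 2 := by rcases hC k i with h | h <;> rw [h] <;> ring
      linear_combination h4 + h5
    rw [Finset.sum_congr rfl fun i _ => h3 i, Finset.sum_sub_distrib,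
      ← Finset.mul_sum univ (fun i => C j i * C k i) 2, Finset.sum_const, Finset.card_univ,
      Fintype.card_fin, nsmul_eq_mul]
  rw [h2 A hA, h2 B hB] at h1
  linarith

theorem sgn_mul {c x y : ℝ} (hc : 0 < c) (hx : x = c ∨ x = -c) (hy : y = c ∨ y = -c) :
    x * y / c ^ 2 = 1 ∨ x * y / c ^ 2 = -1 := by
  have hc2 : c ^ 2 ≠ 0 := by positivity
  rcases mul_pm hx hy with h | h
  · left
    rw [h, div_self hc2]
  · right
    rw [h, neg_div, div_self hc2]

theorem key {n : ℕ} {c : ℝ} (hc : 0 < c) (A B : Fin 3 → E n)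
    (hA : ∀ j i, A j i = c ∨ A j i = -c) (hB : ∀ j i, B j i = c ∨ B j i = -c)
    (hd : ∀ i j, dist (A i) (A j) = dist (B i) (B j)) :
    ∃ σ : Equiv.Perm (Fin n), ∃ hε : ∀ i, A 0 (σ i) * B 0 i / c ^ 2 = 1 ∨
      A 0 (σ i) * B 0 i / c ^ 2 = -1,
      ∀ j, spm σ (fun i => A 0 (σ i) * B 0 i / c ^ 2) hε (A j) = B j := by
  have hc2 : c ^ 2 ≠ 0 := by positivity
  obtain ⟨σ, hσ⟩ := exists_perm (ty c B) (ty c A) (by
    intro a
    have h1 := count hc A hA a
    have h2 := count hc B hB a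
    rw [prod_sum A B hA hB hd 1 0, prod_sum A B hA hB hd 2 0, prod_sum A B hA hB hd 1 2,
      ← h2] at h1
    exact_mod_cast h1.symm)
  refine ⟨σ, fun i => sgn_mul hc (hA 0 _) (hB 0 _), ?_⟩
  -- equal products
  have hp : ∀ j i, A j (σ i) * A 0 (σ i) = B j i * B 0 i := by
    have hne : -c ^ 2 ≠ c ^ 2 := by
      intro h
      have : c ^ 2 = 0 := by linarith
      exact hc2 this
    have hgen : ∀ x y : ℝ, (x = c ^ 2 ∨ x = -c ^ 2) → (y = c ^ 2 ∨ y = -c ^ 2) →
        (x = c ^ 2 ↔ y = c ^ 2) → x = y := by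
      intro x y hx hy h
      rcases hx with hx | hx
      · rw [hx, h.1 hx]
      · rcases hy with hy | hy
        · rw [h.2 hy, hy]
        · rw [hx, hy]
    intro j i
    have h1 := hσ i
    fin_cases j
    · have h4 : A 0 (σ i) * A 0 (σ i) = c ^ 2 := by
        rcases hA 0 (σ i) with h | h <;> rw [h] <;> ring
      have h5 : B 0 i * B 0 i = c ^ 2 := by rcases hB 0 i with h | h <;> rw [h] <;> ring
      exact h4.trans h5.symm
    · refine hgen _ _ (mul_pm (hA 1 _) (hA 0 _)) (mul_pm (hB 1 _) (hB 0 _)) ?_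
      exact (ty_fst c A (σ i)).symm.trans (by rw [← h1]; exact ty_fst c B i)
    · refine hgen _ _ (mul_pm (hA 2 _) (hA 0 _)) (mul_pm (hB 2 _) (hB 0 _)) ?_
      exact (ty_snd c A (σ i)).symm.trans (by rw [← h1]; exact ty_snd c B i)
  intro j
  ext i
  rw [spm_apply]
  have h5 : B 0 i * B 0 i = c ^ 2 := by rcases hB 0 i with h | h <;> rw [h] <;> ring
  have h6 : A 0 (σ i) * B 0 i / c ^ 2 * A j (σ i)
      = (A j (σ i) * A 0 (σ i)) * B 0 i / c ^ 2 := by ring
  rw [h6, hp j i, mul_assoc, h5, mul_div_cancel_right₀ _ hc2]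

end Cube3x

theorem thm_Cube3 : St_Cube3 := by
  intro hInv n c e hc he
  constructor
  · intro A B hA hB hd
    obtain ⟨σ, hε, h⟩ := Cube3x.key hc A B (fun j i => hA j i) (fun j i => hB j i) hd
    exact ⟨_, ((hInv n c).2.2.1 σ _ hε).2.1, h⟩
  · intro A B hA hB hd
    obtain ⟨σ, hε, h⟩ := Cube3x.key hc A B (fun j i => (hA j).1 i) (fun j i => (hB j).1 i) hd
    refine ⟨_, (hInv n c).2.2.2.1 e σ _ hε ?_, h⟩
    have hcn : c ^ n ≠ 0 := by positivity
    have h1 : ∏ i, A 0 (σ i) = e * c ^ n := by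
      rw [Equiv.prod_comp σ (fun i => A 0 i)]
      exact (hA 0).2
    have h2 : ∏ i, B 0 i = e * c ^ n := (hB 0).2
    rw [Finset.prod_div_distrib, Finset.prod_mul_distrib, h1, h2, Finset.prod_const,
      Finset.card_univ, Fintype.card_fin]
    have he2 : e * e = 1 := by rcases he with h | h <;> rw [h] <;> norm_num
    have h3 : (c ^ 2) ^ n = c ^ n * c ^ n := by rw [← mul_pow, sq]
    rw [h3, div_eq_one_iff_eq (mul_ne_zero hcn hcn)]
    linear_combination (c ^ n * c ^ n) * he2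

end Pool.Agent.RSP
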