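import Mathlib

/-!
# Reflection symmetric polytopes with m-point homogeneous vertex sets: definitions (helper51)

Problem MP_a177dd_co. Paper: /team-store/HUNT5_a177dd_helper51.md. `E n` is the euclidean space `ℝ ^ n`.
-/

set_option autoImplicit false

noncomputable section

namespace Pool.Agent.RSP

/-- euclidean space -/
abbrev E (n : ℕ) := EuclideanSpace ℝ (Fin n)

/-- A metric space is `m`-point homogeneous if every distance preserving map between two `m`-tuples
of points (repetitions allowed) extends to an isometry of the space onto itself. -/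
def PointHomogeneous (m : ℕ) (M : Type*) [MetricSpace M] : Prop :=
  ∀ A B : Fin m → M, (∀ i j, dist (A i) (A j) = dist (B i) (B j)) →
    ∃ f : M ≃ᵢ M, ∀ i, f (A i) = B i

/-- The set of vertices of a convex polytope. -/
def vertices {n : ℕ} (P : Set (E n)) : Set (E n) := P.extremePoints ℝ

/-- A convex polytope: the convex hull of a finite set of points. -/
def IsPolytope {n : ℕ} (P : Set (E n)) : Prop := ∃ V : Set (E n), V.Finite ∧ P = convexHull ℝ V

/-- permutation of the coordinates: `(pm σ x) i = x (σ i)` -/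
def pm {n : ℕ} (σ : Equiv.Perm (Fin n)) (x : E n) : E n := WithLp.toLp 2 fun i => x (σ i)

/-- change of the signs of the coordinates in `S` -/
def sg {n : ℕ} (S : Finset (Fin n)) (x : E n) : E n :=
  WithLp.toLp 2 fun i => if i ∈ S then -x i else x i

/-- invariant under all permutations of the coordinates -/
def PermInv {n : ℕ} (M : Set (E n)) : Prop := ∀ σ : Equiv.Perm (Fin n), ∀ x ∈ M, pm σ x ∈ M

/-- invariant under all changes of an even number of signs -/
def EvenInv {n : ℕ} (M : Set (E n)) : Prop :=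
  ∀ S : Finset (Fin n), Even S.card → ∀ x ∈ M, sg S x ∈ M

/-- the vertices of a cross-polytope: `± c e_i` -/
def cross (n : ℕ) (c : ℝ) : Set (E n) :=
  {x | ∃ i, (x i = c ∨ x i = -c) ∧ ∀ j, j ≠ i → x j = 0}

/-- the vertices of a cube: `(± c, .., ± c)` -/
def cube (n : ℕ) (c : ℝ) : Set (E n) := {x | ∀ i, x i = c ∨ x i = -c}

/-- the vertices of a demicube: the points of the cube with an even (`e = 1`) or odd (`e = -1`)
number of negative coordinates -/
def half (n : ℕ) (c e : ℝ) : Set (E n) := {x | (∀ i, x i = c ∨ x i = -c) ∧ ∏ i, x i = e * c ^ n}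

/-- the vertices of a rectified cube: one coordinate is `0`, the others are `± c` -/
def rect (n : ℕ) (c : ℝ) : Set (E n) := {x | ∃ i, x i = 0 ∧ ∀ j, j ≠ i → x j = c ∨ x j = -c}

/-- the vertices of a hypersimplex: the points `c (1_A - k / n)`, where `A` has `k` elements -/
def hyps (n k : ℕ) (c : ℝ) : Set (E n) :=
  {x | ∃ A : Finset (Fin n), A.card = k ∧ ∀ i, x i = c * ((if i ∈ A then 1 else 0) - k / n)}

/-- the vertices of a root polytope of type `A`: `c (e_i - e_j)` -/
def rts (n : ℕ) (c : ℝ) : Set (E n) :=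
  {x | ∃ i j, i ≠ j ∧ x i = c ∧ x j = -c ∧ ∀ l, l ≠ i → l ≠ j → x l = 0}

/-- the permutations of `(c, .., c, 0, -c, .., -c)` with `(n - 1) / 2` entries `c` (empty if `n` is even) -/
def mid (n : ℕ) (c : ℝ) : Set (E n) :=
  {x | (∃ i, x i = 0 ∧ ∀ j, j ≠ i → x j = c ∨ x j = -c) ∧ ∑ i, x i = 0}

/-- the linear isometries which preserve `M` -/
def Gp {n : ℕ} (M : Set (E n)) : Set (E n ≃ₗᵢ[ℝ] E n) := {g | ∀ x, g x ∈ M ↔ x ∈ M}

/-- `m`-point homogeneous with respect to `Gp M` -/
def GHom {n : ℕ} (m : ℕ) (M : Set (E n)) : Prop :=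
  ∀ A B : Fin m → E n, (∀ i, A i ∈ M) → (∀ i, B i ∈ M) →
    (∀ i j, dist (A i) (A j) = dist (B i) (B j)) → ∃ g ∈ Gp M, ∀ i, g (A i) = B i

/-- signed permutations of the coordinates -/
def IsSP {n : ℕ} (g : E n → E n) : Prop :=
  ∃ (σ : Equiv.Perm (Fin n)) (ε : Fin n → ℝ), (∀ i, ε i = 1 ∨ ε i = -1) ∧
    ∀ x i, g x i = ε i * x (σ i)

/-- up to the sign a permutation of the coordinates, on the vectors with coordinate sum `0` -/
def IsPM {n : ℕ} (g : E n → E n) : Prop :=
  ∃ σ : Equiv.Perm (Fin n), (∀ x : E n, ∑ i, x i = 0 → g x = pm σ x) ∨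
    ∀ x : E n, ∑ i, x i = 0 → g x = -pm σ x

/-- the reflection of `x` in the hyperplane orthogonal to the unit vector `u` -/
def rf {n : ℕ} (u x : E n) : E n := x - (2 * inner ℝ u x) • u

/-- the unit normal vectors of the reflections which preserve `M` -/
def Rf {n : ℕ} (M : Set (E n)) : Set (E n) := {u | ‖u‖ = 1 ∧ ∀ x ∈ M, rf u x ∈ M}

/-- the unit root `(e_i - e_j) / √2` -/
def bt {n : ℕ} (i j : Fin n) : E n :=
  (√2)⁻¹ • (EuclideanSpace.single i (1 : ℝ) - EuclideanSpace.single j (1 : ℝ))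

/-- `(± e_i ± e_j) / √2` -/
def IsDRoot {n : ℕ} (u : E n) : Prop :=
  ∃ i j, i ≠ j ∧ u i ^ 2 = 1 / 2 ∧ u j ^ 2 = 1 / 2 ∧ ∀ l, l ≠ i → l ≠ j → u l = 0

/-- `± e_i` -/
def IsAxis {n : ℕ} (u : E n) : Prop := ∃ i, u i ^ 2 = 1 ∧ ∀ l, l ≠ i → u l = 0

/-! ### tools -/

section tools

variable {n : ℕ}

@[simp] theorem pm_apply (σ : Equiv.Perm (Fin n)) (x : E n) (i : Fin n) : pm σ x i = x (σ i) := rfl

@[simp] theorem sg_apply (S : Finset (Fin n)) (x : E n) (i : Fin n) :
    sg S x i = if i ∈ S then -x i else x i := rfl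

/-- the signed permutation `x ↦ (ε i * x (σ i))_i` as a linear isometry -/
def spm (σ : Equiv.Perm (Fin n)) (ε : Fin n → ℝ) (hε : ∀ i, ε i = 1 ∨ ε i = -1) :
    E n ≃ₗᵢ[ℝ] E n where
  toFun x := WithLp.toLp 2 fun i => ε i * x (σ i)
  invFun x := WithLp.toLp 2 fun i => ε (σ.symm i) * x (σ.symm i)
  map_add' x y := by
    ext i
    simp [mul_add]
  map_smul' a x := by
    ext i
    simp only [PiLp.smul_apply, smul_eq_mul, RingHom.id_apply]
    ring
  left_inv x := by
    ext i
    have h : ε (σ.symm i) * ε (σ.symm i) = 1 := by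
      rcases hε (σ.symm i) with h | h <;> rw [h] <;> norm_num
    simp only [Equiv.apply_symm_apply]
    rw [← mul_assoc, h, one_mul]
  right_inv x := by
    ext i
    have h : ε i * ε i = 1 := by rcases hε i with h | h <;> rw [h] <;> norm_num
    simp only [Equiv.symm_apply_apply]
    rw [← mul_assoc, h, one_mul]
  norm_map' x := by
    have h : ∀ i, ‖ε i‖ = 1 := fun i => by rcases hε i with h | h <;> rw [h] <;> norm_num
    simp only [EuclideanSpace.norm_eq, LinearEquiv.coe_mk, LinearMap.coe_mk, AddHom.coe_mk, norm_mul,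
      h, one_mul]
    congr 1
    exact Equiv.sum_comp σ (fun i => ‖x i‖ ^ 2)

@[simp] theorem spm_apply (σ : Equiv.Perm (Fin n)) (ε : Fin n → ℝ) (hε : ∀ i, ε i = 1 ∨ ε i = -1)
    (x : E n) (i : Fin n) : spm σ ε hε x i = ε i * x (σ i) := rfl

/-- Functions with the same numbers of values differ by a permutation. -/
theorem exists_perm {α : Type*} (X Y : Fin n → α)
    (h : ∀ a, Nat.card {i // X i = a} = Nat.card {i // Y i = a}) :
    ∃ σ : Equiv.Perm (Fin n), ∀ i, X i = Y (σ i) := by
  have e : ∀ a, Nonempty ({i // X i = a} ≃ {i // Y i = a}) := fun a => Finite.card_eq.1 (h a)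
  let e' : ∀ a, {i // X i = a} ≃ {i // Y i = a} := fun a => (e a).some
  refine ⟨(Equiv.sigmaFiberEquiv X).symm.trans ((Equiv.sigmaCongrRight e').trans
    (Equiv.sigmaFiberEquiv Y)), fun i => ?_⟩
  have h1 := (e' (X i) ⟨i, rfl⟩).2
  exact h1.symm

/-- squared distances -/
theorem dist_sq (x y : E n) : dist x y ^ 2 = ∑ i, (x i - y i) ^ 2 := by
  rw [EuclideanSpace.dist_eq, Real.sq_sqrt (Finset.sum_nonneg fun i _ => sq_nonneg _)]
  exact Finset.sum_congr rfl fun i _ => by rw [Real.dist_eq, sq_abs]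

/-- inner products -/
theorem inner_eq (x y : E n) : inner ℝ x y = ∑ i, x i * y i := by
  simp [PiLp.inner_apply, mul_comm]

/-- A distance preserving symmetry from a bijection. -/
theorem dist_eq_iff (x y z t : E n) : dist x y = dist z t ↔
    ∑ i, (x i - y i) ^ 2 = ∑ i, (z i - t i) ^ 2 := by
  rw [← dist_sq, ← dist_sq]
  constructor
  · intro h
    rw [h]
  · intro h
    exact (sq_eq_sq₀ dist_nonneg dist_nonneg).1 h

end tools

end Pool.Agent.RSP
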