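import Pool.Agent.RSP.St

/-!
# RSP Ext: isometries of a centred finite set are restrictions of linear isometries
-/

set_option autoImplicit false

noncomputable section

namespace Pool.Agent.RSP

namespace Extx

variable {n : ℕ} {M : Set (E n)}

/-- the isometry of `M` given by an element of `Gp M` -/
def res (g : E n ≃ₗᵢ[ℝ] E n) (hg : g ∈ Gp M) : M ≃ᵢ M where
  toFun x := ⟨g x, (hg x).2 x.2⟩
  invFun x := ⟨g.symm x, (hg (g.symm x)).1 (by rw [g.apply_symm_apply]; exact x.2)⟩
  left_inv x := Subtype.ext (g.symm_apply_apply x)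
  right_inv x := Subtype.ext (g.apply_symm_apply x)
  isometry_toFun := fun x y => g.isometry x y

theorem norm_sum [Fintype M] (h0 : ∑ x : M, (x : E n) = 0) (y : E n) :
    ∑ z : M, ‖y - (z : E n)‖ ^ 2 = Fintype.card M * ‖y‖ ^ 2 + ∑ z : M, ‖(z : E n)‖ ^ 2 := by
  have h1 : ∀ z : M, ‖y - (z : E n)‖ ^ 2 = ‖y‖ ^ 2 - 2 * inner ℝ y (z : E n) + ‖(z : E n)‖ ^ 2 :=
    fun z => norm_sub_sq_real y z
  rw [Finset.sum_congr rfl fun z _ => h1 z, Finset.sum_add_distrib, Finset.sum_sub_distrib,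
    ← Finset.mul_sum, ← inner_sum, h0, inner_zero_right, Finset.sum_const, Finset.card_univ,
    nsmul_eq_mul]
  ring

theorem norm_f [Fintype M] (h0 : ∑ x : M, (x : E n) = 0) (f : M ≃ᵢ M) (x : M) :
    ‖(f x : E n)‖ = ‖(x : E n)‖ := by
  have hd : ∀ z : M, ‖(f x : E n) - (f z : E n)‖ = ‖(x : E n) - (z : E n)‖ := by
    intro z
    have h := f.isometry.dist_eq x z
    rw [Subtype.dist_eq, Subtype.dist_eq, dist_eq_norm, dist_eq_norm] at h
    exact h
  have h1 := norm_sum h0 (f x : E n)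
  have h2 := norm_sum h0 (x : E n)
  have h3 : ∑ z : M, ‖(f x : E n) - (z : E n)‖ ^ 2 = ∑ z : M, ‖(x : E n) - (z : E n)‖ ^ 2 := by
    rw [← Equiv.sum_comp f.toEquiv fun z : M => ‖(f x : E n) - (z : E n)‖ ^ 2]
    exact Finset.sum_congr rfl fun z _ => by
      have h4 := hd z
      show ‖(f x : E n) - (f z : E n)‖ ^ 2 = _
      rw [h4]
  rw [h1, h2] at h3
  have hN : (0 : ℝ) < Fintype.card M := by
    exact_mod_cast Fintype.card_pos_iff.2 ⟨x⟩
  have h5 : ‖(f x : E n)‖ ^ 2 = ‖(x : E n)‖ ^ 2 := mul_left_cancel₀ hN.ne' (add_right_cancel h3)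
  exact (sq_eq_sq₀ (norm_nonneg _) (norm_nonneg _)).1 h5

theorem inner_f [Fintype M] (h0 : ∑ x : M, (x : E n) = 0) (f : M ≃ᵢ M) (x y : M) :
    inner ℝ (f x : E n) (f y : E n) = inner ℝ (x : E n) (y : E n) := by
  have hd : ‖(f x : E n) - (f y : E n)‖ = ‖(x : E n) - (y : E n)‖ := by
    have h := f.isometry.dist_eq x y
    rw [Subtype.dist_eq, Subtype.dist_eq, dist_eq_norm, dist_eq_norm] at h
    exact h
  have h1 := norm_sub_sq_real (f x : E n) (f y : E n)
  have h2 := norm_sub_sq_real (x : E n) (y : E n)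
  rw [hd, norm_f h0, norm_f h0] at h1
  linarith

/-- The linear extension of an isometry of `M`. -/
theorem ext [Fintype M] (h0 : ∑ x : M, (x : E n) = 0) (f : M ≃ᵢ M) :
    ∃ g : E n ≃ₗᵢ[ℝ] E n, ∀ x : M, g x = f x := by
  let L1 : (M → ℝ) →ₗ[ℝ] E n :=
    { toFun := fun c => ∑ x : M, c x • (x : E n)
      map_add' := fun c d => by
        simp only [Pi.add_apply, add_smul, Finset.sum_add_distrib]
      map_smul' := fun r c => by
        simp only [Pi.smul_apply, smul_eq_mul, mul_smul, RingHom.id_apply, Finset.smul_sum] }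
  let L2 : (M → ℝ) →ₗ[ℝ] E n :=
    { toFun := fun c => ∑ x : M, c x • (f x : E n)
      map_add' := fun c d => by
        simp only [Pi.add_apply, add_smul, Finset.sum_add_distrib]
      map_smul' := fun r c => by
        simp only [Pi.smul_apply, smul_eq_mul, mul_smul, RingHom.id_apply, Finset.smul_sum] }
  have hn : ∀ c, ‖L2 c‖ = ‖L1 c‖ := by
    intro c
    have h1 : inner ℝ (L2 c) (L2 c) = inner ℝ (L1 c) (L1 c) := by
      show inner ℝ (∑ x : M, c x • (f x : E n)) (∑ x : M, c x • (f x : E n)) =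
        inner ℝ (∑ x : M, c x • (x : E n)) (∑ x : M, c x • (x : E n))
      simp only [sum_inner, inner_sum, real_inner_smul_left, real_inner_smul_right, inner_f h0]
    rw [real_inner_self_eq_norm_sq, real_inner_self_eq_norm_sq] at h1
    exact (sq_eq_sq₀ (norm_nonneg _) (norm_nonneg _)).1 h1
  have hker : LinearMap.ker L1 ≤ LinearMap.ker L2 := by
    intro c hc
    rw [LinearMap.mem_ker] at hc ⊢
    rw [← norm_eq_zero, hn, hc, norm_zero]
  let T : LinearMap.range L1 →ₗ[ℝ] E n :=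
    (LinearMap.ker L1).liftQ L2 hker ∘ₗ L1.quotKerEquivRange.symm.toLinearMap
  have hT : ∀ c, T ⟨L1 c, c, rfl⟩ = L2 c := by
    intro c
    show (LinearMap.ker L1).liftQ L2 hker (L1.quotKerEquivRange.symm ⟨L1 c, c, rfl⟩) = L2 c
    have h1 : L1.quotKerEquivRange.symm ⟨L1 c, c, rfl⟩ = (LinearMap.ker L1).mkQ c := by
      rw [LinearEquiv.symm_apply_eq]
      rfl
    rw [h1]
    rfl
  let TI : LinearMap.range L1 →ₗᵢ[ℝ] E n :=
    { toLinearMap := T
      norm_map' := by
        rintro ⟨_, c, rfl⟩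
        show ‖T ⟨L1 c, c, rfl⟩‖ = ‖L1 c‖
        rw [hT, hn] }
  refine ⟨TI.extend.toLinearIsometryEquiv rfl, fun x => ?_⟩
  classical
  have h2 : L1 (Pi.single x 1) = (x : E n) := by
    show ∑ y : M, (Pi.single x 1 : M → ℝ) y • (y : E n) = x
    rw [Finset.sum_eq_single x]
    · rw [Pi.single_eq_same, one_smul]
    · intro y _ hy
      rw [Pi.single_eq_of_ne hy, zero_smul]
    · intro h
      exact absurd (Finset.mem_univ x) h
  have h3 : L2 (Pi.single x 1) = (f x : E n) := by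
    show ∑ y : M, (Pi.single x 1 : M → ℝ) y • (f y : E n) = f x
    rw [Finset.sum_eq_single x]
    · rw [Pi.single_eq_same, one_smul]
    · intro y _ hy
      rw [Pi.single_eq_of_ne hy, zero_smul]
    · intro h
      exact absurd (Finset.mem_univ x) h
  show TI.extend (x : E n) = f x
  have h4 : TI.extend (L1 (Pi.single x 1)) = T ⟨L1 (Pi.single x 1), _, rfl⟩ :=
    TI.extend_apply ⟨L1 (Pi.single x 1), _, rfl⟩
  rw [hT, h2, h3] at h4
  exact h4

end Extx

theorem thm_Ext : St_Ext := by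
  intro n m M hM hsum
  have := hM.fintype
  have h0 : ∑ x : M, (x : E n) = 0 := by
    rw [← hsum]
    exact (Finset.sum_subtype hM.toFinset (fun x => hM.mem_toFinset) (fun x => x)).symm
  constructor
  · intro h A B hA hB hAB
    obtain ⟨f, hf⟩ := h (fun i => ⟨A i, hA i⟩) (fun i => ⟨B i, hB i⟩) hAB
    obtain ⟨g, hg⟩ := Extx.ext h0 f
    refine ⟨g, ?_, fun i => ?_⟩
    · intro x
      constructor
      · intro hx
        obtain ⟨y, hy⟩ := f.surjective ⟨g x, hx⟩
        have h1 : g (y : E n) = g x := by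
          rw [hg y, hy]
        have h2 := g.injective h1
        rw [← h2]
        exact y.2
      · intro hx
        have h1 := hg ⟨x, hx⟩
        have h2 : g x = (f ⟨x, hx⟩ : E n) := h1
        rw [h2]
        exact (f ⟨x, hx⟩).2
    · have h1 := hg ⟨A i, hA i⟩
      have h2 : g (A i) = (f ⟨A i, hA i⟩ : E n) := h1
      rw [h2, hf i]
  · intro h A B hAB
    obtain ⟨g, hg, hgA⟩ := h (fun i => A i) (fun i => B i) (fun i => (A i).2) (fun i => (B i).2)
      hAB
    exact ⟨Extx.res g hg, fun i => Subtype.ext (hgA i)⟩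

end Pool.Agent.RSP
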