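import Pool.Agent.RSP.Main

/-!
# Reflection symmetric polytopes: the theorem, without coordinates
-/

set_option autoImplicit false

noncomputable section

namespace Pool.Agent.RSP

/-- In suitable coordinates (an isometry `x ↦ L (x - t)` of `ℝ ^ n` onto the vectors of `ℝ ^ (n + 1)`
with coordinate sum `0`) the set `M` is invariant under all permutations of the coordinates: `M` has
all symmetries of a regular `n`-simplex with the centre `t`, the reflection group of type `A_n`. -/
def SymA {n : ℕ} (M : Set (E n)) : Prop :=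
  ∃ (t : E n) (L : E n →ₗᵢ[ℝ] E (n + 1)), (∀ x, ∑ i, L x i = 0) ∧
    PermInv ((fun x => L (x - t)) '' M)

/-- In suitable orthonormal coordinates (with some origin `t`) the set `M` is invariant under all
permutations of the coordinates and all changes of an even number of signs: the reflection group of
type `D_n`. -/
def SymD {n : ℕ} (M : Set (E n)) : Prop :=
  ∃ (t : E n) (L : E n ≃ₗᵢ[ℝ] E n), PermInv ((fun x => L (x - t)) '' M) ∧
    EvenInv ((fun x => L (x - t)) '' M)

/-- Two sets are similar. -/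
def Sim {n k : ℕ} (M : Set (E n)) (N : Set (E k)) : Prop :=
  ∃ c : ℝ, 0 < c ∧ ∃ F : M ≃ N, ∀ x y, dist (F x) (F y) = c * dist x y

namespace Finx

theorem sim_hom {n k m : ℕ} {M : Set (E n)} {N : Set (E k)} (h : Sim M N)
    (hN : PointHomogeneous m N) : PointHomogeneous m M := by
  obtain ⟨c, hc, F, hF⟩ := h
  intro A B hAB
  obtain ⟨f, hf⟩ := hN (fun i => F (A i)) (fun i => F (B i)) (fun i j => by rw [hF, hF, hAB])
  refine ⟨⟨(F.trans f.toEquiv).trans F.symm, Isometry.of_dist_eq fun x y => ?_⟩, fun i => ?_⟩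
  · have h1 : ∀ u v : N, dist (F.symm u) (F.symm v) = c⁻¹ * dist u v := by
      intro u v
      have h2 := hF (F.symm u) (F.symm v)
      rw [Equiv.apply_symm_apply, Equiv.apply_symm_apply] at h2
      rw [h2, ← mul_assoc, inv_mul_cancel₀ hc.ne', one_mul]
    show dist (F.symm (f (F x))) (F.symm (f (F y))) = dist x y
    rw [h1, f.dist_eq, hF, ← mul_assoc, inv_mul_cancel₀ hc.ne', one_mul]
  · show F.symm (f (F (A i))) = B i
    rw [hf, Equiv.symm_apply_apply]

theorem sim_of_map {n : ℕ} {M N : Set (E n)} (c : ℝ) (hc : 0 < c) (g : E n ≃ₗᵢ[ℝ] E n)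
    (h : ∀ x, x ∈ M ↔ c • g x ∈ N) : Sim M N := by
  refine ⟨c, hc, ⟨fun x => ⟨c • g x, (h x).1 x.2⟩, fun y => ⟨g.symm (c⁻¹ • (y : E n)), ?_⟩,
    fun x => ?_, fun y => ?_⟩, fun x y => ?_⟩
  · rw [h, LinearIsometryEquiv.apply_symm_apply, smul_smul, mul_inv_cancel₀ hc.ne', one_smul]
    exact y.2
  · refine Subtype.ext ?_
    show g.symm (c⁻¹ • (c • g x)) = x
    rw [smul_smul, inv_mul_cancel₀ hc.ne', one_smul, LinearIsometryEquiv.symm_apply_apply]
  · refine Subtype.ext ?_
    show c • g (g.symm (c⁻¹ • (y : E n))) = y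
    rw [LinearIsometryEquiv.apply_symm_apply, smul_smul, mul_inv_cancel₀ hc.ne', one_smul]
  · show dist (c • g x) (c • g y) = c * dist x y
    rw [dist_smul₀, Real.norm_of_nonneg hc.le, g.dist_map]
    rfl

theorem image_inj {n k : ℕ} (t : E n) (L : E n →ₗᵢ[ℝ] E k) :
    Function.Injective (fun x => L (x - t)) := fun _ _ h => sub_left_inj.1 (L.injective h)

theorem sim_image {n k : ℕ} (M : Set (E n)) (t : E n) (L : E n →ₗᵢ[ℝ] E k) :
    Sim M ((fun x => L (x - t)) '' M) := by
  refine ⟨1, one_pos, Equiv.Set.image _ M (image_inj t L), fun x y => ?_⟩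
  rw [one_mul]
  show dist (L (x - t)) (L (y - t)) = dist x y
  rw [L.dist_map, dist_sub_right]
  rfl

/-- A set with two points contains a point which is not zero. -/
theorem exists_ne {n k : ℕ} {M : Set (E n)} (hne : M.Nontrivial) (f : E n → E k)
    (hf : Function.Injective f) : ∃ z ∈ f '' M, z ≠ 0 := by
  obtain ⟨x, hxM, y, hyM, hxy⟩ := hne
  by_cases h : f x = 0
  · exact ⟨f y, Set.mem_image_of_mem f hyM, fun h' => hxy (hf (h.trans h'.symm))⟩
  · exact ⟨f x, Set.mem_image_of_mem f hxM, h⟩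

theorem sim_trans {n k l : ℕ} {M : Set (E n)} {N : Set (E k)} {K : Set (E l)} (h : Sim M N)
    (h' : Sim N K) : Sim M K := by
  obtain ⟨c, hc, F, hF⟩ := h
  obtain ⟨d, hd, G, hG⟩ := h'
  refine ⟨d * c, mul_pos hd hc, F.trans G, fun x y => ?_⟩
  show dist (G (F x)) (G (F y)) = _
  rw [hG, hF, mul_assoc]

theorem sim_symm {n k : ℕ} {M : Set (E n)} {N : Set (E k)} (h : Sim M N) : Sim N M := by
  obtain ⟨c, hc, F, hF⟩ := h
  refine ⟨c⁻¹, inv_pos.2 hc, F.symm, fun x y => ?_⟩
  have h2 := hF (F.symm x) (F.symm y)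
  rw [Equiv.apply_symm_apply, Equiv.apply_symm_apply] at h2
  rw [h2, ← mul_assoc, inv_mul_cancel₀ hc.ne', one_mul]

theorem hom_of_ghom {n m : ℕ} {M : Set (E n)} (h : GHom m M) : PointHomogeneous m M := by
  intro A B hAB
  obtain ⟨g, hg, hgA⟩ := h (fun i => A i) (fun i => B i) (fun i => (A i).2) (fun i => (B i).2) hAB
  refine ⟨⟨⟨fun x => ⟨g x, (hg x).2 x.2⟩, fun y => ⟨g.symm y, ?_⟩, fun x => ?_, fun y => ?_⟩, ?_⟩,
    fun i => ?_⟩
  · have h1 := (hg (g.symm y)).1
    rw [LinearIsometryEquiv.apply_symm_apply] at h1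
    exact h1 y.2
  · exact Subtype.ext (g.symm_apply_apply _)
  · exact Subtype.ext (g.apply_symm_apply _)
  · exact Isometry.of_dist_eq fun x y => g.dist_map _ _
  · exact Subtype.ext (hgA i)

/-- scaling the families -/
theorem sim_scale {n : ℕ} {M N : Set (E n)} {c : ℝ} (hc : 0 < c)
    (h : ∀ x, x ∈ M ↔ c⁻¹ • x ∈ N) : Sim M N :=
  sim_of_map c⁻¹ (inv_pos.2 hc) (LinearIsometryEquiv.refl ℝ (E n)) h

theorem sc_eq {c : ℝ} (hc : 0 < c) (a : ℝ) (b : ℝ) : c⁻¹ * a = b ↔ a = b * c := by
  constructor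
  · intro h
    rw [← h, mul_comm c⁻¹, mul_assoc, inv_mul_cancel₀ hc.ne', mul_one]
  · intro h
    rw [h, mul_comm b, ← mul_assoc, inv_mul_cancel₀ hc.ne', one_mul]

theorem sim_cross {n : ℕ} {c : ℝ} (hc : 0 < c) : Sim (cross n c) (cross n 1) := by
  refine sim_scale hc fun x => ?_
  simp only [cross, Set.mem_ofPred_eq, PiLp.smul_apply, smul_eq_mul, sc_eq hc, one_mul, neg_mul,
    zero_mul]

theorem sim_cube {n : ℕ} {c : ℝ} (hc : 0 < c) : Sim (cube n c) (cube n 1) := by
  refine sim_scale hc fun x => ?_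
  simp only [cube, Set.mem_ofPred_eq, PiLp.smul_apply, smul_eq_mul, sc_eq hc, one_mul, neg_mul]

theorem sim_rect {n : ℕ} {c : ℝ} (hc : 0 < c) : Sim (rect n c) (rect n 1) := by
  refine sim_scale hc fun x => ?_
  simp only [rect, Set.mem_ofPred_eq, PiLp.smul_apply, smul_eq_mul, sc_eq hc, one_mul, neg_mul,
    zero_mul]

theorem sim_rts {n : ℕ} {c : ℝ} (hc : 0 < c) : Sim (rts n c) (rts n 1) := by
  refine sim_scale hc fun x => ?_
  simp only [rts, Set.mem_ofPred_eq, PiLp.smul_apply, smul_eq_mul, sc_eq hc, one_mul, neg_mul,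
    zero_mul]

theorem sim_mid {n : ℕ} {c : ℝ} (hc : 0 < c) : Sim (mid n c) (mid n 1) := by
  refine sim_scale hc fun x => ?_
  simp only [mid, Set.mem_ofPred_eq, PiLp.smul_apply, smul_eq_mul, sc_eq hc, one_mul, neg_mul,
    zero_mul, ← Finset.mul_sum]

theorem mem_hyps_scale {n k : ℕ} {c e : ℝ} (hc : 0 < c) (x : E n) :
    x ∈ hyps n k (e * c) ↔ c⁻¹ • x ∈ hyps n k e := by
  simp only [hyps, Set.mem_ofPred_eq, PiLp.smul_apply, smul_eq_mul, sc_eq hc]
  constructor
  · rintro ⟨A, hA, h⟩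
    exact ⟨A, hA, fun i => by rw [h i]; ring⟩
  · rintro ⟨A, hA, h⟩
    exact ⟨A, hA, fun i => by rw [h i]; ring⟩

theorem sim_hyps {n k : ℕ} {c : ℝ} (hc : 0 < c) : Sim (hyps n k c) (hyps n k 1) := by
  refine sim_scale hc fun x => ?_
  have := mem_hyps_scale (k := k) (e := 1) hc x
  rwa [one_mul] at this

theorem sim_hypsU {n k : ℕ} {c : ℝ} (hc : 0 < c) :
    Sim (hyps n k c ∪ hyps n k (-c)) (hyps n k 1 ∪ hyps n k (-1)) := by
  refine sim_scale hc fun x => ?_
  have h1 := mem_hyps_scale (k := k) (e := 1) hc x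
  have h2 := mem_hyps_scale (k := k) (e := -1) hc x
  rw [one_mul] at h1
  rw [neg_one_mul] at h2
  rw [Set.mem_union, Set.mem_union, h1, h2]

theorem sim_hyps' {n : ℕ} {c : ℝ} (hn : 0 < n) (hc : 0 < c) :
    Sim (hyps n (n - 1) c) (hyps n 1 1) := by
  have h0 : hyps n (n - 1) c = hyps n 1 (-c) := (thm_Inv n c).2.2.2.2.2.2.2.2.2.2.1 1 hn hn
  rw [h0]
  refine sim_of_map c⁻¹ (inv_pos.2 hc) (LinearIsometryEquiv.neg ℝ) fun x => ?_
  have h2 := mem_hyps_scale (k := 1) (e := -1) hc x
  rw [neg_one_mul] at h2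
  rw [h2]
  have h3 := (thm_Inv n (-1)).2.2.2.2.2.2.2.1 1
  have h4 := (thm_Inv n 1).2.2.2.2.2.2.2.1 1
  show c⁻¹ • x ∈ hyps n 1 (-1) ↔ c⁻¹ • (-x) ∈ hyps n 1 1
  rw [smul_neg]
  constructor
  · intro h
    have := h3 _ h
    rwa [neg_neg] at this
  · intro h
    have := h4 _ h
    rwa [neg_neg] at this

theorem sim_half {n : ℕ} {c e : ℝ} (hn : 0 < n) (hc : 0 < c) (he : e = 1 ∨ e = -1) :
    Sim (half n c e) (half n 1 1) := by
  have h1 : ∀ x : E n, x ∈ half n c e ↔ c⁻¹ • x ∈ half n 1 e := by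
    intro x
    simp only [half, Set.mem_ofPred_eq, PiLp.smul_apply, smul_eq_mul, sc_eq hc, one_mul, neg_mul,
      Finset.prod_mul_distrib, Finset.prod_const, Finset.card_univ, Fintype.card_fin, one_pow,
      mul_one]
    have h2 : (c⁻¹ ^ n * ∏ i, x i = e) ↔ (∏ i, x i = e * c ^ n) := by
      have := sc_eq (pow_pos hc n) (∏ i, x i) e
      rwa [← inv_pow] at this
    rw [h2]
  rcases he with rfl | rfl
  · exact sim_scale hc h1
  · refine sim_trans (sim_scale hc h1) ?_
    let i0 : Fin n := ⟨0, hn⟩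
    let ε : Fin n → ℝ := fun i => if i = i0 then -1 else 1
    have hε : ∀ i, ε i = 1 ∨ ε i = -1 := fun i => by
      by_cases h : i = i0
      · exact Or.inr (if_pos h)
      · exact Or.inl (if_neg h)
    have hprod : ∏ i, ε i = -1 := by
      rw [Finset.prod_ite_eq' Finset.univ i0 (fun _ => (-1 : ℝ)), if_pos (Finset.mem_univ _)]
    refine sim_of_map 1 one_pos (spm 1 ε hε) fun x => ?_
    rw [one_smul]
    have h3 : ∀ i, spm 1 ε hε x i = ε i * x i := fun i => rfl
    simp only [half, Set.mem_ofPred_eq, h3, Finset.prod_mul_distrib, hprod, one_pow, mul_one]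
    have h4 : ∀ i, (x i = 1 ∨ x i = -1) ↔ (ε i * x i = 1 ∨ ε i * x i = -1) := by
      intro i
      rcases hε i with h | h <;> rw [h]
      · rw [one_mul]
      · constructor
        · rintro (h' | h')
          · right
            rw [h']
            norm_num
          · left
            rw [h']
            norm_num
        · rintro (h' | h')
          · right
            linarith
          · left
            linarith
    simp only [h4]
    constructor
    · rintro ⟨h5, h6⟩
      exact ⟨h5, by rw [h6]; norm_num⟩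
    · rintro ⟨h5, h6⟩
      exact ⟨h5, by linarith⟩

end Finx

/-- **The theorem.** -/
def St_Final : Prop :=
  ∀ (n : ℕ) (P : Set (E n)), 9 ≤ n → IsPolytope P → (vertices P).Nontrivial →
    (SymA (vertices P) ∨ SymD (vertices P)) → ∀ m : ℕ, 2 ≤ m →
    (PointHomogeneous m (vertices P) ↔
      (Sim (vertices P) (hyps (n + 1) 1 1) ∨
        Sim (vertices P) (hyps (n + 1) 1 1 ∪ hyps (n + 1) 1 (-1)) ∨
        Sim (vertices P) (cross n 1)) ∨
      (m ≤ 3 ∧ (Sim (vertices P) (rts (n + 1) 1) ∨ Sim (vertices P) (cube n 1) ∨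
        Sim (vertices P) (half n 1 1))) ∨
      (m = 2 ∧ (Sim (vertices P) (rect n 1) ∨ Sim (vertices P) (mid (n + 1) 1) ∨
        (∃ k, 2 ≤ k ∧ k < n ∧ Sim (vertices P) (hyps (n + 1) k 1)) ∨
        ∃ k, 2 ≤ k ∧ 2 * k ≤ n ∧ ¬ n + 1 ∣ 2 * k ^ 2 ∧
          Sim (vertices P) (hyps (n + 1) k 1 ∪ hyps (n + 1) k (-1)))))

open Mainx Finx in
theorem thm_Final : St_Final := by
  have hInv := thm_Inv
  intro n P hn hP hne hS m hm
  have hM := finite_vertices hP
  constructor
  · intro hhom
    rcases hS with ⟨t, L, hL, hp⟩ | ⟨t, L, hp, he⟩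
    · -- type A
      have hsim : Sim (vertices P) ((fun x => L (x - t)) '' vertices P) := sim_image _ t L
      have hM' : ((fun x => L (x - t)) '' vertices P).Finite := hM.image _
      have hs : ∀ z ∈ (fun x => L (x - t)) '' vertices P, ∑ i, z i = 0 := by
        rintro _ ⟨z, -, rfl⟩
        exact hL (z - t)
      have hx' : ∃ z ∈ (fun x => L (x - t)) '' vertices P, z ≠ 0 := exists_ne hne _ (image_inj t L)
      have hg := pmA (by omega : 10 ≤ n + 1) hM' hp hs hx'
      have hhom' : GHom m ((fun x => L (x - t)) '' vertices P) :=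
        (thm_Ext (n + 1) m _ hM' (thm_ClA (n + 1) _ hM' (by omega) hp hs hx').1).1
          (sim_hom (sim_symm hsim) hhom)
      by_cases h3 : ∃ x ∈ (fun x => L (x - t)) '' vertices P, ∃ i j k, x i ≠ x j ∧ x j ≠ x k ∧ x i ≠ x k
      · obtain ⟨c, hc, h1⟩ := thm_ClsA1 hInv (n + 1) _ (by omega) hM' hp hs hg (mono hhom' hm) h3
        have hN := thm_NegA2 hInv (n + 1) c (by omega) hc
        rcases h1 with h1 | h1
        · refine Or.inr (Or.inl ⟨?_, Or.inl (sim_trans (h1 ▸ hsim) (sim_rts hc))⟩)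
          by_contra hcon
          rw [h1] at hg hhom'
          exact hN.2 hg (mono hhom' (by omega))
        · refine Or.inr (Or.inr ⟨?_, Or.inr (Or.inl (sim_trans (h1 ▸ hsim) (sim_mid hc)))⟩)
          by_contra hcon
          obtain ⟨z, hz, -⟩ := hx'
          rw [h1] at hg hhom' hz
          exact hN.1 ⟨z, hz⟩ hg (mono hhom' (by omega))
      · have h4 : ∀ x ∈ (fun x => L (x - t)) '' vertices P, ∀ i j k, x i = x j ∨ x j = x k ∨ x i = x k := by
          intro x hx i j k
          by_contra hcon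
          push Not at hcon
          exact h3 ⟨x, hx, i, j, k, hcon.1, hcon.2.1, hcon.2.2⟩
        obtain ⟨c, hc, h1⟩ := thm_ClsA2 hInv (n + 1) _ (by omega) hM' hp hs hx' hg
          (mono hhom' hm) h4
        rcases h1 with ⟨k, hk1, hk2, h1⟩ | ⟨k, hk1, hk2, hk3, h1⟩
        · rcases Nat.lt_or_ge k 2 with hk | hk
          · have : k = 1 := by omega
            subst this
            exact Or.inl (Or.inl (sim_trans (h1 ▸ hsim) (sim_hyps hc)))
          · rcases Nat.lt_or_ge k n with hk' | hk'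
            · refine Or.inr (Or.inr ⟨?_, Or.inr (Or.inr (Or.inl ⟨k, hk, hk',
                sim_trans (h1 ▸ hsim) (sim_hyps hc)⟩))⟩)
              by_contra hcon
              rw [h1] at hg hhom'
              exact (thm_NegA1 hInv (n + 1) k c (by omega) hc hk (by omega)).1 hg
                (mono hhom' (by omega))
            · have : k = n + 1 - 1 := by omega
              subst this
              exact Or.inl (Or.inl (sim_trans (h1 ▸ hsim) (sim_hyps' (by omega) hc)))
        · rcases Nat.lt_or_ge k 2 with hk | hk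
          · have : k = 1 := by omega
            subst this
            exact Or.inl (Or.inr (Or.inl (sim_trans (h1 ▸ hsim) (sim_hypsU hc))))
          · refine Or.inr (Or.inr ⟨?_, Or.inr (Or.inr (Or.inr ⟨k, hk, by omega, hk3,
              sim_trans (h1 ▸ hsim) (sim_hypsU hc)⟩))⟩)
            by_contra hcon
            rw [h1] at hg hhom'
            exact (thm_NegA1 hInv (n + 1) k c (by omega) hc hk (by omega)).2 hk2 hg
              (mono hhom' (by omega))
    · -- type D
      have hsim : Sim (vertices P) ((fun x => L (x - t)) '' vertices P) :=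
        sim_image _ t L.toLinearIsometry
      have hM' : ((fun x => L (x - t)) '' vertices P).Finite := hM.image _
      have hx' : ∃ z ∈ (fun x => L (x - t)) '' vertices P, z ≠ 0 :=
        exists_ne hne _ (image_inj t L.toLinearIsometry)
      have hg := spD hn hM' hp he hx'
      have hhom' : GHom m ((fun x => L (x - t)) '' vertices P) :=
        (thm_Ext n m _ hM' (thm_ClD n _ hM' (by omega) hp he hx').1).1
          (sim_hom (sim_symm hsim) hhom)
      obtain ⟨c, hc, h1⟩ := thm_ClsD hInv n _ (by omega) hM' hp he hx' hg (mono hhom' hm)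
      have hN1 := thm_NegD n c 1 (by omega) hc (Or.inl rfl)
      have hN2 := thm_NegD n c (-1) (by omega) hc (Or.inr rfl)
      rcases h1 with h1 | h1 | h1 | h1 | h1
      · exact Or.inl (Or.inr (Or.inr (sim_trans (h1 ▸ hsim) (sim_cross hc))))
      · refine Or.inr (Or.inl ⟨?_, Or.inr (Or.inl (sim_trans (h1 ▸ hsim) (sim_cube hc)))⟩)
        by_contra hcon
        rw [h1] at hg hhom'
        exact hN1.1 hg (mono hhom' (by omega))
      · refine Or.inr (Or.inl ⟨?_, Or.inr (Or.inr (sim_trans (h1 ▸ hsim)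
          (sim_half (by omega) hc (Or.inl rfl))))⟩)
        by_contra hcon
        rw [h1] at hg hhom'
        exact hN1.2.1 hg (mono hhom' (by omega))
      · refine Or.inr (Or.inl ⟨?_, Or.inr (Or.inr (sim_trans (h1 ▸ hsim)
          (sim_half (by omega) hc (Or.inr rfl))))⟩)
        by_contra hcon
        rw [h1] at hg hhom'
        exact hN2.2.1 hg (mono hhom' (by omega))
      · refine Or.inr (Or.inr ⟨?_, Or.inl (sim_trans (h1 ▸ hsim) (sim_rect hc))⟩)
        by_contra hcon
        rw [h1] at hg hhom'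
        exact hN1.2.2 hg (mono hhom' (by omega))
  · rintro ((h | h | h) | ⟨hm3, h | h | h⟩ | ⟨rfl, h | h | ⟨k, hk, hk2, h⟩ | ⟨k, hk, hk2, hk3, h⟩⟩) <;>
      refine sim_hom h (hom_of_ghom ?_)
    · exact (thm_Simp hInv (n + 1) m 1 (by omega) one_pos).1
    · exact (thm_Simp hInv (n + 1) m 1 (by omega) one_pos).2.2
    · exact thm_Cross hInv n m 1 one_pos
    · exact mono (thm_Rts3 hInv (n + 1) 1 one_pos) hm3
    · exact mono (thm_Cube3 hInv n 1 1 one_pos (Or.inl rfl)).1 hm3
    · exact mono (thm_Cube3 hInv n 1 1 one_pos (Or.inl rfl)).2 hm3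
    · exact thm_Rect2 hInv n 1 one_pos
    · exact thm_Mid2 hInv (n + 1) 1 one_pos
    · exact (thm_Hyps2 hInv (n + 1) k 1 one_pos (by omega) (by omega)).1
    · exact (thm_Hyps2 hInv (n + 1) k 1 one_pos (by omega) (by omega)).2 hk3

end Pool.Agent.RSP
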