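import Pool.Agent.RSP.St

/-!
# Module Hyps2: hypersimplices are 2-point homogeneous
-/

set_option autoImplicit false

noncomputable section

namespace Pool.Agent.RSP

namespace Hyps2x

variable {n : ℕ}

/-- The indicator function. -/
def ch (A : Finset (Fin n)) (i : Fin n) : ℝ := if i ∈ A then 1 else 0

theorem ch_sq (A : Finset (Fin n)) (i : Fin n) : ch A i * ch A i = ch A i := by
  unfold ch
  split_ifs <;> norm_num

theorem sum_ch (A : Finset (Fin n)) : ∑ i, ch A i = A.card := by
  unfold ch
  rw [Finset.sum_ite_mem, Finset.univ_inter]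
  simp

theorem sum_ch_mul (A B : Finset (Fin n)) : ∑ i, ch A i * ch B i = (A ∩ B).card := by
  rw [← sum_ch]
  refine Finset.sum_congr rfl fun i _ => ?_
  unfold ch
  by_cases h : i ∈ A <;> by_cases h' : i ∈ B <;> simp [h, h']

/-- Distances in the same part. -/
theorem dist_same (A B : Finset (Fin n)) (k : ℕ) (hA : A.card = k) (hB : B.card = k) (a t : ℝ) :
    ∑ i, (a * (ch A i - t) - a * (ch B i - t)) ^ 2 = a ^ 2 * (2 * k - 2 * (A ∩ B).card) := by
  have h1 : ∀ i, (a * (ch A i - t) - a * (ch B i - t)) ^ 2 =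
      a ^ 2 * (ch A i + ch B i - 2 * (ch A i * ch B i)) := by
    intro i
    have e1 := ch_sq A i
    have e2 := ch_sq B i
    calc (a * (ch A i - t) - a * (ch B i - t)) ^ 2
        = a ^ 2 * (ch A i * ch A i + ch B i * ch B i - 2 * (ch A i * ch B i)) := by ring
      _ = _ := by rw [e1, e2]
  rw [Finset.sum_congr rfl fun i _ => h1 i, ← Finset.mul_sum, Finset.sum_sub_distrib,
    Finset.sum_add_distrib, ← Finset.mul_sum, sum_ch, sum_ch, sum_ch_mul, hA, hB]
  ring

/-- Distances between the parts. -/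
theorem dist_diff (A B : Finset (Fin n)) (k : ℕ) (hA : A.card = k) (hB : B.card = k) (a : ℝ)
    (hn : 0 < n) :
    ∑ i, (a * (ch A i - k / n) - -a * (ch B i - k / n)) ^ 2 =
      a ^ 2 * (2 * k + 2 * (A ∩ B).card - 4 * k ^ 2 / n) := by
  have hn' : (n : ℝ) ≠ 0 := by exact_mod_cast hn.ne'
  have h1 : ∀ i, (a * (ch A i - k / n) - -a * (ch B i - k / n)) ^ 2 =
      a ^ 2 * (ch A i + ch B i + 2 * (ch A i * ch B i) - 4 * (k / n) * (ch A i + ch B i) +
        4 * (k / n : ℝ) ^ 2) := by
    intro i
    have e1 := ch_sq A i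
    have e2 := ch_sq B i
    calc (a * (ch A i - k / n) - -a * (ch B i - k / n)) ^ 2
        = a ^ 2 * (ch A i * ch A i + ch B i * ch B i + 2 * (ch A i * ch B i) -
          4 * (k / n) * (ch A i + ch B i) + 4 * (k / n : ℝ) ^ 2) := by ring
      _ = _ := by rw [e1, e2]
  rw [Finset.sum_congr rfl fun i _ => h1 i, ← Finset.mul_sum, Finset.sum_add_distrib,
    Finset.sum_sub_distrib, Finset.sum_add_distrib, Finset.sum_add_distrib, ← Finset.mul_sum,
    ← Finset.mul_sum, Finset.sum_add_distrib, sum_ch, sum_ch, sum_ch_mul, hA, hB,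
    Finset.sum_const, Finset.card_univ, Fintype.card_fin, nsmul_eq_mul]
  field_simp
  ring

/-- A permutation. -/
theorem perm_exists (A B A' B' : Finset (Fin n)) (hA : A.card = A'.card) (hB : B.card = B'.card)
    (hAB : (A ∩ B).card = (A' ∩ B').card) :
    ∃ σ : Equiv.Perm (Fin n), ∀ i, (i ∈ A' ↔ σ i ∈ A) ∧ (i ∈ B' ↔ σ i ∈ B) := by
  have hcard : ∀ (C D : Finset (Fin n)) (a : Bool × Bool),
      Nat.card {i // (decide (i ∈ C), decide (i ∈ D)) = a} =
      match a with
      | (true, true) => (C ∩ D).card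
      | (true, false) => C.card - (C ∩ D).card
      | (false, true) => D.card - (C ∩ D).card
      | (false, false) => n - (C.card + D.card - (C ∩ D).card) := by
    intro C D a
    rw [Nat.card_eq_fintype_card, Fintype.card_subtype]
    have h1 := Finset.card_sdiff_add_card_inter C D
    have h2 := Finset.card_sdiff_add_card_inter D C
    rw [Finset.inter_comm] at h2
    have h3 := Finset.card_union_add_card_inter C D
    have h4 := Finset.card_compl (C ∪ D)
    rw [Fintype.card_fin] at h4
    rcases a with ⟨_ | _, _ | _⟩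
    · have h5 : Finset.univ.filter (fun i => (decide (i ∈ C), decide (i ∈ D)) = (false, false)) =
          (C ∪ D)ᶜ := by
        ext i
        simp
      rw [h5]
      simp only
      omega
    · have h5 : Finset.univ.filter (fun i => (decide (i ∈ C), decide (i ∈ D)) = (false, true)) =
          D \ C := by
        ext i
        simp [and_comm]
      rw [h5]
      simp only
      omega
    · have h5 : Finset.univ.filter (fun i => (decide (i ∈ C), decide (i ∈ D)) = (true, false)) =
          C \ D := by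
        ext i
        simp
      rw [h5]
      simp only
      omega
    · have h5 : Finset.univ.filter (fun i => (decide (i ∈ C), decide (i ∈ D)) = (true, true)) =
          C ∩ D := by
        ext i
        simp
      rw [h5]
  obtain ⟨σ, hσ⟩ := exists_perm (fun i => (decide (i ∈ A'), decide (i ∈ B')))
    (fun i => (decide (i ∈ A), decide (i ∈ B))) (fun a => by
      rw [hcard A' B' a, hcard A B a, hA, hB, hAB])
  refine ⟨σ, fun i => ?_⟩
  have h1 := hσ i
  rw [Prod.mk.injEq, decide_eq_decide, decide_eq_decide] at h1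
  exact h1

theorem neg_of_ne {s t : ℝ} (hs : s = 1 ∨ s = -1) (ht : t = 1 ∨ t = -1) (h : s ≠ t) :
    t = -s := by
  rcases hs with rfl | rfl <;> rcases ht with rfl | rfl
  · exact absurd rfl h
  · rfl
  · norm_num
  · exact absurd rfl h

end Hyps2x

open Hyps2x in
theorem thm_Hyps2 : St_Hyps2 := by
  intro hInv n k c hc hk hkn
  have hn : 0 < n := by omega
  have hc2 : c ^ 2 ≠ 0 := by positivity
  obtain ⟨i1, i2, _, _, i5, _, _, i8, _⟩ := hInv n c
  obtain ⟨_, _, _, _, j5, _, _, j8, _⟩ := hInv n (-c)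
  constructor
  · intro P Q hP hQ hd
    obtain ⟨A, hA, hA'⟩ := hP 0
    obtain ⟨B, hB, hB'⟩ := hP 1
    obtain ⟨A', hA1, hA1'⟩ := hQ 0
    obtain ⟨B', hB1, hB1'⟩ := hQ 1
    have h1 := (dist_eq_iff _ _ _ _).1 (hd 0 1)
    have e1 : ∑ i, (P 0 i - P 1 i) ^ 2 = c ^ 2 * (2 * k - 2 * (A ∩ B).card) := by
      rw [← dist_same A B k hA hB c (k / n)]
      exact Finset.sum_congr rfl fun i _ => by rw [hA', hB']; rfl
    have e2 : ∑ i, (Q 0 i - Q 1 i) ^ 2 = c ^ 2 * (2 * k - 2 * (A' ∩ B').card) := by
      rw [← dist_same A' B' k hA1 hB1 c (k / n)]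
      exact Finset.sum_congr rfl fun i _ => by rw [hA1', hB1']; rfl
    rw [e1, e2] at h1
    have h2 : (A ∩ B).card = (A' ∩ B').card := by
      have h3 := mul_left_cancel₀ hc2 h1
      have h4 : ((A ∩ B).card : ℝ) = (A' ∩ B').card := by linarith
      exact_mod_cast h4
    obtain ⟨σ, hσ⟩ := perm_exists A B A' B' (hA.trans hA1.symm) (hB.trans hB1.symm) h2
    refine ⟨_, i1 _ (i5 k) σ, fun i => ?_⟩
    fin_cases i
    · ext l
      change (1 : ℝ) * P 0 (σ l) = Q 0 l
      rw [hA', hA1', one_mul]
      simp only [(hσ l).1]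
    · ext l
      change (1 : ℝ) * P 1 (σ l) = Q 1 l
      rw [hB', hB1', one_mul]
      simp only [(hσ l).2]
  · intro hdiv P Q hP hQ hd
    have hM1 : PermInv (hyps n k c ∪ hyps n k (-c)) := by
      rintro σ x (hx | hx)
      · exact Or.inl (i5 k σ x hx)
      · exact Or.inr (j5 k σ x hx)
    have hM2 : ∀ x ∈ hyps n k c ∪ hyps n k (-c), -x ∈ hyps n k c ∪ hyps n k (-c) := by
      rintro x (hx | hx)
      · exact Or.inr (i8 k x hx)
      · have := j8 k x hx
        rw [neg_neg] at this
        exact Or.inl this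
    have hpar : ∀ x ∈ hyps n k c ∪ hyps n k (-c), ∃ s : ℝ, (s = 1 ∨ s = -1) ∧
        ∃ A : Finset (Fin n), A.card = k ∧ ∀ i, x i = s * c * (ch A i - k / n) := by
      rintro x (⟨A, hA, hA'⟩ | ⟨A, hA, hA'⟩)
      · exact ⟨1, Or.inl rfl, A, hA, fun i => by rw [hA', one_mul]; rfl⟩
      · exact ⟨-1, Or.inr rfl, A, hA, fun i => by rw [hA', neg_one_mul]; rfl⟩
    obtain ⟨s, hs, A, hA, hA'⟩ := hpar _ (hP 0)
    obtain ⟨t, ht, B, hB, hB'⟩ := hpar _ (hP 1)
    obtain ⟨s', hs', A', hA1, hA1'⟩ := hpar _ (hQ 0)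
    obtain ⟨t', ht', B', hB1, hB1'⟩ := hpar _ (hQ 1)
    have h1 := (dist_eq_iff _ _ _ _).1 (hd 0 1)
    have gen : ∀ (x y : E n) (s t : ℝ), (s = 1 ∨ s = -1) → (t = 1 ∨ t = -1) →
        ∀ A B : Finset (Fin n), A.card = k → B.card = k →
        (∀ i, x i = s * c * (ch A i - k / n)) → (∀ i, y i = t * c * (ch B i - k / n)) →
        ∑ i, (x i - y i) ^ 2 = if s = t then c ^ 2 * (2 * k - 2 * (A ∩ B).card) else
          c ^ 2 * (2 * k + 2 * (A ∩ B).card - 4 * k ^ 2 / n) := by
      intro x y s t hs ht A B hA hB hx hy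
      have hs2 : s ^ 2 = 1 := by rcases hs with h | h <;> rw [h] <;> norm_num
      split_ifs with h
      · subst h
        have h3 := dist_same A B k hA hB (s * c) (k / n)
        rw [mul_pow, hs2, one_mul] at h3
        rw [← h3]
        exact Finset.sum_congr rfl fun i _ => by rw [hx, hy]
      · have hts : t = -s := neg_of_ne hs ht h
        have h3 := dist_diff A B k hA hB (s * c) hn
        rw [mul_pow, hs2, one_mul] at h3
        rw [← h3]
        exact Finset.sum_congr rfl fun i _ => by rw [hx, hy, hts, neg_mul]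
    rw [gen _ _ s t hs ht A B hA hB hA' hB', gen _ _ s' t' hs' ht' A' B' hA1 hB1 hA1' hB1'] at h1
    -- the final step
    have fin : (s = t ↔ s' = t') → (A ∩ B).card = (A' ∩ B').card →
        ∃ g ∈ Gp (hyps n k c ∪ hyps n k (-c)), ∀ i, g (P i) = Q i := by
      intro hst hAB
      obtain ⟨σ, hσ⟩ := perm_exists A B A' B' (hA.trans hA1.symm) (hB.trans hB1.symm) hAB
      have hch1 : ∀ l, ch A (σ l) = ch A' l := fun l => by
        unfold ch
        simp only [(hσ l).1]
      have hch2 : ∀ l, ch B (σ l) = ch B' l := fun l => by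
        unfold ch
        simp only [(hσ l).2]
      by_cases hss : s = s'
      · have htt : t = t' := by
          by_cases h : s = t
          · rw [← h, hss]
            exact hst.1 h
          · rw [neg_of_ne hs ht h, neg_of_ne hs' ht' (fun h' => h (hst.2 h')), hss]
        refine ⟨_, i1 _ hM1 σ, fun i => ?_⟩
        fin_cases i
        · ext l
          change (1 : ℝ) * P 0 (σ l) = Q 0 l
          rw [hA', hA1', one_mul, hch1, hss]
        · ext l
          change (1 : ℝ) * P 1 (σ l) = Q 1 l
          rw [hB', hB1', one_mul, hch2, htt]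
      · have hss' : s' = -s := neg_of_ne hs hs' hss
        have htt' : t' = -t := by
          by_cases h : s = t
          · rw [← h, ← hss']
            exact (hst.1 h).symm
          · rw [neg_of_ne hs ht h, neg_of_ne hs' ht' (fun h' => h (hst.2 h')), hss']
        refine ⟨_, i2 _ hM1 hM2 σ, fun i => ?_⟩
        fin_cases i
        · ext l
          change (-1 : ℝ) * P 0 (σ l) = Q 0 l
          rw [hA', hA1', hch1, hss']
          ring
        · ext l
          change (-1 : ℝ) * P 1 (σ l) = Q 1 l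
          rw [hB', hB1', hch2, htt']
          ring
    have excl : ∀ a b : ℕ, c ^ 2 * (2 * k - 2 * (a : ℝ)) =
        c ^ 2 * (2 * k + 2 * (b : ℝ) - 4 * k ^ 2 / n) → False := by
      intro a b h
      have h3 := mul_left_cancel₀ hc2 h
      have hn' : (n : ℝ) ≠ 0 := by exact_mod_cast hn.ne'
      have h4 : ((n * (a + b) : ℕ) : ℝ) = ((2 * k ^ 2 : ℕ) : ℝ) := by
        push_cast
        field_simp at h3
        linarith
      have h5 : n * (a + b) = 2 * k ^ 2 := by exact_mod_cast h4
      exact hdiv ⟨a + b, h5.symm⟩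
    by_cases hst : s = t
    · by_cases hst' : s' = t'
      · rw [if_pos hst, if_pos hst'] at h1
        have h3 := mul_left_cancel₀ hc2 h1
        have h4 : ((A ∩ B).card : ℝ) = (A' ∩ B').card := by linarith
        exact fin (iff_of_true hst hst') (by exact_mod_cast h4)
      · rw [if_pos hst, if_neg hst'] at h1
        exact (excl _ _ h1).elim
    · by_cases hst' : s' = t'
      · rw [if_neg hst, if_pos hst'] at h1
        exact (excl _ _ h1.symm).elim
      · rw [if_neg hst, if_neg hst'] at h1
        have h3 := mul_left_cancel₀ hc2 h1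
        have h4 : ((A ∩ B).card : ℝ) = (A' ∩ B').card := by linarith
        exact fin (iff_of_false hst hst') (by exact_mod_cast h4)

end Pool.Agent.RSP
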