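import Pool.Agent.RSP.St

/-!
# RSP, module Inv: invariance of the families
-/

set_option autoImplicit false

noncomputable section

namespace Pool.Agent.RSP

variable {n : ℕ}

private theorem inv_symm (ε : Fin n → ℝ) (hε : ∀ i, ε i = 1 ∨ ε i = -1)
    (σ : Equiv.Perm (Fin n)) : ∀ i, ε (σ.symm i) = 1 ∨ ε (σ.symm i) = -1 := fun i => hε _

private theorem inv_spm (σ : Equiv.Perm (Fin n)) (ε : Fin n → ℝ) (hε : ∀ i, ε i = 1 ∨ ε i = -1)
    (x : E n) : spm σ.symm (fun i => ε (σ.symm i)) (inv_symm ε hε σ) (spm σ ε hε x) = x := by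
  ext i
  rw [spm_apply, spm_apply, Equiv.apply_symm_apply, ← mul_assoc]
  rcases hε (σ.symm i) with h | h <;> rw [h] <;> norm_num

private theorem inv_Gp (M : Set (E n)) (σ : Equiv.Perm (Fin n)) (ε : Fin n → ℝ)
    (hε : ∀ i, ε i = 1 ∨ ε i = -1) (h1 : ∀ x ∈ M, spm σ ε hε x ∈ M)
    (h2 : ∀ x ∈ M, spm σ.symm (fun i => ε (σ.symm i)) (inv_symm ε hε σ) x ∈ M) :
    spm σ ε hε ∈ Gp M := by
  intro x
  constructor
  · intro h
    have h3 := h2 _ h
    rwa [inv_spm] at h3
  · exact h1 x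

private theorem inv_val (a b c : ℝ) (ha : a = 1 ∨ a = -1) (hb : b = c ∨ b = -c) :
    a * b = c ∨ a * b = -c := by
  rcases ha with ha | ha <;> rcases hb with hb | hb <;> rw [ha, hb] <;> simp

private theorem inv_cross (c : ℝ) (σ : Equiv.Perm (Fin n)) (ε : Fin n → ℝ)
    (hε : ∀ i, ε i = 1 ∨ ε i = -1) : ∀ x ∈ cross n c, spm σ ε hε x ∈ cross n c := by
  rintro x ⟨i, h1, h2⟩
  refine ⟨σ.symm i, ?_, ?_⟩
  · rw [spm_apply, Equiv.apply_symm_apply]
    exact inv_val _ _ _ (hε _) h1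
  · intro j hj
    rw [spm_apply, h2, mul_zero]
    intro h
    apply hj
    rw [← h, Equiv.symm_apply_apply]

private theorem inv_cube (c : ℝ) (σ : Equiv.Perm (Fin n)) (ε : Fin n → ℝ)
    (hε : ∀ i, ε i = 1 ∨ ε i = -1) : ∀ x ∈ cube n c, spm σ ε hε x ∈ cube n c := by
  intro x hx i
  rw [spm_apply]
  exact inv_val _ _ _ (hε _) (hx _)

private theorem inv_rect (c : ℝ) (σ : Equiv.Perm (Fin n)) (ε : Fin n → ℝ)
    (hε : ∀ i, ε i = 1 ∨ ε i = -1) : ∀ x ∈ rect n c, spm σ ε hε x ∈ rect n c := by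
  rintro x ⟨i, h1, h2⟩
  refine ⟨σ.symm i, ?_, ?_⟩
  · rw [spm_apply, Equiv.apply_symm_apply, h1, mul_zero]
  · intro j hj
    rw [spm_apply]
    refine inv_val _ _ _ (hε _) (h2 _ ?_)
    intro h
    apply hj
    rw [← h, Equiv.symm_apply_apply]

private theorem inv_half (c e : ℝ) (σ : Equiv.Perm (Fin n)) (ε : Fin n → ℝ)
    (hε : ∀ i, ε i = 1 ∨ ε i = -1) (h : ∏ i, ε i = 1) :
    ∀ x ∈ half n c e, spm σ ε hε x ∈ half n c e := by
  rintro x ⟨h1, h2⟩
  refine ⟨inv_cube c σ ε hε x h1, ?_⟩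
  have h3 : ∏ i, (spm σ ε hε x) i = (∏ i, ε i) * ∏ i, x (σ i) := by
    rw [← Finset.prod_mul_distrib]
    rfl
  rw [h3, h, one_mul, Equiv.prod_comp σ (fun i => x i), h2]

theorem thm_Inv : St_Inv := by
  intro n c
  refine ⟨?_, ?_, ?_, ?_, ?_, ?_, ?_, ?_, ?_, ?_, ?_, ?_, ?_⟩
  · intro M hM σ
    have key : ∀ (τ : Equiv.Perm (Fin n)) (x : E n),
        spm τ (fun _ => 1) (fun _ => Or.inl rfl) x = pm τ x := by
      intro τ x
      ext i
      rw [spm_apply, pm_apply, one_mul]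
    apply inv_Gp
    · intro x hx
      rw [key]
      exact hM σ x hx
    · intro x hx
      have h := key σ.symm x
      have h' : spm σ.symm (fun i => (fun _ : Fin n => (1 : ℝ)) (σ.symm i))
          (inv_symm (fun _ => 1) (fun _ => Or.inl rfl) σ) x = pm σ.symm x := h
      rw [h']
      exact hM _ x hx
  · intro M hM hneg σ
    have key : ∀ (τ : Equiv.Perm (Fin n)) (x : E n),
        spm τ (fun _ => -1) (fun _ => Or.inr rfl) x = -pm τ x := by
      intro τ x
      ext i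
      rw [spm_apply, PiLp.neg_apply, pm_apply, neg_one_mul]
    apply inv_Gp
    · intro x hx
      rw [key]
      exact hneg _ (hM σ x hx)
    · intro x hx
      have h := key σ.symm x
      have h' : spm σ.symm (fun i => (fun _ : Fin n => (-1 : ℝ)) (σ.symm i))
          (inv_symm (fun _ => -1) (fun _ => Or.inr rfl) σ) x = -pm σ.symm x := h
      rw [h']
      exact hneg _ (hM _ x hx)
  · intro σ ε hε
    exact ⟨inv_Gp _ _ _ _ (inv_cross c σ ε hε) (inv_cross c _ _ _),
      inv_Gp _ _ _ _ (inv_cube c σ ε hε) (inv_cube c _ _ _),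
      inv_Gp _ _ _ _ (inv_rect c σ ε hε) (inv_rect c _ _ _)⟩
  · intro e σ ε hε h
    refine inv_Gp _ _ _ _ (inv_half c e σ ε hε h) (inv_half c e _ _ _ ?_)
    rw [Equiv.prod_comp σ.symm (fun i => ε i), h]
  · rintro k σ x ⟨A, hA, hx⟩
    refine ⟨A.map σ.symm.toEmbedding, by rw [Finset.card_map, hA], ?_⟩
    intro i
    rw [pm_apply, hx]
    congr 3
    rw [Finset.mem_map_equiv, Equiv.symm_symm]
  · rintro σ x ⟨i, j, hij, h1, h2, h3⟩
    refine ⟨σ.symm i, σ.symm j, fun h => hij (σ.symm.injective h), ?_, ?_, ?_⟩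
    · rw [pm_apply, Equiv.apply_symm_apply, h1]
    · rw [pm_apply, Equiv.apply_symm_apply, h2]
    · intro l hl hl'
      rw [pm_apply, h3]
      · intro h
        apply hl
        rw [← h, Equiv.symm_apply_apply]
      · intro h
        apply hl'
        rw [← h, Equiv.symm_apply_apply]
  · rintro σ x ⟨⟨i, h1, h2⟩, h3⟩
    refine ⟨⟨σ.symm i, ?_, ?_⟩, ?_⟩
    · rw [pm_apply, Equiv.apply_symm_apply, h1]
    · intro j hj
      rw [pm_apply]
      refine h2 _ ?_
      intro h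
      apply hj
      rw [← h, Equiv.symm_apply_apply]
    · have h4 : ∑ i, (pm σ x) i = ∑ i, x (σ i) := rfl
      rw [h4, Equiv.sum_comp σ (fun i => x i), h3]
  · rintro k x ⟨A, hA, hx⟩
    refine ⟨A, hA, ?_⟩
    intro i
    rw [PiLp.neg_apply, hx]
    ring
  · rintro x ⟨i, j, hij, h1, h2, h3⟩
    refine ⟨j, i, hij.symm, ?_, ?_, ?_⟩
    · rw [PiLp.neg_apply, h2, neg_neg]
    · rw [PiLp.neg_apply, h1]
    · intro l hl hl'
      rw [PiLp.neg_apply, h3 l hl' hl, neg_zero]
  · rintro x ⟨⟨i, h1, h2⟩, h3⟩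
    refine ⟨⟨i, ?_, ?_⟩, ?_⟩
    · rw [PiLp.neg_apply, h1, neg_zero]
    · intro j hj
      rw [PiLp.neg_apply]
      rcases h2 j hj with h | h
      · right
        rw [h]
      · left
        rw [h, neg_neg]
    · have h4 : ∑ i, (-x : E n) i = ∑ i, -(x i) := rfl
      rw [h4, Finset.sum_neg_distrib, h3, neg_zero]
  · intro k hk hn
    have hn0 : (n : ℝ) ≠ 0 := by
      have : n ≠ 0 := by omega
      exact_mod_cast this
    have hcast : ((n - k : ℕ) : ℝ) = (n : ℝ) - k := by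
      rw [Nat.cast_sub hk]
    ext x
    constructor
    · rintro ⟨A, hA, hx⟩
      refine ⟨Aᶜ, ?_, ?_⟩
      · rw [Finset.card_compl, hA, Fintype.card_fin]
        omega
      · intro i
        rw [hx, hcast]
        by_cases hi : i ∈ A
        · rw [if_pos hi, if_neg (by simpa using hi)]
          field_simp
          ring
        · rw [if_neg hi, if_pos (by simpa using hi)]
          field_simp
          ring
    · rintro ⟨A, hA, hx⟩
      refine ⟨Aᶜ, ?_, ?_⟩
      · rw [Finset.card_compl, hA, Fintype.card_fin]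
      · intro i
        rw [hx, hcast]
        by_cases hi : i ∈ A
        · rw [if_pos hi, if_neg (by simpa using hi)]
          field_simp
          ring
        · rw [if_neg hi, if_pos (by simpa using hi)]
          field_simp
          ring
  · rintro k hn hk x ⟨A, hA, hx⟩
    have hn0 : (n : ℝ) ≠ 0 := by
      have : n ≠ 0 := by omega
      exact_mod_cast this
    rw [Finset.sum_congr rfl fun i _ => hx i, ← Finset.mul_sum, Finset.sum_sub_distrib]
    have h1 : ∑ i : Fin n, (if i ∈ A then (1 : ℝ) else 0) = k := by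
      rw [Finset.sum_ite_mem, Finset.univ_inter, Finset.sum_const, hA]
      simp
    have h2 : ∑ _i : Fin n, (k : ℝ) / n = k := by
      rw [Finset.sum_const, Finset.card_univ, Fintype.card_fin, nsmul_eq_mul]
      field_simp
    rw [h1, h2, sub_self, mul_zero]
  · rintro x ⟨i, j, hij, h1, h2, h3⟩
    rw [Fintype.sum_eq_add i j hij (fun l hl => h3 l hl.1 hl.2), h1, h2]
    ring

end Pool.Agent.RSP
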