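import Pool.Agent.RSP.St

/-!
# RSP Mid2: `mid n c` is 2-point homogeneous
-/

set_option autoImplicit false

noncomputable section

namespace Pool.Agent.RSP

namespace Mid2x

/-- the values `0, 1, -1` -/
def v : Fin 3 → ℤ := ![0, 1, -1]

/-- the sign change -/
def nu : Fin 3 → Fin 3 := ![0, 2, 1]

theorem nu_nu (k : Fin 3) : nu (nu k) = k := by
  fin_cases k <;> rfl

theorem v_nu (k : Fin 3) : v (nu k) = -v k := by
  fin_cases k <;> rfl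

theorem v_zero (k : Fin 3) : v k = 0 ↔ k = 0 := by
  fin_cases k <;> simp [v]

/-- the number of the places with the value `p` -/
def N {n : ℕ} (g : Fin n → Fin 3 × Fin 3) (p : Fin 3 × Fin 3) : ℕ := Nat.card {i // g i = p}

theorem sumN {n : ℕ} (g : Fin n → Fin 3 × Fin 3) (F : Fin 3 × Fin 3 → ℤ) :
    ∑ i, F (g i) = ∑ p, (N g p : ℤ) * F p := by
  rw [← Finset.sum_fiberwise Finset.univ g fun i => F (g i)]
  refine Finset.sum_congr rfl fun p _ => ?_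
  have h1 : ∀ i ∈ Finset.univ.filter (fun i => g i = p), F (g i) = F p := by
    intro i hi
    rw [(Finset.mem_filter.1 hi).2]
  rw [Finset.sum_congr rfl h1, Finset.sum_const, nsmul_eq_mul]
  congr 2
  unfold N
  rw [Nat.card_eq_fintype_card, Fintype.card_subtype]

/-- the data of a pair -/
structure D {n : ℕ} (s t : Fin n → Fin 3) (d : ℤ) : Prop where
  zs : ∑ i, (if s i = 0 then (1 : ℤ) else 0) = 1
  zt : ∑ i, (if t i = 0 then (1 : ℤ) else 0) = 1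
  ss : ∑ i, v (s i) = 0
  st : ∑ i, v (t i) = 0
  ds : ∑ i, (v (s i) - v (t i)) ^ 2 = d

theorem D.eqs {n : ℕ} {s t : Fin n → Fin 3} {d : ℤ} (h : D s t d) :
    ∃ M : Fin 3 → Fin 3 → ℕ, (∀ a b, M a b = N (fun i => (s i, t i)) (a, b)) ∧
      M 0 0 + M 0 1 + M 0 2 = 1 ∧ M 0 0 + M 1 0 + M 2 0 = 1 ∧
      M 1 0 + M 1 1 + M 1 2 = M 2 0 + M 2 1 + M 2 2 ∧
      M 0 1 + M 1 1 + M 2 1 = M 0 2 + M 1 2 + M 2 2 ∧
      M 0 0 + M 0 1 + M 0 2 + M 1 0 + M 1 1 + M 1 2 + M 2 0 + M 2 1 + M 2 2 = n ∧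
      ((M 0 1 + M 0 2 + M 1 0 + M 2 0 + 4 * (M 1 2 + M 2 1) : ℕ) : ℤ) = d := by
  refine ⟨fun a b => N (fun i => (s i, t i)) (a, b), fun _ _ => rfl, ?_, ?_, ?_, ?_, ?_, ?_⟩
  · have h1 := sumN (fun i => (s i, t i)) fun p => if p.1 = 0 then (1 : ℤ) else 0
    have h2 := h1.symm.trans h.zs
    simp only [Fintype.sum_prod_type, Fin.sum_univ_three] at h2
    simp at h2
    exact_mod_cast h2
  · have h1 := sumN (fun i => (s i, t i)) fun p => if p.2 = 0 then (1 : ℤ) else 0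
    have h2 := h1.symm.trans h.zt
    simp only [Fintype.sum_prod_type, Fin.sum_univ_three] at h2
    simp at h2
    exact_mod_cast h2
  · have h1 := sumN (fun i => (s i, t i)) fun p => v p.1
    have h2 := h1.symm.trans h.ss
    simp only [Fintype.sum_prod_type, Fin.sum_univ_three] at h2
    simp [v] at h2
    beta_reduce
    omega
  · have h1 := sumN (fun i => (s i, t i)) fun p => v p.2
    have h2 := h1.symm.trans h.st
    simp only [Fintype.sum_prod_type, Fin.sum_univ_three] at h2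
    simp [v] at h2
    beta_reduce
    omega
  · have h1 := sumN (fun i => (s i, t i)) fun _ => (1 : ℤ)
    simp only [Fintype.sum_prod_type, Fin.sum_univ_three, Finset.sum_const, Finset.card_univ,
      Fintype.card_fin, mul_one, nsmul_eq_mul] at h1
    beta_reduce
    omega
  · have h1 := sumN (fun i => (s i, t i)) fun p => (v p.1 - v p.2) ^ 2
    have h2 := h1.symm.trans h.ds
    simp only [Fintype.sum_prod_type, Fin.sum_univ_three] at h2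
    simp [v] at h2
    push_cast
    linarith

theorem one {n : ℕ} {d : ℤ} {a00 a01 a02 a10 a11 a12 a20 a21 a22 : ℕ}
    (h1 : a00 + a01 + a02 = 1) (h2 : a00 + a10 + a20 = 1) (h3 : a10 + a11 + a12 = a20 + a21 + a22)
    (h4 : a01 + a11 + a21 = a02 + a12 + a22)
    (h5 : a00 + a01 + a02 + a10 + a11 + a12 + a20 + a21 + a22 = n)
    (h6 : ((a01 + a02 + a10 + a20 + 4 * (a12 + a21) : ℕ) : ℤ) = d) :
    ∃ r q : ℕ,
      (a00 = 1 ∧ a01 = 0 ∧ a02 = 0 ∧ a10 = 0 ∧ a20 = 0 ∧ a12 = r ∧ a21 = r ∧ a11 = q ∧ a22 = q ∧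
        n = 1 + 2 * q + 2 * r ∧ d = 8 * r) ∨
      (a00 = 0 ∧ a01 = 1 ∧ a02 = 0 ∧ a10 = 1 ∧ a20 = 0 ∧ a12 = r ∧ a21 = r ∧ a11 = q ∧
        a22 = q + 1 ∧ n = 3 + 2 * q + 2 * r ∧ d = 2 + 8 * r) ∨
      (a00 = 0 ∧ a01 = 0 ∧ a02 = 1 ∧ a10 = 0 ∧ a20 = 1 ∧ a12 = r ∧ a21 = r ∧ a11 = q + 1 ∧
        a22 = q ∧ n = 3 + 2 * q + 2 * r ∧ d = 2 + 8 * r) ∨
      (a00 = 0 ∧ a01 = 1 ∧ a02 = 0 ∧ a10 = 0 ∧ a20 = 1 ∧ a12 = r + 1 ∧ a21 = r ∧ a11 = q ∧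
        a22 = q ∧ n = 3 + 2 * q + 2 * r ∧ d = 6 + 8 * r) ∨
      (a00 = 0 ∧ a01 = 0 ∧ a02 = 1 ∧ a10 = 1 ∧ a20 = 0 ∧ a12 = r ∧ a21 = r + 1 ∧ a11 = q ∧
        a22 = q ∧ n = 3 + 2 * q + 2 * r ∧ d = 6 + 8 * r) := by
  push_cast at h6
  have c1 : (a00 = 1 ∧ a01 = 0 ∧ a02 = 0) ∨ (a00 = 0 ∧ a01 = 1 ∧ a02 = 0) ∨
      (a00 = 0 ∧ a01 = 0 ∧ a02 = 1) := by omega
  have c2 : (a00 = 1 ∧ a10 = 0 ∧ a20 = 0) ∨ (a00 = 0 ∧ a10 = 1 ∧ a20 = 0) ∨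
      (a00 = 0 ∧ a10 = 0 ∧ a20 = 1) := by omega
  rcases c1 with ⟨u1, u2, u3⟩ | ⟨u1, u2, u3⟩ | ⟨u1, u2, u3⟩ <;>
    rcases c2 with ⟨w1, w2, w3⟩ | ⟨w1, w2, w3⟩ | ⟨w1, w2, w3⟩ <;>
    first
      | (exfalso; omega)
      | skip
  · refine ⟨a12, a11, Or.inl ?_⟩
    refine ⟨u1, u2, u3, w2, w3, rfl, ?_, rfl, ?_, ?_, ?_⟩ <;> omega
  · refine ⟨a12, a11, Or.inr (Or.inl ?_)⟩
    refine ⟨u1, u2, u3, w2, w3, rfl, ?_, rfl, ?_, ?_, ?_⟩ <;> omega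
  · refine ⟨a21, a11, Or.inr (Or.inr (Or.inr (Or.inl ?_)))⟩
    refine ⟨u1, u2, u3, w2, w3, ?_, rfl, rfl, ?_, ?_, ?_⟩ <;> omega
  · refine ⟨a12, a11, Or.inr (Or.inr (Or.inr (Or.inr ?_)))⟩
    refine ⟨u1, u2, u3, w2, w3, rfl, ?_, rfl, ?_, ?_, ?_⟩ <;> omega
  · refine ⟨a12, a22, Or.inr (Or.inr (Or.inl ?_))⟩
    refine ⟨u1, u2, u3, w2, w3, rfl, ?_, ?_, rfl, ?_, ?_⟩ <;> omega

theorem arith {n : ℕ} {d : ℤ} {M M' : Fin 3 → Fin 3 → ℕ}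
    (a1 : M 0 0 + M 0 1 + M 0 2 = 1) (a2 : M 0 0 + M 1 0 + M 2 0 = 1)
    (a3 : M 1 0 + M 1 1 + M 1 2 = M 2 0 + M 2 1 + M 2 2)
    (a4 : M 0 1 + M 1 1 + M 2 1 = M 0 2 + M 1 2 + M 2 2)
    (a5 : M 0 0 + M 0 1 + M 0 2 + M 1 0 + M 1 1 + M 1 2 + M 2 0 + M 2 1 + M 2 2 = n)
    (a6 : ((M 0 1 + M 0 2 + M 1 0 + M 2 0 + 4 * (M 1 2 + M 2 1) : ℕ) : ℤ) = d)
    (b1 : M' 0 0 + M' 0 1 + M' 0 2 = 1) (b2 : M' 0 0 + M' 1 0 + M' 2 0 = 1)
    (b3 : M' 1 0 + M' 1 1 + M' 1 2 = M' 2 0 + M' 2 1 + M' 2 2)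
    (b4 : M' 0 1 + M' 1 1 + M' 2 1 = M' 0 2 + M' 1 2 + M' 2 2)
    (b5 : M' 0 0 + M' 0 1 + M' 0 2 + M' 1 0 + M' 1 1 + M' 1 2 + M' 2 0 + M' 2 1 + M' 2 2 = n)
    (b6 : ((M' 0 1 + M' 0 2 + M' 1 0 + M' 2 0 + 4 * (M' 1 2 + M' 2 1) : ℕ) : ℤ) = d) :
    (∀ a b, M a b = M' a b) ∨ ∀ a b, M a b = M' (nu a) (nu b) := by
  obtain ⟨r, q, hM⟩ := one a1 a2 a3 a4 a5 a6
  obtain ⟨r', q', hM'⟩ := one b1 b2 b3 b4 b5 b6
  clear a1 a2 a3 a4 a5 a6 b1 b2 b3 b4 b5 b6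
  have fin1 : (M 0 0 = M' 0 0 ∧ M 0 1 = M' 0 1 ∧ M 0 2 = M' 0 2 ∧ M 1 0 = M' 1 0 ∧
      M 1 1 = M' 1 1 ∧ M 1 2 = M' 1 2 ∧ M 2 0 = M' 2 0 ∧ M 2 1 = M' 2 1 ∧ M 2 2 = M' 2 2) →
      (∀ a b, M a b = M' a b) := by
    rintro ⟨k1, k2, k3, k4, k5, k6, k7, k8, k9⟩ a b
    fin_cases a <;> fin_cases b <;> assumption
  have fin2 : (M 0 0 = M' 0 0 ∧ M 0 1 = M' 0 2 ∧ M 0 2 = M' 0 1 ∧ M 1 0 = M' 2 0 ∧
      M 1 1 = M' 2 2 ∧ M 1 2 = M' 2 1 ∧ M 2 0 = M' 1 0 ∧ M 2 1 = M' 1 2 ∧ M 2 2 = M' 1 1) →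
      ∀ a b, M a b = M' (nu a) (nu b) := by
    rintro ⟨k1, k2, k3, k4, k5, k6, k7, k8, k9⟩ a b
    fin_cases a <;> fin_cases b <;> assumption
  rcases hM with ⟨m1, m2, m3, m4, m5, m6, m7, m8, m9, m10, m11⟩ |
    ⟨m1, m2, m3, m4, m5, m6, m7, m8, m9, m10, m11⟩ |
    ⟨m1, m2, m3, m4, m5, m6, m7, m8, m9, m10, m11⟩ |
    ⟨m1, m2, m3, m4, m5, m6, m7, m8, m9, m10, m11⟩ |
    ⟨m1, m2, m3, m4, m5, m6, m7, m8, m9, m10, m11⟩ <;>
  rcases hM' with ⟨l1, l2, l3, l4, l5, l6, l7, l8, l9, l10, l11⟩ |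
    ⟨l1, l2, l3, l4, l5, l6, l7, l8, l9, l10, l11⟩ |
    ⟨l1, l2, l3, l4, l5, l6, l7, l8, l9, l10, l11⟩ |
    ⟨l1, l2, l3, l4, l5, l6, l7, l8, l9, l10, l11⟩ |
    ⟨l1, l2, l3, l4, l5, l6, l7, l8, l9, l10, l11⟩ <;>
  rw [m11] at l11 <;> rw [m10] at l10 <;>
  first
    | (exfalso; omega)
    | (have e1 : r = r' := by omega
       have e2 : q = q' := by omega
       subst e1 e2
       first
         | (left
            apply fin1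
            rw [m1, m2, m3, m4, m5, m6, m7, m8, m9, l1, l2, l3, l4, l5, l6, l7, l8, l9]
            exact ⟨rfl, rfl, rfl, rfl, rfl, rfl, rfl, rfl, rfl⟩)
         | (right
            apply fin2
            rw [m1, m2, m3, m4, m5, m6, m7, m8, m9, l1, l2, l3, l4, l5, l6, l7, l8, l9]
            exact ⟨rfl, rfl, rfl, rfl, rfl, rfl, rfl, rfl, rfl⟩))

theorem code {n : ℕ} {c : ℝ} (hc : 0 < c) {x : E n} (hx : x ∈ mid n c) :
    ∃ s : Fin n → Fin 3, (∀ i, x i = c * (v (s i) : ℝ)) ∧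
      ∑ i, (if s i = 0 then (1 : ℤ) else 0) = 1 ∧ ∑ i, v (s i) = 0 := by
  obtain ⟨⟨i₀, h0, h1⟩, h2⟩ := hx
  have hs : ∀ i, ∃ k : Fin 3, x i = c * (v k : ℝ) := by
    intro i
    by_cases hi : i = i₀
    · refine ⟨0, ?_⟩
      rw [hi, h0]
      simp [v]
    · rcases h1 i hi with h | h
      · refine ⟨1, ?_⟩
        rw [h]
        simp [v]
      · refine ⟨2, ?_⟩
        rw [h]
        simp [v]
  choose s hs using hs
  refine ⟨s, hs, ?_, ?_⟩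
  · have h3 : ∀ i, s i = 0 ↔ i = i₀ := by
      intro i
      rw [← v_zero]
      constructor
      · intro h
        by_contra hi
        have h4 := hs i
        rw [h, Int.cast_zero, mul_zero] at h4
        rcases h1 i hi with h5 | h5 <;> rw [h5] at h4 <;> linarith
      · intro h
        have h4 := hs i
        rw [h, h0] at h4
        have h5 := (mul_eq_zero.1 h4.symm).resolve_left hc.ne'
        rw [h]
        exact Int.cast_eq_zero.1 h5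
    simp only [h3, Finset.sum_ite_eq', Finset.mem_univ, if_true]
  · have h3 : c * ((∑ i, v (s i) : ℤ) : ℝ) = 0 := by
      rw [← h2, Int.cast_sum, Finset.mul_sum]
      exact Finset.sum_congr rfl fun i _ => (hs i).symm
    have h4 := (mul_eq_zero.1 h3).resolve_left hc.ne'
    exact_mod_cast h4

theorem dst {n : ℕ} {c : ℝ} {x y : E n} {s t : Fin n → Fin 3} (hx : ∀ i, x i = c * (v (s i) : ℝ))
    (hy : ∀ i, y i = c * (v (t i) : ℝ)) :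
    ∑ i, (x i - y i) ^ 2 = c ^ 2 * ((∑ i, (v (s i) - v (t i)) ^ 2 : ℤ) : ℝ) := by
  rw [Int.cast_sum, Finset.mul_sum]
  refine Finset.sum_congr rfl fun i _ => ?_
  rw [hx, hy]
  push_cast
  ring

end Mid2x

open Mid2x

theorem thm_Mid2 : St_Mid2 := by
  intro hInv n c hc A B hA hB hAB
  obtain ⟨i1, i2, -, -, -, -, i7, -, -, i10, -⟩ := hInv n c
  obtain ⟨s, s1, s2, s3⟩ := code hc (hA 0)
  obtain ⟨t, t1, t2, t3⟩ := code hc (hA 1)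
  obtain ⟨s', s1', s2', s3'⟩ := code hc (hB 0)
  obtain ⟨t', t1', t2', t3'⟩ := code hc (hB 1)
  have hd := (dist_eq_iff _ _ _ _).1 (hAB 0 1)
  rw [dst s1 t1, dst s1' t1'] at hd
  have hc2 : c ^ 2 ≠ 0 := by positivity
  have hd2 : ∑ i, (v (s i) - v (t i)) ^ 2 = ∑ i, (v (s' i) - v (t' i)) ^ 2 := by
    exact_mod_cast mul_left_cancel₀ hc2 hd
  have D1 : D s t (∑ i, (v (s' i) - v (t' i)) ^ 2) := ⟨s2, t2, s3, t3, hd2⟩
  have D2 : D s' t' (∑ i, (v (s' i) - v (t' i)) ^ 2) := ⟨s2', t2', s3', t3', rfl⟩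
  obtain ⟨M, m0, m1, m2, m3, m4, m5, m6⟩ := D1.eqs
  obtain ⟨M', m0', m1', m2', m3', m4', m5', m6'⟩ := D2.eqs
  rcases arith m1' m2' m3' m4' m5' m6' m1 m2 m3 m4 m5 m6 with h | h
  · obtain ⟨σ, hσ⟩ := exists_perm (fun i => (s' i, t' i)) (fun i => (s i, t i)) (by
      rintro ⟨a, b⟩
      have h1 := h a b
      rw [m0, m0'] at h1
      exact h1)
    refine ⟨_, i1 _ i7 σ, fun k => ?_⟩
    ext i
    have h2 := hσ i
    rw [Prod.mk.injEq] at h2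
    rw [spm_apply, one_mul]
    fin_cases k
    · show A 0 (σ i) = B 0 i
      rw [s1, s1', h2.1]
    · show A 1 (σ i) = B 1 i
      rw [t1, t1', h2.2]
  · obtain ⟨σ, hσ⟩ := exists_perm (fun i => (s' i, t' i)) (fun i => (nu (s i), nu (t i))) (by
      rintro ⟨a, b⟩
      have h1 := h a b
      rw [m0, m0'] at h1
      refine h1.trans ?_
      refine Nat.card_congr (Equiv.subtypeEquivRight fun i => ?_)
      constructor
      · intro h3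
        rw [Prod.mk.injEq] at h3
        show (nu (s i), nu (t i)) = (a, b)
        rw [h3.1, h3.2, nu_nu, nu_nu]
      · intro h3
        rw [Prod.mk.injEq] at h3
        show (s i, t i) = (nu a, nu b)
        rw [← h3.1, ← h3.2, nu_nu, nu_nu])
    refine ⟨_, i2 _ i7 i10 σ, fun k => ?_⟩
    ext i
    have h2 := hσ i
    rw [Prod.mk.injEq] at h2
    rw [spm_apply]
    fin_cases k
    · show -1 * A 0 (σ i) = B 0 i
      rw [s1, s1', h2.1, v_nu]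
      push_cast
      ring
    · show -1 * A 1 (σ i) = B 1 i
      rw [t1, t1', h2.2, v_nu]
      push_cast
      ring

end Pool.Agent.RSP
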