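import Pool.Agent.RSP.St

/-!
# Hypersimplices are not 3-point homogeneous

Module NegA1 of the project on problem MP_a177dd_co (architect helper51).
-/

set_option autoImplicit false

noncomputable section

namespace Pool.Agent.RSP

namespace NegA1x

/-- the vertex of the hypersimplex which belongs to the set `A` -/
def pt (n k : ℕ) (c : ℝ) (A : Finset (Fin n)) : E n :=
  WithLp.toLp 2 fun i => c * ((if i ∈ A then 1 else 0) - k / n)

theorem pt_apply (n k : ℕ) (c : ℝ) (A : Finset (Fin n)) (i : Fin n) :
    pt n k c A i = c * ((if i ∈ A then 1 else 0) - k / n) := rfl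

theorem pt_mem {n k : ℕ} (c : ℝ) {A : Finset (Fin n)} (hA : A.card = k) :
    pt n k c A ∈ hyps n k c := ⟨A, hA, fun _ => rfl⟩

theorem pt_sum {n k : ℕ} (hn : 0 < n) (c : ℝ) {A : Finset (Fin n)} (hA : A.card = k) :
    ∑ i, pt n k c A i = 0 := by
  have hn' : (n : ℝ) ≠ 0 := by exact_mod_cast hn.ne'
  simp only [pt_apply]
  rw [← Finset.mul_sum, Finset.sum_sub_distrib]
  simp only [Finset.sum_ite_mem, Finset.univ_inter, Finset.sum_const, Finset.card_univ,
    Fintype.card_fin, nsmul_eq_mul, mul_one]
  rw [hA]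
  field_simp
  ring

theorem pt_dist {n k : ℕ} (c : ℝ) (A B : Finset (Fin n)) :
    ∑ i, (pt n k c A i - pt n k c B i) ^ 2 = c ^ 2 * ((A \ B).card + (B \ A).card) := by
  have h : ∀ i : Fin n, (pt n k c A i - pt n k c B i) ^ 2 =
      c ^ 2 * ((if i ∈ A \ B then (1 : ℝ) else 0) + (if i ∈ B \ A then (1 : ℝ) else 0)) := by
    intro i
    rw [pt_apply, pt_apply]
    by_cases h1 : i ∈ A <;> by_cases h2 : i ∈ B <;> simp [h1, h2] <;> ring
  rw [Finset.sum_congr rfl fun i _ => h i, ← Finset.mul_sum, Finset.sum_add_distrib]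
  rw [Finset.sum_ite_mem, Finset.sum_ite_mem, Finset.univ_inter, Finset.univ_inter,
    Finset.sum_const, Finset.sum_const, nsmul_eq_mul, nsmul_eq_mul, mul_one, mul_one]

/-- the invariants of a triple of `k`-sets under the symmetries of the hypersimplex -/
theorem key {n k : ℕ} {c : ℝ} (hn : 0 < n) (hc : 0 < c) (hk : 0 < k) (hkn : k < n)
    (M : Set (E n)) (hM : ∀ A : Finset (Fin n), A.card = k → pt n k c A ∈ M)
    (hP : ∀ g ∈ Gp M, IsPM g) (A B : Fin 3 → Finset (Fin n))
    (hA : ∀ p, (A p).card = k) (hB : ∀ p, (B p).card = k)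
    (hd : ∀ p q, (A p \ A q).card = (B p \ B q).card)
    (h1 : (B 0 ∩ B 1 ∩ B 2).card ≠ (A 0 ∩ A 1 ∩ A 2).card)
    (h2 : 2 * k = n → (B 0 ∩ B 1 ∩ B 2).card + (A 0 ∪ A 1 ∪ A 2).card ≠ n) :
    ¬ GHom 3 M := by
  intro hG
  have hn' : (n : ℝ) ≠ 0 := by exact_mod_cast hn.ne'
  have hc' : c ≠ 0 := hc.ne'
  obtain ⟨g, hg, hgi⟩ := hG (fun p => pt n k c (A p)) (fun p => pt n k c (B p))
    (fun p => hM _ (hA p)) (fun p => hM _ (hB p)) (fun p q => by
      rw [dist_eq_iff, pt_dist, pt_dist, hd p q, hd q p])
  obtain ⟨σ, h | h⟩ := hP g hg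
  · have h3 : ∀ p j, j ∈ B p ↔ σ j ∈ A p := by
      intro p j
      have h4 := h _ (pt_sum hn c (hA p))
      have h5 : pt n k c (B p) j = pt n k c (A p) (σ j) := by
        have h6 := (hgi p).symm.trans h4
        exact congrArg (fun x : E n => x j) h6
      rw [pt_apply, pt_apply] at h5
      have h7 := mul_left_cancel₀ hc' h5
      by_cases h8 : j ∈ B p <;> by_cases h9 : σ j ∈ A p
      · exact ⟨fun _ => h9, fun _ => h8⟩
      · rw [if_pos h8, if_neg h9] at h7
        linarith
      · rw [if_neg h8, if_pos h9] at h7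
        linarith
      · exact ⟨fun h => absurd h h8, fun h => absurd h h9⟩
    refine h1 (Finset.card_bijective σ σ.bijective fun i => ?_)
    simp only [Finset.mem_inter, h3]
  · have h3 : ∀ p j, (if j ∈ B p then (1 : ℝ) else 0) + (if σ j ∈ A p then (1 : ℝ) else 0) =
        2 * k / n := by
      intro p j
      have h4 := h _ (pt_sum hn c (hA p))
      have h5 : pt n k c (B p) j = -pt n k c (A p) (σ j) := by
        have h6 := (hgi p).symm.trans h4
        exact congrArg (fun x : E n => x j) h6
      rw [pt_apply, pt_apply, ← mul_neg] at h5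
      have h7 := mul_left_cancel₀ hc' h5
      have h8 : (2 : ℝ) * k / n = k / n + k / n := by ring
      rw [h8]
      linarith
    have hkr : (0 : ℝ) < k := by exact_mod_cast hk
    have hnr : (0 : ℝ) < n := by exact_mod_cast hn
    have hknr : (k : ℝ) < n := by exact_mod_cast hkn
    have hval : (2 * k / n : ℝ) = 1 := by
      have h4 := h3 0 ⟨0, hn⟩
      have h5 : (0 : ℝ) < 2 * k / n := by positivity
      have h6 : (2 * k / n : ℝ) < 2 := by
        rw [div_lt_iff₀ hnr]
        linarith
      by_cases h8 : (⟨0, hn⟩ : Fin n) ∈ B 0 <;> by_cases h9 : σ ⟨0, hn⟩ ∈ A 0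
      · rw [if_pos h8, if_pos h9] at h4
        linarith
      · rw [if_pos h8, if_neg h9] at h4
        linarith
      · rw [if_neg h8, if_pos h9] at h4
        linarith
      · rw [if_neg h8, if_neg h9] at h4
        linarith
    have h2k : 2 * k = n := by
      rw [div_eq_one_iff_eq hn'] at hval
      exact_mod_cast hval
    have h4 : ∀ p j, j ∈ B p ↔ σ j ∉ A p := by
      intro p j
      have h5 := h3 p j
      rw [hval] at h5
      by_cases h8 : j ∈ B p <;> by_cases h9 : σ j ∈ A p
      · rw [if_pos h8, if_pos h9] at h5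
        linarith
      · exact ⟨fun _ => h9, fun _ => h8⟩
      · exact ⟨fun h => absurd h h8, fun h => absurd h9 h⟩
      · rw [if_neg h8, if_neg h9] at h5
        linarith
    have h5 : (B 0 ∩ B 1 ∩ B 2).card = (A 0 ∪ A 1 ∪ A 2)ᶜ.card := by
      refine Finset.card_bijective σ σ.bijective fun i => ?_
      simp only [Finset.mem_inter, Finset.mem_compl, Finset.mem_union, h4]
      tauto
    refine h2 h2k ?_
    rw [h5, Finset.card_compl, Fintype.card_fin]
    have h6 : (A 0 ∪ A 1 ∪ A 2).card ≤ n := by
      have h7 := Finset.card_le_univ (A 0 ∪ A 1 ∪ A 2)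
      rwa [Fintype.card_fin] at h7
    omega

/-- the elements of `Fin n` whose value is in `s` -/
def F (n : ℕ) (s : Finset ℕ) : Finset (Fin n) := Finset.univ.filter fun i => i.val ∈ s

theorem mem_F {n : ℕ} {s : Finset ℕ} {i : Fin n} : i ∈ F n s ↔ i.val ∈ s := by simp [F]

theorem card_F {n : ℕ} {s : Finset ℕ} (hs : ∀ x ∈ s, x < n) : (F n s).card = s.card := by
  refine Finset.card_bij (fun i _ => i.val) (fun i hi => mem_F.1 hi)
    (fun i _ j _ h => Fin.ext h) fun x hx => ⟨⟨x, hs x hx⟩, mem_F.2 hx, rfl⟩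

theorem F_sdiff (n : ℕ) (s t : Finset ℕ) : F n s \ F n t = F n (s \ t) := by
  ext i
  simp [mem_F]

/-- the general form with sets of natural numbers -/
theorem key' {n k : ℕ} {c : ℝ} (hn : 0 < n) (hc : 0 < c) (hk : 0 < k) (hkn : k < n)
    (M : Set (E n)) (hM : hyps n k c ⊆ M)
    (hP : ∀ g ∈ Gp M, IsPM g) (A B : Fin 3 → Finset ℕ) (CA UA CB : Finset ℕ)
    (hAn : ∀ p, ∀ x ∈ A p, x < n) (hBn : ∀ p, ∀ x ∈ B p, x < n)
    (hA : ∀ p, (A p).card = k) (hB : ∀ p, (B p).card = k)
    (hd : ∀ p q, p ≠ q → (A p \ A q).card = (B p \ B q).card)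
    (hCA : ∀ x, x ∈ CA ↔ x ∈ A 0 ∧ x ∈ A 1 ∧ x ∈ A 2)
    (hUA : ∀ x, x ∈ UA ↔ x ∈ A 0 ∨ x ∈ A 1 ∨ x ∈ A 2)
    (hCB : ∀ x, x ∈ CB ↔ x ∈ B 0 ∧ x ∈ B 1 ∧ x ∈ B 2)
    (h1 : CB.card ≠ CA.card) (h2 : 2 * k = n → CB.card + UA.card ≠ n) :
    ¬ GHom 3 M := by
  have e1 : F n (A 0) ∩ F n (A 1) ∩ F n (A 2) = F n CA := by
    ext i
    simp only [Finset.mem_inter, mem_F, hCA]
    tauto
  have e2 : F n (A 0) ∪ F n (A 1) ∪ F n (A 2) = F n UA := by
    ext i
    simp only [Finset.mem_union, mem_F, hUA]
    tauto
  have e3 : F n (B 0) ∩ F n (B 1) ∩ F n (B 2) = F n CB := by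
    ext i
    simp only [Finset.mem_inter, mem_F, hCB]
    tauto
  have c1 : (F n CA).card = CA.card := card_F fun x hx => hAn 0 x ((hCA x).1 hx).1
  have c2 : (F n UA).card = UA.card := card_F fun x hx => by
    rcases (hUA x).1 hx with h | h | h
    · exact hAn 0 x h
    · exact hAn 1 x h
    · exact hAn 2 x h
  have c3 : (F n CB).card = CB.card := card_F fun x hx => hBn 0 x ((hCB x).1 hx).1
  refine key hn hc hk hkn M (fun S hS => hM (pt_mem c hS)) hP (fun p => F n (A p))
    (fun p => F n (B p)) (fun p => by rw [card_F (hAn p), hA]) (fun p => by rw [card_F (hBn p), hB])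
    (fun p q => ?_) ?_ ?_
  · by_cases hpq : p = q
    · subst hpq
      simp
    · rw [F_sdiff, F_sdiff, card_F, card_F, hd p q hpq]
      · exact fun x hx => hBn p x (Finset.mem_sdiff.1 hx).1
      · exact fun x hx => hAn p x (Finset.mem_sdiff.1 hx).1
  · rw [e1, e3, c1, c3]
    exact h1
  · rw [e2, e3, c2, c3]
    exact h2

/-- the first pair of triples: `2 k ≠ n` -/
theorem case1 {n k : ℕ} {c : ℝ} (hc : 0 < c) (hk : 2 ≤ k) (hkn : k + 2 ≤ n) (hne : 2 * k ≠ n)
    (M : Set (E n)) (hM : hyps n k c ⊆ M) (hP : ∀ g ∈ Gp M, IsPM g) : ¬ GHom 3 M := by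
  refine key' (by omega) hc (by omega) (by omega) M hM hP
    (fun p => insert (k - 1 + p.val) (Finset.range (k - 1)))
    (fun p => (Finset.range (k + 1)).erase p.val)
    (Finset.range (k - 1)) (Finset.range (k + 2)) ((Finset.range (k + 1)).filter fun x => 3 ≤ x)
    ?_ ?_ ?_ ?_ ?_ ?_ ?_ ?_ ?_ ?_
  · intro p x hx
    have hp := p.isLt
    simp only [Finset.mem_insert, Finset.mem_range] at hx
    omega
  · intro p x hx
    simp only [Finset.mem_erase, Finset.mem_range] at hx
    omega
  · intro p
    rw [Finset.card_insert_of_notMem (by simp), Finset.card_range]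
    omega
  · intro p
    have hp := p.isLt
    rw [Finset.card_erase_of_mem (by simp; omega), Finset.card_range]
    omega
  · intro p q hpq
    have hp := p.isLt
    have hq := q.isLt
    have hpq' : p.val ≠ q.val := fun h => hpq (Fin.ext h)
    have e1 : insert (k - 1 + p.val) (Finset.range (k - 1)) \
        insert (k - 1 + q.val) (Finset.range (k - 1)) = {k - 1 + p.val} := by
      ext x
      simp only [Finset.mem_sdiff, Finset.mem_insert, Finset.mem_range, Finset.mem_singleton]
      omega
    have e2 : (Finset.range (k + 1)).erase p.val \ (Finset.range (k + 1)).erase q.val =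
        {q.val} := by
      ext x
      simp only [Finset.mem_sdiff, Finset.mem_erase, Finset.mem_range, Finset.mem_singleton]
      omega
    rw [e1, e2, Finset.card_singleton, Finset.card_singleton]
  · intro x
    simp only [Finset.mem_insert, Finset.mem_range, Fin.val_zero, Fin.val_one, Fin.val_two]
    omega
  · intro x
    simp only [Finset.mem_insert, Finset.mem_range, Fin.val_zero, Fin.val_one, Fin.val_two]
    omega
  · intro x
    simp only [Finset.mem_filter, Finset.mem_erase, Finset.mem_range, Fin.val_zero, Fin.val_one,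
      Fin.val_two]
    omega
  · have e : ((Finset.range (k + 1)).filter fun x => 3 ≤ x) = Finset.Ico 3 (k + 1) := by
      ext x
      simp only [Finset.mem_filter, Finset.mem_range, Finset.mem_Ico]
      omega
    rw [e, Nat.card_Ico, Finset.card_range]
    omega
  · intro h
    exact absurd h hne

/-- the second pair of triples: `2 k = n` -/
theorem case2 {n k : ℕ} {c : ℝ} (hc : 0 < c) (hk : 5 ≤ k) (hn : 2 * k = n)
    (M : Set (E n)) (hM : hyps n k c ⊆ M) (hP : ∀ g ∈ Gp M, IsPM g) : ¬ GHom 3 M := by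
  refine key' (by omega) hc (by omega) (by omega) M hM hP
    (fun p => insert (k - 1 + 2 * p.val) (insert (k - 2 + 2 * p.val) (Finset.range (k - 2))))
    (fun p => insert (k + p.val) ((Finset.range k).erase (k - 1 - p.val)))
    (Finset.range (k - 2)) (Finset.range (k + 4)) (Finset.range (k - 3))
    ?_ ?_ ?_ ?_ ?_ ?_ ?_ ?_ ?_ ?_
  · intro p x hx
    have hp := p.isLt
    simp only [Finset.mem_insert, Finset.mem_range] at hx
    omega
  · intro p x hx
    have hp := p.isLt
    simp only [Finset.mem_insert, Finset.mem_erase, Finset.mem_range] at hx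
    omega
  · intro p
    rw [Finset.card_insert_of_notMem, Finset.card_insert_of_notMem (by simp), Finset.card_range]
    · omega
    · simp only [Finset.mem_insert, Finset.mem_range]
      omega
  · intro p
    have hp := p.isLt
    rw [Finset.card_insert_of_notMem, Finset.card_erase_of_mem (by simp; omega),
      Finset.card_range]
    · omega
    · simp only [Finset.mem_erase, Finset.mem_range]
      omega
  · intro p q hpq
    have hp := p.isLt
    have hq := q.isLt
    have hpq' : p.val ≠ q.val := fun h => hpq (Fin.ext h)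
    have e1 : insert (k - 1 + 2 * p.val) (insert (k - 2 + 2 * p.val) (Finset.range (k - 2))) \
        insert (k - 1 + 2 * q.val) (insert (k - 2 + 2 * q.val) (Finset.range (k - 2))) =
        {k - 1 + 2 * p.val, k - 2 + 2 * p.val} := by
      ext x
      simp only [Finset.mem_sdiff, Finset.mem_insert, Finset.mem_range, Finset.mem_singleton]
      omega
    have e2 : insert (k + p.val) ((Finset.range k).erase (k - 1 - p.val)) \
        insert (k + q.val) ((Finset.range k).erase (k - 1 - q.val)) =
        {k + p.val, k - 1 - q.val} := by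
      ext x
      simp only [Finset.mem_sdiff, Finset.mem_insert, Finset.mem_erase, Finset.mem_range,
        Finset.mem_singleton]
      omega
    rw [e1, e2, Finset.card_pair (by omega), Finset.card_pair (by omega)]
  · intro x
    simp only [Finset.mem_insert, Finset.mem_range, Fin.val_zero, Fin.val_one, Fin.val_two]
    omega
  · intro x
    simp only [Finset.mem_insert, Finset.mem_range, Fin.val_zero, Fin.val_one, Fin.val_two]
    omega
  · intro x
    simp only [Finset.mem_insert, Finset.mem_erase, Finset.mem_range, Fin.val_zero, Fin.val_one,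
      Fin.val_two]
    omega
  · rw [Finset.card_range, Finset.card_range]
    omega
  · intro _
    rw [Finset.card_range, Finset.card_range]
    omega

end NegA1x

open NegA1x in
/-- Hypersimplices are not `3`-point homogeneous. -/
theorem thm_NegA1 (_hInv : St_Inv) : St_NegA1 := by
  intro n k c hn hc hk hkn
  constructor
  · intro hP
    by_cases h : 2 * k = n
    · exact case2 hc (by omega) h _ (le_refl _) hP
    · exact case1 hc hk hkn h _ (le_refl _) hP
  · intro h hP
    exact case1 hc hk hkn (by omega) _ Set.subset_union_left hP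

end Pool.Agent.RSP
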