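import Pool.Agent.RSP.St

/-!
# RSP NegA2: mid is not 3-point, rts is not 4-point homogeneous
-/

set_option autoImplicit false
set_option linter.unusedVariables false

noncomputable section

namespace Pool.Agent.RSP

namespace NegA2x

/-! ### the sets mid -/

/-- the eight places -/
abbrev K8 := Fin 4 ⊕ Fin 4

theorem exists_e (n : ℕ) (c : ℝ) (hn : 10 ≤ n) (hc : 0 < c) (x : E n) (hx : x ∈ mid n c) :
    ∃ e : K8 ↪ Fin n, (∀ k, x (e (Sum.inl k)) = c) ∧ ∀ k, x (e (Sum.inr k)) = -c := by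
  classical
  obtain ⟨⟨i₀, h0, h1⟩, hs⟩ := hx
  have hcc : c ≠ -c := by
    intro h
    linarith
  have e1 : ∑ i, x i = c * ((Finset.univ.filter fun i => x i = c).card : ℝ) -
      c * ((Finset.univ.filter fun i => x i = -c).card : ℝ) := by
    have h2 : ∀ i, x i = (if x i = c then c else 0) - (if x i = -c then c else 0) := by
      intro i
      by_cases hi : i = i₀
      · rw [hi, h0, if_neg (ne_of_lt hc), if_neg (by intro h; linarith), sub_zero]
      · rcases h1 i hi with h | h
        · rw [h, if_pos rfl, if_neg hcc, sub_zero]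
        · rw [h, if_neg hcc.symm, if_pos rfl, zero_sub]
    rw [Finset.sum_congr rfl fun i _ => h2 i, Finset.sum_sub_distrib, ← Finset.sum_filter,
      ← Finset.sum_filter, Finset.sum_const, Finset.sum_const, nsmul_eq_mul, nsmul_eq_mul]
    ring
  have e2 : n = 1 + (Finset.univ.filter fun i => x i = c).card +
      (Finset.univ.filter fun i => x i = -c).card := by
    have h2 : ∀ i : Fin n, 1 = (if i = i₀ then 1 else 0) + (if x i = c then 1 else 0) +
        (if x i = -c then 1 else 0) := by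
      intro i
      by_cases hi : i = i₀
      · rw [hi, h0, if_pos rfl, if_neg (ne_of_lt hc), if_neg (by intro h; linarith)]
      · rcases h1 i hi with h | h
        · rw [h, if_neg hi, if_pos rfl, if_neg hcc]
        · rw [h, if_neg hi, if_neg hcc.symm, if_pos rfl]
    have h3 : ∑ i : Fin n, 1 = ∑ i : Fin n, ((if i = i₀ then 1 else 0) +
        (if x i = c then 1 else 0) + (if x i = -c then 1 else 0)) :=
      Finset.sum_congr rfl fun i _ => h2 i
    rw [Finset.sum_add_distrib, Finset.sum_add_distrib, Finset.sum_ite_eq' Finset.univ i₀,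
      if_pos (Finset.mem_univ _), ← Finset.card_filter, ← Finset.card_filter, Finset.sum_const,
      Finset.card_univ, Fintype.card_fin, smul_eq_mul, mul_one] at h3
    exact h3
  have e3 : (Finset.univ.filter fun i => x i = c).card =
      (Finset.univ.filter fun i => x i = -c).card := by
    rw [hs] at e1
    have h4 : c * ((Finset.univ.filter fun i => x i = c).card : ℝ) =
        c * ((Finset.univ.filter fun i => x i = -c).card : ℝ) := by linarith
    exact_mod_cast mul_left_cancel₀ hc.ne' h4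
  have f1 : Nonempty (Fin 4 ↪ {i // x i = c}) := by
    refine Function.Embedding.nonempty_of_card_le ?_
    rw [Fintype.card_fin, Fintype.card_subtype]
    omega
  have f2 : Nonempty (Fin 4 ↪ {i // x i = -c}) := by
    refine Function.Embedding.nonempty_of_card_le ?_
    rw [Fintype.card_fin, Fintype.card_subtype]
    omega
  obtain ⟨a⟩ := f1
  obtain ⟨b⟩ := f2
  refine ⟨⟨Sum.elim (fun k => (a k).1) (fun k => (b k).1), ?_⟩, fun k => (a k).2, fun k => (b k).2⟩
  rintro (k | k) (l | l) h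
  · exact congrArg _ (a.injective (Subtype.ext h))
  · exfalso
    have h5 : (a k).1 = (b l).1 := h
    have h6 := (a k).2
    rw [h5, (b l).2] at h6
    exact hcc h6.symm
  · exfalso
    have h5 : (b k).1 = (a l).1 := h
    have h6 := (a l).2
    rw [← h5, (b k).2] at h6
    exact hcc h6.symm
  · exact congrArg _ (b.injective (Subtype.ext h))

section

variable {n : ℕ} (c : ℝ) (x : E n) (e : K8 ↪ Fin n)

theorem sum_tr (f : Fin n → ℝ) (hf : ∀ i, i ∉ Set.range e → f i = 0) :
    ∑ i, f i = ∑ k, f (e k) :=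
  (Fintype.sum_of_injective e e.injective (fun k => f (e k)) f hf fun k => rfl).symm

theorem sg_out (K : Finset K8) (i : Fin n) (hi : i ∉ Set.range e) : sg (K.map e) x i = x i := by
  rw [sg_apply, if_neg]
  intro h
  obtain ⟨k, _, hk⟩ := Finset.mem_map.1 h
  exact hi ⟨k, hk⟩

theorem sg_in (K : Finset K8) (k : K8) :
    sg (K.map e) x (e k) = if k ∈ K then -x (e k) else x (e k) := by
  rw [sg_apply]
  simp only [Finset.mem_map']

theorem sum_sg (K : Finset K8) : ∑ i, sg (K.map e) x i = ∑ i, x i - 2 * ∑ k ∈ K, x (e k) := by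
  classical
  have h1 : ∑ i, (sg (K.map e) x i - x i) = ∑ k, (sg (K.map e) x (e k) - x (e k)) :=
    sum_tr e (fun i => sg (K.map e) x i - x i) fun i hi => by rw [sg_out x e K i hi, sub_self]
  have h2 : ∑ k, (sg (K.map e) x (e k) - x (e k)) = -2 * ∑ k ∈ K, x (e k) := by
    rw [Finset.mul_sum, ← Finset.sum_filter_add_sum_filter_not Finset.univ (fun k => k ∈ K)]
    rw [Finset.sum_eq_zero (s := Finset.univ.filter fun k => ¬ k ∈ K), add_zero]
    · have h3 : (Finset.univ.filter fun k => k ∈ K) = K := by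
        ext k
        simp
      rw [h3]
      refine Finset.sum_congr rfl fun k hk => ?_
      rw [sg_in, if_pos hk]
      ring
    · intro k hk
      rw [sg_in, if_neg (Finset.mem_filter.1 hk).2, sub_self]
  rw [Finset.sum_sub_distrib] at h1
  linarith

theorem dist_sg (K L : Finset K8) : ∑ i, (sg (K.map e) x i - sg (L.map e) x i) ^ 2 =
    ∑ k, ((if k ∈ K then -x (e k) else x (e k)) - (if k ∈ L then -x (e k) else x (e k))) ^ 2 := by
  rw [sum_tr e (fun i => (sg (K.map e) x i - sg (L.map e) x i) ^ 2) fun i hi => by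
    rw [sg_out x e K i hi, sg_out x e L i hi, sub_self]; norm_num]
  refine Finset.sum_congr rfl fun k _ => ?_
  rw [sg_in, sg_in]

theorem tri_sg (K L : Finset K8) : ∑ i, x i * sg (K.map e) x i * sg (L.map e) x i =
    ∑ i, x i ^ 3 + ∑ k, (x (e k) * (if k ∈ K then -x (e k) else x (e k)) *
      (if k ∈ L then -x (e k) else x (e k)) - x (e k) ^ 3) := by
  have h1 := sum_tr e (fun i => x i * sg (K.map e) x i * sg (L.map e) x i - x i ^ 3) fun i hi => by
    show x i * sg (K.map e) x i * sg (L.map e) x i - x i ^ 3 = 0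
    rw [sg_out x e K i hi, sg_out x e L i hi]
    ring
  have h2 : ∑ k, (x (e k) * (if k ∈ K then -x (e k) else x (e k)) *
      (if k ∈ L then -x (e k) else x (e k)) - x (e k) ^ 3) =
      ∑ k, (x (e k) * sg (K.map e) x (e k) * sg (L.map e) x (e k) - x (e k) ^ 3) := by
    refine Finset.sum_congr rfl fun k _ => ?_
    rw [sg_in, sg_in]
  rw [h2, ← h1, Finset.sum_sub_distrib]
  ring

end

theorem sum_cube (n : ℕ) (c : ℝ) (x : E n) (hx : x ∈ mid n c) : ∑ i, x i ^ 3 = 0 := by
  obtain ⟨⟨i₀, h0, h1⟩, hs⟩ := hx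
  have h2 : ∀ i, x i ^ 3 = c ^ 2 * x i := by
    intro i
    by_cases hi : i = i₀
    · rw [hi, h0]
      ring
    · rcases h1 i hi with h | h <;> rw [h] <;> ring
  rw [Finset.sum_congr rfl fun i _ => h2 i, ← Finset.mul_sum, hs, mul_zero]

theorem mem_mid (n : ℕ) (c : ℝ) (x : E n) (hx : x ∈ mid n c) (e : K8 ↪ Fin n) (K : Finset K8)
    (hK : ∑ k ∈ K, x (e k) = 0) : sg (K.map e) x ∈ mid n c := by
  obtain ⟨⟨i₀, h0, h1⟩, hs⟩ := hx
  refine ⟨⟨i₀, ?_, fun j hj => ?_⟩, ?_⟩
  · rw [sg_apply, h0, neg_zero, ite_self]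
  · rw [sg_apply]
    split_ifs
    · rcases h1 j hj with h | h
      · exact Or.inr (by rw [h])
      · exact Or.inl (by rw [h, neg_neg])
    · exact h1 j hj
  · rw [sum_sg, hs, hK]
    norm_num

/-- the first triple -/
def KA : Fin 3 → Finset K8 := ![∅, {Sum.inl 2, Sum.inl 3, Sum.inr 0, Sum.inr 1},
  {Sum.inl 2, Sum.inl 3, Sum.inr 2, Sum.inr 3}]

/-- the second triple -/
def KB : Fin 3 → Finset K8 := ![∅, {Sum.inl 2, Sum.inl 3, Sum.inr 1, Sum.inr 2},
  {Sum.inl 1, Sum.inl 3, Sum.inr 1, Sum.inr 3}]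

theorem mid_neg (n : ℕ) (c : ℝ) (hn : 10 ≤ n) (hc : 0 < c) (hne : (mid n c).Nonempty)
    (hg : ∀ g ∈ Gp (mid n c), IsPM g) : ¬ GHom 3 (mid n c) := by
  intro hG
  obtain ⟨x, hx⟩ := hne
  obtain ⟨e, e1, e2⟩ := exists_e n c hn hc x hx
  have hA : ∀ i, sg ((KA i).map e) x ∈ mid n c := by
    intro i
    refine mem_mid n c x hx e _ ?_
    fin_cases i
    · simp [KA]
    · simp [KA, Finset.sum_insert, e1, e2]
    · simp [KA, Finset.sum_insert, e1, e2]
  have hB : ∀ i, sg ((KB i).map e) x ∈ mid n c := by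
    intro i
    refine mem_mid n c x hx e _ ?_
    fin_cases i
    · simp [KB]
    · simp [KB, Finset.sum_insert, e1, e2]
    · simp [KB, Finset.sum_insert, e1, e2]
  obtain ⟨g, hgM, hgg⟩ := hG (fun i => sg ((KA i).map e) x) (fun i => sg ((KB i).map e) x) hA hB
    (by
      intro i j
      rw [dist_eq_iff, dist_sg, dist_sg]
      simp only [Fintype.sum_sum_type, Fin.sum_univ_four, e1, e2]
      fin_cases i <;> fin_cases j <;> simp [KA, KB] <;> ring)
  have h0 : ∀ i, ∑ l, sg ((KA i).map e) x l = 0 := fun i => (hA i).2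
  have hTA : ∑ i, sg ((KA 0).map e) x i * sg ((KA 1).map e) x i * sg ((KA 2).map e) x i =
      8 * c ^ 3 := by
    have h1 : ∀ i, sg ((KA 0).map e) x i = x i := fun i => by simp [KA]
    simp only [h1]
    rw [tri_sg, sum_cube n c x hx]
    simp only [Fintype.sum_sum_type, Fin.sum_univ_four, e1, e2]
    simp [KA]
    ring
  have hTB : ∑ i, sg ((KB 0).map e) x i * sg ((KB 1).map e) x i * sg ((KB 2).map e) x i = 0 := by
    have h1 : ∀ i, sg ((KB 0).map e) x i = x i := fun i => by simp [KB]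
    simp only [h1]
    rw [tri_sg, sum_cube n c x hx]
    simp only [Fintype.sum_sum_type, Fin.sum_univ_four, e1, e2]
    simp [KB]
    ring
  have hc3 : c ^ 3 ≠ 0 := pow_ne_zero _ hc.ne'
  obtain ⟨σ, hσ | hσ⟩ := hg g hgM
  · have h1 : ∀ i l, sg ((KB i).map e) x l = sg ((KA i).map e) x (σ l) := by
      intro i l
      rw [← hgg i, hσ _ (h0 i), pm_apply]
    simp only [h1] at hTB
    rw [Equiv.sum_comp σ (fun l => sg ((KA 0).map e) x l * sg ((KA 1).map e) x l *
      sg ((KA 2).map e) x l), hTA] at hTB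
    exact hc3 (by linarith)
  · have h1 : ∀ i l, sg ((KB i).map e) x l = -sg ((KA i).map e) x (σ l) := by
      intro i l
      rw [← hgg i, hσ _ (h0 i)]
      rfl
    simp only [h1] at hTB
    have h2 : ∀ l, -sg ((KA 0).map e) x (σ l) * -sg ((KA 1).map e) x (σ l) *
        -sg ((KA 2).map e) x (σ l) = -(sg ((KA 0).map e) x (σ l) * sg ((KA 1).map e) x (σ l) *
        sg ((KA 2).map e) x (σ l)) := fun l => by ring
    simp only [h2] at hTB
    rw [Finset.sum_neg_distrib, Equiv.sum_comp σ (fun l => sg ((KA 0).map e) x l *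
      sg ((KA 1).map e) x l * sg ((KA 2).map e) x l), hTA] at hTB
    exact hc3 (by linarith)

/-! ### the sets rts -/

/-- `c (e_p - e_q)` -/
def rt {n : ℕ} (c : ℝ) (p q : Fin n) : E n :=
  WithLp.toLp 2 fun i => if i = p then c else if i = q then -c else 0

theorem rt_apply {n : ℕ} (c : ℝ) (p q i : Fin n) :
    rt c p q i = if i = p then c else if i = q then -c else 0 := rfl

theorem rt_mem {n : ℕ} (c : ℝ) (p q : Fin n) (h : p ≠ q) : rt c p q ∈ rts n c := by
  refine ⟨p, q, h, ?_, ?_, fun l h1 h2 => ?_⟩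
  · rw [rt_apply, if_pos rfl]
  · rw [rt_apply, if_neg h.symm, if_pos rfl]
  · rw [rt_apply, if_neg h1, if_neg h2]

theorem rt_mul {n : ℕ} (c : ℝ) (p q : Fin n) (h : p ≠ q) (y : E n) :
    ∑ i, rt c p q i * y i = c * y p - c * y q := by
  have h1 : ∀ i, rt c p q i * y i = (if i = p then c * y i else 0) - (if i = q then c * y i else 0) := by
    intro i
    rw [rt_apply]
    by_cases h2 : i = p
    · subst h2
      rw [if_pos rfl, if_pos rfl, if_neg h, sub_zero]
    · by_cases h3 : i = q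
      · subst h3
        rw [if_neg h2, if_pos rfl, if_neg h2, if_pos rfl]
        ring
      · rw [if_neg h2, if_neg h3, if_neg h2, if_neg h3]
        ring
  rw [Finset.sum_congr rfl fun i _ => h1 i, Finset.sum_sub_distrib,
    Finset.sum_ite_eq' Finset.univ p, Finset.sum_ite_eq' Finset.univ q, if_pos (Finset.mem_univ _),
    if_pos (Finset.mem_univ _)]

theorem rt_dist {n : ℕ} (c : ℝ) (p q p' q' : Fin n) (h : p ≠ q) (h' : p' ≠ q') :
    ∑ i, (rt c p q i - rt c p' q' i) ^ 2 =
      4 * c ^ 2 - 2 * (c * rt c p' q' p - c * rt c p' q' q) := by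
  have h1 : ∀ i, (rt c p q i - rt c p' q' i) ^ 2 = rt c p q i * rt c p q i +
      rt c p' q' i * rt c p' q' i - 2 * (rt c p q i * rt c p' q' i) := fun i => by ring
  rw [Finset.sum_congr rfl fun i _ => h1 i, Finset.sum_sub_distrib, Finset.sum_add_distrib,
    ← Finset.mul_sum, rt_mul c p q h, rt_mul c p q h, rt_mul c p' q' h']
  have h2 : rt c p q p = c := by rw [rt_apply, if_pos rfl]
  have h3 : rt c p q q = -c := by rw [rt_apply, if_neg h.symm, if_pos rfl]
  have h4 : rt c p' q' p' = c := by rw [rt_apply, if_pos rfl]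
  have h5 : rt c p' q' q' = -c := by rw [rt_apply, if_neg h'.symm, if_pos rfl]
  rw [h2, h3, h4, h5]
  ring

theorem rt_sum {n : ℕ} (c : ℝ) (p q : Fin n) (h : p ≠ q) : ∑ i, rt c p q i = 0 := by
  have h1 := rt_mul c p q h (WithLp.toLp 2 fun _ => 1)
  simpa using h1

theorem rt_c {n : ℕ} (c : ℝ) (hc : 0 < c) (p q i : Fin n) : rt c p q i = c → i = p := by
  rw [rt_apply]
  split_ifs with h1 h2
  · exact fun _ => h1
  · intro h
    linarith
  · intro h
    linarith

theorem rt_mc {n : ℕ} (c : ℝ) (hc : 0 < c) (p q i : Fin n) : rt c p q i = -c → i = q := by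
  rw [rt_apply]
  split_ifs with h1 h2
  · intro h
    linarith
  · exact fun _ => h2
  · intro h
    linarith

theorem rts_neg (n : ℕ) (c : ℝ) (hn : 10 ≤ n) (hc : 0 < c)
    (hg : ∀ g ∈ Gp (rts n c), IsPM g) : ¬ GHom 4 (rts n c) := by
  intro hG
  let p : Fin 6 → Fin n := fun k => ⟨k, by omega⟩
  have hp : ∀ k l, p k = p l ↔ k = l := by
    intro k l
    simp [p, Fin.ext_iff]
  let a : Fin 4 → Fin 6 × Fin 6 := ![(0, 1), (0, 2), (3, 4), (4, 5)]
  let b : Fin 4 → Fin 6 × Fin 6 := ![(0, 1), (0, 2), (3, 4), (5, 3)]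
  have ha : ∀ i, p (a i).1 ≠ p (a i).2 := by
    intro i
    rw [Ne, hp]
    fin_cases i <;> simp [a]
  have hb : ∀ i, p (b i).1 ≠ p (b i).2 := by
    intro i
    rw [Ne, hp]
    fin_cases i <;> simp [b]
  obtain ⟨g, hgM, hgg⟩ := hG (fun i => rt c (p (a i).1) (p (a i).2))
    (fun i => rt c (p (b i).1) (p (b i).2)) (fun i => rt_mem c _ _ (ha i))
    (fun i => rt_mem c _ _ (hb i)) (by
      intro i j
      rw [dist_eq_iff, rt_dist c _ _ _ _ (ha i) (ha j), rt_dist c _ _ _ _ (hb i) (hb j)]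
      simp only [rt_apply, hp]
      fin_cases i <;> fin_cases j <;> simp [a, b])
  have h0 : ∀ i, ∑ l, rt c (p (a i).1) (p (a i).2) l = 0 := fun i => rt_sum c _ _ (ha i)
  obtain ⟨σ, hσ | hσ⟩ := hg g hgM
  · have h1 : ∀ i l, rt c (p (b i).1) (p (b i).2) l = rt c (p (a i).1) (p (a i).2) (σ l) := by
      intro i l
      rw [← hgg i, hσ _ (h0 i), pm_apply]
    have h2 : σ (p 4) = p 4 := by
      have h3 := h1 2 (p 4)
      have h4 : rt c (p (b 2).1) (p (b 2).2) (p 4) = -c := by
        rw [rt_apply]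
        simp [b, hp]
      rw [h4] at h3
      exact rt_mc c hc _ _ _ h3.symm
    have h3 := h1 3 (p 4)
    rw [h2] at h3
    simp only [rt_apply, hp] at h3
    simp [a, b] at h3
    exact hc.ne h3
  · have h1 : ∀ i l, rt c (p (b i).1) (p (b i).2) l = -rt c (p (a i).1) (p (a i).2) (σ l) := by
      intro i l
      rw [← hgg i, hσ _ (h0 i)]
      rfl
    have h2 : ∀ i, i = 0 ∨ i = 1 → rt c (p (b i).1) (p (b i).2) (p 0) = c := by
      intro i hi
      rw [rt_apply]
      rcases hi with rfl | rfl <;> simp [b]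
    have h3 : σ (p 0) = p 1 := by
      have h4 := h1 0 (p 0)
      rw [h2 0 (Or.inl rfl)] at h4
      exact rt_mc c hc (p (a 0).1) (p (a 0).2) _ (by linarith)
    have h4 : σ (p 0) = p 2 := by
      have h4 := h1 1 (p 0)
      rw [h2 1 (Or.inr rfl)] at h4
      exact rt_mc c hc (p (a 1).1) (p (a 1).2) _ (by linarith)
    rw [h3, hp] at h4
    exact absurd h4 (by decide)

end NegA2x

theorem thm_NegA2 (hInv : St_Inv) : St_NegA2 := by
  intro n c hn hc
  exact ⟨fun hne hg => NegA2x.mid_neg n c hn hc hne hg, fun hg => NegA2x.rts_neg n c hn hc hg⟩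

end Pool.Agent.RSP
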