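import Pool.Agent.RSP.St

/-!
# Reflection symmetric polytopes: module NegD (helper4)

Cube and demicube are not `4`-point homogeneous, the rectified cube is not `3`-point homogeneous.
-/

set_option autoImplicit false

noncomputable section

namespace Pool.Agent.RSP

namespace NegDx

theorem sum4 {n : ℕ} (h : 4 ≤ n) (f : Fin n → ℝ) (hf : ∀ i : Fin n, 4 ≤ i.val → f i = 0) :
    ∑ i, f i = f ⟨0, by omega⟩ + f ⟨1, by omega⟩ + f ⟨2, by omega⟩ + f ⟨3, by omega⟩ := by
  obtain ⟨k, rfl⟩ := Nat.exists_eq_add_of_le' h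
  rw [Fin.sum_univ_succ, Fin.sum_univ_succ, Fin.sum_univ_succ, Fin.sum_univ_succ,
    Finset.sum_eq_zero (s := Finset.univ)]
  · have h0 : (0 : Fin (k + 4)) = ⟨0, by omega⟩ := rfl
    have h1 : Fin.succ (0 : Fin (k + 3)) = ⟨1, by omega⟩ := rfl
    have h2 : Fin.succ (Fin.succ (0 : Fin (k + 2))) = ⟨2, by omega⟩ := rfl
    have h3 : Fin.succ (Fin.succ (Fin.succ (0 : Fin (k + 1)))) = ⟨3, by omega⟩ := rfl
    rw [h0, h1, h2, h3]
    ring
  · intro i _
    apply hf
    simp only [Fin.val_succ]
    omega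

theorem dist_sg {n : ℕ} (c : ℝ) (x : E n) (hx : ∀ i, x i = c ∨ x i = -c) (S T : Finset (Fin n)) :
    dist (sg S x) (sg T x) ^ 2 = 4 * c ^ 2 * (symmDiff S T).card := by
  rw [dist_sq]
  have h : ∀ i, (sg S x i - sg T x i) ^ 2 = if i ∈ symmDiff S T then 4 * c ^ 2 else 0 := by
    intro i
    have hx2 : x i ^ 2 = c ^ 2 := by rcases hx i with h | h <;> rw [h] <;> ring
    rw [sg_apply, sg_apply]
    by_cases h1 : i ∈ S <;> by_cases h2 : i ∈ T <;> simp only [h1, h2, Finset.mem_symmDiff,
      if_true, if_false, not_true, not_false_iff, and_true, and_false, or_false, or_true,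
      false_and, true_and, false_or]
    · ring
    · rw [← hx2]; ring
    · rw [← hx2]; ring
    · ring
  simp only [h]
  rw [Finset.sum_ite_mem, Finset.univ_inter, Finset.sum_const, nsmul_eq_mul]
  ring

/-- the sets for the first tuple -/
def sA : Fin 4 → Finset (Fin 4) := ![∅, {0, 1}, {0, 2}, {1, 2}]

/-- the sets for the second tuple -/
def sB : Fin 4 → Finset (Fin 4) := ![∅, {0, 1}, {0, 2}, {0, 3}]

theorem card_eq : ∀ i j : Fin 4, (symmDiff (sA i) (sA j)).card = (symmDiff (sB i) (sB j)).card := by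
  decide

theorem cube_like {n : ℕ} (hn : 5 ≤ n) (c : ℝ) (hc : 0 < c) (M : Set (E n)) (x : E n)
    (hx : ∀ i, x i = c ∨ x i = -c) (hM : ∀ S : Finset (Fin n), Even S.card → sg S x ∈ M)
    (hG : ∀ g ∈ Gp M, IsSP g) : ¬ GHom 4 M := by
  intro hH
  have h4 : 4 ≤ n := by omega
  let em : Fin 4 ↪ Fin n := Fin.castLEEmb h4
  have hxne : ∀ i, x i ≠ 0 := by
    intro i
    rcases hx i with h | h <;> rw [h]
    · exact hc.ne'
    · exact neg_ne_zero.2 hc.ne'
  obtain ⟨g, hg, hgA⟩ := hH (fun i => sg ((sA i).map em) x) (fun i => sg ((sB i).map em) x)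
    (fun i => hM _ (by
      rw [Finset.card_map]
      revert i
      decide)) (fun i => hM _ (by
      rw [Finset.card_map]
      revert i
      decide)) (by
      intro i j
      refine (sq_eq_sq₀ dist_nonneg dist_nonneg).1 ?_
      rw [dist_sg c x hx, dist_sg c x hx]
      congr 2
      have hs : ∀ S T : Finset (Fin 4), (symmDiff (S.map em) (T.map em)).card =
          (symmDiff S T).card := by
        intro S T
        rw [Finset.map_eq_image, Finset.map_eq_image, ← Finset.image_symmDiff _ _ em.injective,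
          Finset.card_image_of_injective _ em.injective]
      rw [hs, hs]
      exact card_eq i j)
  obtain ⟨σ, ε, hε, hgσ⟩ := hG g hg
  -- the place `0`
  have hεne : ∀ i, ε i ≠ 0 := by
    intro i
    rcases hε i with h | h <;> rw [h] <;> norm_num
  have key : ∀ (j : Fin 4), ∀ a : Fin 4, a ∈ sB j → ¬ a ∈ sB 0 →
      σ (em a) ∈ (sA j).map em := by
    intro j a haj ha0
    by_contra hcon
    have h1 := congrArg (fun y : E n => y (em a)) (hgA j)
    have h0 := congrArg (fun y : E n => y (em a)) (hgA 0)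
    simp only [hgσ] at h1 h0
    rw [sg_apply, sg_apply, if_neg hcon, if_pos (Finset.mem_map_of_mem em haj)] at h1
    rw [sg_apply, sg_apply, if_neg (by simp [sA]), if_neg (by simp [sB])] at h0
    rw [h1] at h0
    have := hxne (em a)
    apply this
    linarith
  have k1 := key 1 0 (by decide) (by decide)
  have k2 := key 2 0 (by decide) (by decide)
  have k3 := key 3 0 (by decide) (by decide)
  rw [Finset.mem_map] at k1 k2 k3
  obtain ⟨a1, ha1, e1⟩ := k1
  obtain ⟨a2, ha2, e2⟩ := k2
  obtain ⟨a3, ha3, e3⟩ := k3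
  have e12 : a1 = a2 := em.injective (e1.trans e2.symm)
  have e13 : a1 = a3 := em.injective (e1.trans e3.symm)
  subst e12
  subst e13
  have fin : ∀ a : Fin 4, a ∈ sA 1 → a ∈ sA 2 → a ∈ sA 3 → False := by decide
  exact fin a1 ha1 ha2 ha3

/-- the points of the first and the second tuple: `k = 0`: `x`, `k = 1`: `x'`, `k = 2`: `y`, `k = 3`: `z` -/
def pt (n : ℕ) (c : ℝ) (k : Fin 4) : E n := WithLp.toLp 2 fun i =>
  if i.val = 0 then ![0, 0, c, c] k else if i.val = 1 then ![c, -c, 0, c] k else
    if i.val = 2 then ![c, -c, c, 0] k else if i.val = 3 then ![-c, c, c, c] k else c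

theorem pt_apply (n : ℕ) (c : ℝ) (k : Fin 4) (i : Fin n) : pt n c k i =
  if i.val = 0 then ![0, 0, c, c] k else if i.val = 1 then ![c, -c, 0, c] k else
    if i.val = 2 then ![c, -c, c, 0] k else if i.val = 3 then ![-c, c, c, c] k else c := rfl

theorem dist_pt {n : ℕ} (h : 4 ≤ n) (c : ℝ) (k l : Fin 4) : dist (pt n c k) (pt n c l) ^ 2 =
    (![0, 0, c, c] k - ![0, 0, c, c] l) ^ 2 + (![c, -c, 0, c] k - ![c, -c, 0, c] l) ^ 2 +
    (![c, -c, c, 0] k - ![c, -c, c, 0] l) ^ 2 + (![-c, c, c, c] k - ![-c, c, c, c] l) ^ 2 := by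
  rw [dist_sq, sum4 h]
  · simp [pt_apply]
  · intro i hi
    rw [pt_apply, pt_apply, if_neg (by omega), if_neg (by omega), if_neg (by omega),
      if_neg (by omega), if_neg (by omega), if_neg (by omega), if_neg (by omega),
      if_neg (by omega)]
    ring

theorem pt_mem {n : ℕ} (h : 5 ≤ n) (c : ℝ) (k : Fin 4) : pt n c k ∈ rect n c := by
  have hk : k = 0 ∨ k = 1 ∨ k = 2 ∨ k = 3 := by
    revert k
    decide
  rcases hk with rfl | rfl | rfl | rfl
  · refine ⟨⟨0, by omega⟩, by simp [pt_apply], fun j hj => ?_⟩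
    have hj' : j.val ≠ 0 := fun e => hj (Fin.ext e)
    rw [pt_apply]
    simp only [hj', if_false]
    split_ifs <;> simp
  · refine ⟨⟨0, by omega⟩, by simp [pt_apply], fun j hj => ?_⟩
    have hj' : j.val ≠ 0 := fun e => hj (Fin.ext e)
    rw [pt_apply]
    simp only [hj', if_false]
    split_ifs <;> simp
  · refine ⟨⟨1, by omega⟩, by simp [pt_apply], fun j hj => ?_⟩
    have hj' : j.val ≠ 1 := fun e => hj (Fin.ext e)
    rw [pt_apply]
    simp only [hj', if_false]
    split_ifs <;> simp
  · refine ⟨⟨2, by omega⟩, by simp [pt_apply], fun j hj => ?_⟩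
    have hj' : j.val ≠ 2 := fun e => hj (Fin.ext e)
    rw [pt_apply]
    simp only [hj', if_false]
    split_ifs <;> simp

theorem rect_neg {n : ℕ} (hn : 5 ≤ n) (c : ℝ) (hc : 0 < c)
    (hG : ∀ g ∈ Gp (rect n c), IsSP g) : ¬ GHom 3 (rect n c) := by
  intro hH
  have h4 : 4 ≤ n := by omega
  obtain ⟨g, hg, hgA⟩ := hH (fun i => pt n c (![0, 2, 3] i)) (fun i => pt n c (![1, 2, 3] i))
    (fun i => pt_mem hn c _) (fun i => pt_mem hn c _) (by
      intro i j
      refine (sq_eq_sq₀ dist_nonneg dist_nonneg).1 ?_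
      rw [dist_pt h4, dist_pt h4]
      fin_cases i <;> fin_cases j <;> simp <;> ring)
  obtain ⟨σ, ε, hε, hgσ⟩ := hG g hg
  let i : Fin n := σ.symm ⟨3, by omega⟩
  have hi : σ i = ⟨3, by omega⟩ := by simp [i]
  have h0 := congrArg (fun y : E n => y i) (hgA 0)
  have h1 := congrArg (fun y : E n => y i) (hgA 1)
  have h2 := congrArg (fun y : E n => y i) (hgA 2)
  simp only [hgσ, hi] at h0 h1 h2
  have e0 : pt n c (![0, 2, 3] (0 : Fin 3)) ⟨3, by omega⟩ = -c := by simp [pt_apply]
  have e1 : pt n c (![0, 2, 3] (1 : Fin 3)) ⟨3, by omega⟩ = c := by simp [pt_apply]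
  have e2 : pt n c (![0, 2, 3] (2 : Fin 3)) ⟨3, by omega⟩ = c := by simp [pt_apply]
  rw [e0] at h0
  rw [e1] at h1
  rw [e2] at h2
  have hεc : ε i * c ≠ 0 := by
    refine mul_ne_zero ?_ hc.ne'
    rcases hε i with h | h <;> rw [h] <;> norm_num
  by_cases i0 : i.val = 0
  · apply hεc
    rw [pt_apply, if_pos i0] at h0
    simp at h0
    rcases h0 with h0 | h0
    · rw [h0, zero_mul]
    · rw [h0, mul_zero]
  by_cases i1 : i.val = 1
  · apply hεc
    rw [h1, pt_apply, if_neg i0, if_pos i1]
    simp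
  by_cases i2 : i.val = 2
  · apply hεc
    rw [h2, pt_apply, if_neg i0, if_neg i1, if_pos i2]
    simp
  by_cases i3 : i.val = 3
  · rw [pt_apply, if_neg i0, if_neg i1, if_neg i2, if_pos i3] at h0 h1
    apply hεc
    simp at h0 h1
    linarith
  · rw [pt_apply, if_neg i0, if_neg i1, if_neg i2, if_neg i3] at h0 h1
    apply hεc
    linarith

end NegDx

theorem thm_NegD : St_NegD := by
  intro n c e hn hc he
  refine ⟨fun hG => ?_, fun hG => ?_, fun hG => NegDx.rect_neg hn c hc hG⟩
  · refine NegDx.cube_like hn c hc (cube n c) (WithLp.toLp 2 fun _ => c) (fun i => Or.inl rfl)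
      (fun S _ i => ?_) hG
    rw [sg_apply]
    split_ifs
    · exact Or.inr rfl
    · exact Or.inl rfl
  · have h0 : 0 < n := by omega
    -- a point of the demicube: one coordinate is `e c`
    have key : ∀ x : E n, x ∈ half n c e → ∀ S : Finset (Fin n), Even S.card →
        sg S x ∈ half n c e := by
      intro x hx S hS
      refine ⟨fun i => ?_, ?_⟩
      · rw [sg_apply]
        split_ifs
        · rcases hx.1 i with h | h <;> rw [h]
          · exact Or.inr rfl
          · exact Or.inl (neg_neg c)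
        · exact hx.1 i
      · rw [← hx.2]
        have : ∀ i, sg S x i = (if i ∈ S then -1 else 1) * x i := by
          intro i
          rw [sg_apply]
          split_ifs <;> ring
        simp only [this]
        rw [Finset.prod_mul_distrib, Finset.prod_ite_mem, Finset.univ_inter, Finset.prod_const,
          hS.neg_one_pow, one_mul]
    let x : E n := WithLp.toLp 2 fun i => if i = ⟨0, h0⟩ then e * c else c
    have hxe : ∀ i, x i = (if i = ⟨0, h0⟩ then e else 1) * c := by
      intro i
      change (if i = ⟨0, h0⟩ then e * c else c) = _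
      split_ifs <;> ring
    have hx : x ∈ half n c e := by
      refine ⟨fun i => ?_, ?_⟩
      · rw [hxe]
        split_ifs
        · rcases he with h | h <;> rw [h]
          · exact Or.inl (one_mul c)
          · exact Or.inr (by ring)
        · exact Or.inl (one_mul c)
      · simp only [hxe]
        rw [Finset.prod_mul_distrib, Finset.prod_ite_eq', if_pos (Finset.mem_univ _),
          Finset.prod_const, Finset.card_univ, Fintype.card_fin]
    exact NegDx.cube_like hn c hc (half n c e) x hx.1 (fun S hS => key x hx S hS) hG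

end Pool.Agent.RSP
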