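import Pool.Agent.RSP.St

/-!
# RSP, NorA: linear isometries which preserve the roots of type A
-/

set_option autoImplicit false

noncomputable section

namespace Pool.Agent.RSP

namespace NorAx

variable {n : ℕ}

/-- The root `e_i - e_j`. -/
def d (i j : Fin n) : E n := EuclideanSpace.single i (1 : ℝ) - EuclideanSpace.single j (1 : ℝ)

theorem d_apply (i j l : Fin n) :
    (d i j : E n) l = (if l = i then 1 else 0) - (if l = j then 1 else 0) := by
  simp [d]

theorem inner_d (i j k l : Fin n) : inner ℝ (d i j) (d k l) =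
    (((if i = k then 1 else 0) - (if i = l then 1 else 0)) -
      ((if j = k then 1 else 0) - (if j = l then 1 else 0)) : ℝ) := by
  have h : ∀ a : Fin n, ∀ x : E n, inner ℝ (EuclideanSpace.single a (1 : ℝ)) x = x a := by
    intro a x
    rw [EuclideanSpace.inner_single_left]
    simp
  have h1 : inner ℝ (d i j) (d k l) = (d k l : E n) i - (d k l : E n) j := by
    conv_lhs => rw [d, inner_sub_left, h, h]
  rw [h1, d_apply, d_apply]

theorem bt_eq (i j : Fin n) : (bt i j : E n) = (√2)⁻¹ • d i j := rfl

theorem g_d (g : E n ≃ₗᵢ[ℝ] E n) (i j k l : Fin n) (h : g (bt i j) = bt k l) :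
    g (d i j) = d k l := by
  rw [bt_eq, bt_eq, map_smul] at h
  exact smul_right_injective _ (inv_ne_zero (by norm_num : (√2 : ℝ) ≠ 0)) h

/-- A linear map which maps the roots in the right way is a permutation on the vectors of sum 0. -/
theorem lin (h : E n →ₗ[ℝ] E n) (o : Fin n) (τ : Equiv.Perm (Fin n))
    (hh : ∀ j, h (d o j) = d (τ o) (τ j)) (x : E n) (hx : ∑ i, x i = 0) : h x = pm τ.symm x := by
  have h1 : x = -∑ j, x j • d o j := by
    ext l
    rw [PiLp.neg_apply, WithLp.ofLp_sum, Finset.sum_apply]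
    have h2 : ∀ j, (x j • (d o j : E n)) l = x j * (if l = o then 1 else 0) -
        (if l = j then x j else 0) := by
      intro j
      rw [PiLp.smul_apply, d_apply, smul_eq_mul, mul_sub]
      congr 1
      split_ifs <;> simp
    show x l = -∑ j, (x j • (d o j : E n)) l
    rw [Finset.sum_congr rfl fun j _ => h2 j, Finset.sum_sub_distrib, ← Finset.sum_mul, hx,
      zero_mul, Finset.sum_ite_eq]
    simp
  have h3 : h x = -∑ j, x j • d (τ o) (τ j) := by
    conv_lhs => rw [h1]
    rw [map_neg, map_sum]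
    congr 1
    exact Finset.sum_congr rfl fun j _ => by rw [map_smul, hh]
  rw [h3]
  ext l
  rw [PiLp.neg_apply, WithLp.ofLp_sum, Finset.sum_apply, pm_apply]
  have h2 : ∀ j, (x j • (d (τ o) (τ j) : E n)) l = x j * (if l = τ o then 1 else 0) -
      (if τ.symm l = j then x j else 0) := by
    intro j
    rw [PiLp.smul_apply, d_apply, smul_eq_mul, mul_sub]
    congr 1
    by_cases hj : l = τ j
    · rw [if_pos hj, if_pos (by rw [hj, Equiv.symm_apply_apply])]
      simp
    · rw [if_neg hj, if_neg (fun hc => hj (by rw [← hc, Equiv.apply_symm_apply]))]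
      simp
  show -∑ j, (x j • (d (τ o) (τ j) : E n)) l = _
  rw [Finset.sum_congr rfl fun j _ => h2 j, Finset.sum_sub_distrib, ← Finset.sum_mul, hx,
    zero_mul, Finset.sum_ite_eq]
  simp

/-- The relation between two roots with inner product 1. -/
theorem rel (i j k l : Fin n) (hij : i ≠ j) (hkl : k ≠ l) (h : inner ℝ (d i j) (d k l) = (1 : ℝ)) :
    (i = k ∧ j ≠ l) ∨ (i ≠ k ∧ j = l) := by
  rw [inner_d] at h
  by_cases h1 : i = k
  · left
    refine ⟨h1, ?_⟩
    intro h2
    have h3 : i ≠ l := fun hc => hkl (h1.symm.trans hc)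
    have h4 : j ≠ k := fun hc => hij (h1.trans hc.symm)
    rw [if_pos h1, if_neg h3, if_neg h4, if_pos h2] at h
    norm_num at h
  · right
    refine ⟨h1, ?_⟩
    by_contra h2
    rw [if_neg h1, if_neg h2] at h
    split_ifs at h <;> norm_num at h

/-- The construction of the permutation. -/
theorem perm (o : Fin n) (P : Fin n) (q : Fin n → Fin n) (h1 : ∀ j, j ≠ o → q j ≠ P)
    (h2 : ∀ j k, j ≠ o → k ≠ o → j ≠ k → q j ≠ q k) :
    ∃ τ : Equiv.Perm (Fin n), τ o = P ∧ ∀ j, j ≠ o → τ j = q j := by
  have hinj : Function.Injective fun j => if j = o then P else q j := by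
    intro j k hjk
    by_contra hne
    by_cases hj : j = o
    · have hk : k ≠ o := fun hk => hne (hj.trans hk.symm)
      simp only [if_pos hj, if_neg hk] at hjk
      exact h1 k hk hjk.symm
    · by_cases hk : k = o
      · simp only [if_pos hk, if_neg hj] at hjk
        exact h1 j hj hjk
      · simp only [if_neg hk, if_neg hj] at hjk
        exact h2 j k hj hk hne hjk
  refine ⟨Equiv.ofBijective _ (Finite.injective_iff_bijective.mp hinj), ?_, ?_⟩
  · simp
  · intro j hj
    simp [hj]

/-- One of the two families of indices is constant. -/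
theorem const (o a b : Fin n) (hao : a ≠ o) (hbo : b ≠ o) (hab : a ≠ b) (p q : Fin n → Fin n)
    (h : ∀ j k, j ≠ o → k ≠ o → j ≠ k → (p j = p k ∧ q j ≠ q k) ∨ (p j ≠ p k ∧ q j = q k))
    (hp : p a = p b) : ∀ j, j ≠ o → p j = p a := by
  intro j hj
  by_contra hne
  have hja : j ≠ a := by
    rintro rfl
    exact hne rfl
  have hjb : j ≠ b := by
    rintro rfl
    exact hne hp.symm
  rcases h j a hj hao hja with h1 | h1
  · exact hne h1.1
  · rcases h j b hj hbo hjb with h2 | h2
    · exact hne (h2.1.trans hp.symm)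
    · rcases h a b hao hbo hab with h3 | h3
      · exact h3.2 (h1.2.symm.trans h2.2)
      · exact h3.1 hp

end NorAx

open NorAx in
theorem thm_NorA : St_NorA := by
  intro n hn g hg
  let o : Fin n := ⟨0, by omega⟩
  let a : Fin n := ⟨1, by omega⟩
  let b : Fin n := ⟨2, by omega⟩
  have hao : a ≠ o := by
    intro h
    have := congrArg Fin.val h
    simp [a, o] at this
  have hbo : b ≠ o := by
    intro h
    have := congrArg Fin.val h
    simp [b, o] at this
  have hab : a ≠ b := by
    intro h
    have := congrArg Fin.val h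
    simp [a, b] at this
  have hex : ∀ j : Fin n, ∃ k l : Fin n, j ≠ o → k ≠ l ∧ g (d o j) = d k l := by
    intro j
    by_cases hj : j = o
    · exact ⟨o, o, fun h => absurd hj h⟩
    · obtain ⟨k, l, h1, h2⟩ := hg o j (Ne.symm hj)
      exact ⟨k, l, fun _ => ⟨h1, g_d g o j k l h2⟩⟩
  choose p q hpq using hex
  have hrel : ∀ j k, j ≠ o → k ≠ o → j ≠ k →
      (p j = p k ∧ q j ≠ q k) ∨ (p j ≠ p k ∧ q j = q k) := by
    intro j k hj hk hjk
    refine rel _ _ _ _ (hpq j hj).1 (hpq k hk).1 ?_
    rw [← (hpq j hj).2, ← (hpq k hk).2, LinearIsometryEquiv.inner_map_map, inner_d, if_pos rfl,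
      if_neg (Ne.symm hk), if_neg hj, if_neg hjk]
    norm_num
  have hdo : ∀ i : Fin n, (d i i : E n) = 0 := fun i => sub_self _
  rcases hrel a b hao hbo hab with hc | hc
  · have hP := const o a b hao hbo hab p q hrel hc.1
    obtain ⟨τ, h1, h2⟩ := perm o (p a) q
      (fun j hj => by
        rw [← hP j hj]
        exact (hpq j hj).1.symm)
      (fun j k hj hk hjk => by
        rcases hrel j k hj hk hjk with h | h
        · exact h.2
        · exact absurd ((hP j hj).trans (hP k hk).symm) h.1)
    refine ⟨τ.symm, Or.inl fun x hx => ?_⟩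
    refine lin g.toLinearEquiv.toLinearMap o τ (fun j => ?_) x hx
    show g (d o j) = d (τ o) (τ j)
    by_cases hj : j = o
    · rw [hj, hdo, hdo, map_zero]
    · rw [(hpq j hj).2, h1, h2 j hj, hP j hj]
  · have hrel' : ∀ j k, j ≠ o → k ≠ o → j ≠ k →
        (q j = q k ∧ p j ≠ p k) ∨ (q j ≠ q k ∧ p j = p k) := by
      intro j k hj hk hjk
      rcases hrel j k hj hk hjk with h | h
      · exact Or.inr ⟨h.2, h.1⟩
      · exact Or.inl ⟨h.2, h.1⟩
    have hQ := const o a b hao hbo hab q p hrel' hc.2
    obtain ⟨τ, h1, h2⟩ := perm o (q a) p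
      (fun j hj => by
        rw [← hQ j hj]
        exact (hpq j hj).1)
      (fun j k hj hk hjk => by
        rcases hrel' j k hj hk hjk with h | h
        · exact h.2
        · exact absurd ((hQ j hj).trans (hQ k hk).symm) h.1)
    refine ⟨τ.symm, Or.inr fun x hx => ?_⟩
    have h3 := lin (-g.toLinearEquiv.toLinearMap) o τ (fun j => ?_) x hx
    · have h4 : -(g x) = pm τ.symm x := h3
      rw [← h4, neg_neg]
    · show -(g (d o j)) = d (τ o) (τ j)
      by_cases hj : j = o
      · rw [hj, hdo, hdo, map_zero, neg_zero]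
      · rw [(hpq j hj).2, h1, h2 j hj, hQ j hj]
        exact neg_sub _ _

end Pool.Agent.RSP
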