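import Pool.Agent.RSP.St

/-!
# RSP, NorD: linear isometries which preserve the roots of type D

`y = g⁻¹ e_k` is a unit vector whose inner products with all `D`-roots have squares `0`, `1/2`
or `1`; for `n ≥ 5` this implies `y = ± e_l`.
-/

set_option autoImplicit false

noncomputable section

namespace Pool.Agent.RSP

namespace NorDx

variable {n : ℕ}

theorem coord_sq {u : E n} (hu : IsDRoot u ∨ IsAxis u) (k : Fin n) :
    u k ^ 2 = 0 ∨ u k ^ 2 = 1 / 2 ∨ u k ^ 2 = 1 := by
  rcases hu with ⟨i, j, -, hi, hj, h⟩ | ⟨i, hi, h⟩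
  · by_cases hki : k = i
    · subst hki; exact Or.inr (Or.inl hi)
    · by_cases hkj : k = j
      · subst hkj; exact Or.inr (Or.inl hj)
      · left
        rw [h k hki hkj]
        norm_num
  · by_cases hki : k = i
    · subst hki; exact Or.inr (Or.inr hi)
    · left
      rw [h k hki]
      norm_num

theorem bt_apply (i j l : Fin n) :
    (bt i j : E n) l = (√2)⁻¹ * ((if l = i then 1 else 0) - (if l = j then 1 else 0)) := by
  simp [bt]

theorem inner_bt (i j : Fin n) (y : E n) : inner ℝ (bt i j) y = (√2)⁻¹ * (y i - y j) := by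
  rw [inner_eq]
  have h : ∀ l, (bt i j : E n) l * y l =
      (√2)⁻¹ * ((if l = i then y l else 0) - (if l = j then y l else 0)) := by
    intro l
    rw [bt_apply]
    split_ifs <;> ring
  rw [Finset.sum_congr rfl fun l _ => h l, ← Finset.mul_sum, Finset.sum_sub_distrib,
    Finset.sum_ite_eq', Finset.sum_ite_eq']
  simp

theorem inner_sg_bt {i j m : Fin n} (hij : i ≠ j) (hmi : m ≠ i) (hmj : m ≠ j) (y : E n) :
    inner ℝ (sg {j, m} (bt i j)) y = (√2)⁻¹ * (y i + y j) := by
  rw [inner_eq]
  have h : ∀ l, (sg {j, m} (bt i j) : E n) l * y l =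
      (√2)⁻¹ * ((if l = i then y l else 0) + (if l = j then y l else 0)) := by
    intro l
    rw [sg_apply, bt_apply]
    by_cases h1 : l = j
    · subst h1
      rw [if_pos (by simp), if_neg (fun h => hij h.symm), if_pos rfl, if_pos rfl,
        if_neg (fun h => hij h.symm)]
      ring
    · by_cases h2 : l = m
      · subst h2
        rw [if_pos (by simp), if_neg hmi, if_neg hmj, if_neg hmi, if_neg hmj]
        ring
      · rw [if_neg (by simp [h1, h2]), if_neg h1, if_neg h1]
        split_ifs <;> ring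
  rw [Finset.sum_congr rfl fun l _ => h l, ← Finset.mul_sum, Finset.sum_add_distrib,
    Finset.sum_ite_eq', Finset.sum_ite_eq']
  simp

/-- Two coordinates. -/
theorem two {a b : ℝ} (hp : (a + b) ^ 2 = 0 ∨ (a + b) ^ 2 = 1)
    (hm : (a - b) ^ 2 = 0 ∨ (a - b) ^ 2 = 1) :
    (a = 0 ∧ b = 0) ∨ (a ^ 2 = 1 / 4 ∧ b ^ 2 = 1 / 4) ∨ (a = 0 ∧ b ^ 2 = 1) ∨
      (a ^ 2 = 1 ∧ b = 0) := by
  rcases hp with hp | hp <;> rcases hm with hm | hm
  · left
    have h1 : a + b = 0 := by simpa using hp
    have h2 : a - b = 0 := by simpa using hm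
    constructor <;> linarith
  · right; left
    have h1 : a + b = 0 := by simpa using hp
    have h2 : b = -a := by linarith
    subst h2
    constructor <;> nlinarith
  · right; left
    have h2 : a - b = 0 := by simpa using hm
    have h3 : b = a := by linarith
    subst h3
    constructor <;> nlinarith
  · have h1 : a * b = 0 := by nlinarith
    rcases mul_eq_zero.1 h1 with h | h
    · right; right; left
      subst h
      exact ⟨rfl, by nlinarith⟩
    · right; right; right
      subst h
      exact ⟨by nlinarith, rfl⟩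

/-- The key lemma. -/
theorem axis (hn : 5 ≤ n) (y : E n) (hy : ∑ i, y i ^ 2 = 1)
    (hp : ∀ k l, k ≠ l → (y k + y l) ^ 2 = 0 ∨ (y k + y l) ^ 2 = 1 ∨ (y k + y l) ^ 2 = 2)
    (hm : ∀ k l, k ≠ l → (y k - y l) ^ 2 = 0 ∨ (y k - y l) ^ 2 = 1 ∨ (y k - y l) ^ 2 = 2) :
    IsAxis y := by
  have hle : ∀ k l m : Fin n, k ≠ l → k ≠ m → l ≠ m → y k ^ 2 + y l ^ 2 + y m ^ 2 ≤ 1 := by
    intro k l m hkl hkm hlm
    have h1 : ∑ i ∈ ({k, l, m} : Finset (Fin n)), y i ^ 2 ≤ ∑ i, y i ^ 2 :=
      Finset.sum_le_sum_of_subset_of_nonneg (Finset.subset_univ _)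
        (fun i _ _ => sq_nonneg _)
    rw [Finset.sum_insert (by simp [hkl, hkm]), Finset.sum_insert (by simp [hlm]),
      Finset.sum_singleton, hy] at h1
    linarith
  have hthird : ∀ k l : Fin n, ∃ m, m ≠ k ∧ m ≠ l := by
    intro k l
    have h1 : ({k, l} : Finset (Fin n)).card < (Finset.univ : Finset (Fin n)).card := by
      rw [Finset.card_univ, Fintype.card_fin]
      exact lt_of_le_of_lt Finset.card_le_two (by omega)
    obtain ⟨m, -, hm⟩ := Finset.exists_mem_notMem_of_card_lt_card h1
    simp only [Finset.mem_insert, Finset.mem_singleton, not_or] at hm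
    exact ⟨m, hm.1, hm.2⟩
  -- no square is 2
  have hhalf : ∀ k m : Fin n, k ≠ m → y m = 0 → y k ^ 2 ≠ 1 / 2 := by
    intro k m hkm h0 h1
    rcases hp k m hkm with h | h | h <;> rw [h0, add_zero, h1] at h <;> norm_num at h
  have hp2 : ∀ k l, k ≠ l → (y k + y l) ^ 2 ≠ 2 := by
    intro k l hkl h2
    obtain ⟨m, hmk, hml⟩ := hthird k l
    have h3 := hle k l m hkl hmk.symm hml.symm
    have h4 : (y k - y l) ^ 2 = 0 := by nlinarith [sq_nonneg (y k - y l), sq_nonneg (y m)]
    have h5 : y k - y l = 0 := by simpa using h4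
    have h6 : y l = y k := by linarith
    rw [h6] at h2 h3
    have h7 : y k ^ 2 = 1 / 2 := by nlinarith
    have h8 : y m ^ 2 = 0 := by nlinarith [sq_nonneg (y m)]
    exact hhalf k m hmk.symm (by simpa using h8) h7
  have hm2 : ∀ k l, k ≠ l → (y k - y l) ^ 2 ≠ 2 := by
    intro k l hkl h2
    obtain ⟨m, hmk, hml⟩ := hthird k l
    have h3 := hle k l m hkl hmk.symm hml.symm
    have h4 : (y k + y l) ^ 2 = 0 := by nlinarith [sq_nonneg (y k + y l), sq_nonneg (y m)]
    have h5 : y k + y l = 0 := by simpa using h4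
    have h6 : y l = -y k := by linarith
    rw [h6] at h2 h3
    have h7 : y k ^ 2 = 1 / 2 := by nlinarith
    have h8 : y m ^ 2 = 0 := by nlinarith [sq_nonneg (y m)]
    exact hhalf k m hmk.symm (by simpa using h8) h7
  have key : ∀ k l, k ≠ l → (y k = 0 ∧ y l = 0) ∨ (y k ^ 2 = 1 / 4 ∧ y l ^ 2 = 1 / 4) ∨
      (y k = 0 ∧ y l ^ 2 = 1) ∨ (y k ^ 2 = 1 ∧ y l = 0) := by
    intro k l hkl
    refine two ?_ ?_
    · rcases hp k l hkl with h | h | h
      · exact Or.inl h
      · exact Or.inr h
      · exact absurd h (hp2 k l hkl)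
    · rcases hm k l hkl with h | h | h
      · exact Or.inl h
      · exact Or.inr h
      · exact absurd h (hm2 k l hkl)
  -- a nonzero coordinate
  have hex : ∃ k, y k ≠ 0 := by
    by_contra hcon
    push Not at hcon
    rw [Finset.sum_eq_zero (fun i _ => by rw [hcon i]; norm_num)] at hy
    norm_num at hy
  obtain ⟨k, hk⟩ := hex
  by_cases h4 : y k ^ 2 = 1 / 4
  · exfalso
    have hall : ∀ l, y l ^ 2 = 1 / 4 := by
      intro l
      by_cases hl : k = l
      · rw [← hl]; exact h4
      · rcases key k l hl with h | h | h | h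
        · exact absurd h.1 hk
        · exact h.2
        · exact absurd h.1 hk
        · rw [h4] at h
          norm_num at h
    rw [Finset.sum_congr rfl fun l _ => hall l, Finset.sum_const, Finset.card_univ,
      Fintype.card_fin, nsmul_eq_mul] at hy
    have h5 : (5 : ℝ) ≤ n := by exact_mod_cast hn
    linarith
  · obtain ⟨m, hmk, -⟩ := hthird k k
    refine ⟨k, ?_, ?_⟩
    · rcases key k m hmk.symm with h | h | h | h
      · exact absurd h.1 hk
      · exact absurd h.1 h4
      · exact absurd h.1 hk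
      · exact h.1
    · intro l hl
      rcases key k l (Ne.symm hl) with h | h | h | h
      · exact h.2
      · exact absurd h.1 h4
      · exact absurd h.1 hk
      · exact h.2

theorem sq_one {a : ℝ} (h : a ^ 2 = 1) : a = 1 ∨ a = -1 := by
  have h1 : (a - 1) * (a + 1) = 0 := by nlinarith
  rcases mul_eq_zero.1 h1 with h | h
  · left; linarith
  · right; linarith

theorem sq_half {a : ℝ} (h : ((√2)⁻¹ * a) ^ 2 = 0 ∨ ((√2)⁻¹ * a) ^ 2 = 1 / 2 ∨
    ((√2)⁻¹ * a) ^ 2 = 1) : a ^ 2 = 0 ∨ a ^ 2 = 1 ∨ a ^ 2 = 2 := by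
  have h2 : ((√2)⁻¹ * a) ^ 2 = a ^ 2 / 2 := by
    rw [mul_pow, inv_pow, Real.sq_sqrt (by norm_num : (0 : ℝ) ≤ 2)]
    ring
  rw [h2] at h
  rcases h with h | h | h
  · left; linarith
  · right; left; linarith
  · right; right; linarith

end NorDx

open NorDx in
theorem thm_NorD : St_NorD := by
  intro n Φ hn _ hΦ _ heven hbt g hg
  have hin : ∀ (k : Fin n) (x : E n), inner ℝ x (EuclideanSpace.single k (1 : ℝ)) = x k := by
    intro k x
    rw [EuclideanSpace.inner_single_right]
    simp
  -- the rows of `g`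
  have hrow : ∀ k, ∀ x : E n, inner ℝ x (g.symm (EuclideanSpace.single k (1 : ℝ))) = g x k := by
    intro k x
    rw [← hin k (g x), ← LinearIsometryEquiv.inner_map_map g.symm (g x),
      LinearIsometryEquiv.symm_apply_apply]
  have hnorm : ∀ k, ∑ i, (g.symm (EuclideanSpace.single k (1 : ℝ)) : E n) i ^ 2 = 1 := by
    intro k
    have h1 : ‖(g.symm (EuclideanSpace.single k (1 : ℝ)) : E n)‖ ^ 2 = 1 := by
      rw [LinearIsometryEquiv.norm_map, EuclideanSpace.norm_single]
      norm_num
    rw [EuclideanSpace.norm_sq_eq] at h1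
    exact (Finset.sum_congr rfl fun i _ => by rw [Real.norm_eq_abs, sq_abs]).trans h1
  have hax : ∀ k, IsAxis (g.symm (EuclideanSpace.single k (1 : ℝ)) : E n) := by
    intro k
    refine axis hn _ (hnorm k) ?_ ?_
    · intro i j hij
      have h1 : ({i, j} : Finset (Fin n)).card < (Finset.univ : Finset (Fin n)).card := by
        rw [Finset.card_univ, Fintype.card_fin]
        exact lt_of_le_of_lt Finset.card_le_two (by omega)
      obtain ⟨m, -, hm⟩ := Finset.exists_mem_notMem_of_card_lt_card h1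
      simp only [Finset.mem_insert, Finset.mem_singleton, not_or] at hm
      have hmem : sg {j, m} (bt i j) ∈ Φ := by
        refine heven _ ?_ _ (hbt i j hij)
        rw [Finset.card_pair (Ne.symm hm.2)]
        exact even_two
      have h2 := coord_sq (hΦ _ (hg _ hmem)) k
      rw [← hrow k, inner_sg_bt hij hm.1 hm.2] at h2
      exact sq_half h2
    · intro i j hij
      have h2 := coord_sq (hΦ _ (hg _ (hbt i j hij))) k
      rw [← hrow k, inner_bt] at h2
      exact sq_half h2
  choose τ hτ hτ0 using hax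
  have hinj : Function.Injective τ := by
    intro k l hkl
    by_contra hne
    have h1 : inner ℝ (g.symm (EuclideanSpace.single k (1 : ℝ)) : E n)
        (g.symm (EuclideanSpace.single l (1 : ℝ)) : E n) = 0 := by
      rw [LinearIsometryEquiv.inner_map_map, hin]
      simp [Ne.symm hne]
    rw [inner_eq, Finset.sum_eq_single (τ k)] at h1
    · have h2 := hτ k
      have h3 := hτ l
      rw [← hkl] at h3
      rcases mul_eq_zero.1 h1 with h | h
      · rw [h] at h2; norm_num at h2
      · rw [h] at h3; norm_num at h3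
    · intro i _ hi
      rw [hτ0 k i hi, zero_mul]
    · intro h
      exact absurd (Finset.mem_univ _) h
  refine ⟨Equiv.ofBijective τ (Finite.injective_iff_bijective.1 hinj),
    fun k => (g.symm (EuclideanSpace.single k (1 : ℝ)) : E n) (τ k), ?_, ?_⟩
  · intro k
    exact sq_one (hτ k)
  · intro x k
    rw [← hrow k x, inner_eq, Finset.sum_eq_single (τ k)]
    · rw [mul_comm]
      rfl
    · intro i _ hi
      rw [hτ0 k i hi, mul_zero]
    · intro h
      exact absurd (Finset.mem_univ _) h

end Pool.Agent.RSP
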