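import Pool.Agent.RSP.St

/-!
# RSP, module RA: finite reflection closed sets which contain the roots of `A_(n-1)`, `n ≥ 10`

Problem MP_a177dd_co (architect helper51; proof written by helper6).
-/

set_option autoImplicit false

noncomputable section

namespace Pool.Agent.RSP

namespace RAx

variable {n : ℕ}

theorem exOut (s : Finset (Fin n)) (h : s.card < n) : ∃ d, d ∉ s := by
  by_contra hcon
  push Not at hcon
  have h1 : s = Finset.univ := Finset.eq_univ_iff_forall.mpr hcon
  rw [h1, Finset.card_univ, Fintype.card_fin] at h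
  exact lt_irrefl _ h

/-- a permutation with prescribed values -/
theorem exPerm (D Z : Finset (Fin n)) (c e : Fin n) (hc : c ∉ D) (he : e ∉ Z)
    (h : D.card ≤ Z.card) : ∃ σ : Equiv.Perm (Fin n), σ c = e ∧ ∀ i ∈ D, σ i ∈ Z := by
  obtain ⟨Z', hZ', hcard⟩ := Finset.exists_subset_card_eq h
  let e0 : {x // x ∈ D} ≃ {x // x ∈ Z'} := Finset.equivOfCardEq hcard.symm
  let σ0 : Equiv.Perm (Fin n) := e0.extendSubtype
  have h0 : ∀ i ∈ D, σ0 i ∈ Z' := fun i hi => e0.extendSubtype_mem i hi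
  refine ⟨σ0.trans (Equiv.swap (σ0 c) e), ?_, ?_⟩
  · rw [Equiv.trans_apply, Equiv.swap_apply_left]
  · intro i hi
    have h1 := h0 i hi
    rw [Equiv.trans_apply, Equiv.swap_apply_of_ne_of_ne]
    · exact hZ' h1
    · intro h2
      exact hc (σ0.injective h2 ▸ hi)
    · intro h2
      exact he (hZ' (h2 ▸ h1))

/-- the hypotheses -/
structure Hyp (Φ : Set (E n)) : Prop where
  hn : 10 ≤ n
  fin : Φ.Finite
  unit : ∀ u ∈ Φ, ‖u‖ = 1
  sum0 : ∀ u ∈ Φ, ∑ i, u i = 0
  refl : ∀ u ∈ Φ, ∀ w ∈ Φ, rf u w ∈ Φ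
  perm : PermInv Φ
  bts : ∀ i j, i ≠ j → bt i j ∈ Φ

variable {Φ : Set (E n)}

theorem sumSq (H : Hyp Φ) {u : E n} (hu : u ∈ Φ) : ∑ i, u i ^ 2 = 1 := by
  have h1 := H.unit u hu
  have h2 : inner ℝ u u = (1 : ℝ) := by
    rw [real_inner_self_eq_norm_sq, h1, one_pow]
  rw [inner_eq] at h2
  rw [← h2]
  exact Finset.sum_congr rfl fun i _ => sq (u i)

theorem rfApply (u w : E n) (a : Fin n) : rf u w a = w a - 2 * inner ℝ u w * u a := by
  simp [rf]

/-- all nonzero differences of coordinates are at least `g` -/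
def Gap (Φ : Set (E n)) (g : ℝ) : Prop := ∀ w ∈ Φ, ∀ i j, w i = w j ∨ g ≤ |w i - w j|

theorem innerBt (u : E n) (i j : Fin n) : inner ℝ u (bt i j) = (√2)⁻¹ * (u i - u j) := by
  simp [bt, inner_smul_right, inner_sub_right, EuclideanSpace.inner_single_right]

theorem r0 : (0 : ℝ) < (√2)⁻¹ := by positivity

theorem rr : (√2)⁻¹ * (√2)⁻¹ = (1 / 2 : ℝ) := by
  rw [← mul_inv, Real.mul_self_sqrt (by norm_num), one_div]

theorem step0 (H : Hyp Φ) {u w : E n} (hu : u ∈ Φ) (hw : w ∈ Φ) {a b : Fin n}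
    (hab : u a ≠ u b) (hg : Gap Φ |u a - u b|) (hc : w a = w b) :
    inner ℝ u w = 0 ∨ 1 / 2 ≤ |inner ℝ u w| := by
  have h1 := hg _ (H.refl u hu w hw) a b
  have h2 : rf u w a - rf u w b = (0 - 2 * inner ℝ u w) * (u a - u b) := by
    rw [rfApply, rfApply]
    linear_combination hc
  have h3 : 0 < |u a - u b| := abs_pos.mpr (sub_ne_zero.mpr hab)
  rcases h1 with h | h
  · left
    rw [h, sub_self] at h2
    rcases mul_eq_zero.mp h2.symm with h4 | h4
    · linarith
    · exact absurd h4 (sub_ne_zero.mpr hab)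
  · right
    rw [h2, abs_mul, zero_sub, abs_neg, abs_mul, abs_two] at h
    by_contra hcon
    push Not at hcon
    have := mul_lt_mul_of_pos_right hcon h3
    linarith

theorem sqOfGap {x : ℝ} (h : (√2)⁻¹ ≤ |x|) : 1 / 2 ≤ x ^ 2 := by
  have h1 : (√2)⁻¹ * (√2)⁻¹ ≤ |x| * |x| := mul_le_mul h h r0.le (abs_nonneg _)
  rw [rr, abs_mul_abs_self] at h1
  nlinarith

theorem farM (H : Hyp Φ) {u : E n} (hu : u ∈ Φ) {a b i j : Fin n} (hab : u a ≠ u b)
    (hg : Gap Φ |u a - u b|) (hij : i ≠ j) (hia : i ≠ a) (hib : i ≠ b) (hja : j ≠ a)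
    (hjb : j ≠ b) : u i = u j ∨ (√2)⁻¹ ≤ |u i - u j| := by
  have h1 := step0 H hu (H.bts i j hij) hab hg (by simp [bt, hia.symm, hib.symm, hja.symm, hjb.symm])
  rw [innerBt] at h1
  rcases h1 with h | h
  · left
    rcases mul_eq_zero.mp h with h2 | h2
    · exact absurd h2 r0.ne'
    · linarith
  · right
    rw [abs_mul, abs_of_pos r0] at h
    nlinarith [rr, r0, abs_nonneg (u i - u j), mul_le_mul_of_nonneg_left h r0.le]

theorem pairLe (H : Hyp Φ) {u : E n} (hu : u ∈ Φ) {i j : Fin n} (hij : i ≠ j) :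
    u i ^ 2 + u j ^ 2 ≤ 1 := by
  rw [← sumSq H hu, ← Finset.sum_pair (f := fun i => u i ^ 2) hij]
  exact Finset.sum_le_sum_of_subset_of_nonneg (Finset.subset_univ _) fun i _ _ => sq_nonneg _

theorem tripleLe (H : Hyp Φ) {u : E n} (hu : u ∈ Φ) {i j k : Fin n} (hij : i ≠ j) (hik : i ≠ k)
    (hjk : j ≠ k) : u i ^ 2 + u j ^ 2 + u k ^ 2 ≤ 1 := by
  have h1 : ∑ l ∈ ({i, j, k} : Finset (Fin n)), u l ^ 2 = u i ^ 2 + u j ^ 2 + u k ^ 2 := by
    rw [Finset.sum_insert (by simp [hij, hik]), Finset.sum_pair hjk]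
    ring
  rw [← sumSq H hu, ← h1]
  exact Finset.sum_le_sum_of_subset_of_nonneg (Finset.subset_univ _) fun i _ _ => sq_nonneg _

/-- inner product with a permutation -/
theorem innerPm (H : Hyp Φ) {u : E n} (hu : u ∈ Φ) (σ : Equiv.Perm (Fin n)) (v : ℝ) :
    inner ℝ u (pm σ u) = ∑ i, (u i - v) * (u (σ i) - v) - n * v ^ 2 := by
  have h0 := H.sum0 u hu
  have h1 : ∑ i, u (σ i) = 0 := by rw [Equiv.sum_comp σ (fun i => u i), h0]
  have h2 : ∑ i, (u i - v) * (u (σ i) - v) =
      ∑ i, u i * u (σ i) - v * ∑ i, u (σ i) - v * ∑ i, u i + n * v ^ 2 := by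
    have h3 : ∀ i, (u i - v) * (u (σ i) - v) =
        u i * u (σ i) - v * u (σ i) - v * u i + v ^ 2 := fun i => by ring
    rw [Finset.sum_congr rfl (fun i _ => h3 i), Finset.sum_add_distrib, Finset.sum_sub_distrib,
      Finset.sum_sub_distrib, Finset.mul_sum, Finset.mul_sum, Finset.sum_const, Finset.card_univ,
      Fintype.card_fin, nsmul_eq_mul]
  rw [h2, h1, h0, inner_eq]
  simp only [pm_apply]
  ring

/-- the main tool -/
theorem key (H : Hyp Φ) {u : E n} (hu : u ∈ Φ) {a b : Fin n} (hab : u a ≠ u b)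
    (hg : Gap Φ |u a - u b|) {v : ℝ} {D Z : Finset (Fin n)} {c e : Fin n} (hc : c ∉ D)
    (he : e ∉ Z) (hcard : D.card ≤ Z.card) (ha : a ∈ D) (hb : b ∈ D) (hZ : ∀ i ∈ Z, u i = v)
    (hD : ∀ i, i ∉ D → i ≠ c → u i = v) :
    (u c - v) * (u e - v) - n * v ^ 2 = 0 ∨ 1 / 2 ≤ |(u c - v) * (u e - v) - n * v ^ 2| := by
  obtain ⟨σ, hσc, hσ⟩ := exPerm D Z c e hc he hcard
  have h1 := step0 H hu (H.perm σ u hu) hab hg (by
    rw [pm_apply, pm_apply, hZ _ (hσ a ha), hZ _ (hσ b hb)])
  rw [innerPm H hu σ v, Finset.sum_eq_single c, hσc] at h1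
  · exact h1
  · intro i _ hic
    by_cases hi : i ∈ D
    · rw [hZ _ (hσ i hi), sub_self, mul_zero]
    · rw [hD i hi hic, sub_self, zero_mul]
  · intro h
    exact absurd (Finset.mem_univ c) h

/-- vectors with two nonzero coordinates -/
theorem isBt (H : Hyp Φ) {u : E n} (hu : u ∈ Φ) {i j : Fin n} (hij : i ≠ j)
    (h0 : ∀ k, k ≠ i → k ≠ j → u k = 0) : ∃ i j, i ≠ j ∧ u = bt i j := by
  have h1 : u i + u j = 0 := by
    rw [← H.sum0 u hu, ← Finset.sum_pair (f := fun i => u i) hij]
    refine Finset.sum_subset (Finset.subset_univ _) fun k _ hk => ?_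
    simp only [Finset.mem_insert, Finset.mem_singleton, not_or] at hk
    exact h0 k hk.1 hk.2
  have h2 : u i ^ 2 + u j ^ 2 = 1 := by
    rw [← sumSq H hu, ← Finset.sum_pair (f := fun i => u i ^ 2) hij]
    refine Finset.sum_subset (Finset.subset_univ _) fun k _ hk => ?_
    simp only [Finset.mem_insert, Finset.mem_singleton, not_or] at hk
    rw [h0 k hk.1 hk.2]
    ring
  have h3 : u j = -u i := by linarith
  have h4 : (u i - (√2)⁻¹) * (u i + (√2)⁻¹) = 0 := by
    rw [h3] at h2
    have := rr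
    nlinarith
  have hgen : ∀ i j : Fin n, i ≠ j → u i = (√2)⁻¹ → u j = -(√2)⁻¹ →
      (∀ k, k ≠ i → k ≠ j → u k = 0) → u = bt i j := by
    intro i j hij hi hj h0
    ext k
    by_cases hki : k = i
    · subst hki
      simp [bt, hi, hij]
    · by_cases hkj : k = j
      · subst hkj
        simp [bt, hj, hki]
      · rw [h0 k hki hkj]
        simp [bt, hki, hkj]
  rcases mul_eq_zero.mp h4 with h | h
  · exact ⟨i, j, hij, hgen i j hij (by linarith) (by linarith) h0⟩
  · exact ⟨j, i, hij.symm, hgen j i hij.symm (by linarith) (by linarith)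
      fun k hk hk' => h0 k hk' hk⟩

/-- three values are too many -/
theorem three {p q t r : ℝ} (hr0 : 0 < r) (hr : r * r = 1 / 2) (h1 : r ≤ |p - q|)
    (h2 : r ≤ |q - t|) (h3 : r ≤ |p - t|) (k1 : p ^ 2 + q ^ 2 < 1) (k2 : q ^ 2 + t ^ 2 < 1)
    (k3 : p ^ 2 + t ^ 2 < 1) : False := by
  have main : ∀ x y z : ℝ, x ≤ y → y ≤ z → r ≤ |x - y| → r ≤ |y - z| → x ^ 2 + z ^ 2 < 1 →
      False := by
    intro x y z hxy hyz e1 e2 e3
    rw [abs_of_nonpos (by linarith)] at e1 e2
    have e4 : 2 * r ≤ z - x := by linarith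
    have e5 : (2 * r) * (2 * r) ≤ (z - x) * (z - x) := mul_le_mul e4 e4 (by linarith) (by linarith)
    nlinarith [sq_nonneg (x + z)]
  have h1' : r ≤ |q - p| := by rwa [abs_sub_comm]
  have h2' : r ≤ |t - q| := by rwa [abs_sub_comm]
  have h3' : r ≤ |t - p| := by rwa [abs_sub_comm]
  have k1' : q ^ 2 + p ^ 2 < 1 := by linarith
  have k2' : t ^ 2 + q ^ 2 < 1 := by linarith
  have k3' : t ^ 2 + p ^ 2 < 1 := by linarith
  rcases le_total p q with a | a <;> rcases le_total q t with b | b <;>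
    rcases le_total p t with c | c
  · exact main p q t a b h1 h2 k3
  · exact main p q t a b h1 h2 k3
  · exact main p t q c b h3 h2' k1
  · exact main t p q c a h3' h1 k2'
  · exact main q p t a c h1' h3 k2
  · exact main q t p b c h2 h3' k1'
  · exact main t q p b a h2' h1' k3'
  · exact main t q p b a h2' h1' k3'

/-- at most two values -/
theorem twoVals (x : Fin n → ℝ) (R : Finset (Fin n)) (hR : R.Nonempty)
    (hgap : ∀ i ∈ R, ∀ j ∈ R, x i = x j ∨ (√2)⁻¹ ≤ |x i - x j|)
    (hsum : ∀ i ∈ R, ∀ j ∈ R, i ≠ j → x i ^ 2 + x j ^ 2 < 1) :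
    ∃ (v s : ℝ) (S Z : Finset (Fin n)), Disjoint S Z ∧ S ∪ Z = R ∧ S.card ≤ Z.card ∧
      (∀ i ∈ Z, x i = v) ∧ (∀ i ∈ S, x i = v + s) ∧ (S.Nonempty → 1 / 2 ≤ s ^ 2) := by
  obtain ⟨i0, hi0⟩ := hR
  by_cases hall : ∀ i ∈ R, x i = x i0
  · refine ⟨x i0, 0, ∅, R, Finset.disjoint_empty_left _, Finset.empty_union _, by simp, hall,
      by simp, fun h => absurd h (by simp)⟩
  · push Not at hall
    obtain ⟨j0, hj0, hne⟩ := hall
    have hq : ∀ k ∈ R, x k ≠ x i0 → x k = x j0 := by
      intro k hk hki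
      by_contra hkj
      have hij : i0 ≠ j0 := fun h => hne (by rw [h])
      have hik : i0 ≠ k := fun h => hki (by rw [h])
      have hjk : j0 ≠ k := fun h => hkj (by rw [h])
      refine three r0 rr (p := x i0) (q := x j0) (t := x k) ?_ ?_ ?_ (hsum i0 hi0 j0 hj0 hij)
        (hsum j0 hj0 k hk hjk) (hsum i0 hi0 k hk hik)
      · exact (hgap i0 hi0 j0 hj0).resolve_left fun h => hne h.symm
      · exact (hgap j0 hj0 k hk).resolve_left fun h => hkj h.symm
      · exact (hgap i0 hi0 k hk).resolve_left fun h => hki h.symm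
    have hsq : 1 / 2 ≤ (x j0 - x i0) ^ 2 :=
      sqOfGap ((hgap j0 hj0 i0 hi0).resolve_left hne)
    set P := R.filter (fun k => x k = x i0) with hP
    set S := R.filter (fun k => ¬ x k = x i0) with hS
    have hdis : Disjoint P S := Finset.disjoint_filter_filter_not R R _
    have hun : P ∪ S = R := Finset.filter_union_filter_not_eq _ R
    have hPv : ∀ i ∈ P, x i = x i0 := fun i hi => (Finset.mem_filter.mp hi).2
    have hSv : ∀ i ∈ S, x i = x j0 := fun i hi =>
      hq i (Finset.mem_filter.mp hi).1 (Finset.mem_filter.mp hi).2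
    rcases le_total S.card P.card with h | h
    · refine ⟨x i0, x j0 - x i0, S, P, hdis.symm, by rw [Finset.union_comm, hun], h, hPv,
        fun i hi => by rw [hSv i hi]; ring, fun _ => hsq⟩
    · refine ⟨x j0, x i0 - x j0, P, S, hdis, hun, h, hSv,
        fun i hi => by rw [hPv i hi]; ring, fun _ => ?_⟩
      have : (x i0 - x j0) ^ 2 = (x j0 - x i0) ^ 2 := by ring
      rw [this]
      exact hsq

/-! ### real inequalities -/

/-- Cauchy-Schwarz -/
theorem cs (A B s m : ℝ) (hm : 0 ≤ m) :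
    (A + B + m * s) ^ 2 ≤ (2 + m) * (A ^ 2 + B ^ 2 + m * s ^ 2) := by
  have h1 : (2 + m) * (A ^ 2 + B ^ 2 + m * s ^ 2) - (A + B + m * s) ^ 2 =
      (A - B) ^ 2 + m * ((A - s) ^ 2 + (B - s) ^ 2) := by ring
  have h2 : 0 ≤ m * ((A - s) ^ 2 + (B - s) ^ 2) := by positivity
  nlinarith [sq_nonneg (A - B)]

/-- `m1 ≤ 1`: `κ = 0` -/
theorem kappa0 {A B s m N κ : ℝ} (hm0 : 0 ≤ m) (hm1 : m ≤ 1) (hN : 10 ≤ N)
    (e1 : (A + B + m * s) ^ 2 = N * κ) (e2 : A ^ 2 + B ^ 2 + m * s ^ 2 = 1 + κ)
    (hκ : 0 ≤ κ) (hk : κ = 0 ∨ 1 / 2 ≤ κ) : κ = 0 := by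
  rcases hk with h | h
  · exact h
  · exfalso
    have h1 := cs A B s m hm0
    rw [e1, e2] at h1
    nlinarith

/-- `m1 = 1` -/
theorem real1 {A B s : ℝ} (e2 : A ^ 2 + B ^ 2 + s ^ 2 = 1)
    (kA : s * A = 0 ∨ 1 / 2 ≤ |s * A|) (kB : s * B = 0 ∨ 1 / 2 ≤ |s * B|)
    (hs : 1 / 2 ≤ s ^ 2) : A = 0 ∨ B = 0 := by
  have hs0 : s ≠ 0 := by
    rintro rfl
    norm_num at hs
  rcases kA with h | h
  · exact Or.inl ((mul_eq_zero.mp h).resolve_left hs0)
  · rcases kB with h' | h'
    · exact Or.inr ((mul_eq_zero.mp h').resolve_left hs0)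
    · exfalso
      have h1 : (1 / 2) * (1 / 2) ≤ |s * A| * |s * A| :=
        mul_le_mul h h (by norm_num) (abs_nonneg _)
      have h2 : (1 / 2) * (1 / 2) ≤ |s * B| * |s * B| :=
        mul_le_mul h' h' (by norm_num) (abs_nonneg _)
      rw [abs_mul_abs_self] at h1 h2
      have h3 : s ^ 2 * (A ^ 2 + B ^ 2) = s * A * (s * A) + s * B * (s * B) := by ring
      have h4 : A ^ 2 + B ^ 2 = 1 - s ^ 2 := by linarith
      rw [h4] at h3
      nlinarith [sq_nonneg (s ^ 2 - 1 / 2)]

/-- `m1 = 2`, `s > 0` -/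
theorem real2pos {A B s N κ T : ℝ} (hN : 10 ≤ N) (hs0 : 0 < s) (eT : A + B + 2 * s = T)
    (e1 : T ^ 2 = N * κ) (e2 : A ^ 2 + B ^ 2 + 2 * s ^ 2 = 1 + κ) (hκ : κ = s ^ 2)
    (kA : s * A - κ = 0 ∨ 1 / 2 ≤ |s * A - κ|)
    (kB : s * B - κ = 0 ∨ 1 / 2 ≤ |s * B - κ|) (hs : 1 / 2 ≤ s ^ 2) : False := by
  subst hκ
  have hT : 10 * s ^ 2 ≤ T ^ 2 := by
    rw [e1]
    exact mul_le_mul_of_nonneg_right hN (sq_nonneg s)
  have hsq : A ^ 2 + B ^ 2 = 1 - s ^ 2 := by linarith
  have hTpos : 3 * s < T := by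
    by_contra hcon
    push Not at hcon
    have hTneg : T < 0 := by
      by_contra h
      push Not at h
      nlinarith
    have h1 : (A + B) ^ 2 ≤ 2 * (A ^ 2 + B ^ 2) := by nlinarith [sq_nonneg (A - B)]
    have h2 : A + B = T - 2 * s := by linarith
    rw [h2, hsq] at h1
    nlinarith [mul_pos hs0 (neg_pos.mpr hTneg)]
  have step : ∀ X : ℝ, X ^ 2 ≤ 1 - s ^ 2 → (s * X - s ^ 2 = 0 ∨ 1 / 2 ≤ |s * X - s ^ 2|) →
      X = s ∨ s * X - s ^ 2 ≤ -(1 / 2) := by
    intro X hX hk
    rcases hk with h | h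
    · left
      have h1 : s * (X - s) = 0 := by linarith
      rcases mul_eq_zero.mp h1 with h2 | h2
      · exact absurd h2 hs0.ne'
      · linarith
    · right
      rcases le_abs.mp h with h1 | h1
      · exfalso
        have h2 : s ^ 2 + 1 / 2 ≤ s * X := by linarith
        have h3 : (s ^ 2 + 1 / 2) * (s ^ 2 + 1 / 2) ≤ (s * X) * (s * X) :=
          mul_le_mul h2 h2 (by positivity) (by nlinarith)
        have h4 : (s * X) * (s * X) = s ^ 2 * X ^ 2 := by ring
        rw [h4] at h3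
        nlinarith [sq_nonneg s, mul_le_mul_of_nonneg_left hX (sq_nonneg s)]
      · linarith
  have hA2 : A ^ 2 ≤ 1 - s ^ 2 := by nlinarith [sq_nonneg B]
  have hB2 : B ^ 2 ≤ 1 - s ^ 2 := by nlinarith [sq_nonneg A]
  have noS : ∀ X Y : ℝ, X = s → X ^ 2 + Y ^ 2 = 1 - s ^ 2 → Y = T - 3 * s → False := by
    intro X Y hX h1 hY
    rw [hX] at h1
    have h2 : Y ^ 2 ≤ 0 := by linarith
    have h3 : 0 < Y := by linarith
    nlinarith
  rcases step A hA2 kA with h | h
  · exact noS A B h hsq (by linarith)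
  · rcases step B hB2 kB with h' | h'
    · exact noS B A h' (by linarith) (by linarith)
    · have h1 : s * T - 4 * s ^ 2 ≤ -1 := by
        rw [← eT]
        nlinarith
      have h2 : s * (3 * s) < s * T := mul_lt_mul_of_pos_left hTpos hs0
      have h3 : 1 < s ^ 2 := by nlinarith
      nlinarith [sq_nonneg A, sq_nonneg B]

/-- `m1 = 2` -/
theorem real2 {A B s N κ T : ℝ} (hN : 10 ≤ N) (eT : A + B + 2 * s = T)
    (e1 : T ^ 2 = N * κ) (e2 : A ^ 2 + B ^ 2 + 2 * s ^ 2 = 1 + κ)
    (k0 : κ = 0 ∨ 1 / 2 ≤ κ) (ks : s ^ 2 - κ = 0 ∨ 1 / 2 ≤ |s ^ 2 - κ|)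
    (kA : s * A - κ = 0 ∨ 1 / 2 ≤ |s * A - κ|)
    (kB : s * B - κ = 0 ∨ 1 / 2 ≤ |s * B - κ|) (hs : 1 / 2 ≤ s ^ 2) : False := by
  have hk : 1 / 2 ≤ κ := by
    rcases k0 with h | h
    · exfalso
      rw [h, mul_zero] at e1
      have hT : T = 0 := pow_eq_zero_iff (two_ne_zero) |>.mp e1
      have h1 : A + B = -2 * s := by linarith
      have h2 : (A + B) ^ 2 ≤ 2 * (A ^ 2 + B ^ 2) := by nlinarith [sq_nonneg (A - B)]
      rw [h1] at h2
      nlinarith
    · exact h
  have hk' : κ ≤ 2 / 3 := by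
    have h1 := cs A B s 2 (by norm_num)
    rw [e2, eT, e1] at h1
    nlinarith
  have hκ : κ = s ^ 2 := by
    rcases ks with h | h
    · linarith
    · exfalso
      rcases le_abs.mp h with h1 | h1
      · nlinarith [sq_nonneg A, sq_nonneg B]
      · linarith
  rcases lt_trichotomy s 0 with h | h | h
  · refine real2pos (A := -A) (B := -B) (s := -s) (T := -T) (κ := κ) hN (by linarith)
      (by linarith) (by rw [neg_sq, e1]) (by rw [neg_sq, neg_sq, neg_sq, e2]) (by rw [neg_sq, hκ])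
      (by rwa [neg_mul_neg]) (by rwa [neg_mul_neg]) (by rwa [neg_sq])
  · rw [h] at hs
    norm_num at hs
  · exact real2pos hN h eT e1 e2 hκ kA kB hs

/-- `m1 = 3`, `n = 10` -/
theorem real3 {A B s κ T : ℝ} (eT : A + B + 3 * s = T)
    (e1 : T ^ 2 = 10 * κ) (e2 : A ^ 2 + B ^ 2 + 3 * s ^ 2 = 1 + κ)
    (k0 : κ = 0 ∨ 1 / 2 ≤ κ) (ks : s ^ 2 - κ = 0 ∨ 1 / 2 ≤ |s ^ 2 - κ|)
    (hAB : A ≠ B) (hs : 1 / 2 ≤ s ^ 2) (hs' : 15 * s ^ 2 < 8) : False := by
  have hk : 1 / 2 ≤ κ := by
    rcases k0 with h | h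
    · exfalso
      nlinarith [sq_nonneg A, sq_nonneg B]
    · exact h
  have hABpos : 0 < (A - B) ^ 2 := by
    have : A - B ≠ 0 := sub_ne_zero.mpr hAB
    positivity
  have h5 : 5 * (A ^ 2 + B ^ 2 + 3 * s ^ 2) - (A + B + 3 * s) ^ 2 =
      (A - B) ^ 2 + 3 * ((A - s) ^ 2 + (B - s) ^ 2) := by ring
  rw [e2, eT, e1] at h5
  have hk' : κ < 1 := by
    nlinarith [sq_nonneg (A - s), sq_nonneg (B - s)]
  have hκ : κ = s ^ 2 := by
    rcases ks with h | h
    · linarith
    · exfalso
      rcases le_abs.mp h with h1 | h1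
      · nlinarith
      · linarith
  have h6 : A ^ 2 + B ^ 2 ≤ 0 := by nlinarith
  have hA : A = 0 := by nlinarith [sq_nonneg A, sq_nonneg B]
  have hB : B = 0 := by nlinarith [sq_nonneg A, sq_nonneg B]
  exact hAB (by rw [hA, hB])

/-- a vector with the smallest gap has two nonzero coordinates -/
theorem claim (H : Hyp Φ) {u : E n} (hu : u ∈ Φ) {a b : Fin n} (hab : u a ≠ u b)
    (hg : Gap Φ |u a - u b|) : ∃ i j, i ≠ j ∧ ∀ k, k ≠ i → k ≠ j → u k = 0 := by
  have hab' : a ≠ b := fun h => hab (by rw [h])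
  have hn := H.hn
  have hN : (10 : ℝ) ≤ n := by exact_mod_cast hn
  set R : Finset (Fin n) := Finset.univ \ {a, b} with hRdef
  have hRcard : R.card = n - 2 := by
    rw [hRdef, Finset.card_sdiff_of_subset (Finset.subset_univ _), Finset.card_univ,
      Fintype.card_fin, Finset.card_pair hab']
  have hmem : ∀ i, i ∈ R ↔ i ≠ a ∧ i ≠ b := by
    intro i
    simp [hRdef]
  have hpos : 0 < u a ^ 2 + u b ^ 2 := by
    by_contra hcon
    have h1 : u a = 0 := by nlinarith [sq_nonneg (u a), sq_nonneg (u b)]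
    have h2 : u b = 0 := by nlinarith [sq_nonneg (u a), sq_nonneg (u b)]
    exact hab (by rw [h1, h2])
  have split : ∀ F : Fin n → ℝ, ∑ i, F i = F a + F b + ∑ i ∈ R, F i := by
    intro F
    rw [← Finset.sum_sdiff (Finset.subset_univ {a, b}), Finset.sum_pair hab', add_comm]
  have hRsum : ∑ i ∈ R, u i ^ 2 < 1 := by
    have h1 := sumSq H hu
    rw [split] at h1
    linarith
  obtain ⟨v, s, S, Z, hdis, hun, hcard, hZ, hS, hs⟩ := twoVals (fun i => u i) R
    (Finset.card_pos.mp (by rw [hRcard]; omega))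
    (fun i hi j hj => by
      by_cases hij : i = j
      · exact Or.inl (by rw [hij])
      · exact farM H hu hab hg hij ((hmem i).mp hi).1 ((hmem i).mp hi).2 ((hmem j).mp hj).1
          ((hmem j).mp hj).2)
    (fun i hi j hj hij => by
      have h1 : u i ^ 2 + u j ^ 2 ≤ ∑ i ∈ R, u i ^ 2 := by
        rw [← Finset.sum_pair (f := fun i => u i ^ 2) hij]
        refine Finset.sum_le_sum_of_subset_of_nonneg ?_ fun i _ _ => sq_nonneg _
        intro k hk
        simp only [Finset.mem_insert, Finset.mem_singleton] at hk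
        rcases hk with rfl | rfl
        · exact hi
        · exact hj
      exact lt_of_le_of_lt h1 hRsum)
  simp only at hZ hS
  have hsum : S.card + Z.card = n - 2 := by
    rw [← hRcard, ← hun, Finset.card_union_of_disjoint hdis]
  have splitR : ∀ F : Fin n → ℝ, ∑ i ∈ R, F i = ∑ i ∈ S, F i + ∑ i ∈ Z, F i := by
    intro F
    rw [← hun, Finset.sum_union hdis]
  have hcover : ∀ i, i ≠ a → i ≠ b → i ∈ S ∨ i ∈ Z := by
    intro i hia hib
    have h1 := (hmem i).mpr ⟨hia, hib⟩
    rw [← hun, Finset.mem_union] at h1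
    exact h1
  have hSR : ∀ i ∈ S, i ≠ a ∧ i ≠ b := fun i hi =>
    (hmem i).mp (by rw [← hun]; exact Finset.mem_union_left _ hi)
  have hZR : ∀ i ∈ Z, i ≠ a ∧ i ≠ b := fun i hi =>
    (hmem i).mp (by rw [← hun]; exact Finset.mem_union_right _ hi)
  -- the two equations
  have E1 : (u a - v) + (u b - v) + S.card * s = -(n * v) := by
    have h1 : ∑ i, (u i - v) = -(n * v) := by
      rw [Finset.sum_sub_distrib, H.sum0 u hu, Finset.sum_const, Finset.card_univ,
        Fintype.card_fin, nsmul_eq_mul, zero_sub]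
    rw [split, splitR, Finset.sum_congr rfl (fun i hi => by rw [hS i hi, add_sub_cancel_left]),
      Finset.sum_eq_zero (s := Z) (fun i hi => by rw [hZ i hi, sub_self]), Finset.sum_const,
      nsmul_eq_mul, add_zero] at h1
    exact h1
  have E2 : (u a - v) ^ 2 + (u b - v) ^ 2 + S.card * s ^ 2 = 1 + n * v ^ 2 := by
    have h1 : ∑ i, (u i - v) ^ 2 = 1 + n * v ^ 2 := by
      have h2 : ∀ i, (u i - v) ^ 2 = u i ^ 2 - (2 * v) * u i + v ^ 2 := fun i => by ring
      rw [Finset.sum_congr rfl (fun i _ => h2 i), Finset.sum_add_distrib, Finset.sum_sub_distrib,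
        ← Finset.mul_sum, H.sum0 u hu, sumSq H hu, Finset.sum_const, Finset.card_univ,
        Fintype.card_fin, nsmul_eq_mul, mul_zero, sub_zero]
    rw [split, splitR, Finset.sum_congr rfl (fun i hi => by rw [hS i hi, add_sub_cancel_left]),
      Finset.sum_eq_zero (s := Z) (fun i hi => by rw [hZ i hi, sub_self]; ring), Finset.sum_const,
      nsmul_eq_mul, add_zero] at h1
    exact h1
  have hR2 : S.card * (v + s) ^ 2 + Z.card * v ^ 2 < (1 : ℝ) := by
    have h1 := hRsum
    rw [splitR, Finset.sum_congr rfl (fun i hi => by rw [hS i hi]),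
      Finset.sum_congr (s₁ := Z) rfl (fun i hi => by rw [hZ i hi]), Finset.sum_const,
      Finset.sum_const, nsmul_eq_mul, nsmul_eq_mul] at h1
    exact h1
  have hprod : (S.card : ℝ) * Z.card * s ^ 2 < S.card + Z.card := by
    have h0 : (0 : ℝ) < S.card + Z.card := by
      have : 0 < S.card + Z.card := by omega
      exact_mod_cast this
    have h1 := mul_lt_mul_of_pos_left hR2 h0
    have h2 : ((S.card : ℝ) + Z.card) * (S.card * (v + s) ^ 2 + Z.card * v ^ 2) =
        S.card * Z.card * s ^ 2 + ((S.card + Z.card) * v + S.card * s) ^ 2 := by ring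
    rw [h2, mul_one] at h1
    nlinarith [sq_nonneg (((S.card : ℝ) + Z.card) * v + S.card * s)]
  have hκ0 : 0 ≤ (n : ℝ) * v ^ 2 := by positivity
  have e1 : ((u a - v) + (u b - v) + S.card * s) ^ 2 = n * (n * v ^ 2) := by
    rw [E1]
    ring
  obtain ⟨z0, hz0⟩ : Z.Nonempty := Finset.card_pos.mp (by omega)
  have toK : ∀ x : ℝ, x = 0 → (x - n * v ^ 2 = 0 ∨ 1 / 2 ≤ |x - n * v ^ 2|) →
      (n * v ^ 2 = 0 ∨ 1 / 2 ≤ n * v ^ 2) := by
    intro x hx h
    rw [hx, zero_sub, abs_neg, abs_of_nonneg hκ0, neg_eq_zero] at h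
    exact h
  have vzero : (n : ℝ) * v ^ 2 = 0 → v = 0 := by
    intro h
    rcases mul_eq_zero.mp h with h1 | h1
    · linarith
    · exact pow_eq_zero_iff (two_ne_zero) |>.mp h1
  rcases Nat.eq_zero_or_pos S.card with hm | hm
  · -- `m1 = 0`
    have hSe : S = ∅ := Finset.card_eq_zero.mp hm
    have hk0 := toK _ (by rw [hZ z0 hz0, sub_self, zero_mul])
      (key H hu hab hg (v := v) (D := {a, b}) (Z := Z.erase z0) (c := z0) (e := z0)
        (by simp [(hZR z0 hz0).1, (hZR z0 hz0).2]) (Finset.notMem_erase _ _)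
        (by rw [Finset.card_pair hab', Finset.card_erase_of_mem hz0]; omega) (by simp) (by simp)
        (fun i hi => hZ i (Finset.mem_of_mem_erase hi))
        (fun i hi _ => by
          simp only [Finset.mem_insert, Finset.mem_singleton, not_or] at hi
          rcases hcover i hi.1 hi.2 with h | h
          · rw [hSe] at h
            exact absurd h (Finset.notMem_empty _)
          · exact hZ i h))
    have hv := vzero (kappa0 (Nat.cast_nonneg _) (by rw [hm]; norm_num) hN e1 E2 hκ0 hk0)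
    refine ⟨a, b, hab', fun k hka hkb => ?_⟩
    rcases hcover k hka hkb with h | h
    · rw [hSe] at h
      exact absurd h (Finset.notMem_empty _)
    · rw [hZ k h, hv]
  · obtain ⟨c, hc⟩ := Finset.card_pos.mp hm
    have hs2 := hs ⟨c, hc⟩
    have hcZ : c ∉ Z := Finset.disjoint_left.mp hdis hc
    set D : Finset (Fin n) := insert a (insert b (S.erase c)) with hD
    have hcD : c ∉ D := by
      simp only [hD, Finset.mem_insert, Finset.mem_erase, not_or]
      exact ⟨(hSR c hc).1, (hSR c hc).2, fun h => h.1 rfl⟩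
    have hDcard : D.card ≤ S.card + 1 := by
      rw [hD]
      refine (Finset.card_insert_le _ _).trans ?_
      have h1 := Finset.card_insert_le b (S.erase c)
      rw [Finset.card_erase_of_mem hc] at h1
      omega
    have hDv : ∀ i, i ∉ D → i ≠ c → u i = v := by
      intro i hi hic
      simp only [hD, Finset.mem_insert, Finset.mem_erase, not_or, not_and] at hi
      rcases hcover i hi.1 hi.2.1 with h | h
      · exact absurd h (hi.2.2 hic)
      · exact hZ i h
    have huc : u c - v = s := by rw [hS c hc, add_sub_cancel_left]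
    -- at most three
    have hm3 : S.card ≤ 3 := by
      by_contra hcon
      push Not at hcon
      have h1 : (4 : ℝ) ≤ S.card := by exact_mod_cast hcon
      have h2 : (S.card : ℝ) ≤ Z.card := by exact_mod_cast hcard
      have h3 : (S.card : ℝ) * Z.card * (1 / 2) ≤ S.card * Z.card * s ^ 2 :=
        mul_le_mul_of_nonneg_left hs2 (mul_nonneg (Nat.cast_nonneg _) (Nat.cast_nonneg _))
      nlinarith
    have h35 : S.card = 3 → Z.card = 5 := by
      intro h3
      have h5 : Z.card < 6 := by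
        by_contra hcon
        push Not at hcon
        have h1 : (6 : ℝ) ≤ Z.card := by exact_mod_cast hcon
        rw [h3] at hprod
        push_cast at hprod
        have h4 : (3 : ℝ) * Z.card * (1 / 2) ≤ 3 * Z.card * s ^ 2 :=
          mul_le_mul_of_nonneg_left hs2 (mul_nonneg (by norm_num) (Nat.cast_nonneg _))
        linarith
      omega
    have hle : S.card + 1 ≤ (Z.erase z0).card := by
      rw [Finset.card_erase_of_mem hz0]
      rcases Nat.lt_or_ge S.card 3 with h | h
      · omega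
      · have h3 : S.card = 3 := by omega
        have h5 := h35 h3
        omega
    have hle' : S.card + 1 ≤ Z.card := hle.trans (Finset.card_le_card (Finset.erase_subset _ _))
    have haD : a ∈ D := by simp [hD]
    have hbD : b ∈ D := by simp [hD]
    have hk0 := toK _ (by rw [hZ z0 hz0, sub_self, mul_zero])
      (key H hu hab hg (v := v) (D := D) (Z := Z.erase z0) (c := c) (e := z0) hcD
        (Finset.notMem_erase _ _) (hDcard.trans hle) haD hbD
        (fun i hi => hZ i (Finset.mem_of_mem_erase hi)) hDv)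
    have kE : ∀ e, e ∉ Z → s * (u e - v) - n * v ^ 2 = 0 ∨ 1 / 2 ≤ |s * (u e - v) - n * v ^ 2| := by
      intro e he
      have h1 := key H hu hab hg (v := v) (D := D) (Z := Z) (c := c) (e := e) hcD he
        (hDcard.trans hle') haD hbD hZ hDv
      rw [huc] at h1
      exact h1
    have haZ : a ∉ Z := fun h => (hZR a h).1 rfl
    have hbZ : b ∉ Z := fun h => (hZR b h).2 rfl
    have kA := kE a haZ
    have kB := kE b hbZ
    have kC := kE c hcZ
    rw [huc, ← sq] at kC
    have hAB : u a - v ≠ u b - v := fun h => hab (by linarith)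
    have hcases : S.card = 1 ∨ S.card = 2 ∨ S.card = 3 := by omega
    rcases hcases with h1 | h2 | h3
    · -- `m1 = 1`
      have hκ := kappa0 (Nat.cast_nonneg _) (by rw [h1]; norm_num) hN e1 E2 hκ0 hk0
      have hv := vzero hκ
      have hSc : ∀ i ∈ S, i = c := by
        intro i hi
        obtain ⟨d, hd⟩ := Finset.card_eq_one.mp h1
        rw [hd, Finset.mem_singleton] at hi hc
        rw [hi, hc]
      rw [hκ, sub_zero] at kA kB
      rw [hκ, h1, Nat.cast_one, one_mul, add_zero] at E2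
      rcases real1 E2 kA kB hs2 with h | h
      · refine ⟨b, c, (hSR c hc).2.symm, fun k hkb hkc => ?_⟩
        by_cases hka : k = a
        · rw [hka]
          linarith
        · rcases hcover k hka hkb with h' | h'
          · exact absurd (hSc k h') hkc
          · rw [hZ k h', hv]
      · refine ⟨a, c, (hSR c hc).1.symm, fun k hka hkc => ?_⟩
        by_cases hkb : k = b
        · rw [hkb]
          linarith
        · rcases hcover k hka hkb with h' | h'
          · exact absurd (hSc k h') hkc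
          · rw [hZ k h', hv]
    · -- `m1 = 2`
      exfalso
      rw [h2, Nat.cast_ofNat] at e1 E2
      exact real2 hN rfl e1 E2 hk0 kC kA kB hs2
    · -- `m1 = 3`
      exfalso
      have h5 := h35 h3
      have hn10 : n = 10 := by omega
      have hn10' : (n : ℝ) = 10 := by rw [hn10]; norm_num
      rw [h3, Nat.cast_ofNat] at e1 E2
      rw [h3, h5] at hprod
      push_cast at hprod
      refine real3 rfl (κ := n * v ^ 2) ?_ E2 hk0 kC hAB hs2 (by linarith)
      rw [e1, hn10']

/-- all gaps are at least `1 / √2` -/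
theorem gapR (H : Hyp Φ) : Gap Φ (√2)⁻¹ := by
  have hn := H.hn
  let T : Set (E n × Fin n × Fin n) := {p | p.1 ∈ Φ ∧ p.1 p.2.1 ≠ p.1 p.2.2}
  have hT : T.Finite := (H.fin.prod (Set.finite_univ)).subset fun p hp => ⟨hp.1, Set.mem_univ _⟩
  have hTne : T.Nonempty := by
    have h01 : (⟨0, by omega⟩ : Fin n) ≠ ⟨1, by omega⟩ := by
      intro h
      have := congrArg Fin.val h
      simp at this
    refine ⟨(bt ⟨0, by omega⟩ ⟨1, by omega⟩, ⟨0, by omega⟩, ⟨1, by omega⟩), H.bts _ _ h01, ?_⟩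
    simp only [bt]
    intro h
    have h2 := r0
    simp at h
    rw [eq_comm, ← sub_eq_zero] at h
    have : (√2)⁻¹ + (√2)⁻¹ = (0 : ℝ) := by linarith
    linarith
  obtain ⟨⟨u, a, b⟩, ⟨hu, hab⟩, hmin⟩ := Set.exists_min_image T
    (fun p => |p.1 p.2.1 - p.1 p.2.2|) hT hTne
  simp only at hu hab hmin
  have hg : Gap Φ |u a - u b| := by
    intro w hw i j
    by_cases h : w i = w j
    · exact Or.inl h
    · exact Or.inr (hmin (w, i, j) ⟨hw, h⟩)
  have hr : (√2)⁻¹ ≤ |u a - u b| := by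
    obtain ⟨i, j, hij, h0⟩ := claim H hu hab hg
    obtain ⟨i, j, hij, rfl⟩ := isBt H hu hij h0
    have hv : ∀ k, bt i j k = 0 ∨ bt i j k = (√2)⁻¹ ∨ bt i j k = -(√2)⁻¹ := by
      intro k
      by_cases h1 : k = i
      · right
        left
        subst h1
        simp [bt, hij]
      · by_cases h2 : k = j
        · right
          right
          subst h2
          simp [bt, h1]
        · left
          simp [bt, h1, h2]
    have h1 := r0
    rcases hv a with ha | ha | ha <;> rcases hv b with hb | hb | hb <;> rw [ha, hb] at hab ⊢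
    · exact absurd rfl hab
    · rw [zero_sub, abs_neg, abs_of_pos h1]
    · rw [zero_sub, neg_neg, abs_of_pos h1]
    · rw [sub_zero, abs_of_pos h1]
    · exact absurd rfl hab
    · rw [sub_neg_eq_add, abs_of_pos (by linarith)]
      linarith
    · rw [sub_zero, abs_neg, abs_of_pos h1]
    · rw [abs_of_neg (by linarith)]
      linarith
    · exact absurd rfl hab
  intro w hw i j
  rcases hg w hw i j with h | h
  · exact Or.inl h
  · exact Or.inr (hr.trans h)

/-- two values are impossible -/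
theorem twoVal (H : Hyp Φ) (hgap : Gap Φ (√2)⁻¹) {u : E n} (hu : u ∈ Φ) (K : Finset (Fin n))
    {p q : ℝ} (hK : 2 * K.card ≤ n) (hq : ∀ i ∈ K, u i = q) (hp : ∀ i, i ∉ K → u i = p)
    (hpq : p ≠ q) (hne : K.Nonempty) : False := by
  have hn := H.hn
  have hN : (10 : ℝ) ≤ n := by exact_mod_cast hn
  have hd0 : q - p ≠ 0 := sub_ne_zero.mpr (Ne.symm hpq)
  set d : ℝ := q - p with hd
  have hX : ∀ i, u i - p = if i ∈ K then d else 0 := by
    intro i
    split_ifs with h
    · rw [hq i h]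
    · rw [hp i h, sub_self]
  have E1 : (K.card : ℝ) * d = -(n * p) := by
    have h1 : ∑ i, (u i - p) = -(n * p) := by
      rw [Finset.sum_sub_distrib, H.sum0 u hu, Finset.sum_const, Finset.card_univ,
        Fintype.card_fin, nsmul_eq_mul, zero_sub]
    rw [Finset.sum_congr rfl (fun i _ => hX i), Finset.sum_ite_mem, Finset.univ_inter,
      Finset.sum_const, nsmul_eq_mul] at h1
    exact h1
  have E2 : (K.card : ℝ) * d ^ 2 = 1 + n * p ^ 2 := by
    have h1 : ∑ i, (u i - p) ^ 2 = 1 + n * p ^ 2 := by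
      have h2 : ∀ i, (u i - p) ^ 2 = u i ^ 2 - (2 * p) * u i + p ^ 2 := fun i => by ring
      rw [Finset.sum_congr rfl (fun i _ => h2 i), Finset.sum_add_distrib, Finset.sum_sub_distrib,
        ← Finset.mul_sum, H.sum0 u hu, sumSq H hu, Finset.sum_const, Finset.card_univ,
        Fintype.card_fin, nsmul_eq_mul, mul_zero, sub_zero]
    have h3 : ∀ i, (u i - p) ^ 2 = if i ∈ K then d ^ 2 else 0 := by
      intro i
      rw [hX i]
      split_ifs
      · rfl
      · ring
    rw [Finset.sum_congr rfl (fun i _ => h3 i), Finset.sum_ite_mem, Finset.univ_inter,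
      Finset.sum_const, nsmul_eq_mul] at h1
    exact h1
  have hk1 : 1 ≤ K.card := Finset.card_pos.mpr hne
  have hk1' : (1 : ℝ) ≤ K.card := by exact_mod_cast hk1
  have hk2' : 2 * (K.card : ℝ) ≤ n := by exact_mod_cast hK
  -- `k (n - k) d² = n`
  have E3 : (K.card : ℝ) * (n - K.card) * d ^ 2 = n := by
    have h1 : (n : ℝ) * (n * p ^ 2) = (K.card * d) ^ 2 := by
      rw [E1]
      ring
    have h2 : (n : ℝ) * (K.card * d ^ 2) = n + (K.card * d) ^ 2 := by
      rw [E2, ← h1]
      ring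
    nlinarith
  obtain ⟨i, hi⟩ := hne
  obtain ⟨j, hj⟩ := exOut K (by omega)
  have hij : i ≠ j := fun h => hj (h ▸ hi)
  have hd2 : 1 / 2 ≤ d ^ 2 := by
    rcases hgap u hu i j with h | h
    · rw [hq i hi, hp j hj] at h
      exact absurd h.symm hpq
    · rw [hq i hi, hp j hj] at h
      exact sqOfGap h
  have hk2 : K.card ≤ 2 := by
    by_contra hcon
    push Not at hcon
    have h3 : (3 : ℝ) ≤ K.card := by exact_mod_cast hcon
    have h4 : 0 ≤ ((K.card : ℝ) - 3) * (n - K.card - 3) :=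
      mul_nonneg (by linarith) (by linarith)
    have h5 : (K.card : ℝ) * (n - K.card) * (1 / 2) ≤ K.card * (n - K.card) * d ^ 2 :=
      mul_le_mul_of_nonneg_left hd2 (mul_nonneg (by linarith) (by linarith))
    nlinarith
  have hcases : K.card = 1 ∨ K.card = 2 := by omega
  rcases hcases with h1 | h2
  · -- one big entry
    have hKi : ∀ k ∈ K, k = i := by
      intro k hk
      obtain ⟨e, he⟩ := Finset.card_eq_one.mp h1
      rw [he, Finset.mem_singleton] at hk hi
      rw [hk, hi]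
    obtain ⟨l, hl⟩ := exOut ({i, j} : Finset (Fin n)) (by
      have := Finset.card_le_two (a := i) (b := j)
      omega)
    simp only [Finset.mem_insert, Finset.mem_singleton, not_or] at hl
    have hlK : l ∉ K := fun h => hl.1 (hKi l h)
    have hin : inner ℝ u (pm (Equiv.swap i j) u) = -(n * p ^ 2) := by
      rw [innerPm H hu _ p, Finset.sum_eq_zero, zero_sub]
      intro k _
      by_cases hk : k = i
      · rw [hk, Equiv.swap_apply_left, hp j hj, sub_self, mul_zero]
      · rw [hp k (fun h => hk (hKi k h)), sub_self, zero_mul]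
    have hw := H.refl u hu _ (H.perm (Equiv.swap i j) u hu)
    have hdiff : rf u (pm (Equiv.swap i j) u) i - rf u (pm (Equiv.swap i j) u) l =
        2 * (n * p ^ 2) * d := by
      rw [rfApply, rfApply, hin, pm_apply, pm_apply, Equiv.swap_apply_left,
        Equiv.swap_apply_of_ne_of_ne hl.1 hl.2, hp j hj, hp l hlK, hq i hi, hd]
      ring
    rw [h1, Nat.cast_one, one_mul] at E1 E2
    rw [h1, Nat.cast_one, one_mul] at E3
    have hp0 : p ≠ 0 := by
      rintro rfl
      rw [mul_zero, neg_zero] at E1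
      exact hd0 E1
    have hnp : (n : ℝ) * (n * p ^ 2) = d ^ 2 := by
      rw [E1]
      ring
    rcases hgap _ hw i l with h | h
    · rw [h, sub_self] at hdiff
      have h3 : (n : ℝ) * p ^ 2 ≠ 0 := by
        have : (n : ℝ) ≠ 0 := by linarith
        positivity
      have h4 : (2 * (n * p ^ 2) * d : ℝ) ≠ 0 := mul_ne_zero (mul_ne_zero two_ne_zero h3) hd0
      exact h4 hdiff.symm
    · rw [hdiff] at h
      have h3 := sqOfGap h
      -- `n x = d²`, `(n - 1) d² = n`
      have hx : (n : ℝ) * p ^ 2 = d ^ 2 - 1 := by linarith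
      have hd9 : d ^ 2 ≤ 10 / 9 := by nlinarith
      rw [hx] at h3
      have h4 : (2 * (d ^ 2 - 1) * d) ^ 2 = 4 * (d ^ 2 - 1) ^ 2 * d ^ 2 := by ring
      rw [h4] at h3
      have h5 : 0 ≤ d ^ 2 - 1 := by
        rw [← hx]
        positivity
      have h6 : (d ^ 2 - 1) ^ 2 ≤ (1 / 9) ^ 2 := by
        apply pow_le_pow_left₀ h5
        linarith
      nlinarith [sq_nonneg d]
  · -- two big entries
    obtain ⟨i', hi', hii'⟩ : ∃ i' ∈ K, i' ≠ i := by
      by_contra hcon
      push Not at hcon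
      have h3 : K ⊆ {i} := fun k hk => Finset.mem_singleton.mpr (hcon k hk)
      have h4 := Finset.card_le_card h3
      rw [Finset.card_singleton] at h4
      omega
    have hKi : ∀ k ∈ K, k = i ∨ k = i' := by
      intro k hk
      by_contra hcon
      push Not at hcon
      have h3 : ({i, i', k} : Finset (Fin n)) ⊆ K := by
        intro x hx
        simp only [Finset.mem_insert, Finset.mem_singleton] at hx
        rcases hx with rfl | rfl | rfl
        · exact hi
        · exact hi'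
        · exact hk
      have h4 := Finset.card_le_card h3
      rw [Finset.card_insert_of_notMem (by simp [Ne.symm hii', Ne.symm hcon.1]),
        Finset.card_pair (Ne.symm hcon.2)] at h4
      omega
    have hi'j : i' ≠ j := fun h => hj (h ▸ hi')
    obtain ⟨l, hl⟩ := exOut ({i, i', j} : Finset (Fin n)) (by
      have := Finset.card_le_three (a := i) (b := i') (c := j)
      omega)
    simp only [Finset.mem_insert, Finset.mem_singleton, not_or] at hl
    have hlK : l ∉ K := fun h => (hKi l h).elim hl.1 hl.2.1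
    have hin : inner ℝ u (pm (Equiv.swap i' j) u) = d * d - n * p ^ 2 := by
      rw [innerPm H hu _ p, Finset.sum_eq_single i]
      · rw [Equiv.swap_apply_of_ne_of_ne (Ne.symm hii') hij, hq i hi]
      · intro k _ hk
        by_cases hk' : k = i'
        · rw [hk', Equiv.swap_apply_left, hp j hj, sub_self, mul_zero]
        · rw [hp k (fun h => (hKi k h).elim hk hk'), sub_self, zero_mul]
      · intro h
        exact absurd (Finset.mem_univ i) h
    have hw := H.refl u hu _ (H.perm (Equiv.swap i' j) u hu)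
    have hdiff : rf u (pm (Equiv.swap i' j) u) i - rf u (pm (Equiv.swap i' j) u) l =
        (1 - 2 * (d * d - n * p ^ 2)) * d := by
      rw [rfApply, rfApply, hin, pm_apply, pm_apply,
        Equiv.swap_apply_of_ne_of_ne (Ne.symm hii') hij,
        Equiv.swap_apply_of_ne_of_ne hl.2.1 hl.2.2, hp l hlK, hq i hi, hd]
      ring
    rw [h2, Nat.cast_ofNat] at E1 E2 E3
    -- `n p² = 2 d² - 1`
    have hx : (n : ℝ) * p ^ 2 = 2 * d ^ 2 - 1 := by linarith
    have hd9 : d ^ 2 ≤ 10 / 16 := by nlinarith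
    rw [hx] at hdiff
    have hy : 1 - 2 * (d * d - (2 * d ^ 2 - 1)) = 2 * d ^ 2 - 1 := by ring
    rw [hy] at hdiff
    have hp0 : p ≠ 0 := by
      rintro rfl
      rw [mul_zero, neg_zero] at E1
      rcases mul_eq_zero.mp E1 with h | h
      · norm_num at h
      · exact hd0 h
    have hpos : 0 < 2 * d ^ 2 - 1 := by
      rw [← hx]
      have : (0 : ℝ) < n := by linarith
      positivity
    rcases hgap _ hw i l with h | h
    · rw [h, sub_self] at hdiff
      exact (mul_ne_zero hpos.ne' hd0) hdiff.symm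
    · rw [hdiff] at h
      have h3 := sqOfGap h
      have h4 : ((2 * d ^ 2 - 1) * d) ^ 2 = (2 * d ^ 2 - 1) ^ 2 * d ^ 2 := by ring
      rw [h4] at h3
      have h6 : (2 * d ^ 2 - 1) ^ 2 ≤ (1 / 4) ^ 2 := by
        apply pow_le_pow_left₀ hpos.le
        linarith
      nlinarith [sq_nonneg d]

theorem final (H : Hyp Φ) {u : E n} (hu : u ∈ Φ) : ∃ i j, i ≠ j ∧ u = bt i j := by
  have hn := H.hn
  have hg := gapR H
  have hne : (Finset.univ : Finset (Fin n)).Nonempty := ⟨⟨0, by omega⟩, Finset.mem_univ _⟩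
  obtain ⟨i, -, hi⟩ := Finset.exists_min_image Finset.univ (fun k => u k) hne
  obtain ⟨j, -, hj⟩ := Finset.exists_max_image Finset.univ (fun k => u k) hne
  simp only [Finset.mem_univ, true_implies] at hi hj
  have hlt : u i < u j := by
    by_contra hcon
    push Not at hcon
    have hconst : ∀ k, u k = u i := fun k => le_antisymm ((hj k).trans hcon) (hi k)
    have h1 := H.sum0 u hu
    rw [Finset.sum_congr rfl (fun k _ => hconst k), Finset.sum_const, Finset.card_univ,
      Fintype.card_fin, nsmul_eq_mul] at h1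
    have h2 := sumSq H hu
    rw [Finset.sum_congr rfl (fun k _ => by rw [hconst k]), Finset.sum_const, Finset.card_univ,
      Fintype.card_fin, nsmul_eq_mul] at h2
    rcases mul_eq_zero.mp h1 with h3 | h3
    · have : (10 : ℝ) ≤ n := by exact_mod_cast hn
      linarith
    · rw [h3] at h2
      norm_num at h2
  have hij : i ≠ j := fun h => by
    rw [h] at hlt
    exact lt_irrefl _ hlt
  by_cases hmid : ∃ k, u k ≠ u i ∧ u k ≠ u j
  · obtain ⟨k, hki, hkj⟩ := hmid
    have h1 : (√2)⁻¹ ≤ u k - u i := by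
      rcases hg u hu k i with h | h
      · exact absurd h hki
      · rwa [abs_of_nonneg (sub_nonneg.mpr (hi k))] at h
    have h2 : (√2)⁻¹ ≤ u j - u k := by
      rcases hg u hu j k with h | h
      · exact absurd h.symm hkj
      · rwa [abs_of_nonneg (sub_nonneg.mpr (hj k))] at h
    have h3 : 2 * (√2)⁻¹ ≤ u j - u i := by linarith
    have h4 : (2 * (√2)⁻¹) * (2 * (√2)⁻¹) ≤ (u j - u i) * (u j - u i) :=
      mul_le_mul h3 h3 (by have := r0; positivity) (by linarith)
    have h5 : (2 * (√2)⁻¹) * (2 * (√2)⁻¹) = (2 : ℝ) := by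
      have := rr
      linarith
    rw [h5] at h4
    refine isBt H hu hij fun l hli hlj => ?_
    have h6 := tripleLe H hu hij (Ne.symm hli) (Ne.symm hlj)
    nlinarith [sq_nonneg (u i + u j), sq_nonneg (u l)]
  · push Not at hmid
    exfalso
    set K : Finset (Fin n) := Finset.univ.filter (fun k => u k = u j) with hK
    set K' : Finset (Fin n) := Finset.univ.filter (fun k => ¬ u k = u j) with hK'
    have hsum : K.card + K'.card = n := by
      have h1 := Finset.card_filter_add_card_filter_not (s := (Finset.univ : Finset (Fin n)))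
        (fun k => u k = u j)
      rw [Finset.card_univ, Fintype.card_fin] at h1
      exact h1
    rcases le_total K.card K'.card with h | h
    · exact twoVal H hg hu K (p := u i) (q := u j) (by omega)
        (fun k hk => (Finset.mem_filter.mp hk).2)
        (fun k hk => by
          by_contra h1
          exact hk (Finset.mem_filter.mpr ⟨Finset.mem_univ _, hmid k h1⟩))
        hlt.ne ⟨j, Finset.mem_filter.mpr ⟨Finset.mem_univ _, rfl⟩⟩
    · exact twoVal H hg hu K' (p := u j) (q := u i) (by omega)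
        (fun k hk => by
          by_contra h1
          exact (Finset.mem_filter.mp hk).2 (hmid k h1))
        (fun k hk => by
          by_contra h1
          exact hk (Finset.mem_filter.mpr ⟨Finset.mem_univ _, h1⟩))
        hlt.ne' ⟨i, Finset.mem_filter.mpr ⟨Finset.mem_univ _, hlt.ne⟩⟩

end RAx

theorem thm_RA : St_RA := by
  intro n Φ hn hfin hunit hsum hrefl hperm hbt u hu
  exact RAx.final ⟨hn, hfin, hunit, hsum, hrefl, hperm, hbt⟩ hu

end Pool.Agent.RSP
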