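import Pool.Agent.RSP.St

/-!
# RSP, module RD: finite reflection closed sets which contain the roots of `D_n`, `n ≥ 9`
-/

set_option autoImplicit false

noncomputable section

namespace Pool.Agent.RSP

namespace RDx

variable {n : ℕ}

theorem exOut (s : Finset (Fin n)) (h : s.card < n) : ∃ d, d ∉ s := by
  by_contra hcon
  push Not at hcon
  have h1 : s = Finset.univ := Finset.eq_univ_iff_forall.mpr hcon
  rw [h1, Finset.card_univ, Fintype.card_fin] at h
  exact lt_irrefl _ h

theorem absCases (a b : ℝ) : |a - b| = |(|a| - |b|)| ∨ |a + b| = |(|a| - |b|)| := by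
  rcases le_total 0 a with ha | ha <;> rcases le_total 0 b with hb | hb
  · left; rw [abs_of_nonneg ha, abs_of_nonneg hb]
  · right; rw [abs_of_nonneg ha, abs_of_nonpos hb, sub_neg_eq_add]
  · right; rw [abs_of_nonpos ha, abs_of_nonneg hb, ← abs_neg (a + b)]; congr 1; ring
  · left; rw [abs_of_nonpos ha, abs_of_nonpos hb, ← abs_neg (a - b)]; congr 1; ring

/-- all absolute values are equal -/
theorem eqAbs (x : Fin n → ℝ) (s : Finset (Fin n)) (r : ℝ) (hr0 : 0 < r) (hr : r * r = 1 / 2)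
    (hs : 3 ≤ s.card) (hsum : ∀ i ∈ s, ∀ j ∈ s, i ≠ j → x i ^ 2 + x j ^ 2 ≤ 1)
    (h0 : ∀ i ∈ s, x i ≠ 0)
    (hm : ∀ i ∈ s, ∀ j ∈ s, i ≠ j → x i = x j ∨ r ≤ |x i - x j|)
    (hp : ∀ i ∈ s, ∀ j ∈ s, i ≠ j → x i = -x j ∨ r ≤ |x i + x j|) :
    ∃ t, r ≤ 2 * t ∧ ∀ i ∈ s, |x i| = t := by
  have key : ∀ i ∈ s, ∀ j ∈ s, i ≠ j →
      (|x i| = |x j| ∧ r ≤ 2 * |x i|) ∨ r ≤ |(|x i| - |x j|)| := by
    intro i hi j hj hij
    by_cases he : |x i| = |x j|
    · left
      refine ⟨he, ?_⟩
      rcases abs_eq_abs.mp he with h | h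
      · rcases hp i hi j hj hij with h1 | h1
        · exfalso
          apply h0 i hi
          linarith
        · rw [← h, ← two_mul, abs_mul, abs_two] at h1
          exact h1
      · rcases hm i hi j hj hij with h1 | h1
        · exfalso
          apply h0 i hi
          linarith
        · have h2 : x i - x j = 2 * x i := by linarith
          rw [h2, abs_mul, abs_two] at h1
          exact h1
    · right
      rcases absCases (x i) (x j) with h | h
      · rw [← h]
        rcases hm i hi j hj hij with h1 | h1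
        · exact absurd (by rw [h1]) he
        · exact h1
      · rw [← h]
        rcases hp i hi j hj hij with h1 | h1
        · exact absurd (by rw [h1, abs_neg]) he
        · exact h1
  have hlt : ∀ i ∈ s, ∀ j ∈ s, ¬ |x j| < |x i| := by
    intro i hi j hj hlt
    have hij : i ≠ j := by
      rintro rfl
      exact lt_irrefl _ hlt
    have hjp : 0 < |x j| := abs_pos.mpr (h0 j hj)
    have h1 : |x j| + r ≤ |x i| := by
      rcases key i hi j hj hij with h | h
      · exact absurd h.1 hlt.ne'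
      · rw [abs_of_pos (sub_pos.mpr hlt)] at h
        linarith
    obtain ⟨k, hk, hki, hkj⟩ : ∃ k ∈ s, k ≠ i ∧ k ≠ j := by
      by_contra hcon
      push Not at hcon
      have h2 : s ⊆ {i, j} := by
        intro k hk
        by_cases hki : k = i
        · simp [hki]
        · simp [hcon k hk hki]
      have h3 := (Finset.card_le_card h2).trans Finset.card_le_two
      omega
    have e1 := hsum i hi j hj hij
    have e2 := hsum i hi k hk hki.symm
    rw [← sq_abs (x i), ← sq_abs (x j)] at e1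
    rw [← sq_abs (x i), ← sq_abs (x k)] at e2
    rcases key j hj k hk hkj.symm with h | h
    · nlinarith [h.2]
    · rcases le_total (|x j|) (|x k|) with h2 | h2
      · rw [abs_of_nonpos (sub_nonpos.mpr h2)] at h
        nlinarith
      · rw [abs_of_nonneg (sub_nonneg.mpr h2)] at h
        have hkp : 0 < |x k| := abs_pos.mpr (h0 k hk)
        nlinarith
  obtain ⟨i0, hi0, j0, hj0, hij0⟩ : ∃ i ∈ s, ∃ j ∈ s, i ≠ j := by
    have h1 : 1 < s.card := by omega
    obtain ⟨i, hi, j, hj, hij⟩ := Finset.one_lt_card.mp h1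
    exact ⟨i, hi, j, hj, hij⟩
  have hall : ∀ i ∈ s, |x i| = |x i0| := fun i hi =>
    le_antisymm (not_lt.mp (hlt i hi i0 hi0)) (not_lt.mp (hlt i0 hi0 i hi))
  refine ⟨|x i0|, ?_, hall⟩
  rcases key i0 hi0 j0 hj0 hij0 with h | h
  · exact h.2
  · rw [hall j0 hj0, sub_self, abs_zero] at h
    linarith

/-- the hypotheses -/
structure Hyp (Φ : Set (E n)) : Prop where
  hn : 9 ≤ n
  fin : Φ.Finite
  unit : ∀ u ∈ Φ, ‖u‖ = 1
  refl : ∀ u ∈ Φ, ∀ w ∈ Φ, rf u w ∈ Φ
  perm : PermInv Φ
  even : EvenInv Φ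
  bts : ∀ i j, i ≠ j → bt i j ∈ Φ

variable {Φ : Set (E n)}

theorem sumSq (H : Hyp Φ) {u : E n} (hu : u ∈ Φ) : ∑ i, u i ^ 2 = 1 := by
  have h1 := H.unit u hu
  have h2 : inner ℝ u u = (1 : ℝ) := by
    rw [real_inner_self_eq_norm_sq, h1, one_pow]
  rw [inner_eq] at h2
  rw [← h2]
  exact Finset.sum_congr rfl fun i _ => sq (u i)

theorem rfApply (u w : E n) (a : Fin n) : rf u w a = w a - 2 * inner ℝ u w * u a := by
  simp [rf]

/-- all nonzero differences of coordinates are at least `g` -/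
def Gap (Φ : Set (E n)) (g : ℝ) : Prop := ∀ w ∈ Φ, ∀ i j, w i = w j ∨ g ≤ |w i - w j|

theorem gapP (H : Hyp Φ) {g : ℝ} (hg : Gap Φ g) {w : E n} (hw : w ∈ Φ) {i j : Fin n}
    (hij : i ≠ j) : w i = -w j ∨ g ≤ |w i + w j| := by
  obtain ⟨l, hl⟩ := exOut ({i, j} : Finset (Fin n)) (by
    have := Finset.card_le_two (a := i) (b := j)
    have := H.hn
    omega)
  simp only [Finset.mem_insert, Finset.mem_singleton, not_or] at hl
  have h1 := H.even {j, l} (by rw [Finset.card_pair (Ne.symm hl.2)]; exact even_two) w hw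
  have h2 := hg _ h1 i j
  have h3 : sg {j, l} w i = w i := by
    rw [sg_apply, if_neg]
    simp only [Finset.mem_insert, Finset.mem_singleton, not_or]
    exact ⟨hij, fun h => hl.1 h.symm⟩
  have h4 : sg {j, l} w j = -w j := by
    rw [sg_apply, if_pos]
    simp
  rw [h3, h4, sub_neg_eq_add] at h2
  exact h2

theorem gapA (H : Hyp Φ) {g : ℝ} (hg : Gap Φ g) {w : E n} (hw : w ∈ Φ) {i j : Fin n}
    (hij : i ≠ j) : |w i| = |w j| ∨ g ≤ |(|w i| - |w j|)| := by
  by_cases he : |w i| = |w j|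
  · exact Or.inl he
  · right
    rcases absCases (w i) (w j) with h | h
    · rw [← h]
      rcases hg w hw i j with h1 | h1
      · exact absurd (by rw [h1]) he
      · exact h1
    · rw [← h]
      rcases gapP H hg hw hij with h1 | h1
      · exact absurd (by rw [h1, abs_neg]) he
      · exact h1

/-- the root `(e_i + e_j) / √2` -/
def pl (i j : Fin n) : E n :=
  (√2)⁻¹ • (EuclideanSpace.single i (1 : ℝ) + EuclideanSpace.single j (1 : ℝ))

theorem plMem (H : Hyp Φ) {i j : Fin n} (hij : i ≠ j) : pl i j ∈ Φ := by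
  obtain ⟨l, hl⟩ := exOut ({i, j} : Finset (Fin n)) (by
    have := Finset.card_le_two (a := i) (b := j)
    have := H.hn
    omega)
  simp only [Finset.mem_insert, Finset.mem_singleton, not_or] at hl
  have h1 := H.even {j, l} (by rw [Finset.card_pair (Ne.symm hl.2)]; exact even_two) _
    (H.bts i j hij)
  have h2 : sg {j, l} (bt i j) = pl i j := by
    ext k
    rw [sg_apply]
    by_cases hkj : k = j
    · subst hkj
      rw [if_pos (by simp)]
      simp [bt, pl, Ne.symm hij]
    · by_cases hkl : k = l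
      · subst hkl
        rw [if_pos (by simp)]
        simp [bt, pl, hl.1, hl.2]
      · rw [if_neg (by simp [hkj, hkl])]
        simp [bt, pl, hkj]
  rw [← h2]
  exact h1

theorem innerBt (u : E n) (i j : Fin n) : inner ℝ u (bt i j) = (√2)⁻¹ * (u i - u j) := by
  simp [bt, inner_smul_right, inner_sub_right, EuclideanSpace.inner_single_right]

theorem innerPl (u : E n) (i j : Fin n) : inner ℝ u (pl i j) = (√2)⁻¹ * (u i + u j) := by
  simp [pl, inner_smul_right, inner_add_right, EuclideanSpace.inner_single_right]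
  ring

theorem r0 : (0 : ℝ) < (√2)⁻¹ := by positivity

theorem rr : (√2)⁻¹ * (√2)⁻¹ = (1 / 2 : ℝ) := by
  rw [← mul_inv, Real.mul_self_sqrt (by norm_num), one_div]

/-- the difference of two coordinates of a reflected vector -/
theorem step (H : Hyp Φ) {u w : E n} (hu : u ∈ Φ) (hw : w ∈ Φ) {a b : Fin n}
    (hab : u a ≠ u b) (hg : Gap Φ |u a - u b|) (c : ℝ) (hc : w a - w b = c * (u a - u b)) :
    c - 2 * inner ℝ u w = 0 ∨ 1 ≤ |c - 2 * inner ℝ u w| := by
  have h1 := hg _ (H.refl u hu w hw) a b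
  have h2 : rf u w a - rf u w b = (c - 2 * inner ℝ u w) * (u a - u b) := by
    rw [rfApply, rfApply]
    linear_combination hc
  have h3 : 0 < |u a - u b| := abs_pos.mpr (sub_ne_zero.mpr hab)
  rcases h1 with h | h
  · left
    rw [h, sub_self] at h2
    rcases mul_eq_zero.mp h2.symm with h4 | h4
    · exact h4
    · exact absurd h4 (sub_ne_zero.mpr hab)
  · right
    rw [h2, abs_mul] at h
    by_contra hcon
    push Not at hcon
    have := mul_lt_mul_of_pos_right hcon h3
    linarith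

theorem step0 (H : Hyp Φ) {u w : E n} (hu : u ∈ Φ) (hw : w ∈ Φ) {a b : Fin n}
    (hab : u a ≠ u b) (hg : Gap Φ |u a - u b|) (hc : w a = w b) :
    inner ℝ u w = 0 ∨ 1 / 2 ≤ |inner ℝ u w| := by
  rcases step H hu hw hab hg 0 (by rw [hc]; ring) with h | h
  · left
    linarith
  · right
    rw [zero_sub, abs_neg, abs_mul, abs_two] at h
    linarith

theorem farM (H : Hyp Φ) {u : E n} (hu : u ∈ Φ) {a b i j : Fin n} (hab : u a ≠ u b)
    (hg : Gap Φ |u a - u b|) (hij : i ≠ j) (hia : i ≠ a) (hib : i ≠ b) (hja : j ≠ a)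
    (hjb : j ≠ b) : u i = u j ∨ (√2)⁻¹ ≤ |u i - u j| := by
  have h1 := step0 H hu (H.bts i j hij) hab hg (by simp [bt, hia.symm, hib.symm, hja.symm, hjb.symm])
  rw [innerBt] at h1
  rcases h1 with h | h
  · left
    rcases mul_eq_zero.mp h with h2 | h2
    · exact absurd h2 r0.ne'
    · linarith
  · right
    rw [abs_mul, abs_of_pos r0] at h
    nlinarith [rr, r0, abs_nonneg (u i - u j), mul_le_mul_of_nonneg_left h r0.le]

theorem farP (H : Hyp Φ) {u : E n} (hu : u ∈ Φ) {a b i j : Fin n} (hab : u a ≠ u b)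
    (hg : Gap Φ |u a - u b|) (hij : i ≠ j) (hia : i ≠ a) (hib : i ≠ b) (hja : j ≠ a)
    (hjb : j ≠ b) : u i = -u j ∨ (√2)⁻¹ ≤ |u i + u j| := by
  have h1 := step0 H hu (plMem H hij) hab hg (by simp [pl, hia.symm, hib.symm, hja.symm, hjb.symm])
  rw [innerPl] at h1
  rcases h1 with h | h
  · left
    rcases mul_eq_zero.mp h with h2 | h2
    · exact absurd h2 r0.ne'
    · linarith
  · right
    rw [abs_mul, abs_of_pos r0] at h
    nlinarith [rr, r0, abs_nonneg (u i + u j), mul_le_mul_of_nonneg_left h r0.le]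

theorem nearP (H : Hyp Φ) {u : E n} (hu : u ∈ Φ) {a b : Fin n} (hab : u a ≠ u b)
    (hg : Gap Φ |u a - u b|) : u a = -u b ∨ (√2)⁻¹ ≤ |u a + u b| := by
  have hab' : a ≠ b := fun h => hab (by rw [h])
  have h1 := step0 H hu (plMem H hab') hab hg (by simp [pl, hab', Ne.symm hab'])
  rw [innerPl] at h1
  rcases h1 with h | h
  · left
    rcases mul_eq_zero.mp h with h2 | h2
    · exact absurd h2 r0.ne'
    · linarith
  · right
    rw [abs_mul, abs_of_pos r0] at h
    nlinarith [rr, r0, abs_nonneg (u a + u b), mul_le_mul_of_nonneg_left h r0.le]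

/-- pairs of coordinates -/
theorem pairLe (H : Hyp Φ) {u : E n} (hu : u ∈ Φ) {i j : Fin n} (hij : i ≠ j) :
    u i ^ 2 + u j ^ 2 ≤ 1 := by
  rw [← sumSq H hu, ← Finset.sum_pair (f := fun i => u i ^ 2) hij]
  exact Finset.sum_le_sum_of_subset_of_nonneg (Finset.subset_univ _) fun i _ _ => sq_nonneg _

theorem tripleLe (H : Hyp Φ) {u : E n} (hu : u ∈ Φ) {i j k : Fin n} (hij : i ≠ j) (hik : i ≠ k)
    (hjk : j ≠ k) : u i ^ 2 + u j ^ 2 + u k ^ 2 ≤ 1 := by
  have h1 : ∑ l ∈ ({i, j, k} : Finset (Fin n)), u l ^ 2 = u i ^ 2 + u j ^ 2 + u k ^ 2 := by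
    rw [Finset.sum_insert (by simp [hij, hik]), Finset.sum_pair hjk]
    ring
  rw [← sumSq H hu, ← h1]
  exact Finset.sum_le_sum_of_subset_of_nonneg (Finset.subset_univ _) fun i _ _ => sq_nonneg _

theorem inner3 {u : E n} (w : E n) {a b c : Fin n} (hab : a ≠ b) (hac : a ≠ c) (hbc : b ≠ c)
    (h0 : ∀ i, i ≠ a → i ≠ b → i ≠ c → u i = 0) :
    inner ℝ u w = u a * w a + u b * w b + u c * w c := by
  have h1 : ∑ l ∈ ({a, b, c} : Finset (Fin n)), u l * w l =
      u a * w a + u b * w b + u c * w c := by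
    rw [Finset.sum_insert (by simp [hab, hac]), Finset.sum_pair hbc]
    ring
  rw [inner_eq, ← h1]
  symm
  refine Finset.sum_subset (Finset.subset_univ _) fun i _ hi => ?_
  simp only [Finset.mem_insert, Finset.mem_singleton, not_or] at hi
  rw [h0 i hi.1 hi.2.1 hi.2.2, zero_mul]

/-- case (γ) -/
theorem noZero (H : Hyp Φ) {u : E n} (hu : u ∈ Φ) {a b : Fin n} (hab : u a ≠ u b)
    (hg : Gap Φ |u a - u b|) (h0 : ∀ i, i ≠ a → i ≠ b → u i ≠ 0) : False := by
  have hab' : a ≠ b := fun h => hab (by rw [h])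
  have hn := H.hn
  have hcard : (Finset.univ \ {a, b} : Finset (Fin n)).card = n - 2 := by
    rw [Finset.card_sdiff_of_subset (Finset.subset_univ _), Finset.card_univ, Fintype.card_fin,
      Finset.card_pair hab']
  have hmem : ∀ i, i ∈ (Finset.univ \ {a, b} : Finset (Fin n)) ↔ i ≠ a ∧ i ≠ b := by
    intro i
    simp
  obtain ⟨t, ht, hall⟩ := eqAbs (fun i => u i) (Finset.univ \ {a, b}) (√2)⁻¹ r0 rr
    (by rw [hcard]; omega) (fun i _ j _ hij => pairLe H hu hij)
    (fun i hi => h0 i ((hmem i).mp hi).1 ((hmem i).mp hi).2)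
    (fun i hi j hj hij => farM H hu hab hg hij ((hmem i).mp hi).1 ((hmem i).mp hi).2
      ((hmem j).mp hj).1 ((hmem j).mp hj).2)
    (fun i hi j hj hij => farP H hu hab hg hij ((hmem i).mp hi).1 ((hmem i).mp hi).2
      ((hmem j).mp hj).1 ((hmem j).mp hj).2)
  have hsq : ∀ i, i ≠ a → i ≠ b → u i ^ 2 = t ^ 2 := by
    intro i hia hib
    rw [← sq_abs, hall i ((hmem i).mpr ⟨hia, hib⟩)]
  have hsum : ((n - 2 : ℕ) : ℝ) * t ^ 2 + (u a ^ 2 + u b ^ 2) = 1 := by
    rw [← sumSq H hu, ← Finset.sum_sdiff (Finset.subset_univ {a, b}), Finset.sum_pair hab',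
      Finset.sum_congr rfl (fun i hi => hsq i ((hmem i).mp hi).1 ((hmem i).mp hi).2),
      Finset.sum_const, hcard, nsmul_eq_mul]
  have hpos : 0 < u a ^ 2 + u b ^ 2 := by
    by_contra hcon
    have h1 : u a = 0 := by nlinarith [sq_nonneg (u a), sq_nonneg (u b)]
    have h2 : u b = 0 := by nlinarith [sq_nonneg (u a), sq_nonneg (u b)]
    exact hab (by rw [h1, h2])
  have ht2 : 1 / 8 ≤ t ^ 2 := by nlinarith [r0, rr]
  have hn9 : n = 9 := by
    by_contra hne
    have h1 : (8 : ℝ) ≤ ((n - 2 : ℕ) : ℝ) := by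
      exact_mod_cast (by omega : 8 ≤ n - 2)
    nlinarith
  have h7 : ((n - 2 : ℕ) : ℝ) = 7 := by
    rw [hn9]
    norm_num
  rw [h7] at hsum
  obtain ⟨p, hp⟩ := exOut ({a, b} : Finset (Fin n)) (by
    have := Finset.card_le_two (a := a) (b := b)
    omega)
  simp only [Finset.mem_insert, Finset.mem_singleton, not_or] at hp
  obtain ⟨q, hq⟩ := exOut ({a, b, p} : Finset (Fin n)) (by
    have := Finset.card_le_three (a := a) (b := b) (c := p)
    omega)
  simp only [Finset.mem_insert, Finset.mem_singleton, not_or] at hq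
  have hw := H.even {p, q} (by rw [Finset.card_pair (Ne.symm hq.2.2)]; exact even_two) u hu
  have hwa : sg {p, q} u a = u a := by
    rw [sg_apply, if_neg]
    simp only [Finset.mem_insert, Finset.mem_singleton, not_or]
    exact ⟨fun h => hp.1 h.symm, fun h => hq.1 h.symm⟩
  have hwb : sg {p, q} u b = u b := by
    rw [sg_apply, if_neg]
    simp only [Finset.mem_insert, Finset.mem_singleton, not_or]
    exact ⟨fun h => hp.2 h.symm, fun h => hq.2.1 h.symm⟩
  have hin : inner ℝ u (sg {p, q} u) = 1 - 4 * t ^ 2 := by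
    rw [inner_eq, ← sumSq H hu]
    have h1 : ∀ i, u i * sg {p, q} u i = u i ^ 2 - (if i ∈ ({p, q} : Finset (Fin n)) then
        2 * u i ^ 2 else 0) := by
      intro i
      rw [sg_apply]
      split_ifs
      · ring
      · ring
    rw [Finset.sum_congr rfl (fun i _ => h1 i), Finset.sum_sub_distrib, Finset.sum_ite_mem,
      Finset.univ_inter, Finset.sum_pair (Ne.symm hq.2.2), hsq p hp.1 hp.2, hsq q hq.1 hq.2.1]
    ring
  have h8 : 8 * t ^ 2 = 1 := by
    rcases step H hu hw hab hg 1 (by rw [hwa, hwb, one_mul]) with h | h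
    · rw [hin] at h
      linarith
    · exfalso
      rw [hin] at h
      have h1 : (1 : ℝ) - 2 * (1 - 4 * t ^ 2) = 8 * t ^ 2 - 1 := by ring
      rw [h1, abs_of_nonneg (by linarith)] at h
      linarith
  have hs : u a ^ 2 + u b ^ 2 = 1 / 8 := by linarith
  have hneg : u a = -u b := by
    rcases nearP H hu hab hg with h | h
    · exact h
    · exfalso
      have h1 : (√2)⁻¹ * (√2)⁻¹ ≤ |u a + u b| * |u a + u b| :=
        mul_le_mul h h r0.le (abs_nonneg _)
      rw [rr, abs_mul_abs_self] at h1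
      nlinarith [sq_nonneg (u a - u b)]
  have hb2 : u b ^ 2 = 1 / 16 := by rw [hneg] at hs; linarith
  have hbb : |u b| = 1 / 4 := by
    have h1 : |u b| ^ 2 = 1 / 16 := by rw [sq_abs, hb2]
    nlinarith [abs_nonneg (u b)]
  have hgap : |u a - u b| = 1 / 2 := by
    rw [hneg, show -u b - u b = -(2 * u b) by ring, abs_neg, abs_mul, abs_two, hbb]
    norm_num
  have htp : |u p| = t := hall p ((hmem p).mpr ⟨hp.1, hp.2⟩)
  have ht0 : 0 ≤ t := by rw [← htp]; exact abs_nonneg _
  rcases gapA H hg hu (i := p) (j := b) hp.2 with h | h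
  · rw [htp, hbb] at h
    rw [h] at h8
    norm_num at h8
  · rw [htp, hbb, hgap] at h
    rcases abs_cases (t - 1 / 4) with h1 | h1
    · nlinarith [h1.1]
    · nlinarith [h1.1]

/-- case (α) -/
theorem alpha (H : Hyp Φ) {u : E n} (hu : u ∈ Φ) {a b : Fin n} (hab : u a ≠ u b)
    (hg : Gap Φ |u a - u b|) (h0 : ∀ i, i ≠ a → i ≠ b → u i = 0) (hb0 : u b ≠ 0)
    (hlt : |u b| < |u a|) : False := by
  have hab' : a ≠ b := fun h => hab (by rw [h])
  have hn := H.hn
  have hB : 0 < |u b| := abs_pos.mpr hb0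
  have hnorm : |u a| ^ 2 + |u b| ^ 2 = 1 := by
    rw [sq_abs, sq_abs, ← sumSq H hu, ← Finset.sum_pair (f := fun i => u i ^ 2) hab']
    refine Finset.sum_subset (Finset.subset_univ _) fun i _ hi => ?_
    simp only [Finset.mem_insert, Finset.mem_singleton, not_or] at hi
    rw [h0 i hi.1 hi.2]
    ring
  have hgap : |u a - u b| = |u a| - |u b| := by
    have h1 : |(|u a| - |u b|)| = |u a| - |u b| := abs_of_pos (sub_pos.mpr hlt)
    rcases absCases (u a) (u b) with h | h
    · rw [h, h1]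
    · rw [h1] at h
      rcases gapP H hg hu hab' with h2 | h2
      · rw [h2, abs_neg] at hlt
        exact absurd hlt (lt_irrefl _)
      · have h3 := abs_abs_sub_abs_le (u a) (u b)
        rw [h1] at h3
        linarith
  obtain ⟨c, hc⟩ := exOut ({a, b} : Finset (Fin n)) (by
    have := Finset.card_le_two (a := a) (b := b)
    omega)
  simp only [Finset.mem_insert, Finset.mem_singleton, not_or] at hc
  have hu' := H.perm (Equiv.swap b c) u hu
  have ea : pm (Equiv.swap b c) u a = u a := by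
    rw [pm_apply, Equiv.swap_apply_of_ne_of_ne hab' (Ne.symm hc.1)]
  have eb : pm (Equiv.swap b c) u b = 0 := by
    rw [pm_apply, Equiv.swap_apply_left, h0 c hc.1 hc.2]
  have ec : pm (Equiv.swap b c) u c = u b := by
    rw [pm_apply, Equiv.swap_apply_right]
  have hw := H.refl _ hu' u hu
  have hin : inner ℝ (pm (Equiv.swap b c) u) u = |u a| ^ 2 := by
    rw [real_inner_comm, inner3 (pm (Equiv.swap b c) u) hab' (Ne.symm hc.1) (Ne.symm hc.2)
      (fun i h1 h2 _ => h0 i h1 h2), ea, eb, ec, h0 c hc.1 hc.2, sq_abs]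
    ring
  have wb : rf (pm (Equiv.swap b c) u) u b = u b := by
    rw [rfApply, eb, mul_zero, sub_zero]
  have wc : rf (pm (Equiv.swap b c) u) u c = -(2 * |u a| ^ 2 * u b) := by
    rw [rfApply, ec, hin, h0 c hc.1 hc.2, zero_sub]
  have hwc : |rf (pm (Equiv.swap b c) u) u c| = 2 * |u a| ^ 2 * |u b| := by
    rw [wc, abs_neg, abs_mul, abs_of_nonneg (by positivity)]
  have hbig : 1 < 2 * |u a| ^ 2 := by nlinarith
  rcases gapA H hg hw (i := b) (j := c) (Ne.symm hc.2) with h | h
  · rw [wb, hwc] at h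
    nlinarith
  · rw [wb, hwc, hgap] at h
    have h1 : |(|u b| - 2 * |u a| ^ 2 * |u b|)| = |u b| * (2 * |u a| ^ 2 - 1) := by
      rw [abs_of_nonpos (by nlinarith)]
      ring
    rw [h1] at h
    have h2 : 2 * |u a| ^ 2 - 1 = (|u a| - |u b|) * (|u a| + |u b|) := by
      linear_combination 0 + hnorm
    rw [h2] at h
    have h3 : 0 < |u a| - |u b| := sub_pos.mpr hlt
    have h4 : 1 ≤ |u b| * (|u a| + |u b|) := by
      by_contra hcon
      push Not at hcon
      have := mul_lt_mul_of_pos_left hcon h3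
      nlinarith
    nlinarith

/-- case (β), one product -/
theorem beta1 (H : Hyp Φ) {u : E n} (hu : u ∈ Φ) {a b c : Fin n} (hab : u a ≠ u b)
    (hg : Gap Φ |u a - u b|) (hca : c ≠ a) (hcb : c ≠ b)
    (h0 : ∀ i, i ≠ a → i ≠ b → i ≠ c → u i = 0) : u c * u a = 0 ∨ 1 / 2 ≤ |u c * u a| := by
  have hab' : a ≠ b := fun h => hab (by rw [h])
  have hn := H.hn
  obtain ⟨d, hd⟩ := exOut ({a, b, c} : Finset (Fin n)) (by
    have := Finset.card_le_three (a := a) (b := b) (c := c)
    omega)
  simp only [Finset.mem_insert, Finset.mem_singleton, not_or] at hd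
  obtain ⟨e, he⟩ := exOut ({a, b, c, d} : Finset (Fin n)) (by
    have := Finset.card_le_four (a := a) (b := b) (c := c) (d := d)
    omega)
  simp only [Finset.mem_insert, Finset.mem_singleton, not_or] at he
  have hw := H.perm (Equiv.swap b d) _ (H.perm (Equiv.swap a e) _ (H.perm (Equiv.swap a c) u hu))
  set w := pm (Equiv.swap b d) (pm (Equiv.swap a e) (pm (Equiv.swap a c) u)) with hwdef
  have wa : w a = 0 := by
    rw [hwdef, pm_apply, Equiv.swap_apply_of_ne_of_ne hab' (Ne.symm hd.1), pm_apply,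
      Equiv.swap_apply_left, pm_apply, Equiv.swap_apply_of_ne_of_ne he.1 he.2.2.1,
      h0 e he.1 he.2.1 he.2.2.1]
  have wb : w b = 0 := by
    rw [hwdef, pm_apply, Equiv.swap_apply_left, pm_apply,
      Equiv.swap_apply_of_ne_of_ne hd.1 (Ne.symm he.2.2.2), pm_apply,
      Equiv.swap_apply_of_ne_of_ne hd.1 hd.2.2, h0 d hd.1 hd.2.1 hd.2.2]
  have wc : w c = u a := by
    rw [hwdef, pm_apply, Equiv.swap_apply_of_ne_of_ne hcb (Ne.symm hd.2.2), pm_apply,
      Equiv.swap_apply_of_ne_of_ne hca (Ne.symm he.2.2.1), pm_apply, Equiv.swap_apply_right]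
  have h1 := step0 H hu hw hab hg (by rw [wa, wb])
  rw [inner3 w hab' (Ne.symm hca) (Ne.symm hcb) h0, wa, wb, wc, mul_zero, mul_zero, zero_add,
    zero_add] at h1
  exact h1

theorem sum3 (H : Hyp Φ) {u : E n} (hu : u ∈ Φ) {a b c : Fin n} (hab : a ≠ b) (hac : a ≠ c)
    (hbc : b ≠ c) (h0 : ∀ i, i ≠ a → i ≠ b → i ≠ c → u i = 0) :
    u a ^ 2 + u b ^ 2 + u c ^ 2 = 1 := by
  have h1 := inner3 u hab hac hbc h0
  rw [inner_eq] at h1
  have h2 := sumSq H hu
  have h3 : ∑ i, u i * u i = ∑ i, u i ^ 2 := Finset.sum_congr rfl fun i _ => (sq (u i)).symm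
  rw [h3, h2] at h1
  rw [h1]
  ring

theorem halfHalf {x y : ℝ} (h1 : x ^ 2 + y ^ 2 = 1) (h2 : x * y = 0 ∨ 1 / 2 ≤ |x * y|)
    (hx : x ≠ 0) (hy : y ≠ 0) : x ^ 2 = 1 / 2 ∧ y ^ 2 = 1 / 2 := by
  rcases h2 with h | h
  · rcases mul_eq_zero.mp h with h | h
    · exact absurd h hx
    · exact absurd h hy
  · have h3 : 1 / 4 ≤ x ^ 2 * y ^ 2 := by
      have : (1 / 2 : ℝ) * (1 / 2) ≤ |x * y| * |x * y| :=
        mul_le_mul h h (by norm_num) (abs_nonneg _)
      rw [abs_mul_abs_self] at this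
      nlinarith
    have h4 : (x ^ 2 - 1 / 2) ^ 2 ≤ 0 := by
      have h5 : y ^ 2 = 1 - x ^ 2 := by linarith
      rw [h5] at h3
      nlinarith
    have h5 : x ^ 2 - 1 / 2 = 0 := by
      have := sq_nonneg (x ^ 2 - 1 / 2)
      have h6 : (x ^ 2 - 1 / 2) ^ 2 = 0 := le_antisymm h4 this
      exact pow_eq_zero_iff (two_ne_zero) |>.mp h6
    constructor <;> linarith

/-- the claim for a vector with the smallest difference -/
theorem claim (H : Hyp Φ) {u : E n} (hu : u ∈ Φ) {a b : Fin n} (hab : u a ≠ u b)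
    (hg : Gap Φ |u a - u b|) : IsDRoot u ∨ IsAxis u := by
  have hab' : a ≠ b := fun h => hab (by rw [h])
  have hab2 : u b ≠ u a := Ne.symm hab
  have hg2 : Gap Φ |u b - u a| := by rw [abs_sub_comm]; exact hg
  obtain ⟨l, hla, hlb, hl⟩ : ∃ l, l ≠ a ∧ l ≠ b ∧ u l = 0 := by
    by_contra hcon
    push Not at hcon
    exact noZero H hu hab hg hcon
  have hbig : ∀ i, i ≠ a → i ≠ b → u i ≠ 0 → 1 / 2 ≤ u i ^ 2 := by
    intro i hia hib hi
    have hil : i ≠ l := by
      rintro rfl
      exact hi hl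
    rcases farM H hu hab hg hil hia hib hla hlb with h | h
    · rw [hl] at h
      exact absurd h hi
    · rw [hl, sub_zero] at h
      have h1 : (√2)⁻¹ * (√2)⁻¹ ≤ |u i| * |u i| := mul_le_mul h h r0.le (abs_nonneg _)
      rw [rr, abs_mul_abs_self] at h1
      nlinarith
  by_cases hall : ∀ i, i ≠ a → i ≠ b → u i = 0
  · obtain ⟨c, hc⟩ := exOut ({a, b} : Finset (Fin n)) (by
      have := Finset.card_le_two (a := a) (b := b)
      have := H.hn
      omega)
    simp only [Finset.mem_insert, Finset.mem_singleton, not_or] at hc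
    have hs := sum3 H hu hab' (Ne.symm hc.1) (Ne.symm hc.2) (fun i h1 h2 _ => hall i h1 h2)
    rw [hall c hc.1 hc.2] at hs
    by_cases hb0 : u b = 0
    · right
      refine ⟨a, by rw [hb0] at hs; linarith, fun l h => ?_⟩
      by_cases h2 : l = b
      · rw [h2, hb0]
      · exact hall l h h2
    by_cases ha0 : u a = 0
    · right
      refine ⟨b, by rw [ha0] at hs; linarith, fun l h => ?_⟩
      by_cases h2 : l = a
      · rw [h2, ha0]
      · exact hall l h2 h
    rcases lt_trichotomy (|u b|) (|u a|) with h | h | h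
    · exact absurd (alpha H hu hab hg hall hb0 h) id
    · left
      have h2 : u b ^ 2 = u a ^ 2 := by rw [← sq_abs (u b), h, sq_abs]
      refine ⟨a, b, hab', ?_, ?_, fun l h1 h3 => hall l h1 h3⟩
      · linarith
      · linarith
    · exact absurd (alpha H hu hab2 hg2 (fun i h1 h2 => hall i h2 h1) ha0 h) id
  · push Not at hall
    obtain ⟨c, hca, hcb, hc0⟩ := hall
    have hrest : ∀ i, i ≠ a → i ≠ b → i ≠ c → u i = 0 := by
      intro i hia hib hic
      by_contra hi
      have h1 := hbig i hia hib hi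
      have h2 := hbig c hca hcb hc0
      have h3 := tripleLe H hu hic hia hca
      have h4 := tripleLe H hu hic hib hcb
      have h5 : u a = 0 := by nlinarith [sq_nonneg (u a)]
      have h6 : u b = 0 := by nlinarith [sq_nonneg (u b)]
      exact hab (by rw [h5, h6])
    have hs := sum3 H hu hab' (Ne.symm hca) (Ne.symm hcb) hrest
    have b1 := beta1 H hu hab hg hca hcb hrest
    have b2 := beta1 H hu hab2 hg2 hcb hca (fun i h1 h2 h3 => hrest i h2 h1 h3)
    by_cases hb0 : u b = 0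
    · have ha0 : u a ≠ 0 := fun h => hab (by rw [h, hb0])
      left
      rw [hb0] at hs
      obtain ⟨h1, h2⟩ := halfHalf (by linarith) b1 hc0 ha0
      refine ⟨c, a, hca, h1, h2, fun l h3 h4 => ?_⟩
      by_cases h5 : l = b
      · rw [h5, hb0]
      · exact hrest l h4 h5 h3
    by_cases ha0 : u a = 0
    · left
      rw [ha0] at hs
      obtain ⟨h1, h2⟩ := halfHalf (by linarith) b2 hc0 hb0
      refine ⟨c, b, hcb, h1, h2, fun l h3 h4 => ?_⟩
      by_cases h5 : l = a
      · rw [h5, ha0]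
      · exact hrest l h5 h4 h3
    exfalso
    have q : ∀ y : ℝ, y ≠ 0 → (u c * y = 0 ∨ 1 / 2 ≤ |u c * y|) → 1 / 4 ≤ u c ^ 2 * y ^ 2 := by
      intro y hy h
      rcases h with h | h
      · rcases mul_eq_zero.mp h with h | h
        · exact absurd h hc0
        · exact absurd h hy
      · have : (1 / 2 : ℝ) * (1 / 2) ≤ |u c * y| * |u c * y| :=
          mul_le_mul h h (by norm_num) (abs_nonneg _)
        rw [abs_mul_abs_self] at this
        nlinarith
    have q1 := q (u a) ha0 b1
    have q2 := q (u b) hb0 b2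
    have q3 : u a ^ 2 + u b ^ 2 = 1 - u c ^ 2 := by linarith
    have q4 : 1 / 2 ≤ u c ^ 2 * (1 - u c ^ 2) := by
      rw [← q3]
      linarith
    nlinarith [sq_nonneg (u c ^ 2 - 1 / 2)]

/-- all gaps are at least `1 / √2` -/
theorem gapR (H : Hyp Φ) : Gap Φ (√2)⁻¹ := by
  have hn := H.hn
  let T : Set (E n × Fin n × Fin n) := {p | p.1 ∈ Φ ∧ p.1 p.2.1 ≠ p.1 p.2.2}
  have hT : T.Finite := (H.fin.prod (Set.finite_univ)).subset fun p hp => ⟨hp.1, Set.mem_univ _⟩
  have hTne : T.Nonempty := by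
    have h01 : (⟨0, by omega⟩ : Fin n) ≠ ⟨1, by omega⟩ := by
      intro h
      have := congrArg Fin.val h
      simp at this
    refine ⟨(bt ⟨0, by omega⟩ ⟨1, by omega⟩, ⟨0, by omega⟩, ⟨1, by omega⟩), H.bts _ _ h01, ?_⟩
    simp only [bt]
    intro h
    have h2 := r0
    simp at h
    rw [eq_comm, ← sub_eq_zero] at h
    have : (√2)⁻¹ + (√2)⁻¹ = (0 : ℝ) := by linarith
    linarith
  obtain ⟨⟨u, a, b⟩, ⟨hu, hab⟩, hmin⟩ := Set.exists_min_image T
    (fun p => |p.1 p.2.1 - p.1 p.2.2|) hT hTne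
  simp only at hu hab hmin
  have hg : Gap Φ |u a - u b| := by
    intro w hw i j
    by_cases h : w i = w j
    · exact Or.inl h
    · exact Or.inr (hmin (w, i, j) ⟨hw, h⟩)
  have hr : (√2)⁻¹ ≤ |u a - u b| := by
    have hsq : (1 / 2 : ℝ) ≤ (u a - u b) ^ 2 := by
      rcases claim H hu hab hg with ⟨i, j, hij, hi, hj, h0⟩ | ⟨i, hi, h0⟩
      · have hv : ∀ k, u k = 0 ∨ u k ^ 2 = 1 / 2 := by
          intro k
          by_cases h1 : k = i
          · right; rw [h1, hi]
          · by_cases h2 : k = j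
            · right; rw [h2, hj]
            · left; exact h0 k h1 h2
        rcases hv a with ha | ha <;> rcases hv b with hb | hb
        · exact absurd (by rw [ha, hb]) hab
        · rw [ha]; nlinarith
        · rw [hb]; nlinarith
        · have h1 : (u a - u b) * (u a + u b) = 0 := by nlinarith
          rcases mul_eq_zero.mp h1 with h | h
          · exact absurd (sub_eq_zero.mp h) hab
          · have h2 : u b = -u a := by linarith
            rw [h2]
            nlinarith
      · by_cases ha : a = i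
        · have hb : b ≠ i := fun h => hab (by rw [ha, h])
          rw [h0 b hb, ha, sub_zero, hi]
          norm_num
        · by_cases hb : b = i
          · rw [h0 a ha, hb, zero_sub, neg_sq, hi]
            norm_num
          · exact absurd (by rw [h0 a ha, h0 b hb]) hab
    rw [← sq_abs] at hsq
    by_contra hcon
    push Not at hcon
    nlinarith [abs_nonneg (u a - u b), r0, rr]
  intro w hw i j
  rcases hg w hw i j with h | h
  · exact Or.inl h
  · exact Or.inr (hr.trans h)

theorem final (H : Hyp Φ) {v : E n} (hv : v ∈ Φ) : IsDRoot v ∨ IsAxis v := by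
  have hn := H.hn
  have hg := gapR H
  by_cases hz : ∃ l, v l = 0
  · obtain ⟨l, hl⟩ := hz
    have hbig : ∀ i, v i ≠ 0 → 1 / 2 ≤ v i ^ 2 := by
      intro i hi
      rcases hg v hv i l with h | h
      · rw [hl] at h
        exact absurd h hi
      · rw [hl, sub_zero] at h
        have h1 : (√2)⁻¹ * (√2)⁻¹ ≤ |v i| * |v i| := mul_le_mul h h r0.le (abs_nonneg _)
        rw [rr, abs_mul_abs_self] at h1
        nlinarith
    obtain ⟨i, hi⟩ : ∃ i, v i ≠ 0 := by
      by_contra hcon
      push Not at hcon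
      have := sumSq H hv
      simp [hcon] at this
    by_cases hj : ∃ j, j ≠ i ∧ v j ≠ 0
    · obtain ⟨j, hji, hj⟩ := hj
      left
      have h1 := hbig i hi
      have h2 := hbig j hj
      have h3 := pairLe H hv hji
      refine ⟨i, j, Ne.symm hji, by linarith, by linarith, fun k hki hkj => ?_⟩
      have h4 := tripleLe H hv (Ne.symm hji) (Ne.symm hki) (Ne.symm hkj)
      nlinarith [sq_nonneg (v k)]
    · push Not at hj
      right
      refine ⟨i, ?_, fun k hk => hj k hk⟩
      have h1 := sumSq H hv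
      rw [Finset.sum_eq_single i (fun k _ hk => by rw [hj k hk]; ring)
        (fun h => absurd (Finset.mem_univ i) h)] at h1
      exact h1
  · push Not at hz
    exfalso
    obtain ⟨t, ht, hall⟩ := eqAbs (fun i => v i) Finset.univ (√2)⁻¹ r0 rr
      (by rw [Finset.card_univ, Fintype.card_fin]; omega) (fun i _ j _ hij => pairLe H hv hij)
      (fun i _ => hz i) (fun i _ j _ _ => hg v hv i j)
      (fun i _ j _ hij => gapP H hg hv hij)
    have h1 := sumSq H hv
    have h2 : ∀ i, v i ^ 2 = t ^ 2 := fun i => by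
      rw [← sq_abs, hall i (Finset.mem_univ i)]
    rw [Finset.sum_congr rfl (fun i _ => h2 i), Finset.sum_const, Finset.card_univ,
      Fintype.card_fin, nsmul_eq_mul] at h1
    have h3 : (9 : ℝ) ≤ n := by exact_mod_cast hn
    have h4 : 1 / 8 ≤ t ^ 2 := by nlinarith [r0, rr]
    nlinarith

end RDx

theorem thm_RD : St_RD := by
  intro n Φ hn hfin hunit hrefl hperm heven hbt u hu
  exact RDx.final ⟨hn, hfin, hunit, hrefl, hperm, heven, hbt⟩ hu

end Pool.Agent.RSP
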