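import Pool.Agent.RSP.St

/-!
# The root polytope of type `A` is `3`-point homogeneous (`St_Rts3`)
-/

set_option autoImplicit false

noncomputable section

namespace Pool.Agent.RSP

namespace Rts3x

/-- inner products of roots -/
def gr {α : Type*} [DecidableEq α] (p q p' q' : α) : ℤ :=
  (if p = p' then 1 else 0) - (if p = q' then 1 else 0) - (if q = p' then 1 else 0) +
    (if q = q' then 1 else 0)

/-- the same for numbers, fast -/
def gb (p q p' q' : ℕ) : ℕ :=
  (bif Nat.beq p p' then 1 else 0) + (bif Nat.beq q q' then 1 else 0) + 2 -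
    ((bif Nat.beq p q' then 1 else 0) + (bif Nat.beq q p' then 1 else 0))

/-- the code of the pattern of equalities -/
def cd (a b c d e f : ℕ) : List Bool :=
  [Nat.beq a b, Nat.beq a c, Nat.beq a d, Nat.beq a e, Nat.beq a f, Nat.beq b c, Nat.beq b d,
    Nat.beq b e, Nat.beq b f, Nat.beq c d, Nat.beq c e, Nat.beq c f, Nat.beq d e, Nat.beq d f,
    Nat.beq e f]

/-- canonical labels -/
def ok (a b c d : ℕ) : Bool :=
  !(Nat.beq a b) && !(Nat.beq c d) && (!(Nat.beq b 2) || Nat.beq a 2) &&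
    (!(Nat.beq c 2) || Nat.beq a 2) && (!(Nat.beq c 3) || Nat.beq b 3) &&
    (!(Nat.beq d 2) || Nat.beq a 2) && (!(Nat.beq d 3) || Nat.beq b 3) &&
    (!(Nat.beq d 4) || Nat.beq c 4)

/-- the comparison of two labellings -/
def cmp (a b c d a' b' c' d' : ℕ) : Bool :=
  !(Nat.beq (gb 0 1 a b) (gb 0 1 a' b')) || !(Nat.beq (gb 0 1 c d) (gb 0 1 c' d')) ||
    !(Nat.beq (gb a b c d) (gb a' b' c' d')) ||
    (cd 0 1 a b c d == cd 0 1 a' b' c' d') || (cd 0 1 a b c d == cd 1 0 b' a' d' c')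

/-- the list of the canonical labellings -/
def Lst : List (ℕ × ℕ × ℕ × ℕ) :=
  (List.range 3).flatMap fun a => (List.range 4).flatMap fun b => (List.range 5).flatMap fun c =>
    ((List.range 6).filter fun d => ok a b c d).map fun d => (a, b, c, d)

def chk : Bool := Lst.all fun x => Lst.all fun y => cmp x.1 x.2.1 x.2.2.1 x.2.2.2 y.1 y.2.1 y.2.2.1 y.2.2.2

theorem chk_true : chk = true := by decide +kernel

theorem mem_Lst {a b c d : ℕ} (ha : a < 3) (hb : b < 4) (hc : c < 5) (hd : d < 6)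
    (h : ok a b c d = true) : (a, b, c, d) ∈ Lst := by
  simp only [Lst, List.mem_flatMap, List.mem_range, List.mem_map, List.mem_filter]
  exact ⟨a, ha, b, hb, c, hc, d, ⟨hd, h⟩, rfl⟩

theorem cmp_of {a b c d a' b' c' d' : ℕ} (h : (a, b, c, d) ∈ Lst) (h' : (a', b', c', d') ∈ Lst) :
    cmp a b c d a' b' c' d' = true := by
  have h1 := chk_true
  unfold chk at h1
  rw [List.all_eq_true] at h1
  have h2 := h1 _ h
  rw [List.all_eq_true] at h2
  exact h2 _ h'

/-- first index with the same value -/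
def lab {α : Type*} [DecidableEq α] (w : Fin 6 → α) (a : Fin 6) : Fin 6 :=
  (Finset.univ.filter fun b => w b = w a).min' ⟨a, by simp⟩

theorem lab_val {α : Type*} [DecidableEq α] (w : Fin 6 → α) (a : Fin 6) : w (lab w a) = w a := by
  have := Finset.min'_mem (Finset.univ.filter fun b => w b = w a) ⟨a, by simp⟩
  exact (Finset.mem_filter.1 this).2

theorem lab_le {α : Type*} [DecidableEq α] (w : Fin 6 → α) (a : Fin 6) : lab w a ≤ a :=
  Finset.min'_le _ _ (by simp)

theorem lab_congr {α : Type*} [DecidableEq α] (w : Fin 6 → α) {a b : Fin 6} (h : w a = w b) :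
    lab w a = lab w b := by
  unfold lab
  simp only [h]

theorem lab_iff {α : Type*} [DecidableEq α] (w : Fin 6 → α) (a b : Fin 6) :
    w a = w b ↔ lab w a = lab w b := by
  constructor
  · exact lab_congr w
  · intro h
    rw [← lab_val w a, ← lab_val w b, h]

theorem lab_lab {α : Type*} [DecidableEq α] (w : Fin 6 → α) (a : Fin 6) :
    lab w (lab w a) = lab w a := lab_congr w (lab_val w a)

theorem beq_iff (a b : ℕ) : Nat.beq a b = true ↔ a = b := Nat.beq_eq ▸ Iff.rfl

theorem lab0 {α : Type*} [DecidableEq α] (w : Fin 6 → α) : lab w 0 = 0 :=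
  le_antisymm (lab_le w 0) (Fin.zero_le _)

theorem lab1 {α : Type*} [DecidableEq α] (w : Fin 6 → α) (h : w 0 ≠ w 1) : lab w 1 = 1 := by
  have h1 := lab_le w 1
  have h2 : lab w 1 ≠ 0 := by
    intro h3
    have := lab_val w 1
    rw [h3] at this
    exact h this
  omega

theorem lab_mem {α : Type*} [DecidableEq α] (w : Fin 6 → α) (h1 : w 2 ≠ w 3) (h2 : w 4 ≠ w 5) :
    ((lab w 2).val, (lab w 3).val, (lab w 4).val, (lab w 5).val) ∈ Lst := by
  have l2 := lab_le w 2
  have l3 := lab_le w 3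
  have l4 := lab_le w 4
  have l5 := lab_le w 5
  have hab : lab w 2 ≠ lab w 3 := fun h => h1 ((lab_iff w 2 3).2 h)
  have hcd : lab w 4 ≠ lab w 5 := fun h => h2 ((lab_iff w 4 5).2 h)
  have key : ∀ (i j : Fin 6), lab w i = j → lab w j = j := by
    intro i j h
    rw [← h, lab_lab]
  refine mem_Lst (by omega) (by omega) (by omega) (by omega) ?_
  have k1 : (lab w 3).val = 2 → (lab w 2).val = 2 := fun h => by
    have := key 3 2 (Fin.ext h)
    rw [this]; rfl
  have k2 : (lab w 4).val = 2 → (lab w 2).val = 2 := fun h => by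
    have := key 4 2 (Fin.ext h)
    rw [this]; rfl
  have k3 : (lab w 4).val = 3 → (lab w 3).val = 3 := fun h => by
    have := key 4 3 (Fin.ext h)
    rw [this]; rfl
  have k4 : (lab w 5).val = 2 → (lab w 2).val = 2 := fun h => by
    have := key 5 2 (Fin.ext h)
    rw [this]; rfl
  have k5 : (lab w 5).val = 3 → (lab w 3).val = 3 := fun h => by
    have := key 5 3 (Fin.ext h)
    rw [this]; rfl
  have k6 : (lab w 5).val = 4 → (lab w 4).val = 4 := fun h => by
    have := key 5 4 (Fin.ext h)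
    rw [this]; rfl
  have n1 : (lab w 2).val ≠ (lab w 3).val := fun h => hab (Fin.ext h)
  have n2 : (lab w 4).val ≠ (lab w 5).val := fun h => hcd (Fin.ext h)
  simp only [ok, Bool.and_eq_true, Bool.or_eq_true, Bool.not_eq_true', Bool.eq_false_iff, ne_eq,
    beq_iff]
  exact ⟨⟨⟨⟨⟨⟨⟨n1, n2⟩, not_or_of_imp k1⟩, not_or_of_imp k2⟩, not_or_of_imp k3⟩,
    not_or_of_imp k4⟩, not_or_of_imp k5⟩, not_or_of_imp k6⟩

theorem nb {α : Type*} [DecidableEq α] (w : Fin 6 → α) (i j : Fin 6) :
    Nat.beq (lab w i).val (lab w j).val = decide (w i = w j) := by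
  rw [Bool.eq_iff_iff, beq_iff, decide_eq_true_iff, lab_iff w i j, Fin.ext_iff]

theorem gb_eq {α : Type*} [DecidableEq α] (w : Fin 6 → α) (i j k l : Fin 6) :
    ((gb (lab w i).val (lab w j).val (lab w k).val (lab w l).val : ℕ) : ℤ) =
      gr (w i) (w j) (w k) (w l) + 2 := by
  unfold gb gr
  simp only [nb, Bool.cond_decide]
  split_ifs <;> norm_num

/-- exchange of `p` and `q` -/
def sw : Fin 6 → Fin 6 := ![1, 0, 3, 2, 5, 4]

theorem sym15 (P Q : Fin 6 → Fin 6 → Prop) (hP : ∀ i, P i i) (hQ : ∀ i, Q i i)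
    (sP : ∀ i j, P i j → P j i) (sQ : ∀ i j, Q i j → Q j i)
    (h : ∀ i j, i < j → (P i j ↔ Q i j)) : ∀ i j, P i j ↔ Q i j := by
  intro i j
  rcases lt_trichotomy i j with hij | hij | hij
  · exact h i j hij
  · subst hij
    exact ⟨fun _ => hQ i, fun _ => hP i⟩
  · exact ⟨fun k => sQ _ _ ((h j i hij).1 (sP _ _ k)), fun k => sP _ _ ((h j i hij).2 (sQ _ _ k))⟩

theorem pat {α β : Type*} [DecidableEq α] [DecidableEq β] (u : Fin 6 → α) (v : Fin 6 → β)
    (u1 : u 0 ≠ u 1) (u2 : u 2 ≠ u 3) (u3 : u 4 ≠ u 5)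
    (v1 : v 0 ≠ v 1) (v2 : v 2 ≠ v 3) (v3 : v 4 ≠ v 5)
    (g1 : gr (u 0) (u 1) (u 2) (u 3) = gr (v 0) (v 1) (v 2) (v 3))
    (g2 : gr (u 0) (u 1) (u 4) (u 5) = gr (v 0) (v 1) (v 4) (v 5))
    (g3 : gr (u 2) (u 3) (u 4) (u 5) = gr (v 2) (v 3) (v 4) (v 5)) :
    (∀ i j, u i = u j ↔ v i = v j) ∨ (∀ i j, u i = u j ↔ v (sw i) = v (sw j)) := by
  have h := cmp_of (lab_mem u u2 u3) (lab_mem v v2 v3)
  have a0 : (lab u 0).val = 0 := by rw [lab0]; rfl
  have a1 : (lab u 1).val = 1 := by rw [lab1 u u1]; rfl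
  have b0 : (lab v 0).val = 0 := by rw [lab0]; rfl
  have b1 : (lab v 1).val = 1 := by rw [lab1 v v1]; rfl
  have k1 : gb (lab u 0).val (lab u 1).val (lab u 2).val (lab u 3).val =
      gb (lab v 0).val (lab v 1).val (lab v 2).val (lab v 3).val := by
    have := gb_eq u 0 1 2 3
    have := gb_eq v 0 1 2 3
    omega
  have k2 : gb (lab u 0).val (lab u 1).val (lab u 4).val (lab u 5).val =
      gb (lab v 0).val (lab v 1).val (lab v 4).val (lab v 5).val := by
    have := gb_eq u 0 1 4 5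
    have := gb_eq v 0 1 4 5
    omega
  have k3 : gb (lab u 2).val (lab u 3).val (lab u 4).val (lab u 5).val =
      gb (lab v 2).val (lab v 3).val (lab v 4).val (lab v 5).val := by
    have := gb_eq u 2 3 4 5
    have := gb_eq v 2 3 4 5
    omega
  rw [a0, a1, b0, b1] at k1 k2
  unfold cmp at h
  simp only [Bool.or_eq_true, Bool.not_eq_true', Bool.eq_false_iff, ne_eq, beq_iff, beq_iff_eq,
    k1, k2, k3, not_true_eq_false, false_or] at h
  rcases h with h | h
  · left
    have h' : cd (lab u 0).val (lab u 1).val (lab u 2).val (lab u 3).val (lab u 4).val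
        (lab u 5).val = cd (lab v 0).val (lab v 1).val (lab v 2).val (lab v 3).val (lab v 4).val
        (lab v 5).val := by
      rw [a0, a1, b0, b1]
      exact h
    simp only [cd, nb, List.cons.injEq, decide_eq_decide, and_true] at h'
    obtain ⟨h1, h2, h3, h4, h5, h6, h7, h8, h9, h10, h11, h12, h13, h14, h15⟩ := h'
    refine sym15 (fun i j => u i = u j) (fun i j => v i = v j) (fun _ => rfl) (fun _ => rfl)
      (fun _ _ h => h.symm) (fun _ _ h => h.symm) ?_
    intro i j hij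
    fin_cases i <;> fin_cases j <;> first
      | exact absurd hij (by decide)
      | assumption
  · right
    have h' : cd (lab u 0).val (lab u 1).val (lab u 2).val (lab u 3).val (lab u 4).val
        (lab u 5).val = cd (lab v 1).val (lab v 0).val (lab v 3).val (lab v 2).val (lab v 5).val
        (lab v 4).val := by
      rw [a0, a1, b0, b1]
      exact h
    simp only [cd, nb, List.cons.injEq, decide_eq_decide, and_true] at h'
    obtain ⟨h1, h2, h3, h4, h5, h6, h7, h8, h9, h10, h11, h12, h13, h14, h15⟩ := h'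
    refine sym15 (fun i j => u i = u j) (fun i j => v (sw i) = v (sw j)) (fun _ => rfl)
      (fun _ => rfl) (fun _ _ h => h.symm) (fun _ _ h => h.symm) ?_
    intro i j hij
    fin_cases i <;> fin_cases j <;> first
      | exact absurd hij (by decide)
      | assumption

/-- a permutation from equal patterns -/
theorem exists_ext {n : ℕ} (u v : Fin 6 → Fin n) (h : ∀ i j, u i = u j ↔ v i = v j) :
    ∃ σ : Equiv.Perm (Fin n), ∀ i, σ (u i) = v i := by
  classical
  have h1 : ∀ x : {x // x ∈ Set.range u}, ∃ i, u i = x.1 := fun x => x.2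
  choose f hf using h1
  have h2 : ∀ x : {x // x ∈ Set.range v}, ∃ i, v i = x.1 := fun x => x.2
  choose g hg using h2
  let e : {x // x ∈ Set.range u} ≃ {x // x ∈ Set.range v} :=
    { toFun := fun x => ⟨v (f x), ⟨f x, rfl⟩⟩
      invFun := fun x => ⟨u (g x), ⟨g x, rfl⟩⟩
      left_inv := by
        intro x
        apply Subtype.ext
        change u (g ⟨v (f x), _⟩) = x.1
        rw [← hf x, h, hg]
      right_inv := by
        intro x
        apply Subtype.ext
        change v (f ⟨u (g x), _⟩) = x.1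
        rw [← hg x, ← h, hf] }
  refine ⟨e.extendSubtype, fun i => ?_⟩
  rw [Equiv.extendSubtype_apply_of_mem e (u i) ⟨i, rfl⟩]
  change v (f ⟨u i, _⟩) = v i
  rw [← h, hf]

/-- a root -/
def rt {n : ℕ} (c : ℝ) (p q : Fin n) : E n :=
  WithLp.toLp 2 fun l => c * ((if l = p then 1 else 0) - (if l = q then 1 else 0))

theorem rt_apply {n : ℕ} (c : ℝ) (p q l : Fin n) :
    rt c p q l = c * ((if l = p then 1 else 0) - (if l = q then 1 else 0)) := rfl

theorem rt_of {n : ℕ} {c : ℝ} {x : E n} (hx : x ∈ rts n c) : ∃ p q, p ≠ q ∧ x = rt c p q := by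
  obtain ⟨p, q, hpq, h1, h2, h3⟩ := hx
  refine ⟨p, q, hpq, ?_⟩
  ext l
  rw [rt_apply]
  by_cases hp : l = p
  · subst hp
    rw [h1, if_pos rfl, if_neg hpq]
    ring
  · by_cases hq : l = q
    · subst hq
      rw [h2, if_pos rfl, if_neg hp]
      ring
    · rw [h3 l hp hq, if_neg hp, if_neg hq]
      ring

theorem rt_dist {n : ℕ} (c : ℝ) (p q p' q' : Fin n) (h : p ≠ q) (h' : p' ≠ q') :
    dist (rt c p q) (rt c p' q') ^ 2 = c ^ 2 * (4 - 2 * (gr p q p' q' : ℝ)) := by
  rw [dist_sq]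
  have h1 : ∀ l : Fin n, (rt c p q l - rt c p' q' l) ^ 2 = c ^ 2 *
      (((if l = p then (1 : ℝ) else 0) - (if l = q then 1 else 0)) ^ 2 +
      ((if l = p' then (1 : ℝ) else 0) - (if l = q' then 1 else 0)) ^ 2 -
      2 * (((if l = p then (1 : ℝ) else 0) - (if l = q then 1 else 0)) *
        ((if l = p' then (1 : ℝ) else 0) - (if l = q' then 1 else 0)))) := by
    intro l
    rw [rt_apply, rt_apply]
    ring
  have h2 : ∀ a b : Fin n, a ≠ b →
      ∑ l, ((if l = a then (1 : ℝ) else 0) - (if l = b then 1 else 0)) ^ 2 = 2 := by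
    intro a b hab
    have : ∀ l, ((if l = a then (1 : ℝ) else 0) - (if l = b then 1 else 0)) ^ 2 =
        (if l = a then (1 : ℝ) else 0) + (if l = b then 1 else 0) := by
      intro l
      by_cases hl : l = a
      · subst hl
        rw [if_pos rfl, if_neg hab]
        ring
      · rw [if_neg hl]
        split_ifs <;> ring
    rw [Finset.sum_congr rfl fun l _ => this l, Finset.sum_add_distrib]
    simp
    norm_num
  have h3 : ∑ l, ((if l = p then (1 : ℝ) else 0) - (if l = q then 1 else 0)) *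
      ((if l = p' then (1 : ℝ) else 0) - (if l = q' then 1 else 0)) = (gr p q p' q' : ℝ) := by
    have h4 : ∀ a b : Fin n, ∑ l, (if l = a then (1 : ℝ) else 0) * (if l = b then (1 : ℝ) else 0) =
        if a = b then 1 else 0 := by
      intro a b
      simp [eq_comm]
    have h5 : ∀ l, ((if l = p then (1 : ℝ) else 0) - (if l = q then 1 else 0)) *
        ((if l = p' then (1 : ℝ) else 0) - (if l = q' then 1 else 0)) =
        (if l = p then (1 : ℝ) else 0) * (if l = p' then (1 : ℝ) else 0) -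
        (if l = p then (1 : ℝ) else 0) * (if l = q' then (1 : ℝ) else 0) -
        (if l = q then (1 : ℝ) else 0) * (if l = p' then (1 : ℝ) else 0) +
        (if l = q then (1 : ℝ) else 0) * (if l = q' then (1 : ℝ) else 0) := by
      intro l
      ring
    rw [Finset.sum_congr rfl fun l _ => h5 l, Finset.sum_add_distrib, Finset.sum_sub_distrib,
      Finset.sum_sub_distrib, h4, h4, h4, h4]
    unfold gr
    push_cast
    ring
  rw [Finset.sum_congr rfl fun l _ => h1 l, ← Finset.mul_sum, Finset.sum_sub_distrib,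
    Finset.sum_add_distrib, ← Finset.mul_sum, h2 p q h, h2 p' q' h', h3]
  ring

theorem gr_of_dist {n : ℕ} {c : ℝ} (hc : 0 < c) {p q p' q' a b a' b' : Fin n} (h : p ≠ q)
    (h' : p' ≠ q') (k : a ≠ b) (k' : a' ≠ b')
    (hd : dist (rt c p q) (rt c p' q') = dist (rt c a b) (rt c a' b')) :
    gr p q p' q' = gr a b a' b' := by
  have h1 : dist (rt c p q) (rt c p' q') ^ 2 = dist (rt c a b) (rt c a' b') ^ 2 := by rw [hd]
  rw [rt_dist c _ _ _ _ h h', rt_dist c _ _ _ _ k k'] at h1
  have h2 : (4 - 2 * (gr p q p' q' : ℝ)) = 4 - 2 * (gr a b a' b' : ℝ) :=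
    mul_left_cancel₀ (by positivity) h1
  have h3 : (gr p q p' q' : ℝ) = (gr a b a' b' : ℝ) := by linarith
  exact_mod_cast h3

end Rts3x

open Rts3x in
/-- The root polytope of type `A` is `3`-point homogeneous. -/
theorem thm_Rts3 : St_Rts3 := by
  intro hInv n c hc A B hA hB hd
  obtain ⟨i1, i2, -, -, -, i6, -, -, i9, -, -, -, -⟩ := hInv n c
  choose p q hpq hpA using fun i => rt_of (hA i)
  choose a b hab haB using fun i => rt_of (hB i)
  set u : Fin 6 → Fin n := ![p 0, q 0, p 1, q 1, p 2, q 2] with hu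
  set v : Fin 6 → Fin n := ![a 0, b 0, a 1, b 1, a 2, b 2] with hv
  have hg : ∀ i j, gr (p i) (q i) (p j) (q j) = gr (a i) (b i) (a j) (b j) := by
    intro i j
    refine gr_of_dist hc (hpq i) (hpq j) (hab i) (hab j) ?_
    rw [← hpA, ← hpA, ← haB, ← haB]
    exact hd i j
  rcases pat u v (hpq 0) (hpq 1) (hpq 2) (hab 0) (hab 1) (hab 2) (hg 0 1) (hg 0 2) (hg 1 2) with
    h | h
  · obtain ⟨σ, hσ⟩ := exists_ext u v h
    have e : ∀ i, σ (p i) = a i ∧ σ (q i) = b i := by
      intro i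
      fin_cases i
      · exact ⟨hσ 0, hσ 1⟩
      · exact ⟨hσ 2, hσ 3⟩
      · exact ⟨hσ 4, hσ 5⟩
    refine ⟨spm σ.symm (fun _ => 1) (fun _ => Or.inl rfl), i1 _ i6 σ.symm, fun i => ?_⟩
    rw [hpA, haB]
    ext l
    rw [spm_apply, rt_apply, rt_apply, one_mul, ← (e i).1, ← (e i).2]
    have e1 : (σ.symm l = p i) = (l = σ (p i)) := propext (Equiv.symm_apply_eq σ)
    have e2 : (σ.symm l = q i) = (l = σ (q i)) := propext (Equiv.symm_apply_eq σ)
    simp only [e1, e2]
  · obtain ⟨σ, hσ⟩ := exists_ext u (fun i => v (sw i)) h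
    have e : ∀ i, σ (p i) = b i ∧ σ (q i) = a i := by
      intro i
      fin_cases i
      · exact ⟨hσ 0, hσ 1⟩
      · exact ⟨hσ 2, hσ 3⟩
      · exact ⟨hσ 4, hσ 5⟩
    refine ⟨spm σ.symm (fun _ => -1) (fun _ => Or.inr rfl), i2 _ i6 i9 σ.symm, fun i => ?_⟩
    rw [hpA, haB]
    ext l
    rw [spm_apply, rt_apply, rt_apply, ← (e i).1, ← (e i).2]
    have e1 : (σ.symm l = p i) = (l = σ (p i)) := propext (Equiv.symm_apply_eq σ)
    have e2 : (σ.symm l = q i) = (l = σ (q i)) := propext (Equiv.symm_apply_eq σ)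
    simp only [e1, e2]
    ring

end Pool.Agent.RSP
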