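import Pool.Agent.RSP.St

/-!
# RSP Simp: the simplex and the union of the simplex and its negative are `m`-point homogeneous
-/

set_option autoImplicit false

noncomputable section

namespace Pool.Agent.RSP

namespace Simpx

/-- the vertex of the simplex -/
def P (n : ℕ) (c : ℝ) (a : Fin n) : E n :=
  WithLp.toLp 2 fun i => c * ((if i = a then 1 else 0) - 1 / n)

theorem P_apply (n : ℕ) (c : ℝ) (a i : Fin n) :
    P n c a i = c * ((if i = a then 1 else 0) - 1 / n) := rfl

theorem mem_hyps (n : ℕ) (c : ℝ) (x : E n) : x ∈ hyps n 1 c ↔ ∃ a, x = P n c a := by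
  constructor
  · rintro ⟨A, hA, h⟩
    obtain ⟨a, rfl⟩ := Finset.card_eq_one.1 hA
    refine ⟨a, ?_⟩
    ext i
    rw [h, P_apply]
    simp
  · rintro ⟨a, rfl⟩
    refine ⟨{a}, Finset.card_singleton a, fun i => ?_⟩
    rw [P_apply]
    simp

/-- squared distances -/
theorem dist_P (n : ℕ) (hn : 0 < n) (c s t : ℝ) (hs : s = 1 ∨ s = -1) (ht : t = 1 ∨ t = -1)
    (a b : Fin n) : ∑ i, (P n (s * c) a i - P n (t * c) b i) ^ 2 =
      c ^ 2 * (2 * (1 - 1 / n) - 2 * (s * t) * ((if a = b then 1 else 0) - 1 / n)) := by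
  have hn' : (n : ℝ) ≠ 0 := by positivity
  have hs2 : s ^ 2 = 1 := by rcases hs with rfl | rfl <;> norm_num
  have ht2 : t ^ 2 = 1 := by rcases ht with rfl | rfl <;> norm_num
  have h1 : ∀ i : Fin n, (P n (s * c) a i - P n (t * c) b i) ^ 2 =
      c ^ 2 * ((if i = a then 1 else 0) * (1 - 2 / n) + (if i = b then 1 else 0) * (1 - 2 / n) +
        2 * (1 / n) ^ 2 - 2 * (s * t) * ((if i = a then (if a = b then 1 else 0) else 0) -
          (if i = a then 1 else 0) * (1 / n) - (if i = b then 1 else 0) * (1 / n) +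
            (1 / n) ^ 2)) := by
    intro i
    rw [P_apply, P_apply]
    have h2 : (s * c * ((if i = a then 1 else 0) - 1 / n) -
        t * c * ((if i = b then 1 else 0) - 1 / (n : ℝ))) ^ 2 =
        c ^ 2 * (s ^ 2 * ((if i = a then 1 else 0) - 1 / n) ^ 2 +
          t ^ 2 * ((if i = b then 1 else 0) - 1 / n) ^ 2 -
          2 * (s * t) * ((if i = a then 1 else 0) - 1 / n) * ((if i = b then 1 else 0) - 1 / n)) := by
      ring
    rw [h2, hs2, ht2]
    by_cases ha : i = a
    · subst ha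
      by_cases hb : i = b
      · subst hb
        simp only [if_true]
        ring
      · simp only [if_true, if_neg hb]
        ring
    · by_cases hb : i = b
      · simp only [if_neg ha, if_pos hb]
        ring
      · simp only [if_neg ha, if_neg hb]
        ring
  simp only [h1]
  rw [← Finset.mul_sum]
  congr 1
  have h3 : ∀ x : Fin n, ∑ i : Fin n, (if i = x then (1 : ℝ) else 0) = 1 := fun x => by simp
  have h4 : ∑ i : Fin n, (if i = a then (if a = b then (1 : ℝ) else 0) else 0) =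
      if a = b then 1 else 0 := by simp
  simp only [Finset.sum_sub_distrib, Finset.sum_add_distrib, ← Finset.mul_sum, ← Finset.sum_mul,
    h3, h4, Finset.sum_const, Finset.card_univ, Fintype.card_fin, nsmul_eq_mul]
  field_simp
  ring

/-- equal distances determine whether the vertices are equal and the product of the signs -/
theorem key (n : ℕ) (hn : 3 ≤ n) (c : ℝ) (hc : c ≠ 0) (s t s' t' : ℝ) (hs : s = 1 ∨ s = -1)
    (ht : t = 1 ∨ t = -1) (hs' : s' = 1 ∨ s' = -1) (ht' : t' = 1 ∨ t' = -1) (a b a' b' : Fin n)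
    (h : dist (P n (s * c) a) (P n (t * c) b) = dist (P n (s' * c) a') (P n (t' * c) b')) :
    (a = b ↔ a' = b') ∧ s * t = s' * t' := by
  rw [dist_eq_iff, dist_P n (by omega) c s t hs ht, dist_P n (by omega) c s' t' hs' ht'] at h
  have hc2 : c ^ 2 ≠ 0 := pow_ne_zero 2 hc
  have h1 := mul_left_cancel₀ hc2 h
  have hn0 : (0 : ℝ) < n := by
    have : 0 < n := by omega
    exact_mod_cast this
  have hn3 : (1 : ℝ) / n ≤ 1 / 3 := by
    apply div_le_div_of_nonneg_left (by norm_num) (by norm_num)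
    exact_mod_cast hn
  have hnp : (0 : ℝ) < 1 / n := by positivity
  set q : ℝ := 1 / n with hq
  have hst : s * t = 1 ∨ s * t = -1 := by
    rcases hs with rfl | rfl <;> rcases ht with rfl | rfl <;> norm_num
  have hst' : s' * t' = 1 ∨ s' * t' = -1 := by
    rcases hs' with rfl | rfl <;> rcases ht' with rfl | rfl <;> norm_num
  have h2 : (s * t) * ((if a = b then 1 else 0) - q) =
      (s' * t') * ((if a' = b' then 1 else 0) - q) := by linarith
  by_cases hab : a = b <;> by_cases hab' : a' = b'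
  · rw [if_pos hab, if_pos hab'] at h2
    refine ⟨⟨fun _ => hab', fun _ => hab⟩, ?_⟩
    exact mul_right_cancel₀ (by linarith : (1 : ℝ) - q ≠ 0) h2
  · exfalso
    rw [if_pos hab, if_neg hab'] at h2
    rcases hst with h3 | h3 <;> rcases hst' with h4 | h4 <;> rw [h3, h4] at h2 <;> linarith
  · exfalso
    rw [if_neg hab, if_pos hab'] at h2
    rcases hst with h3 | h3 <;> rcases hst' with h4 | h4 <;> rw [h3, h4] at h2 <;> linarith
  · rw [if_neg hab, if_neg hab'] at h2
    refine ⟨⟨fun h => absurd h hab, fun h => absurd h hab'⟩, ?_⟩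
    exact mul_right_cancel₀ (by linarith : (0 : ℝ) - q ≠ 0) h2

/-- a permutation which maps `b i` to `a i` -/
theorem perm_ext {n m : ℕ} (a b : Fin m → Fin n) (h : ∀ i j, a i = a j ↔ b i = b j) :
    ∃ σ : Equiv.Perm (Fin n), ∀ i, σ (b i) = a i := by
  classical
  let f : {x // x ∈ Set.range b} → {x // x ∈ Set.range a} := fun x => ⟨a x.2.choose, ⟨_, rfl⟩⟩
  have hf : ∀ j (hj : b j ∈ Set.range b), (f ⟨b j, hj⟩).1 = a j := by
    intro j hj
    exact (h _ _).2 hj.choose_spec
  have hinj : Function.Injective f := by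
    intro x y hxy
    have h1 : a x.2.choose = a y.2.choose := congrArg Subtype.val hxy
    have h2 := (h _ _).1 h1
    rw [x.2.choose_spec, y.2.choose_spec] at h2
    exact Subtype.ext h2
  have hsurj : Function.Surjective f := by
    rintro ⟨_, j, rfl⟩
    exact ⟨⟨b j, ⟨j, rfl⟩⟩, Subtype.ext (hf j _)⟩
  have hbij : Function.Bijective f := ⟨hinj, hsurj⟩
  refine ⟨(Equiv.ofBijective f hbij).extendSubtype, fun i => ?_⟩
  exact (Equiv.extendSubtype_apply_of_mem (Equiv.ofBijective f hbij) (b i) ⟨i, rfl⟩).trans (hf i _)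

/-- the image of a vertex -/
theorem spm_P {n : ℕ} (σ : Equiv.Perm (Fin n)) (e : ℝ) (he : ∀ _ : Fin n, e = 1 ∨ e = -1) (c : ℝ)
    (a b : Fin n) (h : σ b = a) : spm σ (fun _ => e) he (P n c a) = P n (e * c) b := by
  ext i
  rw [spm_apply, P_apply, P_apply]
  have h1 : σ i = a ↔ i = b := by
    rw [← h]
    exact σ.injective.eq_iff
  simp only [h1]
  ring

theorem one (hI : St_Inv) (n m : ℕ) (c : ℝ) (hn : 3 ≤ n) (hc : c ≠ 0) : GHom m (hyps n 1 c) := by
  intro A B hA hB hd
  obtain ⟨i1, -, -, -, i5, -⟩ := hI n c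
  have hA' : ∀ i, ∃ a, A i = P n c a := fun i => (mem_hyps n c _).1 (hA i)
  have hB' : ∀ i, ∃ a, B i = P n c a := fun i => (mem_hyps n c _).1 (hB i)
  choose a ha using hA'
  choose b hb using hB'
  have hab : ∀ i j, a i = a j ↔ b i = b j := by
    intro i j
    have h1 := hd i j
    rw [ha, ha, hb, hb] at h1
    have h2 := key n hn c hc 1 1 1 1 (Or.inl rfl) (Or.inl rfl) (Or.inl rfl) (Or.inl rfl)
      (a i) (a j) (b i) (b j) (by rw [one_mul]; exact h1)
    exact h2.1
  obtain ⟨σ, hσ⟩ := perm_ext a b hab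
  refine ⟨_, i1 _ (i5 1) σ, fun i => ?_⟩
  rw [ha, hb, spm_P σ 1 _ c (a i) (b i) (hσ i), one_mul]

theorem two (hI : St_Inv) (n m : ℕ) (c : ℝ) (hn : 3 ≤ n) (hc : c ≠ 0) :
    GHom m (hyps n 1 c ∪ hyps n 1 (-c)) := by
  intro A B hA hB hd
  rcases Nat.eq_zero_or_pos m with rfl | hm
  · exact ⟨LinearIsometryEquiv.refl ℝ _, fun x => Iff.rfl, fun i => i.elim0⟩
  obtain ⟨i1, i2, -, -, i5, -, -, i8, -⟩ := hI n c
  obtain ⟨-, -, -, -, j5, -, -, j8, -⟩ := hI n (-c)
  have hU : ∀ x, x ∈ hyps n 1 c ∪ hyps n 1 (-c) →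
      ∃ (s : ℝ) (a : Fin n), (s = 1 ∨ s = -1) ∧ x = P n (s * c) a := by
    rintro x (hx | hx)
    · obtain ⟨a, rfl⟩ := (mem_hyps n c _).1 hx
      exact ⟨1, a, Or.inl rfl, by rw [one_mul]⟩
    · obtain ⟨a, rfl⟩ := (mem_hyps n (-c) _).1 hx
      exact ⟨-1, a, Or.inr rfl, by rw [neg_one_mul]⟩
  choose s a hs ha using fun i => hU _ (hA i)
  choose t b ht hb using fun i => hU _ (hB i)
  have hk : ∀ i j, (a i = a j ↔ b i = b j) ∧ s i * s j = t i * t j := by
    intro i j
    have h1 := hd i j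
    rw [ha, ha, hb, hb] at h1
    exact key n hn c hc _ _ _ _ (hs i) (hs j) (ht i) (ht j) _ _ _ _ h1
  obtain ⟨σ, hσ⟩ := perm_ext a b fun i j => (hk i j).1
  have hperm : PermInv (hyps n 1 c ∪ hyps n 1 (-c)) := by
    rintro τ x (hx | hx)
    · exact Or.inl (i5 1 τ x hx)
    · exact Or.inr (j5 1 τ x hx)
  have hneg : ∀ x ∈ hyps n 1 c ∪ hyps n 1 (-c), -x ∈ hyps n 1 c ∪ hyps n 1 (-c) := by
    rintro x (hx | hx)
    · exact Or.inr (i8 1 x hx)
    · left
      have := j8 1 x hx
      rwa [neg_neg] at this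
  set z : Fin m := ⟨0, hm⟩ with hz
  -- the common sign
  have hsign : ∀ i, s z * t z * s i = t i := by
    intro i
    have h1 := (hk i z).2
    have h2 : s z * s z = 1 := by rcases hs z with h | h <;> rw [h] <;> norm_num
    have h3 : t z * t z = 1 := by rcases ht z with h | h <;> rw [h] <;> norm_num
    calc s z * t z * s i = t z * (s i * s z) := by ring
      _ = t z * (t i * t z) := by rw [h1]
      _ = (t z * t z) * t i := by ring
      _ = t i := by rw [h3, one_mul]
  have hcase : s z * t z = 1 ∨ s z * t z = -1 := by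
    rcases hs z with h | h <;> rcases ht z with h' | h' <;> rw [h, h'] <;> norm_num
  rcases hcase with hc1 | hc1
  · refine ⟨_, i1 _ hperm σ, fun i => ?_⟩
    rw [ha, hb, spm_P σ 1 _ _ (a i) (b i) (hσ i), ← hsign i, hc1, one_mul, one_mul]
  · refine ⟨_, i2 _ hperm hneg σ, fun i => ?_⟩
    rw [ha, hb, spm_P σ (-1) _ _ (a i) (b i) (hσ i), ← hsign i, hc1, mul_assoc]

end Simpx

theorem thm_Simp : St_Simp := by
  intro hI n m c hn hc
  refine ⟨Simpx.one hI n m c hn hc.ne', ?_, Simpx.two hI n m c hn hc.ne'⟩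
  obtain ⟨-, -, -, -, -, -, -, -, -, -, i11, -, -⟩ := hI n c
  rw [i11 1 (by omega) (by omega)]
  exact Simpx.one hI n m (-c) hn (neg_ne_zero.2 hc.ne')

end Pool.Agent.RSP
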