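import Pool.Agent.RSP.ClA
import Pool.Agent.RSP.ClD
import Pool.Agent.RSP.ClsA1
import Pool.Agent.RSP.ClsA2
import Pool.Agent.RSP.ClsD
import Pool.Agent.RSP.Cross
import Pool.Agent.RSP.Cube3
import Pool.Agent.RSP.Ext
import Pool.Agent.RSP.Hyps2
import Pool.Agent.RSP.Inv
import Pool.Agent.RSP.Mid2
import Pool.Agent.RSP.NegA1
import Pool.Agent.RSP.NegA2
import Pool.Agent.RSP.NegD
import Pool.Agent.RSP.NorA
import Pool.Agent.RSP.NorD
import Pool.Agent.RSP.RA
import Pool.Agent.RSP.RD
import Pool.Agent.RSP.Rect2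
import Pool.Agent.RSP.Rts3
import Pool.Agent.RSP.Simp

/-!
# Reflection symmetric polytopes: the theorem
-/

set_option autoImplicit false

noncomputable section

namespace Pool.Agent.RSP

namespace Mainx

theorem finite_vertices {n : ℕ} {P : Set (E n)} (hP : IsPolytope P) : (vertices P).Finite := by
  obtain ⟨V, hV, rfl⟩ := hP
  exact hV.subset extremePoints_convexHull_subset

theorem mono {n m m' : ℕ} {M : Set (E n)} (h : GHom m M) (hm : m' ≤ m) : GHom m' M := by
  intro A B hA hB hAB
  rcases Nat.eq_zero_or_pos m' with rfl | hpos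
  · exact ⟨LinearIsometryEquiv.refl ℝ (E n), fun x => Iff.rfl, fun i => i.elim0⟩
  · let k : Fin m → Fin m' := fun i => ⟨min i.1 (m' - 1), by
      have := min_le_right i.1 (m' - 1)
      omega⟩
    obtain ⟨g, hg, hgA⟩ := h (fun i => A (k i)) (fun i => B (k i)) (fun i => hA _) (fun i => hB _)
      (fun i j => hAB _ _)
    refine ⟨g, hg, fun i => ?_⟩
    have h1 := hgA (Fin.castLE hm i)
    have h2 : k (Fin.castLE hm i) = i := by
      refine Fin.ext ?_
      show min i.1 (m' - 1) = i.1
      have := i.2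
      omega
    rw [h2] at h1
    exact h1

theorem spD {n : ℕ} {M : Set (E n)} (hn : 9 ≤ n) (hM : M.Finite) (hp : PermInv M) (he : EvenInv M)
    (hx : ∃ x ∈ M, x ≠ 0) : ∀ g ∈ Gp M, IsSP g := by
  obtain ⟨-, h2, h3, h4, h5, h6, h7⟩ := thm_ClD n M hM (by omega) hp he hx
  have h8 := thm_RD n (Rf M) hn h2 (fun u hu => hu.1) h3 h4 h5 h6
  exact fun g hg => thm_NorD n (Rf M) (by omega) h2 h8 h4 h5 h6 g (h7 g hg)

theorem pmA {n : ℕ} {M : Set (E n)} (hn : 10 ≤ n) (hM : M.Finite) (hp : PermInv M)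
    (hs : ∀ x ∈ M, ∑ i, x i = 0) (hx : ∃ x ∈ M, x ≠ 0) : ∀ g ∈ Gp M, IsPM g := by
  obtain ⟨-, h2, h3, h4, h5, h6⟩ := thm_ClA n M hM (by omega) hp hs hx
  have h8 := thm_RA n {u ∈ Rf M | ∑ i, u i = 0} hn h2 (fun u hu => hu.1.1) (fun u hu => hu.2)
    (fun u hu w hw => h3 u hu.1 hu.2 w hw.1 hw.2) h4 (fun i j hij => h5 i j hij)
  intro g hg
  refine thm_NorA n (by omega) g fun i j hij => ?_
  exact h8 _ (h6 g hg _ (h5 i j hij).1 (h5 i j hij).2)

end Mainx

open Mainx in
theorem thm_Main : St_Main := by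
  have hInv := thm_Inv
  constructor
  · intro n P hn hP hp he hx m hm
    have hM := finite_vertices hP
    have hg := spD hn hM hp he hx
    rw [thm_Ext n m _ hM (thm_ClD n _ hM (by omega) hp he hx).1]
    constructor
    · intro h
      obtain ⟨c, hc, h1⟩ := thm_ClsD hInv n _ (by omega) hM hp he hx hg (mono h hm)
      refine ⟨c, hc, ?_⟩
      have hN1 := thm_NegD n c 1 (by omega) hc (Or.inl rfl)
      have hN2 := thm_NegD n c (-1) (by omega) hc (Or.inr rfl)
      rcases h1 with h1 | h1 | h1 | h1 | h1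
      · exact Or.inl h1
      · refine Or.inr (Or.inl ⟨?_, Or.inl h1⟩)
        by_contra hcon
        rw [h1] at hg h
        exact hN1.1 hg (mono h (by omega))
      · refine Or.inr (Or.inl ⟨?_, Or.inr (Or.inl h1)⟩)
        by_contra hcon
        rw [h1] at hg h
        exact hN1.2.1 hg (mono h (by omega))
      · refine Or.inr (Or.inl ⟨?_, Or.inr (Or.inr h1)⟩)
        by_contra hcon
        rw [h1] at hg h
        exact hN2.2.1 hg (mono h (by omega))
      · refine Or.inr (Or.inr ⟨?_, h1⟩)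
        by_contra hcon
        rw [h1] at hg h
        exact hN1.2.2 hg (mono h (by omega))
    · rintro ⟨c, hc, h1 | ⟨hm3, h1 | h1 | h1⟩ | ⟨rfl, h1⟩⟩ <;> rw [h1]
      · exact thm_Cross hInv n m c hc
      · exact mono (thm_Cube3 hInv n c 1 hc (Or.inl rfl)).1 hm3
      · exact mono (thm_Cube3 hInv n c 1 hc (Or.inl rfl)).2 hm3
      · exact mono (thm_Cube3 hInv n c (-1) hc (Or.inr rfl)).2 hm3
      · exact thm_Rect2 hInv n c hc
  · intro n P hn hP hp hs hx m hm
    have hM := finite_vertices hP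
    have hg := pmA hn hM hp hs hx
    rw [thm_Ext n m _ hM (thm_ClA n _ hM (by omega) hp hs hx).1]
    constructor
    · intro h
      by_cases h3 : ∃ x ∈ vertices P, ∃ i j k, x i ≠ x j ∧ x j ≠ x k ∧ x i ≠ x k
      · obtain ⟨c, hc, h1⟩ := thm_ClsA1 hInv n _ (by omega) hM hp hs hg (mono h hm) h3
        refine ⟨c, hc, ?_⟩
        have hN := thm_NegA2 hInv n c hn hc
        rcases h1 with h1 | h1
        · refine Or.inr (Or.inr (Or.inr (Or.inl ⟨?_, h1⟩)))
          by_contra hcon
          rw [h1] at hg h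
          exact hN.2 hg (mono h (by omega))
        · refine Or.inr (Or.inr (Or.inr (Or.inr (Or.inl ⟨?_, h1⟩))))
          by_contra hcon
          obtain ⟨x, hx, -⟩ := hx
          rw [h1] at hg h hx
          exact hN.1 ⟨x, hx⟩ hg (mono h (by omega))
      · have h4 : ∀ x ∈ vertices P, ∀ i j k, x i = x j ∨ x j = x k ∨ x i = x k := by
          intro x hx i j k
          by_contra hcon
          push Not at hcon
          exact h3 ⟨x, hx, i, j, k, hcon.1, hcon.2.1, hcon.2.2⟩
        obtain ⟨c, hc, h1⟩ := thm_ClsA2 hInv n _ (by omega) hM hp hs hx hg (mono h hm) h4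
        refine ⟨c, hc, ?_⟩
        rcases h1 with ⟨k, hk1, hk2, h1⟩ | ⟨k, hk1, hk2, hk3, h1⟩
        · rcases Nat.lt_or_ge k 2 with hk | hk
          · have : k = 1 := by omega
            subst this
            exact Or.inl h1
          · rcases Nat.lt_or_ge (k + 1) n with hk' | hk'
            · refine Or.inr (Or.inr (Or.inr (Or.inr (Or.inr (Or.inl ⟨?_, k, hk, hk', h1⟩)))))
              by_contra hcon
              rw [h1] at hg h
              exact (thm_NegA1 hInv n k c hn hc hk (by omega)).1 hg (mono h (by omega))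
            · have : k = n - 1 := by omega
              subst this
              exact Or.inr (Or.inl h1)
        · rcases Nat.lt_or_ge k 2 with hk | hk
          · have : k = 1 := by omega
            subst this
            exact Or.inr (Or.inr (Or.inl h1))
          · refine Or.inr (Or.inr (Or.inr (Or.inr (Or.inr (Or.inr ⟨?_, k, hk, hk2, hk3, h1⟩)))))
            by_contra hcon
            rw [h1] at hg h
            exact (thm_NegA1 hInv n k c hn hc hk (by omega)).2 hk2 hg (mono h (by omega))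
    · rintro ⟨c, hc, h1 | h1 | h1 | ⟨hm3, h1⟩ | ⟨rfl, h1⟩ | ⟨rfl, k, hk, hk2, h1⟩ |
        ⟨rfl, k, hk, hk2, hk3, h1⟩⟩ <;> rw [h1]
      · exact (thm_Simp hInv n m c (by omega) hc).1
      · exact (thm_Simp hInv n m c (by omega) hc).2.1
      · exact (thm_Simp hInv n m c (by omega) hc).2.2
      · exact mono (thm_Rts3 hInv n c hc) hm3
      · exact thm_Mid2 hInv n c hc
      · exact (thm_Hyps2 hInv n k c hc (by omega) (by omega)).1
      · exact (thm_Hyps2 hInv n k c hc (by omega) (by omega)).2 hk3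

end Pool.Agent.RSP
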