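import Pool.Agent.RSP.St

/-! # RSP, Rect2 (helper96): the rectified cube is 2-point homogeneous -/

set_option autoImplicit false

noncomputable section

namespace Pool.Agent.RSP

namespace Rect2x

/-- the type of a pair of coordinates -/
def cd (a b : ℝ) : ℕ :=
  if a = 0 then (if b = 0 then 0 else 1) else if b = 0 then 2 else if a = b then 3 else 4

theorem sgn {c : ℝ} (hc : 0 < c) (a b a' b' : ℝ) (ha : a = 0 ∨ a = c ∨ a = -c)
    (hb : b = 0 ∨ b = c ∨ b = -c) (ha' : a' = 0 ∨ a' = c ∨ a' = -c)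
    (hb' : b' = 0 ∨ b' = c ∨ b' = -c) (h : cd a' b' = cd a b) :
    ∃ e : ℝ, (e = 1 ∨ e = -1) ∧ e * a = a' ∧ e * b = b' := by
  have h1 : c ≠ 0 := hc.ne'
  have h2 : -c ≠ 0 := neg_ne_zero.2 h1
  have h3 : c ≠ -c := by
    intro h3
    linarith
  have h4 : -c ≠ c := h3.symm
  unfold cd at h
  rcases ha with rfl | rfl | rfl <;> rcases hb with rfl | rfl | rfl <;>
    rcases ha' with rfl | rfl | rfl <;> rcases hb' with rfl | rfl | rfl <;>
    first
    | exact ⟨1, Or.inl rfl, by ring1, by ring1⟩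
    | exact ⟨-1, Or.inr rfl, by ring1, by ring1⟩
    | (exfalso; simp [h1, h2, h3, h4] at h)

theorem vals {n : ℕ} {c : ℝ} {x : E n} (hx : x ∈ rect n c) (i : Fin n) :
    x i = 0 ∨ x i = c ∨ x i = -c := by
  obtain ⟨k, hk, h⟩ := hx
  by_cases hi : i = k
  · exact Or.inl (hi ▸ hk)
  · exact Or.inr (h i hi)

theorem zeros {n : ℕ} {c : ℝ} (hc : 0 < c) {x : E n} (hx : x ∈ rect n c) :
    ∑ i, (if x i = 0 then 1 else 0) = 1 := by
  obtain ⟨k, hk, h⟩ := hx
  rw [Finset.sum_eq_single k]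
  · rw [if_pos hk]
  · intro j _ hj
    rw [if_neg]
    rcases h j hj with h | h <;> rw [h]
    · exact hc.ne'
    · exact neg_ne_zero.2 hc.ne'
  · intro h
    exact absurd (Finset.mem_univ k) h

/-- the number of coordinates of type `a` -/
def nm {n : ℕ} (x y : E n) (a : ℕ) : ℕ := ∑ i, if cd (x i) (y i) = a then 1 else 0

theorem nm_card {n : ℕ} (x y : E n) (a : ℕ) : Nat.card {i // cd (x i) (y i) = a} = nm x y a := by
  unfold nm
  rw [Nat.card_eq_fintype_card, Fintype.card_subtype, Finset.card_filter]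

theorem nm01 {n : ℕ} {c : ℝ} (hc : 0 < c) {x y : E n} (hx : x ∈ rect n c) :
    nm x y 0 + nm x y 1 = 1 := by
  refine Eq.trans ?_ (zeros hc hx)
  unfold nm
  rw [← Finset.sum_add_distrib]
  refine Finset.sum_congr rfl fun i _ => ?_
  unfold cd
  by_cases h1 : x i = 0 <;> by_cases h2 : y i = 0 <;> by_cases h3 : x i = y i <;>
    simp [h1, h2, h3]

theorem nm02 {n : ℕ} {c : ℝ} (hc : 0 < c) {x y : E n} (hy : y ∈ rect n c) :
    nm x y 0 + nm x y 2 = 1 := by
  refine Eq.trans ?_ (zeros hc hy)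
  unfold nm
  rw [← Finset.sum_add_distrib]
  refine Finset.sum_congr rfl fun i _ => ?_
  unfold cd
  by_cases h1 : x i = 0 <;> by_cases h2 : y i = 0 <;> by_cases h3 : x i = y i <;>
    simp [h1, h2, h3]

theorem nmall {n : ℕ} (x y : E n) : nm x y 0 + nm x y 1 + nm x y 2 + nm x y 3 + nm x y 4 = n := by
  unfold nm
  rw [← Finset.sum_add_distrib, ← Finset.sum_add_distrib, ← Finset.sum_add_distrib,
    ← Finset.sum_add_distrib]
  calc _ = ∑ i : Fin n, 1 := by
        refine Finset.sum_congr rfl fun i _ => ?_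
        unfold cd
        by_cases h1 : x i = 0 <;> by_cases h2 : y i = 0 <;> by_cases h3 : x i = y i <;>
          simp [h1, h2, h3]
    _ = n := by simp

theorem nmbig {n : ℕ} (x y : E n) (a : ℕ) (ha : 5 ≤ a) : nm x y a = 0 := by
  unfold nm
  refine Finset.sum_eq_zero fun i _ => ?_
  rw [if_neg]
  unfold cd
  split_ifs <;> omega

theorem nmdist {n : ℕ} {c : ℝ} (hc : 0 < c) {x y : E n} (hx : x ∈ rect n c) (hy : y ∈ rect n c) :
    ∑ i, (x i - y i) ^ 2 = c ^ 2 * ((nm x y 1 + nm x y 2 + 4 * nm x y 4 : ℕ) : ℝ) := by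
  unfold nm
  push_cast
  rw [Finset.mul_sum, ← Finset.sum_add_distrib, ← Finset.sum_add_distrib, Finset.mul_sum]
  refine Finset.sum_congr rfl fun i _ => ?_
  have h1 : c ≠ 0 := hc.ne'
  have h2 : -c ≠ 0 := neg_ne_zero.2 h1
  have h3 : c ≠ -c := by
    intro h3
    linarith
  have h4 : -c ≠ c := h3.symm
  unfold cd
  rcases vals hx i with h | h | h <;> rcases vals hy i with h' | h' | h' <;> rw [h, h'] <;>
    simp [h1, h2, h3, h4] <;> ring

end Rect2x

open Rect2x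

/-- Rect2 -/
theorem thm_Rect2 : St_Rect2 := by
  intro hInv n c hc A B hA hB hd
  have hd' := hd 0 1
  rw [dist_eq_iff, nmdist hc (hA 0) (hA 1), nmdist hc (hB 0) (hB 1)] at hd'
  have hd'' := mul_left_cancel₀ (pow_ne_zero 2 hc.ne') hd'
  have hN : nm (A 0) (A 1) 1 + nm (A 0) (A 1) 2 + 4 * nm (A 0) (A 1) 4 =
      nm (B 0) (B 1) 1 + nm (B 0) (B 1) 2 + 4 * nm (B 0) (B 1) 4 := by exact_mod_cast hd''
  have a1 := nm01 hc (y := A 1) (hA 0)
  have a2 := nm02 hc (x := A 0) (hA 1)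
  have a3 := nmall (A 0) (A 1)
  have b1 := nm01 hc (y := B 1) (hB 0)
  have b2 := nm02 hc (x := B 0) (hB 1)
  have b3 := nmall (B 0) (B 1)
  have hall : ∀ a, nm (B 0) (B 1) a = nm (A 0) (A 1) a := by
    intro a
    by_cases ha : 5 ≤ a
    · rw [nmbig _ _ a ha, nmbig _ _ a ha]
    · have ha' : a = 0 ∨ a = 1 ∨ a = 2 ∨ a = 3 ∨ a = 4 := by omega
      rcases ha' with rfl | rfl | rfl | rfl | rfl <;> omega
  obtain ⟨σ, hσ⟩ := exists_perm (fun i => cd ((B 0) i) ((B 1) i)) (fun i => cd ((A 0) i) ((A 1) i))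
    (fun a => by
      rw [nm_card, nm_card]
      exact hall a)
  have hs : ∀ i, ∃ e : ℝ, (e = 1 ∨ e = -1) ∧ e * (A 0) (σ i) = (B 0) i ∧
      e * (A 1) (σ i) = (B 1) i := fun i =>
    sgn hc _ _ _ _ (vals (hA 0) (σ i)) (vals (hA 1) (σ i)) (vals (hB 0) i) (vals (hB 1) i) (hσ i)
  choose ε hε h0 h1 using hs
  refine ⟨spm σ ε hε, ((hInv n c).2.2.1 σ ε hε).2.2, ?_⟩
  intro i
  ext j
  rw [spm_apply]
  rcases (by omega : i.val = 0 ∨ i.val = 1) with hi | hi
  · have hi' : i = 0 := Fin.ext hi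
    rw [hi']
    exact h0 j
  · have hi' : i = 1 := Fin.ext hi
    rw [hi']
    exact h1 j

end Pool.Agent.RSP
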