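import Pool.Agent.RSP.Defs

/-!
# Reflection symmetric polytopes: the statements (architect helper51)

Problem MP_a177dd_co. Theorem: for `n ≥ 9` (type `D`, `B`) and `n ≥ 10` (type `A`, rank `n - 1 ≥ 9`) and every `m ≥ 2`
all `m`-point homogeneous polytopes whose isometry group contains the reflection group `W(D_n)` resp. `W(A_(n-1))`.
Module `X` proves `theorem thm_X (h.. : St_..) : St_X` in `Pool/Agent/RSP/X.lean`, namespace `Pool.Agent.RSP`.
Tools in Defs.lean: `spm`, `exists_perm`, `dist_sq`, `dist_eq_iff`, `inner_eq`.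
-/

set_option autoImplicit false

noncomputable section

namespace Pool.Agent.RSP

/-- **Inv** (1 h). Invariance of the families. All direct (`Gp M` for `M` invariant under `spm` and its inverse: `spm σ ε` has the
inverse `spm σ⁻¹ (ε ∘ σ⁻¹)`; `∏ i, x (σ i) = ∏ i, x i`). Complement of `A` for `hyps n (n - k) c = hyps n k (-c)`. -/
def St_Inv : Prop := ∀ (n : ℕ) (c : ℝ),
  (∀ M : Set (E n), PermInv M → ∀ σ, spm σ (fun _ => 1) (fun _ => Or.inl rfl) ∈ Gp M) ∧
  (∀ M : Set (E n), PermInv M → (∀ x ∈ M, -x ∈ M) →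
    ∀ σ, spm σ (fun _ => -1) (fun _ => Or.inr rfl) ∈ Gp M) ∧
  (∀ σ ε hε, spm σ ε hε ∈ Gp (cross n c) ∧ spm σ ε hε ∈ Gp (cube n c) ∧
    spm σ ε hε ∈ Gp (rect n c)) ∧
  (∀ e σ ε hε, ∏ i, ε i = 1 → spm σ ε hε ∈ Gp (half n c e)) ∧
  (∀ k, PermInv (hyps n k c)) ∧ PermInv (rts n c) ∧ PermInv (mid n c) ∧
  (∀ k, ∀ x ∈ hyps n k c, -x ∈ hyps n k (-c)) ∧ (∀ x ∈ rts n c, -x ∈ rts n c) ∧
  (∀ x ∈ mid n c, -x ∈ mid n c) ∧ (∀ k ≤ n, 0 < n → hyps n (n - k) c = hyps n k (-c)) ∧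
  (∀ k, 0 < n → k ≤ n → ∀ x ∈ hyps n k c, ∑ i, x i = 0) ∧ (∀ x ∈ rts n c, ∑ i, x i = 0)

/-- **Ext** (1.5 h). Isometries of `M` are restrictions of linear isometries.

Proof. `←`: `g ∈ Gp M` restricts to an isometry of `M`. `→`: let `f : M ≃ᵢ M`, `N = |M|`. `∑_z |x - z|² = N |x|² + ∑ |z|²` as `∑ z = 0`, so
`|f x| = |x|`, `⟨f x, f y⟩ = ⟨x, y⟩`. For real coefficients `|∑ c_x f x|² = |∑ c_x x|²`, so there is a linear isometry `span M → E n` extending `f`
(`Submodule.span` / `Finsupp.linearCombination`: the kernels agree), extend it by `LinearIsometry.extend`, `toLinearIsometryEquiv` in finite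
dimension. `g M ⊆ M` and `M` finite: `g x ∈ M ↔ x ∈ M` (`f` is onto, `g` injective). -/
def St_Ext : Prop := ∀ (n m : ℕ) (M : Set (E n)) (hM : M.Finite), ∑ x ∈ hM.toFinset, x = 0 →
  (PointHomogeneous m M ↔ GHom m M)

/-- **RD** (2.5 h). Reflection groups which contain `W(D_n)`, `n ≥ 9`.

Proof. Let `g > 0` be the smallest of the nonzero numbers `|u_i - u_j|`, `|u_i + u_j|`, `u ∈ Φ`, `i ≠ j` (`Φ` finite). All `w ∈ Φ` satisfy:
every `|w_i ± w_j|` is `0` or `≥ g`. Let `u ∈ Φ`; suppose first that the minimum is attained by THIS `u`; by the symmetries `g = |u_1 - u_2|` (indices from 1; change the signs of two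
coordinates, permute). (P) If `w ∈ Φ`, `w_1 = w_2` then `rf u w` has the difference `-2 ⟨u, w⟩ (u_1 - u_2)` of the first two coordinates, so
`⟨u, w⟩ = 0` or `|⟨u, w⟩| ≥ 1/2`. With the roots `(e_1 + e_2)/√2` and `(± e_i ± e_j)/√2`, `i, j ≥ 3` (in `Φ`): `|u_1 + u_2|` and `|u_i ± u_j|` are `0` or
`≥ 1/√2`. `∑_(i≥3) u_i² < 1`. CLAIM: `u` is a `D`-root or an axis.
(γ) all `u_i ≠ 0`, `i ≥ 3`: at most one `|u_i| ≥ 1/√2`; the others have equal absolute value `t` (differences `< 1/√2`), `2 t ≥ 1/√2`; an exceptional one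
would be `≥ t + 1/√2 > 1`. So `(n - 2) t² < 1`, `t² ≥ 1/8`: `n = 9`. Let `w` be `u` with two signs changed in the coordinates `≥ 3`: the first two coordinates of
`rf u w` have the difference `(1 - 2⟨u,w⟩)(u_1 - u_2)`, `⟨u, w⟩ = 1 - 4 t² ∈ (3/7, 1/2]`, so `t² = 1/8`, `u_1² + u_2² = 1/8`, `|u_1 + u_2| ≤ 1/2 < 1/√2`, so
`u_1 = -u_2 = ± 1/4`, `g = 1/2`, but `0 < t - 1/4 < 1/2`, contradiction. So some `u_l = 0`, `l ≥ 3`; then every nonzero `u_i`, `i ≥ 3`, has `|u_i| ≥ 1/√2`: at most one is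
nonzero; also `|u_1|, |u_2|` are `0` or `≥ g`.
(α) `u_i = 0` for all `i ≥ 3`. If `u_1 u_2 = 0`: axis. If `|u_1| = |u_2|`: `D`-root. Else `u_1 u_2 > 0` (otherwise `|u_1 + u_2| = ||u_1| - |u_2||` is nonzero and smaller than
`|u_1 - u_2|`). Let `a > b > 0` be the absolute values, `a - b = g`, and `u' ∈ Φ` with the entry of absolute value `a` at the same place as in `u` and the other entry moved to place
`3`: `rf u' u` has the entries of absolute values `b` and `2 a² b` at two places, `b (2a² - 1) = b (a - b)(a + b)` is their difference, positive, so `≥ a - b`: `b (a + b) ≥ 1 = a² + b²`, `b ≥ a`, contradiction.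
(β) exactly one `s = u_3 ≠ 0` (place `3` by symmetry). If `u_1, u_2 ≠ 0`: `w = (0, 0, u_1, u_2, s, 0, ..)`, `⟨u, w⟩ = s u_1`, so `|s u_1| ≥ 1/2`, likewise `|s u_2| ≥ 1/2`, so
`1 - s² = u_1² + u_2² ≥ 1/(2 s²)`, `2 s² (1 - s²) ≥ 1`, contradiction. If only one, `a`, is nonzero: `w = (0, 0, a, 0, s, 0, ..)`: `s² a² ≥ 1/4`, `s² + a² = 1`: `s² = a² = 1/2`.
For an ARBITRARY `u ∈ Φ`: the claim shows that the minimum `g` is `1/√2` or `1` (`g ≤ 1/√2` because of the roots), so `g = 1/√2` (a `D`-root with `u_1 - u_2 = g`: for instance `(e_2 - e_3)/√2`). So for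
every `u ∈ Φ` all `|u_i ± u_j|` are `0` or `≥ 1/√2`, so the nonzero `|u_i|`: if some `u_l = 0` all nonzero ones are `≥ 1/√2`: axis or `D`-root (two of them: both `= 1/√2`). If none is zero: at most one
is `≥ 1/√2`, (not all are: `n ≥ 3`), the others are equal to `t ≥ 1/(2√2)`, `(n - 1) t² ≤ 1` gives `n ≤ 9`, and if there is a bigger one it is `≥ t + 1/√2 > 1`; so all are equal `t`, `9 t² = 1`, `t² < 1/8`, contradiction. -/
def St_RD : Prop := ∀ (n : ℕ) (Φ : Set (E n)), 9 ≤ n → Φ.Finite → (∀ u ∈ Φ, ‖u‖ = 1) →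
  (∀ u ∈ Φ, ∀ w ∈ Φ, rf u w ∈ Φ) → PermInv Φ → EvenInv Φ → (∀ i j, i ≠ j → bt i j ∈ Φ) →
  ∀ u ∈ Φ, IsDRoot u ∨ IsAxis u

/-- **RA** (3 h). Reflection groups which contain `S_n`, `n ≥ 10`.

Proof. Let `g > 0` be the smallest nonzero `|u_i - u_j|`, `u ∈ Φ`. (`g ≤ 1/√2`.) Let `u ∈ Φ` attain it, `|u_1 - u_2| = g`. (P) If `w ∈ Φ`, `w_1 = w_2` then `⟨u, w⟩ = 0` or `|⟨u, w⟩| ≥ 1/2`
(the first two coordinates of `rf u w`). CLAIM: `u = bt i j`. With `w = bt i j`, `i, j ≥ 3`: `|u_i - u_j|` is `0` or `≥ 1/√2` for `i, j ≥ 3`; `∑_(i≥3) u_i² < 1`. So among the `u_i`, `i ≥ 3`, there are at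
most two values (three: the extreme ones differ by `≥ √2`, the squares sum up to `≥ 1`), with multiplicities `m1 ≤ m2`, `m1 + m2 = n - 2 ≥ 8`, difference `s` (of absolute value `≥ 1/√2`), and
`m1 m2 s² / (m1 + m2) ≤ ∑_(i≥3) u_i² < 1`, so `m1 m2 < 2 (m1 + m2)`: `m1 ≤ 3` and `m1 = 3` only for `m2 = 5`, `n = 10`. Subtract the value of multiplicity `m2`: `u ~ (A, B, s^(m1), 0^(m2))`,
`A - B = ± g ≠ 0`. For vectors modulo constants `⟨a, b⟩ = ∑ a_i b_i - (∑ a)(∑ b)/n`. `T = A + B + m1 s`, `κ = T²/n`, `A² + B² + m1 s² = 1 + κ`, so `n κ = T² ≤ (2 + m1)(1 + κ)`.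
The vectors `w` below are permutations of `u` (given modulo constants), with equal first two coordinates.
(0) `w ~ (0, 0; 0^(m1); A, B, s^(m1), 0, ..)` (disjoint, `n ≥ 4 + 2 m1`): `⟨u, w⟩ = -κ`: `κ = 0` or `κ ≥ 1/2`.
`m1 = 0`: `κ ≤ 2/(n-2) < 1/2`, so `T = 0`, `A = -B`, `u = bt`. `m1 = 1`: `κ ≤ 3/(n-3) < 1/2`, `T = 0`; `w ~ (0, 0, A, B, s, 0, ..)`: `s A` is `0` or `|s A| ≥ 1/2`, likewise `s B`; both nonzero:
`1 - s² = A² + B² ≥ 1/(2 s²)`, contradiction; so `A = 0` or `B = 0`, the other is `-s`: `u = bt`. `m1 = 2`: if `κ = 0`: `A + B = -2s`, `A² + B² ≥ 2 s²`, `4 s² ≤ 1`, contradiction. So `1/2 ≤ κ ≤ 4/(n-4) ≤ 2/3`. `w ~ (0, 0, s, 0, A, B, s, 0, ..)`: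
`⟨u,w⟩ = s² - κ`, and `s² ≤ (1 + κ)/2` so `-1/6 ≤ s² - κ ≤ 1/4`: `κ = s²`. Let `s > 0` (negate `u`). `T² = n s²`, `A² + B² = 1 - s²`. If `T < 0`: `|A + B| = (2 + √n) s`, `(A+B)² ≤ 2 (1 - s²)`, contradiction. So `A + B = (√n - 2) s`.
`w ~ (0, 0, A, 0, B, s, s, 0, ..)`: `s (A - s)` is `0` or of absolute value `≥ 1/2`, likewise `s (B - s)`. `A = s`: `B = (√n - 3) s`, `s² (2 + (√n - 3)²) = 1`, contradiction to `s² ≥ 1/2`, `n ≥ 10`. Likewise `B = s`. `A - s ≥ 1/(2s)`: `A ≥ s + 1/(2s) ≥ √2`,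
`A² > 1`, contradiction; likewise `B`. So `(A - s) + (B - s) ≤ -1/s`, that is `(4 - √n) s² ≥ 1`, contradiction (`s² ≤ 1`, `√n > 3`).
`m1 = 3`, `n = 10`, `m2 = 5`: `15/8 s² < 1`; `κ = 0`: `A + B = -3s`, `A² + B² ≥ 9/2 s²`, contradiction. So `1/2 ≤ κ ≤ 1`. `w ~ (0, 0, s, 0, 0, A, B, s, s, 0)`: `s² - κ = 0` or `≤ -1/2`. In the second case `κ = 1`, `T² = 5 (1 + κ)`, equality in
Cauchy-Schwarz: `A = B`, contradiction. So `κ = s²`, `A² + B² = 1 - 2 s² ≤ 0`, contradiction to `A ≠ B`.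
So `g = 1/√2` (the smallest nonzero difference of coordinates of `bt`). For ARBITRARY `u ∈ Φ` all `|u_i - u_j|` are `0` or `≥ 1/√2`: at most three values; three values: extreme ones differ by `≥ √2`, so `u = (1/√2, -1/√2, 0, ..)` up to order
(the squares sum up to `≥ 1`, equality). Two values with multiplicities `k, n - k`, difference `d`: `k (n-k) d² / n = 1` with `d² ≥ 1/2`: `k (n - k) ≤ 2 n`: `k ≤ 2` (`k ≤ n - k`; `k = 3`: `3 (n - 3) > 2 n`). `k = 1`: `d² = n/(n-1)`, `w` another permutation: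
`⟨u, w⟩ = -1/(n-1)`, `rf u w` has the difference `2 d/(n-1)` of two coordinates (values `w + 2/(n-1) u`: at the place of the big entry of `u` and at a third place), nonzero and `< 1/√2`, contradiction. `k = 2`: `d² = n/(2(n-2))`, `u ~ (d, d, 0, ..)`, `w ~ (d, 0, d, 0, ..)`:
`⟨u, w⟩ = d² - 4 d²/n = (n-4)/(2(n-2))`, `rf u w ~ w - (n-4)/(n-2) u`: values `2 d/(n-2)` at place 1, `0` at place 4: difference `2 d/(n-2)`, nonzero and `< 1/√2`, contradiction. One value: `u = 0`, no. -/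
def St_RA : Prop := ∀ (n : ℕ) (Φ : Set (E n)), 10 ≤ n → Φ.Finite → (∀ u ∈ Φ, ‖u‖ = 1) →
  (∀ u ∈ Φ, ∑ i, u i = 0) → (∀ u ∈ Φ, ∀ w ∈ Φ, rf u w ∈ Φ) → PermInv Φ →
  (∀ i j, i ≠ j → bt i j ∈ Φ) → ∀ u ∈ Φ, ∃ i j, i ≠ j ∧ u = bt i j

/-- **ClD** (1.5 h). The reflections of `M`, type `D`.

Proof. The sum of `M` is invariant under all permutations and even sign changes, so `0` (`n ≥ 3`). `M` spans `E n`: let `y` be orthogonal to `M`, `x ∈ M` with `x_i ≠ 0`; `y` is orthogonal to `x - sg {i, j} x = 2 x_i e_i + 2 x_j e_j` and to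
`2 x_i e_i + 2 x_k e_k`, .. ; with `sg {j, k}`: to `x_j e_j + x_k e_k`; so to `x_i e_i`, permute. Finite: for `u ∈ Rf M` some `x ∈ M` has `⟨u, x⟩ ≠ 0`, `rf u x - x = -2⟨u,x⟩ u`, so `u` is a multiple `± 1/|x - y|` of `x - y`, `x, y ∈ M`. Closed:
`rf (rf u w) = rf u ∘ rf w ∘ rf u` (`‖u‖ = 1`). `bt i j`: `rf (bt i j) = pm (swap i j)`. `g ∈ Gp M`: `rf (g u) = g ∘ rf u ∘ g⁻¹`. -/
def St_ClD : Prop := ∀ (n : ℕ) (M : Set (E n)) (hM : M.Finite), 3 ≤ n → PermInv M → EvenInv M →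
  (∃ x ∈ M, x ≠ 0) → ∑ x ∈ hM.toFinset, x = 0 ∧ (Rf M).Finite ∧
  (∀ u ∈ Rf M, ∀ w ∈ Rf M, rf u w ∈ Rf M) ∧ PermInv (Rf M) ∧ EvenInv (Rf M) ∧
  (∀ i j, i ≠ j → bt i j ∈ Rf M) ∧ ∀ g ∈ Gp M, ∀ u ∈ Rf M, g u ∈ Rf M

/-- **ClA** (1.5 h). The reflections of `M`, type `A`. As `ClD`; `M` spans the vectors of sum `0`: if `y` is orthogonal to `M` and `x_i ≠ x_j` then `y` is orthogonal to `x - pm (swap i j) x`, a multiple of `e_i - e_j`. So `g ∈ Gp M` preserves the vectors of sum `0`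
(the span of `M`). -/
def St_ClA : Prop := ∀ (n : ℕ) (M : Set (E n)) (hM : M.Finite), 3 ≤ n → PermInv M →
  (∀ x ∈ M, ∑ i, x i = 0) → (∃ x ∈ M, x ≠ 0) → ∑ x ∈ hM.toFinset, x = 0 ∧
  {u ∈ Rf M | ∑ i, u i = 0}.Finite ∧
  (∀ u ∈ Rf M, ∑ i, u i = 0 → ∀ w ∈ Rf M, ∑ i, w i = 0 → rf u w ∈ Rf M ∧ ∑ i, rf u w i = 0) ∧
  PermInv {u ∈ Rf M | ∑ i, u i = 0} ∧ (∀ i j, i ≠ j → bt i j ∈ Rf M ∧ ∑ l, (bt i j : E n) l = 0) ∧
  ∀ g ∈ Gp M, ∀ u ∈ Rf M, ∑ i, u i = 0 → g u ∈ Rf M ∧ ∑ i, g u i = 0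

/-- **NorD** (2 h). Linear isometries which preserve the roots, type `D`.

Proof. `g` permutes `Φ` (finite). All `D`-roots are in `Φ`. Case 1: `Φ` contains an axis, so all `± e_i` (`EvenInv`, `PermInv`). Axes are the `u ∈ Φ` with `⟨u, w⟩² ∈ {0, 1/2, 1}` for all `w ∈ Φ` (a `D`-root and another one which shares one index have `1/2` as the absolute value of the inner
product). So `g e_i = ± e_(τ i)`, `τ` injective. Case 2: no axis. `β, β' ∈ Φ` orthogonal are called a pair if `⟨w, β⟩² = ⟨w, β'⟩²` for all `w ∈ Φ` different from `±β, ±β'`. `(e_i + e_j)/√2, (e_i - e_j)/√2` is a pair; orthogonal roots with disjoint supports `{i,j}, {k,l}` are not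
(`w = (e_i + e_p)/√2`, `p` a fifth index). So `g` maps the pair of `i, j` to a pair, the sum `√2 e_i` to `± √2 e_k`. In both cases `g e_i = ± e_(τ i)` for all `i`, this gives `σ = τ⁻¹`, `ε`. -/
def St_NorD : Prop := ∀ (n : ℕ) (Φ : Set (E n)), 5 ≤ n → Φ.Finite →
  (∀ u ∈ Φ, IsDRoot u ∨ IsAxis u) → PermInv Φ → EvenInv Φ → (∀ i j, i ≠ j → bt i j ∈ Φ) →
  ∀ g : E n ≃ₗᵢ[ℝ] E n, (∀ u ∈ Φ, g u ∈ Φ) → IsSP g

/-- **NorA** (1.5 h). Linear isometries which preserve the roots, type `A`.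

Proof. Let `0` be a fixed index, `√2 g (bt 0 j) = e_(p j) - e_(q j)` for `j ≠ 0`. For `j ≠ k` the inner product of two of them is `1`: `p j = p k` or `q j = q k`, not both, and `p j ≠ q k`, `q j ≠ p k`. There are at least three indices `j ≠ 0`: either all `p j` are equal or all `q j` are equal
(`{p_1 = p_2}`, `q_1 = q_3`, then `p_2 = p_3` or `q_2 = q_3` leads to `(p_1,q_1) = (p_3,q_3)` or `(p_1, q_1) = (p_2, q_2)`). In the first case `g (e_0 - e_j) = e_p - e_(q j)`, `q` injective with values `≠ p`; for `∑ x = 0`: `x = -∑_(j≠0) x_j (e_0 - e_j)`, so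
`g x = x_0 e_p + ∑_(j≠0) x_j e_(q j)`. The second case is the same for `-g`. -/
def St_NorA : Prop := ∀ (n : ℕ), 4 ≤ n → ∀ g : E n ≃ₗᵢ[ℝ] E n,
  (∀ i j, i ≠ j → ∃ k l, k ≠ l ∧ g (bt i j) = bt k l) → IsPM g

/-- **ClsD** (2.5 h). Classification, type `D`, `m = 2`.

Proof. For signed permutations `g` and fixed `a, b`: `N(x, y) = #{i | (x_i, y_i) = (a, b) or (-a, -b)}` satisfies `N(g x, g y) = N(x, y)`. `M` is one orbit of `Gp M` (use `A = ![x, x]`, `B = ![y, y]`). (1) Suppose `x ∈ M` with `x_1 = a`, `x_2 = b`, `|a| ≠ |b|`, `a, b ≠ 0`, `x_3 = c`. Then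
`y = (-b, a, -c, ..)` and `z = (b, -a, -c, ..)` (other coordinates as in `x`) are in `M` (swap, then `sg` of two coordinates), `|x - y| = |x - z|`, so some `g ∈ Gp M` has `g x = x`, `g y = z`. `#{i | (x_i, y_i) = ±(a, -b)} ≥ 1` and `#{i | (x_i, z_i) = ±(a, -b)} = 0`, contradiction. So all coordinates of `x` are
`0, ± c` for some `c > 0`, with `k` nonzero ones, and all points of `M` have the same `c`, `k` (one orbit under signed permutations). (2) If `2 ≤ k ≤ n - 2`: `x = (c, c, 0, 0, ..)` up to order and signs, `y = x` with the sign of `x_2` changed (`sg` of this and of a zero coordinate), `z` = `x` with the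
first two and the two zeros exchanged: `|x - y|² = 4 c² = |x - z|²`; `#{i | x_i y_i ≠ 0} = k`, `#{i | x_i z_i ≠ 0} = k - 2`, contradiction. `k = 1`: cross; `k = n - 1`: rect; `k = n`: cube or half (`M` contains with `x` all points of the cube with the same product). -/
def St_ClsD : Prop := ∀ (n : ℕ) (M : Set (E n)), 5 ≤ n → M.Finite → PermInv M → EvenInv M →
  (∃ x ∈ M, x ≠ 0) → (∀ g ∈ Gp M, IsSP g) → GHom 2 M →
  ∃ c : ℝ, 0 < c ∧ (M = cross n c ∨ M = cube n c ∨ M = half n c 1 ∨ M = half n c (-1) ∨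
    M = rect n c)

/-- **ClsA1** (2.5 h). Classification, type `A`, `m = 2`, three values.

Proof. `N_(p,q)(x, y) = #{i | x_i = p, y_i = q}`: `N_(p,q)(g x, g y)` is `N_(p,q)(x, y)` or `N_(-p,-q)(x, y)` according to the sign of `g ∈ Gp M`. Let `a > b > c` be three values of coordinates of `x`, at the places `1, 2, 3`; `y = (b, c, a, ..)`, `z = (c, a, b, ..)`, `|x - y| = |x - z|`, so some `g ∈ Gp M` has `g x = x`,
`g y = z`. Off the diagonal the pairs `(x_i, y_i)` are `(a,b), (b,c), (c,a)`, the pairs `(x_i, z_i)` are `(a,c), (b,a), (c,b)`. The sign of `g` is `-`: otherwise `(a, b)` would be one of the second ones. So `(-a,-b), (-b,-c), (-c,-a)` are `(a,c), (b,a), (c,b)` in some order; this gives `c = -a`, `b = 0`. So the values of the coordinates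
of `x` are exactly `c, 0, -c` (a new `c > 0`), and since `x = g x` with sign `-` the numbers of `c` and `-c` are equal to `p`, let `q` be the number of zeros, `2 p + q = n`. If `p, q ≥ 2`: `x = (c, c, 0, 0, -c, ..)`, `y = (0, 0, c, c, -c, ..)`, `z = (0, c, c, -c, 0, ..)` (exchange `1, 3` and `4, 5`), `|x - y|² = 4 c² = |x - z|²`,
`N_(c,0)(x,y) = 2`, `N_(-c,0)(x,y) = 0`, `N_(c,0)(x,z) = 1`, contradiction. `p = 1`: `rts n c`, `q = 1`: `mid n c` (`M` is one orbit under `± S_n`, and `-x` is a permutation of `x`). -/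
def St_ClsA1 : Prop := ∀ (n : ℕ) (M : Set (E n)), 5 ≤ n → M.Finite → PermInv M →
  (∀ x ∈ M, ∑ i, x i = 0) → (∀ g ∈ Gp M, IsPM g) → GHom 2 M →
  (∃ x ∈ M, ∃ i j k, x i ≠ x j ∧ x j ≠ x k ∧ x i ≠ x k) →
  ∃ c : ℝ, 0 < c ∧ (M = rts n c ∨ M = mid n c)

/-- **ClsA2** (2.5 h). Classification, type `A`, `m = 2`, two values.

Proof. `x ∈ M` has exactly two values `a > b`, `k` times `a`, `1 ≤ k < n`, `k a + (n - k) b = 0`: `x ∈ hyps n k c`, `c = a - b`, and all permutations are in `M`. `M` is one orbit of `Gp M`, so `M = hyps n k c` or `M = hyps n k c ∪ hyps n k (-c)` (if `2 k = n` both are the same; if `2 k > n` exchange: `hyps n k c = hyps n (n-k) (-c)`). In the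
second case, `2 k < n`: suppose `n ∣ 2 k²`, `2 k² = n t`, `t ≤ 2 k` and (`k² / n ≥ 2 k - n`) choose `i, i'` with `i + i' = t`, `i = t / 2`; `0 ≤ i, i' ≤ k` (here `2 k < n`, so all sizes of intersections between `0` and `k` occur). `x = 1_A`, `y = 1_B`, `z = -1_C` (all times `c`, centered), `|A ∩ B| = i`, `|A ∩ C| = i'`: `|x - y|² = 2 c² (k - i)`,
`|x - z|² = c² (2 k + 2 i' - 4 k²/n)`, equal. `g ∈ Gp M` with `g x = x`, `g y = z`: if `g = pm σ` (on sum `0`) then `z ∈ hyps n k c`, but `hyps n k c` and `hyps n k (-c)` are disjoint (`2 k ≠ n`); if `g = -pm σ` then `x = g x ∈ hyps n k (-c)`, contradiction. -/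
def St_ClsA2 : Prop := ∀ (n : ℕ) (M : Set (E n)), 3 ≤ n → M.Finite → PermInv M →
  (∀ x ∈ M, ∑ i, x i = 0) → (∃ x ∈ M, x ≠ 0) → (∀ g ∈ Gp M, IsPM g) → GHom 2 M →
  (∀ x ∈ M, ∀ i j k, x i = x j ∨ x j = x k ∨ x i = x k) →
  ∃ c : ℝ, 0 < c ∧ ((∃ k, 1 ≤ k ∧ k < n ∧ M = hyps n k c) ∨
    ∃ k, 1 ≤ k ∧ 2 * k < n ∧ ¬ n ∣ 2 * k ^ 2 ∧ M = hyps n k c ∪ hyps n k (-c))

/-- **Cross** (1.5 h). The cross-polytope is `m`-point homogeneous for all `m`.

Proof. `A i = s_i c e_(a i)`, `B i = t_i c e_(b i)`, `s_i, t_i = ± 1`. Equal distances (`0`, `√2 c`, `2 c`): `a i = a j ↔ b i = b j`, and then `s_i s_j = t_i t_j`. The map `a i ↦ b i` is well defined and injective on the range of `a`, extend it to a permutation of `Fin n`, signs `s_i t_i` (any sign outside). -/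
def St_Cross : Prop := ∀ (n m : ℕ) (c : ℝ), 0 < c → GHom m (cross n c)

/-- **Cube3** (2 h). The cube and the demicube are `3`-point homogeneous.

Proof. Multiply the coordinates by the signs of `A 0`, of `B 0`: we may compare the sets `S_j` of the places where `A j`, `A 0` differ (`j = 1, 2`) with the same sets `S'_j` for `B`. The distances give `|S_j| = |S'_j|` and `|S_1 Δ S_2| = |S'_1 Δ S'_2|`, so all four Boolean atoms have the same sizes; `exists_perm` for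
`i ↦ (i ∈ S_1, i ∈ S_2)`: a permutation `σ`, then `ε i = (A 0)_(σ i) (B 0)_i / c²`. For the demicube `∏ ε = 1` because `A 0`, `B 0` have the same product. -/
def St_Cube3 : Prop := St_Inv → ∀ (n : ℕ) (c e : ℝ), 0 < c → (e = 1 ∨ e = -1) →
  GHom 3 (cube n c) ∧ GHom 3 (half n c e)

/-- **Rect2** (1.5 h). The rectified cube is `2`-point homogeneous.

Proof. `x, y` with the zeros at the places `i, j`. `i = j`: `|x - y|² = 4 c² r`, `i ≠ j`: `|x - y|² = c² (2 + 4 r)`, `r` = the number of places where both are nonzero and different. So the distance determines whether `i = j`, and `r`. Up to signs the pairs `(x_l, y_l)` are: `(0, 0)` once or (`(c, 0)` once and `(0, c)` once), `(c, -c)` `r` times,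
`(c, c)`. `exists_perm` for the function `l ↦` type of the pair. -/
def St_Rect2 : Prop := St_Inv → ∀ (n : ℕ) (c : ℝ), 0 < c → GHom 2 (rect n c)

/-- **Simp** (1.5 h). The simplex and the union of the simplex and its negative are `m`-point homogeneous for all `m`.

Proof. Points `s c (e_a - 1/n)`, `s = ± 1`. Squared distance of `(a, s)`, `(b, t)`: `0` if equal; `2 c²` if `s = t`, `a ≠ b`; `(4 - 4/n) c²` if `a = b`, `s ≠ t`; `(2 - 4/n) c²` if both are different. These are four different numbers for `n ≥ 3`. So `a i = a j ↔ b i = b j`, `s_i s_j = t_i t_j`: extend `a i ↦ b i` to a permutation; sign `s_0 t_0`. -/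
def St_Simp : Prop := St_Inv → ∀ (n m : ℕ) (c : ℝ), 3 ≤ n → 0 < c → GHom m (hyps n 1 c) ∧
  GHom m (hyps n (n - 1) c) ∧ GHom m (hyps n 1 c ∪ hyps n 1 (-c))

/-- **Hyps2** (2 h). Hypersimplices.

Proof. `|x - y|² = 2 c² (k - |A ∩ B|)`: the distance determines the size of the intersection; `exists_perm` for `i ↦ (i ∈ A, i ∈ B)`. Union: for `x ~ A` in the first part and `z ~ C` in the second part `|x - z|² = c² (2 k + 2 |A ∩ C| - 4 k²/n)`, so a coincidence of a distance within a part and a distance between the parts gives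
`|A ∩ B| + |A ∩ C| = 2 k²/n`, excluded. Use `-1` to arrange that the first points are in the same part. -/
def St_Hyps2 : Prop := St_Inv → ∀ (n k : ℕ) (c : ℝ), 0 < c → 1 ≤ k → k < n → GHom 2 (hyps n k c) ∧
  (¬ n ∣ 2 * k ^ 2 → GHom 2 (hyps n k c ∪ hyps n k (-c)))

/-- **Rts3** (3 h). The root polytope of type `A` is `3`-point homogeneous.

Proof. Write a root as `(p, q)` for `c (e_p - e_q)`. The inner products (divided by `c²`) are `2, 1, 0, -1, -2`; `1`: `p = p'` (type H) or `q = q'` (type T), not both; `-1`: `p = q'` or `q = p'`, not both; `0`: four different indices. `-1` exchanges `p, q` up to order: it maps `(p, q)` to `(q, p)`. A tuple of roots up to permutations is described by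
the equalities between the indices. Show: two triples with the same inner products have the same equalities after possibly replacing `B` by `-B` (all `(p, q)` by `(q, p)`). First two roots: `x = (1, 2)`; `y = x`, or `y = (2, 1)`, or `y = (1, 3)` (after `-1` if necessary), or `y = (3, 1)` (after `-1`), or `y = (3, 4)`. Third root `z = (p, q)`: `y = x` or `y = -x`: reduces to two
roots. `y = (1, 3)`: the pair (`⟨z,x⟩, ⟨z,y⟩`) determines `(p = 1, p = 2, p = 3, q = 1, q = 2, q = 3)` (finite check: `p, q ∈ {1, 2, 3, other}`). `y = (3, 1)`: the same for `-y`. `y = (3, 4)`: the same, except that `z` and the image of `z` under `-(1 2)(3 4)` have the same inner products; this map fixes `x` and `y`. Then `exists_perm` or an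
explicit permutation. -/
def St_Rts3 : Prop := St_Inv → ∀ (n : ℕ) (c : ℝ), 0 < c → GHom 3 (rts n c)

/-- **Mid2** (2 h). `mid n c` is `2`-point homogeneous.

Proof. Zeros of `x, y` at `i, j`. `i = j`: the numbers of `(c, -c)` and `(-c, c)` are equal (`= r`), `|x - y|² = 8 r c²`. `i ≠ j`: `y_i = ε c`, `x_j = δ c`; the number of `(c,-c)` minus the number of `(-c,c)` is `[ε = 1] - [δ = 1]`. `ε = δ`: both are `r`, `|x-y|² = (2 + 8 r) c²`. `ε ≠ δ`: they are `r + 1, r` (`ε = 1`) or `r, r + 1`, `|x - y|² = (6 + 8 r) c²`. So the distance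
determines the case and `r`, and up to `-1` also `ε`, `δ` and all numbers of pairs; `exists_perm`. -/
def St_Mid2 : Prop := St_Inv → ∀ (n : ℕ) (c : ℝ), 0 < c → GHom 2 (mid n c)

/-- **NegD** (2 h). Type `D`, not homogeneous.

Proof. Cube and demicube: `x ∈ M`, `x^S = sg S x`; the tuples `(x, x^{1,2}, x^{1,3}, x^{2,3})` and `(x, x^{1,2}, x^{1,3}, x^{1,4})` have the same distances (`0` or `√8 c`), the number of places where the last three all differ from the first is `0` and `1`; signed permutations preserve it. rect: `x = (0, c, c, -c, c, ..)`, `y = (c, 0, c, c, ..)`, `z = (c, c, 0, c, ..)`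
and `x' = (0, -c, -c, c, c, ..)`, `y' = y`, `z' = z`: squared distances `6 c², 6 c², 2 c²` for both; `#{i | x_i y_i z_i ≠ 0, x_i ≠ y_i}` is `1` and `0`. -/
def St_NegD : Prop := ∀ (n : ℕ) (c e : ℝ), 5 ≤ n → 0 < c → (e = 1 ∨ e = -1) →
  ((∀ g ∈ Gp (cube n c), IsSP g) → ¬ GHom 4 (cube n c)) ∧
  ((∀ g ∈ Gp (half n c e), IsSP g) → ¬ GHom 4 (half n c e)) ∧
  ((∀ g ∈ Gp (rect n c), IsSP g) → ¬ GHom 3 (rect n c))

/-- **NegA1** (2.5 h). Hypersimplices are not `3`-point homogeneous.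

Proof. All sets are `k`-sets, the points are in `hyps n k c`. If `2 k ≠ n`: for points of `hyps n k c` mapped to points of `hyps n k c` the sign of `g` is `+` (`hyps n k c` and `hyps n k (-c)` are disjoint), so `|A ∩ B ∩ C|` is preserved: three sets `D ∪ {p}`, `|D| = k - 1` (needs `k + 2 ≤ n`), intersection `k - 1`, and three sets `D ∖ {p}`, `|D| = k + 1`
(needs `k + 1 ≥ 3`), intersection `k - 2`; all pairwise intersections are `k - 1`. If `2 k = n`, `k ≥ 5`: the pair (`|A ∩ B ∩ C|`, `n - |A ∪ B ∪ C|`) is preserved up to exchange. First triple: `D` with `k - 2` elements and three disjoint pairs: `(k - 2, k - 4)`. Second triple: `D` with `k - 3` elements, `A = D ∪ {p, q, a}`, `B = D ∪ {p, r, b}`,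
`C = D ∪ {q, r, c}`: `(k - 3, k - 3)`. All pairwise intersections are `k - 2`. -/
def St_NegA1 : Prop := ∀ (n k : ℕ) (c : ℝ), 10 ≤ n → 0 < c → 2 ≤ k → k + 2 ≤ n →
  ((∀ g ∈ Gp (hyps n k c), IsPM g) → ¬ GHom 3 (hyps n k c)) ∧
  (2 * k < n → (∀ g ∈ Gp (hyps n k c ∪ hyps n k (-c)), IsPM g) →
    ¬ GHom 3 (hyps n k c ∪ hyps n k (-c)))

/-- **NegA2** (2 h). `mid` is not `3`-point homogeneous, `rts` is not `4`-point homogeneous.

Proof. mid, `n = 2 p + 1 ≥ 11`, `p ≥ 5`: points with the zero at the same place, the sets of the places of `c` are `p`-subsets of the other `2 p` places: the triples of `NegA1`, case `2 k = n` with `k = p`; `(#(c,c,c), #(-c,-c,-c))` is preserved up to exchange. rts: `(e_1 - e_2, e_1 - e_3, e_4 - e_5, e_5 - e_6)` and `(e_1 - e_2, e_1 - e_3, e_4 - e_5, e_6 - e_4)` have the same distances;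
`g` fixes the first three; if `g = -pm σ`: `σ` would have to move `1` to `2` and to `3`. So `g = pm σ`, and `σ` fixes `1, .., 5`, so the image of `e_5 - e_6` has coordinate `1` at the place `5`. -/
def St_NegA2 : Prop := ∀ (n : ℕ) (c : ℝ), 10 ≤ n → 0 < c →
  ((mid n c).Nonempty → (∀ g ∈ Gp (mid n c), IsPM g) → ¬ GHom 3 (mid n c)) ∧
  ((∀ g ∈ Gp (rts n c), IsPM g) → ¬ GHom 4 (rts n c))

/-- **Main** (1.5 h, helper51). The theorem. -/
def St_Main : Prop :=
  (∀ (n : ℕ) (P : Set (E n)), 9 ≤ n → IsPolytope P → PermInv (vertices P) → EvenInv (vertices P) →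
    (∃ x ∈ vertices P, x ≠ 0) → ∀ m : ℕ, 2 ≤ m → (PointHomogeneous m (vertices P) ↔
      ∃ c : ℝ, 0 < c ∧ (vertices P = cross n c ∨
        (m ≤ 3 ∧ (vertices P = cube n c ∨ vertices P = half n c 1 ∨
          vertices P = half n c (-1))) ∨
        (m = 2 ∧ vertices P = rect n c)))) ∧
  (∀ (n : ℕ) (P : Set (E n)), 10 ≤ n → IsPolytope P → PermInv (vertices P) →
    (∀ x ∈ vertices P, ∑ i, x i = 0) → (∃ x ∈ vertices P, x ≠ 0) → ∀ m : ℕ, 2 ≤ m →
    (PointHomogeneous m (vertices P) ↔ ∃ c : ℝ, 0 < c ∧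
      (vertices P = hyps n 1 c ∨ vertices P = hyps n (n - 1) c ∨
        vertices P = hyps n 1 c ∪ hyps n 1 (-c) ∨
        (m ≤ 3 ∧ vertices P = rts n c) ∨
        (m = 2 ∧ vertices P = mid n c) ∨
        (m = 2 ∧ ∃ k, 2 ≤ k ∧ k + 2 ≤ n ∧ vertices P = hyps n k c) ∨
        (m = 2 ∧ ∃ k, 2 ≤ k ∧ 2 * k < n ∧ ¬ n ∣ 2 * k ^ 2 ∧
          vertices P = hyps n k c ∪ hyps n k (-c)))))

end Pool.Agent.RSP
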